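import Pool.Agent.MEO.Defs
import Pool.Agent.MEP.Ops

set_option autoImplicit false
set_option linter.unusedSectionVars false

/-! Small common lemmas for the project MEO. -/

namespace Pool.Agent.MEO

open MeasureTheory Set Filter
open scoped ENNReal
open Pool.Agent.MEC
open Pool.Agent.MEP

universe u

/-! ### Stars, degrees -/

section plain

variable {V : Type u} {G : SimpleGraph V} {l : ℕ}

lemma RG_adj {c : PC G l} {x y : V} : (RG c).Adj x y ↔ G.Adj x y ∧ ∀ k, c.S k x ≠ y := Iff.rfl

lemma RG_le (c : PC G l) : RG c ≤ G := fun _ _ h => h.1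

/-- the adjacency at `x` depends only on the star of `x` -/
lemma RG_congr {c cb : PC G l} {x : V} (h : ∀ k, cb.S k x = c.S k x) (y : V) :
    (RG cb).Adj x y ↔ (RG c).Adj x y := by
  rw [RG_adj, RG_adj]
  simp only [h]

lemma dg_congr {R R' : SimpleGraph V} {x : V} (h : ∀ y, R'.Adj x y ↔ R.Adj x y) :
    dg R' x = dg R x := by
  unfold dg
  have : R'.neighborSet x = R.neighborSet x := by
    ext y
    exact h y
  rw [this]

lemma dg_RG_congr {c cb : PC G l} {x : V} (h : ∀ k, cb.S k x = c.S k x) :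
    dg (RG cb) x = dg (RG c) x := dg_congr (RG_congr h)

lemma fin_of_le {R : SimpleGraph V} (hR : R ≤ G) {x : V} (h : (G.neighborSet x).Finite) :
    (R.neighborSet x).Finite := h.subset fun _ hy => hR hy

lemma dg_mono {R R' : SimpleGraph V} {x : V} (hR : ∀ y, R.Adj x y → R'.Adj x y)
    (h : (R'.neighborSet x).Finite) : dg R x ≤ dg R' x :=
  ncard_le_ncard (fun y hy => hR y hy) h

lemma dg_pos_iff {R : SimpleGraph V} {x : V} (h : (R.neighborSet x).Finite) :
    0 < dg R x ↔ ∃ y, R.Adj x y := by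
  unfold dg
  rw [ncard_pos h]
  rfl

/-- degrees of the uncoloured graph and number of colours at `x` -/
lemma dg_add (c : PC G l) {x : V} (h : (G.neighborSet x).Finite) :
    dg G x = dg (RG c) x + {k | c.S k x ≠ x}.ncard := by
  classical
  have h1 : G.neighborSet x = (RG c).neighborSet x ∪ (fun k => c.S k x) '' {k | c.S k x ≠ x} := by
    ext y
    constructor
    · intro hy
      by_cases hk : ∃ k, c.S k x = y
      · obtain ⟨k, rfl⟩ := hk
        right
        exact ⟨k, fun h' => (G.ne_of_adj hy) h'.symm, rfl⟩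
      · left
        exact ⟨hy, fun k hk' => hk ⟨k, hk'⟩⟩
    · rintro (hy | ⟨k, hk, rfl⟩)
      · exact hy.1
      · exact c.adj k x hk
  have h2 : Disjoint ((RG c).neighborSet x) ((fun k => c.S k x) '' {k | c.S k x ≠ x}) := by
    rw [Set.disjoint_left]
    rintro y hy ⟨k, -, rfl⟩
    exact hy.2 k rfl
  have h3 : InjOn (fun k => c.S k x) {k | c.S k x ≠ x} := by
    intro k hk k' _ hkk
    exact c.disj k k' x hkk hk
  unfold dg
  rw [h1, ncard_union_eq h2 (fin_of_le (RG_le c) h) ((toFinite _).image _),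
    h3.ncard_image]

/-- a vertex misses a colour iff it has room in the coloured part -/
lemma miss_iff (c : PC G l) {x : V} (h : (G.neighborSet x).Finite) :
    (∃ k, c.S k x = x) ↔ dg G x < dg (RG c) x + l := by
  rw [dg_add c h]
  have h1 : {k | c.S k x ≠ x}.ncard ≤ l := by
    have := ncard_le_ncard (subset_univ {k : Fin l | c.S k x ≠ x}) (toFinite _)
    rwa [ncard_univ, Nat.card_fin] at this
  constructor
  · rintro ⟨k, hk⟩
    have h2 : {k | c.S k x ≠ x} ⊂ (univ : Set (Fin l)) := by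
      refine ⟨subset_univ _, fun h' => ?_⟩
      exact h' (mem_univ k) hk
    have := ncard_lt_ncard h2 (toFinite _)
    rw [ncard_univ, Nat.card_fin] at this
    omega
  · intro h2
    by_contra h3
    push Not at h3
    have h4 : {k | c.S k x ≠ x} = (univ : Set (Fin l)) := by
      ext k
      simp [h3 k]
    rw [h4, ncard_univ, Nat.card_fin] at h2
    omega

/-- an edge which is not uncoloured has a colour -/
lemma exists_col (c : PC G l) {x y : V} (h : G.Adj x y) (h' : ¬ (RG c).Adj x y) :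
    ∃ k, c.S k x = y := by
  by_contra h2
  push Not at h2
  exact h' ⟨h, h2⟩

lemma del_adj {R : SimpleGraph V} {a b x y : V} : (del R a b).Adj x y ↔
    R.Adj x y ∧ ¬ ((x = a ∧ y = b) ∨ (x = b ∧ y = a)) := Iff.rfl

lemma ins_adj {R : SimpleGraph V} {a v x y : V} : (ins R a v).Adj x y ↔
    R.Adj x y ∨ (x ≠ y ∧ ((x = a ∧ y = v) ∨ (x = v ∧ y = a))) := Iff.rfl

lemma del_comm (R : SimpleGraph V) (a b : V) : del R a b = del R b a := by
  ext x y
  rw [del_adj, del_adj]
  tauto

lemma ins_comm (R : SimpleGraph V) (a b : V) : ins R a b = ins R b a := by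
  ext x y
  rw [ins_adj, ins_adj]
  tauto

lemma dg_del_left {R : SimpleGraph V} {a b : V} (h : R.Adj a b)
    (hf : (R.neighborSet a).Finite) : dg (del R a b) a + 1 = dg R a := by
  unfold dg
  have h1 : (del R a b).neighborSet a = R.neighborSet a \ {b} := by
    ext y
    simp only [SimpleGraph.mem_neighborSet, del_adj, Set.mem_sdiff, mem_singleton_iff]
    constructor
    · rintro ⟨h1, h2⟩
      exact ⟨h1, fun h3 => h2 (Or.inl (by simpa using h3))⟩
    · rintro ⟨h1, h2⟩
      refine ⟨h1, ?_⟩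
      rintro (⟨-, h3⟩ | ⟨h3, h4⟩)
      · exact h2 h3
      · exact h.ne h3
  rw [h1]
  exact ncard_sdiff_singleton_add_one (show b ∈ R.neighborSet a from h) hf

lemma dg_del_right {R : SimpleGraph V} {a b : V} (h : R.Adj a b)
    (hf : (R.neighborSet b).Finite) : dg (del R a b) b + 1 = dg R b := by
  rw [del_comm]
  exact dg_del_left h.symm hf

lemma dg_del_other {R : SimpleGraph V} {a b x : V} (h1 : x ≠ a) (h2 : x ≠ b) :
    dg (del R a b) x = dg R x := by
  refine dg_congr fun y => ?_
  rw [del_adj]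
  tauto

lemma dg_ins_left {R : SimpleGraph V} {a v : V} (h : ¬ R.Adj a v) (hne : a ≠ v)
    (hf : (R.neighborSet a).Finite) : dg (ins R a v) a = dg R a + 1 := by
  unfold dg
  have h1 : (ins R a v).neighborSet a = insert v (R.neighborSet a) := by
    ext y
    simp only [SimpleGraph.mem_neighborSet, ins_adj, mem_insert_iff]
    constructor
    · rintro (h1 | ⟨h1, (⟨-, h2⟩ | ⟨h2, -⟩)⟩)
      · exact Or.inr h1
      · exact Or.inl h2
      · exact absurd h2 hne
    · rintro (rfl | h1)
      · exact Or.inr ⟨hne, Or.inl (by simp)⟩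
      · exact Or.inl h1
  rw [h1]
  exact ncard_insert_of_notMem h hf

lemma dg_ins_right {R : SimpleGraph V} {a v : V} (h : ¬ R.Adj a v) (hne : a ≠ v)
    (hf : (R.neighborSet v).Finite) : dg (ins R a v) v = dg R v + 1 := by
  rw [ins_comm]
  exact dg_ins_left (fun h' => h h'.symm) hne.symm hf

lemma dg_ins_other {R : SimpleGraph V} {a v x : V} (h1 : x ≠ a) (h2 : x ≠ v) :
    dg (ins R a v) x = dg R x := by
  refine dg_congr fun y => ?_
  rw [ins_adj]
  tauto

/-! ### Finite modifications -/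

lemma FM.rfl' (c : PC G l) (C : Set V) : FM c c C :=
  ⟨by simp, fun x k h => absurd rfl h⟩

lemma FM.trans {c c1 c2 : PC G l} {C : Set V} (h : FM c c1 C) (h' : FM c1 c2 C) : FM c c2 C := by
  have key : ∀ x k, c2.S k x ≠ c.S k x → (c1.S k x ≠ c.S k x ∨ c2.S k x ≠ c1.S k x) := by
    intro x k hk
    by_contra hcon
    push Not at hcon
    exact hk (hcon.2.trans hcon.1)
  refine ⟨(h.fin.union h'.fin).subset ?_, ?_⟩
  · rintro x ⟨k, hk⟩
    rcases key x k hk with h1 | h1
    · exact Or.inl ⟨k, h1⟩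
    · exact Or.inr ⟨k, h1⟩
  · intro x k hk
    rcases key x k hk with h1 | h1
    · exact h.sub x k h1
    · exact h'.sub x k h1

lemma PX.mono_left {Δ : ℕ} {C C' : Set V} (h : PX G Δ C)
    (hC : ∀ x ∈ C', ∀ y, G.Adj x y → y ∈ C') : PX G Δ C' :=
  ⟨hC, h.fin, h.deg, h.ind, h.bip⟩

/-! ### Levels -/

lemma TS_mono {R : SimpleGraph V} {Δ l r : ℕ} {X : Set V} {n n' : ℕ} (h : n ≤ n') (b : Bool) :
    TS G R Δ l r X n b ⊆ TS G R Δ l r X n' b := by
  induction n', h using Nat.le_induction with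
  | base => exact Subset.rfl
  | succ n' _ ih =>
    intro x hx
    cases b with
    | true => exact Or.inl (ih hx)
    | false => exact Or.inl (ih hx)

lemma EL_not_mem {K : SimpleGraph V} {L : Set V} {s : V → V} {n : ℕ} {y : V}
    (h : y ∈ EL K L s n) : y ∉ L := by
  cases n with
  | zero => exact h.1
  | succ n => exact h.1

lemma EL_succ {K : SimpleGraph V} {L : Set V} {s : V → V} (n : ℕ) :
    EL K L s n ⊆ EL K L s (n + 1) := by
  induction n with
  | zero => exact fun y hy => ⟨hy.1, Or.inl hy.2⟩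
  | succ n ih =>
    rintro y ⟨h1, h2⟩
    refine ⟨h1, ?_⟩
    rcases h2 with h2 | ⟨y', h2, h3⟩
    · exact Or.inl h2
    · exact Or.inr ⟨y', h2, ih h3⟩

lemma EL_mono {K : SimpleGraph V} {L : Set V} {s : V → V} {n n' : ℕ} (h : n ≤ n') :
    EL K L s n ⊆ EL K L s n' := by
  induction n', h using Nat.le_induction with
  | base => exact Subset.rfl
  | succ n' _ ih => exact ih.trans (EL_succ n')

/-! ### Bad strands -/

lemma Bad_iff {s t : V → V} {x : V} : x ∈ Bad s t ↔
    (∀ n, al s t (n + 1) x ≠ al s t n x) ∧ (∀ n, al t s (n + 1) x ≠ al t s n x) ∧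
    ∀ p, 1 ≤ p → al s t (2 * p) x ≠ x := by
  constructor
  · intro h
    exact ⟨fun n => (h (n + 1)).1.1 n (by omega), fun n => (h (n + 1)).1.2 n (by omega),
      fun p hp => (h p).2 p hp le_rfl⟩
  · rintro ⟨h1, h2, h3⟩ N
    exact ⟨⟨fun n _ => h1 n, fun n _ => h2 n⟩, fun p hp _ => h3 p hp⟩

end plain

/-! ### Words and components -/

section words

variable {V : Type u} [MeasurableSpace V] {G : SimpleGraph V} {l m : ℕ} {e : PCol G m}

@[simp] lemma wd_nil (e : PCol G m) (b : V) : wd e [] b = b := rfl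

lemma wd_cons (e : PCol G m) (k : Fin m) (w : List (Fin m)) (b : V) :
    wd e (k :: w) b = wd e w (e.S k b) := rfl

lemma wd_append (e : PCol G m) (w w' : List (Fin m)) (b : V) :
    wd e (w ++ w') b = wd e w' (wd e w b) := by
  induction w generalizing b with
  | nil => rfl
  | cons k w ih => exact ih (e.S k b)

lemma wd_snoc (e : PCol G m) (w : List (Fin m)) (k : Fin m) (b : V) :
    wd e (w ++ [k]) b = e.S k (wd e w b) := by
  rw [wd_append]
  rfl

lemma wd_reverse (e : PCol G m) (w : List (Fin m)) (b : V) :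
    wd e w.reverse (wd e w b) = b := by
  induction w generalizing b with
  | nil => rfl
  | cons k w ih =>
    rw [List.reverse_cons, wd_append, wd_cons e k w, ih]
    exact e.invol k b

lemma Cm_self (e : PCol G m) (b : V) : b ∈ Cm e b := ⟨[], rfl⟩

lemma Cm_S {b x : V} (h : x ∈ Cm e b) (k : Fin m) : e.S k x ∈ Cm e b := by
  obtain ⟨w, rfl⟩ := h
  exact ⟨w ++ [k], wd_snoc e w k b⟩

lemma Cm_trans {b x y : V} (h : x ∈ Cm e b) (h' : y ∈ Cm e x) : y ∈ Cm e b := by
  obtain ⟨w, rfl⟩ := h
  obtain ⟨w', rfl⟩ := h'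
  exact ⟨w ++ w', wd_append e w w' b⟩

lemma Cm_symm {b x : V} (h : x ∈ Cm e b) : b ∈ Cm e x := by
  obtain ⟨w, rfl⟩ := h
  exact ⟨w.reverse, wd_reverse e w b⟩

lemma Cm_eq {b x : V} (h : x ∈ Cm e b) : Cm e x = Cm e b := by
  ext y
  exact ⟨fun hy => Cm_trans h hy, fun hy => Cm_trans (Cm_symm h) hy⟩

lemma Cm_adj (hl : Lab e) {b x y : V} (h : x ∈ Cm e b) (hxy : G.Adj x y) : y ∈ Cm e b := by
  obtain ⟨k, rfl⟩ := hl x y hxy
  exact Cm_S h k

lemma Cm_iff_reachable (hl : Lab e) {b x : V} : x ∈ Cm e b ↔ G.Reachable b x := by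
  constructor
  · rintro ⟨w, rfl⟩
    induction w generalizing b with
    | nil => exact SimpleGraph.Reachable.rfl
    | cons k w ih =>
      rw [wd_cons]
      by_cases hk : e.S k b = b
      · rw [hk]; exact ih
      · exact (e.adj k b hk).reachable.trans ih
  · rintro ⟨p⟩
    induction p with
    | nil => exact Cm_self e _
    | cons h _ ih => exact Cm_trans (Cm_adj hl (Cm_self e _) h) ih

/-- components of subgraphs -/
lemma Cm_of_reachable (hl : Lab e) {R : SimpleGraph V} (hR : R ≤ G) {b x : V}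
    (h : R.Reachable b x) : x ∈ Cm e b := (Cm_iff_reachable hl).2 (h.mono hR)

/-- the walks of a colouring stay in the component -/
lemma Cm_col (hl : Lab e) (c : PC G l) {b x : V} (h : x ∈ Cm e b) (k : Fin l) :
    c.S k x ∈ Cm e b := by
  by_cases hk : c.S k x = x
  · rw [hk]; exact h
  · exact Cm_adj hl h (c.adj k x hk)

lemma Cm_al (hl : Lab e) (c : PC G l) {b x : V} (h : x ∈ Cm e b) (g k : Fin l) (n : ℕ) :
    al (c.S g) (c.S k) n x ∈ Cm e b := by
  induction n generalizing g k x with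
  | zero => exact h
  | succ n ih => exact ih (Cm_col hl c h g) k g

lemma PX.Cm {Δ : ℕ} {C : Set V} (hl : Lab e) (h : PX G Δ C) (b : V) : PX G Δ (Cm e b) :=
  h.mono_left fun _ hx _ hxy => Cm_adj hl hx hxy

lemma Lab.fin (hl : Lab e) (x : V) : (G.neighborSet x).Finite := by
  refine (finite_range fun k => e.S k x).subset fun y hy => ?_
  obtain ⟨k, hk⟩ := hl x y hy
  exact ⟨k, hk⟩

/-- the degree counted by labels -/
lemma dg_eq_card (hl : Lab e) {R : SimpleGraph V} (hR : R ≤ G) (x : V) :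
    dg R x = {k | R.Adj x (e.S k x)}.ncard := by
  have h1 : R.neighborSet x = (fun k => e.S k x) '' {k | R.Adj x (e.S k x)} := by
    ext y
    constructor
    · intro hy
      obtain ⟨k, rfl⟩ := hl x y (hR hy)
      exact ⟨k, hy, rfl⟩
    · rintro ⟨k, hk, rfl⟩
      exact hk
  have h2 : InjOn (fun k => e.S k x) {k | R.Adj x (e.S k x)} := by
    intro k hk k' _ h
    exact e.disj k k' x h (R.ne_of_adj hk).symm
  unfold dg
  rw [h1, h2.ncard_image]

/-! ### Measure -/

variable {μ : Measure V}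

lemma mp_wd (hinv : Inv G μ) (e : PCol G m) (w : List (Fin m)) :
    MeasurePreserving (wd e w) μ μ := by
  induction w with
  | nil => exact MeasurePreserving.id μ
  | cons k w ih => exact ih.comp (mp_S hinv e k)

/-- almost everywhere on whole components -/
lemma ae_Cm (hinv : Inv G μ) (e : PCol G m) {p : V → Prop} (h : ∀ᵐ x ∂μ, p x) :
    ∀ᵐ b ∂μ, ∀ x ∈ Cm e b, p x := by
  have h1 : ∀ w : List (Fin m), ∀ᵐ b ∂μ, p (wd e w b) := fun w =>
    (mp_wd hinv e w).quasiMeasurePreserving.tendsto_ae.eventually h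
  filter_upwards [ae_all_iff.2 h1] with b hb
  rintro x ⟨w, rfl⟩
  exact hb w

/-- a null set meets almost no component -/
lemma ae_Cm_not (hinv : Inv G μ) (e : PCol G m) {A : Set V} (h : μ A = 0) :
    ∀ᵐ b ∂μ, ∀ x ∈ Cm e b, x ∉ A :=
  ae_Cm hinv e (measure_eq_zero_iff_ae_notMem.1 h)

lemma real_image (f : V ≃ᵐ V) (hf : MeasurePreserving f μ μ) (A : Set V) :
    μ.real (f '' A) = μ.real A := by
  have h : μ (f '' A) = μ A := by
    rw [f.image_eq_preimage_symm]
    exact hf.symm.measure_preimage_equiv A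
  simp only [Measure.real, h]

/-- if a set is not null, one of countably many sets covering it is not null -/
lemma exists_piece {ι : Type*} [Countable ι] {A : Set V} {B : ι → Set V} (h : μ A ≠ 0)
    (hA : A ⊆ ⋃ i, B i) : ∃ i, μ (A ∩ B i) ≠ 0 := by
  by_contra hcon
  push Not at hcon
  apply h
  refine measure_mono_null ?_ (measure_iUnion_null hcon)
  intro x hx
  obtain ⟨i, hi⟩ := mem_iUnion.1 (hA hx)
  exact mem_iUnion.2 ⟨i, hx, hi⟩

instance (m l : ℕ) : Countable (Cd m l) := by
  unfold Cd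
  infer_instance

/-- the distance of two colourings which agree off a set -/
lemma dst_le_of_agree [IsFiniteMeasure μ] {c c' : PCol G l} {A : Set V}
    (h : ∀ x, x ∉ A → ∀ k, c'.S k x = c.S k x) : PCol.dst μ c c' ≤ l * μ.real A := by
  unfold PCol.dst
  have h1 : ∀ k : Fin l, μ.real {x | c.S k x ≠ c'.S k x} ≤ μ.real A := by
    intro k
    refine measureReal_mono ?_
    intro x hx
    by_contra hxA
    exact hx (h x hxA k).symm
  refine (Finset.sum_le_sum fun k _ => h1 k).trans ?_
  rw [Finset.sum_const, Finset.card_univ, Fintype.card_fin, nsmul_eq_mul]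

/-- the region of a set of places -/
lemma real_region_le [IsFiniteMeasure μ] (hinv : Inv G μ) (e : PCol G m)
    (W : Finset (List (Fin m))) (J : Set V) :
    μ.real {x | ∃ b ∈ J, ∃ w ∈ W, wd e w b = x} ≤ W.card * μ.real J := by
  have h1 : {x | ∃ b ∈ J, ∃ w ∈ W, wd e w b = x} ⊆ ⋃ w ∈ W, wd e w '' J := by
    rintro x ⟨b, hb, w, hw, rfl⟩
    simp only [mem_iUnion]
    exact ⟨w, hw, b, hb, rfl⟩
  refine (measureReal_mono h1 (measure_ne_top _ _)).trans ?_
  refine (measureReal_biUnion_finset_le W _).trans ?_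
  rw [Finset.sum_congr rfl fun w _ => real_image (wd e w) (mp_wd hinv e w) J,
    Finset.sum_const, nsmul_eq_mul]

end words

end Pool.Agent.MEO
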