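import Pool.Agent.MEO.Targets
import Pool.Agent.MEO.Base

set_option autoImplicit false

/-! MP_fff3e1_lc, project MEO: target `tAUG` (shortest alternating paths). -/

namespace Pool.Agent.MEO

open MeasureTheory Set Filter
open scoped ENNReal
open Pool.Agent.MEC
open Pool.Agent.MEP

universe u

namespace AUG_

variable {U : Type u}

open Classical in
/-- match `x0` with `y0`, free `z0`, otherwise `t` -/
noncomputable def md (x0 y0 z0 : U) (t : U → U) (x : U) : U :=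
  if x = x0 then y0 else if x = y0 then x0 else if x = z0 then z0 else t x

section md

variable {x0 y0 z0 : U} {t : U → U}

lemma md_x0 : md x0 y0 z0 t x0 = y0 := by simp [md]

lemma md_y0 (h : x0 ≠ y0) : md x0 y0 z0 t y0 = x0 := by simp [md, h.symm]

lemma md_z0 (h1 : z0 ≠ x0) (h2 : z0 ≠ y0) : md x0 y0 z0 t z0 = z0 := by simp [md, h1, h2]

lemma md_of {x : U} (h1 : x ≠ x0) (h2 : x ≠ y0) (h3 : x ≠ z0) : md x0 y0 z0 t x = t x := by
  simp [md, h1, h2, h3]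

lemma md_invol (ht : ∀ x, t (t x) = x) (hxy : x0 ≠ y0) (hy : t y0 = y0) (hx : t x0 = z0)
    (x : U) : md x0 y0 z0 t (md x0 y0 z0 t x) = x := by
  have hz : t z0 = x0 := by rw [← hx, ht]
  have hzy : z0 ≠ y0 := by
    intro h
    apply hxy
    rw [← hz, h, hy]
  by_cases h1 : x = x0
  · rw [h1, md_x0, md_y0 hxy]
  by_cases h2 : x = y0
  · rw [h2, md_y0 hxy, md_x0]
  by_cases h3 : x = z0
  · have h4 : z0 ≠ x0 := fun h => h1 (h3.trans h)
    rw [h3, md_z0 h4 hzy, md_z0 h4 hzy]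
  rw [md_of h1 h2 h3, md_of, ht]
  · intro h
    apply h3
    rw [← ht x, h, hx]
  · intro h
    apply h2
    rw [← ht x, h, hy]
  · intro h
    apply h1
    rw [← ht x, h, hz]

lemma md_changed {s : U → U} {x : U} (h : md x0 y0 z0 t x ≠ s x) :
    x = x0 ∨ x = y0 ∨ x = z0 ∨ t x ≠ s x := by
  by_contra hcon
  push Not at hcon
  obtain ⟨h1, h2, h3, h4⟩ := hcon
  rw [md_of h1 h2 h3] at h
  exact h h4

end md

/-- the conclusion of `tAUG` -/
def Con (K : SimpleGraph U) (L : Set U) (s : U → U) (x0 : U) (n : ℕ) (s' : U → U) : Prop :=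
  (∀ x, s' (s' x) = x) ∧ (∀ x, s' x ≠ x → K.Adj x (s' x)) ∧
    {x | s' x ≠ s x}.Finite ∧ (∀ x, s' x ≠ s x → K.Reachable x0 x) ∧ s' x0 ≠ x0 ∧
    (∀ x ∈ L, s x ≠ x → s' x ≠ x) ∧ (∀ x ∈ L, s' x ≠ x → s x ≠ x ∨ x = x0) ∧
    (s x0 ≠ x0 → s' (s x0) = s x0) ∧ (∀ y, y ≠ s x0 → HK K L s s' y) ∧
    (∀ p, s' p ≠ s p → p ≠ x0 → p ≠ s x0 → (p ∉ L → ∃ j ≤ n, p ∈ EL K L s j) ∧
      (p ∈ L → ∃ j < n, ∃ y, K.Adj p y ∧ y ∈ EL K L s j))

/-- one more edge of the alternating path -/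
lemma step {K : SimpleGraph U} {L : Set U} {s t : U → U} (hL : ∀ x y, K.Adj x y → (x ∈ L ↔ y ∉ L))
    (hsK : ∀ x, s x ≠ x → K.Adj x (s x)) {x0 y0 : U} (hx0 : x0 ∈ L)
    {n : ℕ} (hK : K.Adj x0 y0) (hy : y0 ∈ EL K L s n)
    (hmin : ∀ y, K.Adj x0 y → ∀ j < n, y ∉ EL K L s j) (ht : ∀ x, t (t x) = x)
    (htK : ∀ x, t x ≠ x → K.Adj x (t x)) (hfin : {x | t x ≠ s x}.Finite)
    (hre : ∀ x, t x ≠ s x → K.Reachable x0 x) (hty : t y0 = y0) (htx : t x0 = s x0)
    (hc1 : ∀ x ∈ L, s x ≠ x → t x ≠ x) (hc2 : ∀ x ∈ L, t x ≠ x → s x ≠ x)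
    (hHK : ∀ y, y ≠ y0 → HK K L s t y)
    (hlev : ∀ p, t p ≠ s p → p ≠ y0 → (p ∉ L → ∃ j ≤ n, p ∈ EL K L s j) ∧
      (p ∈ L → ∃ j < n, ∃ y, K.Adj p y ∧ y ∈ EL K L s j)) :
    Con K L s x0 n (md x0 y0 (s x0) t) := by
  have hy0 : y0 ∉ L := (hL _ _ hK).1 hx0
  have hxy : x0 ≠ y0 := K.ne_of_adj hK
  have hzL : s x0 ≠ x0 → s x0 ∉ L := fun h => (hL _ _ (hsK x0 h)).1 hx0
  have hzy : s x0 ≠ y0 := by
    intro h
    apply hxy
    have h1 : t (t x0) = y0 := by rw [htx, h, hty]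
    rw [ht] at h1
    exact h1
  have hz : s x0 ≠ x0 → md x0 y0 (s x0) t (s x0) = s x0 := fun h => md_z0 h hzy
  refine ⟨md_invol ht hxy hty htx, ?_, ?_, ?_, ?_, ?_, ?_, hz, ?_, ?_⟩
  · intro x hx
    by_cases h1 : x = x0
    · rw [h1, md_x0]; exact hK
    by_cases h2 : x = y0
    · rw [h2, md_y0 hxy]; exact hK.symm
    by_cases h3 : x = s x0
    · exfalso
      apply hx
      rw [h3]
      exact hz (fun h => h1 (h3.trans h))
    · rw [md_of h1 h2 h3] at hx ⊢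
      exact htK x hx
  · refine (hfin.union (toFinite {x0, y0, s x0})).subset ?_
    intro x hx
    rcases md_changed hx with h | h | h | h
    · right; simp [h]
    · right; simp [h]
    · right; simp [h]
    · left; exact h
  · intro x hx
    rcases md_changed hx with h | h | h | h
    · rw [h]
    · rw [h]; exact hK.reachable
    · rw [h]
      by_cases h1 : s x0 = x0
      · rw [h1]
      · exact (hsK x0 h1).reachable
    · exact hre x h
  · rw [md_x0]; exact hxy.symm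
  · intro x hx hsx
    by_cases h1 : x = x0
    · rw [h1, md_x0]; exact hxy.symm
    · have h2 : x ≠ y0 := fun h => hy0 (h ▸ hx)
      have h3 : x ≠ s x0 := by
        intro h
        exact hzL (fun h' => h1 (h.trans h')) (h ▸ hx)
      rw [md_of h1 h2 h3]
      exact hc1 x hx hsx
  · intro x hx hx'
    by_cases h1 : x = x0
    · right; exact h1
    · left
      have h2 : x ≠ y0 := fun h => hy0 (h ▸ hx)
      have h3 : x ≠ s x0 := by
        intro h
        exact hzL (fun h' => h1 (h.trans h')) (h ▸ hx)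
      rw [md_of h1 h2 h3] at hx'
      exact hc2 x hx hx'
  · intro y hys hyL hne
    have h1 : y ≠ x0 := fun h => hyL (h ▸ hx0)
    by_cases h2 : y = y0
    · rw [h2, md_y0 hxy]
      refine ⟨hxy, ⟨n, hy⟩, fun y' hy' j hj => ?_⟩
      exact EL_mono (not_lt.1 fun hlt => hmin y' hy' j hlt hj) hy
    · rw [md_of h1 h2 hys] at hne ⊢
      exact hHK y h2 hyL hne
  · intro p hp hp0 hps
    by_cases h2 : p = y0
    · rw [h2]
      exact ⟨fun _ => ⟨n, le_rfl, hy⟩, fun h => absurd h hy0⟩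
    · rw [md_of hp0 h2 hps] at hp
      exact hlev p hp h2

end AUG_

open AUG_ in
theorem allAUG : tAUG.{u} := by
  intro U K L s hL hs hsK x0 hx0 n
  change (∃ y, K.Adj x0 y ∧ y ∈ EL K L s n) → (∀ y, K.Adj x0 y → ∀ j < n, y ∉ EL K L s j) →
    ∃ s', Con K L s x0 n s'
  induction n generalizing x0 with
  | zero =>
    rintro ⟨y0, hK, hy⟩ hmin
    have hfree : s y0 = y0 := hy.2
    refine ⟨_, step hL hsK hx0 hK hy hmin hs hsK (by simp) (fun x h => absurd rfl h) hfree rfl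
      (fun _ _ h => h) (fun _ _ h => h) (fun y _ _ h => absurd rfl h)
      (fun p h _ => absurd rfl h)⟩
  | succ n ih =>
    rintro ⟨y0, hK, hy⟩ hmin
    have hy0 : y0 ∉ L := (hL _ _ hK).1 hx0
    have hfree : s y0 ≠ y0 := fun h => hmin y0 hK 0 (Nat.succ_pos n) ⟨hy0, h⟩
    obtain ⟨y', hKy', hy'⟩ := hy.2.resolve_left hfree
    have hKx1 : K.Adj y0 (s y0) := hsK y0 hfree
    have hx1 : s y0 ∈ L := by
      by_contra h
      exact hy0 ((hL _ _ hKx1).2 h)
    have hne : x0 ≠ s y0 := by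
      intro h
      rw [← h] at hKy'
      exact hmin y' hKy' n (Nat.lt_succ_self n) hy'
    obtain ⟨t, ht1, ht2, ht3, ht4, ht5, ht6, ht7, ht8, ht9, ht10⟩ := ih (s y0) hx1
      ⟨y', hKy', hy'⟩ (fun y hy j hj hyj =>
        hmin y0 hK (j + 1) (Nat.succ_lt_succ hj) ⟨hy0, Or.inr ⟨y, hy, hyj⟩⟩)
    rw [hs] at ht8 ht9 ht10
    have hty : t y0 = y0 := ht8 hfree.symm
    have htx : t x0 = s x0 := by
      by_contra h
      obtain ⟨j, hj, y, hy1, hy2⟩ := (ht10 x0 h hne (K.ne_of_adj hK)).2 hx0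
      exact hmin y hy1 j (by omega) hy2
    refine ⟨_, step hL hsK hx0 hK hy hmin ht1 ht2 ht3
      (fun x h => (hK.reachable.trans hKx1.reachable).trans (ht4 x h)) hty htx ht6
      (fun x hx h => ?_) ht9 (fun p hp hpy => ?_)⟩
    · rcases ht7 x hx h with h1 | h1
      · exact h1
      · rw [h1, hs]
        exact hfree.symm
    · by_cases hpx : p = s y0
      · rw [hpx]
        exact ⟨fun h => absurd hx1 h, fun _ => ⟨n, Nat.lt_succ_self n, y', hKy', hy'⟩⟩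
      · obtain ⟨h1, h2⟩ := ht10 p hp hpx hpy
        refine ⟨fun h => ?_, fun h => ?_⟩
        · obtain ⟨j, hj, hj'⟩ := h1 h
          exact ⟨j, by omega, hj'⟩
        · obtain ⟨j, hj, hj'⟩ := h2 h
          exact ⟨j, by omega, hj'⟩

end Pool.Agent.MEO
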