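import Pool.Agent.MEO.Targets

set_option autoImplicit false

/-! MEO, job BAI: an upper semicontinuous function has a point of continuity (Baire). -/

namespace Pool.Agent.MEO

open Pool.Agent.MEC Pool.Agent.MEP MeasureTheory Set Filter

universe u

namespace BAI_

/-- one step of the nested balls -/
def St {X : Type u} (d : X → X → ℝ) (Ψ : X → ℝ) (n : ℕ) (p q : X × ℝ) : Prop :=
  0 < q.2 ∧ q.2 ≤ p.2 / 2 ∧ d p.1 q.1 < p.2 / 4 ∧
    (∀ z, d q.1 z < q.2 → d p.1 z < p.2 / 4) ∧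
    (∀ z w, d q.1 z < q.2 → d p.1 w < p.2 / 4 → Ψ z < Ψ w + 1 / ((n : ℝ) + 1))

theorem step {X : Type u} (d : X → X → ℝ) (h0 : ∀ x, d x x = 0)
    (ht : ∀ x y z, d x z ≤ d x y + d y z) (Ψ : X → ℝ) (hΨ : ∀ x, 0 ≤ Ψ x)
    (hu : ∀ x, ∀ ε : ℝ, 0 < ε → ∃ δ : ℝ, 0 < δ ∧ ∀ y, d x y < δ → Ψ y < Ψ x + ε)
    (n : ℕ) (p : X × ℝ) (hp : 0 < p.2) : ∃ q, St d Ψ n p q := by
  have hn : (0 : ℝ) < 1 / ((n : ℝ) + 1) := by positivity
  set ε : ℝ := 1 / ((n : ℝ) + 1) with hε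
  set S : Set ℝ := Ψ '' {w | d p.1 w < p.2 / 4} with hS
  have hne : S.Nonempty := ⟨Ψ p.1, p.1, by change d p.1 p.1 < p.2 / 4; rw [h0]; linarith, rfl⟩
  have hbd : BddBelow S := ⟨0, by rintro _ ⟨w, -, rfl⟩; exact hΨ w⟩
  obtain ⟨_, ⟨y, hy, rfl⟩, hlt⟩ := exists_lt_of_csInf_lt hne
    (show sInf S < sInf S + ε / 2 by linarith)
  have hy' : d p.1 y < p.2 / 4 := hy
  obtain ⟨δ, hδ, hδ'⟩ := hu y (ε / 2) (by linarith)
  refine ⟨(y, min (p.2 / 2) (min δ (p.2 / 4 - d p.1 y))), ?_, ?_, hy', ?_, ?_⟩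
  · exact lt_min (by linarith) (lt_min hδ (by linarith))
  · exact min_le_left _ _
  · intro z hz
    have h1 : d y z < p.2 / 4 - d p.1 y :=
      lt_of_lt_of_le hz ((min_le_right _ _).trans (min_le_right _ _))
    have h2 := ht p.1 y z
    linarith
  · intro z w hz hw
    have h1 : d y z < δ := lt_of_lt_of_le hz ((min_le_right _ _).trans (min_le_left _ _))
    have h2 := hδ' z h1
    have h3 : sInf S ≤ Ψ w := csInf_le hbd ⟨w, hw, rfl⟩
    linarith

/-- the sequence -/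
noncomputable def sq {X : Type u} (f : ℕ → X × ℝ → X × ℝ) (x0 : X) : ℕ → X × ℝ
  | 0 => (x0, 1)
  | n + 1 => f n (sq f x0 n)

end BAI_

theorem allBAI : tBAI.{u} := by
  intro X d hd h0 hs ht hc Ψ hΨ hu x0
  classical
  have hf : ∀ (n : ℕ) (p : X × ℝ), ∃ q, 0 < p.2 → BAI_.St d Ψ n p q := by
    intro n p
    by_cases hp : 0 < p.2
    · obtain ⟨q, hq⟩ := BAI_.step d h0 ht Ψ hΨ hu n p hp
      exact ⟨q, fun _ => hq⟩
    · exact ⟨p, fun h => absurd h hp⟩
  choose f hf using hf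
  set c : ℕ → X × ℝ := BAI_.sq f x0 with hcdef
  have hsucc : ∀ n, c (n + 1) = f n (c n) := fun n => rfl
  have hpos : ∀ n, 0 < (c n).2 := by
    intro n
    induction n with
    | zero => exact one_pos
    | succ n ih => rw [hsucc]; exact (hf n (c n) ih).1
  have hst : ∀ n, BAI_.St d Ψ n (c n) (c (n + 1)) := fun n => by
    rw [hsucc]; exact hf n (c n) (hpos n)
  have hgeo : ∀ n m, (c (n + m)).2 ≤ (c n).2 * (1 / 2) ^ m := by
    intro n m
    induction m with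
    | zero => simp
    | succ m ih =>
      have h1 := (hst (n + m)).2.1
      have h2 : (c (n + (m + 1))).2 ≤ (c (n + m)).2 / 2 := h1
      rw [pow_succ]
      linarith
  have hdist : ∀ n m, d (c (n + m)).1 (c (n + m + 1)).1 ≤ (c n).2 / 4 * (1 / 2) ^ m := by
    intro n m
    have h1 := (hst (n + m)).2.2.1
    have h2 := hgeo n m
    linarith
  have hg : Summable (fun m : ℕ => (1 / 2 : ℝ) ^ m) := summable_geometric_two
  have hsumm : ∀ n, Summable (fun m => d (c (n + m)).1 (c (n + m + 1)).1) := fun n =>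
    Summable.of_nonneg_of_le (fun m => hd _ _) (fun m => hdist n m) (hg.mul_left _)
  obtain ⟨t, htt⟩ := hc (fun n => (c n).1) (by simpa using hsumm 0)
  have hb : ∀ n, d (c n).1 t < (c n).2 := by
    intro n
    have h1 : ∑' m, d (c (n + m)).1 (c (n + m + 1)).1 ≤ ∑' m : ℕ, (c n).2 / 4 * (1 / 2) ^ m :=
      (hsumm n).tsum_le_tsum (fun m => hdist n m) (hg.mul_left _)
    rw [tsum_mul_left, tsum_geometric_two] at h1
    have h2 := htt n
    have h3 := hpos n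
    linarith
  refine ⟨t, fun ε hε => ?_⟩
  obtain ⟨n, hn⟩ := exists_nat_one_div_lt hε
  refine ⟨(c (n + 1)).2 - d (c (n + 1)).1 t, by linarith [hb (n + 1)], fun w hw => ?_⟩
  have h1 : d (c (n + 1)).1 w < (c (n + 1)).2 := by
    have := ht (c (n + 1)).1 t w
    linarith
  have h2 := (hst n).2.2.2.1 w h1
  have h3 := (hst n).2.2.2.2 t w (hb (n + 1)) h2
  linarith

end Pool.Agent.MEO
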