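import Pool.Agent.MEO.Targets

set_option autoImplicit false

/-! MP_fff3e1_lc, project MEO: the ordering principle `tBB` (Brezis, Browder). -/

namespace Pool.Agent.MEO

universe u

open Pool.Agent.MEC Pool.Agent.MEP MeasureTheory Set Filter

namespace BB_

/-- above every point there is a nearly optimal one -/
lemma step {X : Type u} {le : X → X → Prop} {J : X → ℝ} {B : ℝ} (hr : ∀ x, le x x)
    (hB : ∀ x, J x ≤ B) (x : X) {ε : ℝ} (hε : 0 < ε) :
    ∃ x', le x x' ∧ ∀ y, le x y → J y ≤ J x' + ε := by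
  have hbd : BddAbove (J '' {y | le x y}) := by
    refine ⟨B, ?_⟩
    rintro _ ⟨y, -, rfl⟩
    exact hB y
  have hne : (J '' {y | le x y}).Nonempty := ⟨J x, x, hr x, rfl⟩
  obtain ⟨_, ⟨x', hx', rfl⟩, hlt⟩ :=
    exists_lt_of_lt_csSup hne (sub_lt_self (sSup (J '' {y | le x y})) hε)
  refine ⟨x', hx', fun y hy => ?_⟩
  have h1 : J y ≤ sSup (J '' {y | le x y}) := le_csSup hbd ⟨y, hy, rfl⟩
  linarith

end BB_

theorem allBB : tBB.{u} := by
  intro X le J B hr ht hm hB hc x0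
  have key : ∀ (x : X) (n : ℕ), ∃ x', le x x' ∧ ∀ y, le x y → J y ≤ J x' + 1 / ((n : ℝ) + 1) :=
    fun x n => BB_.step hr hB x (by positivity)
  choose f hf1 hf2 using key
  let c : ℕ → X := fun n => Nat.rec x0 (fun n x => f x n) n
  have hc0 : c 0 = x0 := rfl
  have hcs : ∀ n, c (n + 1) = f (c n) n := fun n => rfl
  obtain ⟨t, htc⟩ := hc c fun n => by rw [hcs]; exact hf1 _ _
  refine ⟨t, hc0 ▸ htc 0, fun y hy => le_antisymm ?_ (hm t y hy)⟩
  refine le_of_forall_pos_le_add fun ε hε => ?_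
  obtain ⟨n, hn⟩ := exists_nat_one_div_lt hε
  have h1 : J y ≤ J (c (n + 1)) + 1 / ((n : ℝ) + 1) := by
    rw [hcs]
    exact hf2 _ _ y (ht _ _ _ (htc n) hy)
  have h2 : J (c (n + 1)) ≤ J t := hm _ _ (htc (n + 1))
  linarith

end Pool.Agent.MEO
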