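import Pool.Agent.MEO.Targets
import Pool.Agent.MEO.Base

set_option autoImplicit false
set_option linter.unusedSectionVars false

/-! MP_fff3e1_lc, project MEO: target tBDY.  In a clean graph the double cover has a right
vertex of degree less than `r` in the component of each left vertex whose component in `R` is
infinite. -/

namespace Pool.Agent.MEO

open MeasureTheory Set Filter
open scoped ENNReal
open Pool.Agent.MEC
open Pool.Agent.MEP

universe u

namespace BDY_

variable {V : Type u}

/-- neighbours of a right vertex in the double cover -/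
lemma nbr_right (R : SimpleGraph V) (F : Set V) (w : V) :
    (DK R F).neighborSet (w, true) = (fun z => (z, false)) '' {z | R.Adj w z ∧ z ∈ F} := by
  ext ⟨z, b⟩
  simp only [SimpleGraph.mem_neighborSet, mem_image, mem_ofPred_eq, Prod.mk.injEq]
  constructor
  · rintro ⟨h1, h2, -, h4⟩
    have hb : b = false := by
      cases b
      · rfl
      · exact absurd rfl h2
    exact ⟨z, ⟨h1, h4 hb⟩, rfl, hb.symm⟩
  · rintro ⟨z', ⟨h1, h2⟩, rfl, rfl⟩
    exact ⟨h1, by simp, by simp, fun _ => h2⟩

lemma dg_right (R : SimpleGraph V) (F : Set V) (w : V) :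
    dg (DK R F) (w, true) = {z | R.Adj w z ∧ z ∈ F}.ncard := by
  unfold dg
  rw [nbr_right]
  refine ncard_image_of_injective _ ?_
  intro a b hab
  exact (Prod.mk.inj hab).1

/-- along a walk of `R` from a vertex of `F` to a vertex off `F` one meets a right vertex of
small degree -/
lemma along {R : SimpleGraph V} {r : ℕ} (hr : 1 ≤ r) (hf : ∀ x, (R.neighborSet x).Finite)
    {x y : V} (p : R.Walk x y) (hd : ∀ z, R.Reachable x z → dg R z ≤ r)
    (hx : dg R x = r) (hy : dg R y ≠ r) (s : Bool) :
    ∃ w, (DK R {x | dg R x = r}).Reachable (x, s) (w, true) ∧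
      dg (DK R {x | dg R x = r}) (w, true) < r := by
  induction p generalizing s with
  | nil => exact absurd hx hy
  | @cons x x' y h p ih =>
    by_cases hx' : dg R x' = r
    · have hadj : (DK R {x | dg R x = r}).Adj (x, s) (x', !s) :=
        ⟨h, by cases s <;> simp, fun _ => hx, fun _ => hx'⟩
      obtain ⟨w, hw1, hw2⟩ := ih (fun z hz => hd z (h.reachable.trans hz)) hx' hy (!s)
      exact ⟨w, hadj.reachable.trans hw1, hw2⟩
    · have hlt : dg R x' < r := lt_of_le_of_ne (hd x' h.reachable) hx'
      cases s with
      | false =>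
        refine ⟨x', ?_, ?_⟩
        · have hadj : (DK R {x | dg R x = r}).Adj (x, false) (x', true) :=
            ⟨h, by simp, fun _ => hx, fun h' => by simp at h'⟩
          exact hadj.reachable
        · rw [dg_right]
          refine lt_of_le_of_lt ?_ hlt
          exact ncard_le_ncard (fun z hz => hz.1) (hf x')
      | true =>
        refine ⟨x, SimpleGraph.Reachable.rfl, ?_⟩
        rw [dg_right]
        have hss : {z | R.Adj x z ∧ z ∈ {x | dg R x = r}} ⊂ R.neighborSet x := by
          refine ⟨fun z hz => hz.1, fun h' => ?_⟩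
          exact hx' (h' h).2
        have := ncard_lt_ncard hss (hf x)
        have h2 : (R.neighborSet x).ncard = r := hx
        omega

end BDY_

theorem allBDY : tBDY.{u} := by
  intro V _ _ G m e μ _ r hlab hinv hr R hR hd hX
  filter_upwards [ae_Cm hinv e hd, ae_Cm_not hinv e hX] with b hb1 hb2 hbr
  by_cases hfin : {y | R.Reachable b y}.Finite
  · exact Or.inl hfin
  right
  have hnot : b ∉ XX R r := hb2 b (Cm_self e b)
  have hex : ∃ y, R.Reachable b y ∧ dg R y ≠ r := by
    by_contra hcon
    push Not at hcon
    exact hnot ⟨hfin, hcon⟩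
  obtain ⟨y, ⟨p⟩, hy⟩ := hex
  exact BDY_.along hr (fun x => fin_of_le hR (hlab.fin x)) p
    (fun z hz => hb1 z (Cm_of_reachable hlab hR hz)) hbr hy false

end Pool.Agent.MEO
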