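import Pool.Agent.MEO.Targets
import Pool.Agent.MEO.Base

set_option autoImplicit false

/-! MP_fff3e1_lc, project MEO: clean states exist (C5). -/

namespace Pool.Agent.MEO

universe u

open Pool.Agent.MEC Pool.Agent.MEP MeasureTheory Set Filter

namespace CLEAN_

section plain

variable {V : Type u} {G : SimpleGraph V} {l r : ℕ}

lemma XX_dg {R : SimpleGraph V} {x : V} (h : x ∈ XX R r) : dg R x = r :=
  h.2 x SimpleGraph.Reachable.rfl

lemma XX_adj {R : SimpleGraph V} {x y : V} (h : x ∈ XX R r) (hxy : R.Adj x y) : y ∈ XX R r := by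
  refine ⟨h.1.mono fun z hz => ?_, fun z hz => h.2 z (hxy.reachable.trans hz)⟩
  exact hxy.symm.reachable.trans hz

lemma XX_nbr {R : SimpleGraph V} {x : V} (hr : 1 ≤ r) (h : x ∈ XX R r)
    (hf : (R.neighborSet x).Finite) : ∃ y, R.Adj x y := by
  refine (dg_pos_iff hf).1 ?_
  rw [XX_dg h]
  exact hr

lemma dg_le (c : PC G l) {x : V} (h : (G.neighborSet x).Finite) :
    dg G x ≤ dg (RG c) x + l := by
  have h1 := dg_add c h
  have h2 : {k | c.S k x ≠ x}.ncard ≤ l := by
    have := ncard_le_ncard (subset_univ {k : Fin l | c.S k x ≠ x}) (toFinite _)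
    rwa [ncard_univ, Nat.card_fin] at this
  omega

/-- a neighbour, if possible the one with the given name -/
lemma exists_f {R : SimpleGraph V} (g : V → V) : ∃ f : V → V, ∀ x, (∃ y, R.Adj x y) →
    R.Adj x (f x) ∧ (R.Adj x (g x) → f x = g x) := by
  classical
  refine ⟨fun x => if R.Adj x (g x) then g x else
    if h : ∃ y, R.Adj x y then h.choose else x, fun x hx => ?_⟩
  by_cases h1 : R.Adj x (g x)
  · refine ⟨?_, fun _ => if_pos h1⟩
    simp only [if_pos h1]
    exact h1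
  · refine ⟨?_, fun h2 => absurd h2 h1⟩
    simp only [if_neg h1, dif_pos hx]
    exact hx.choose_spec

end plain

end CLEAN_

open CLEAN_ in
/-- C5 clean states exist -/
theorem allCLEAN (h_GEN : tGEN.{u}) (h_TAIL : tTAIL.{u}) (h_SERVE : tSERVE.{u})
    (h_REAL : tREAL.{u}) (h_PART : tPART.{u}) (h_CNT : tCNT.{u}) (h_MES : tMES.{u}) :
    tCLEAN.{u} := by
  intro V _ _ G m e μ _ Δ l r hlab hinv hPX hlr hl1 hr1 hex
  obtain ⟨c, hc⟩ := h_GEN V G m l e μ hlab hinv (QR G r) r hex
  refine ⟨c, hc.sat, ?_⟩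
  by_contra hX
  obtain ⟨-, hM1, hM2, hM3, -⟩ := h_MES V G m l e c hlab
  set R : SimpleGraph V := RG (toPC c) with hR
  set X : Set V := XX R r with hXd
  have hRG : R ≤ G := RG_le _
  have hfin : ∀ x, (R.neighborSet x).Finite := fun x => fin_of_le hRG (hlab.fin x)
  have hsat : ∀ᵐ x ∂μ, dg R x ≤ r := hc.sat
  have hdeg : ∀ x, dg G x ≤ dg R x + l := fun x => dg_le (toPC c) (hlab.fin x)
  have hXr : ∀ x ∈ X, dg R x = r := fun x hx => XX_dg hx
  have hXa : ∀ x ∈ X, ∀ y, R.Adj x y → y ∈ X := fun x hx y hxy => XX_adj hx hxy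
  have hT := h_TAIL V G m l e μ hlab hinv (QR G r) r c (hM3 r) hc
  have hS := h_SERVE V G m l e μ hlab hinv r c hc
  have hC := h_CNT V G m e μ Δ l r hlab hinv hPX hlr hl1 hr1 R X hRG hM2
    ((hM1 R hRG hM2).2.2 r) (hsat.mono fun x hx => ⟨hx, hdeg x⟩) hXr hXa
  have hae : ∀ᵐ b ∂μ, b ∉ X := by
    filter_upwards [hT, ae_Cm hinv e hS, ae_Cm hinv e hC, ae_Cm hinv e hsat]
      with b hTb hSb hCb hsb hbX
    have hPC : PX G Δ (Cm e b) := PX.Cm hlab hPX b
    have hsatC : Sat (QR G r) (toPC c) (Cm e b) := fun x hx => hsb x hx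
    by_cases hcase : ∃ x ∈ X, ∃ y ∈ X, x ∈ Cm e b ∧ R.Adj x y ∧ dg G x < Δ ∧ dg G y < Δ
    · obtain ⟨x, hx, y, hy, hxC, hxy, hdx, hdy⟩ := hcase
      have hyC : y ∈ Cm e b := Cm_adj hlab hxC (hRG hxy)
      refine hSb x hxC hx ⟨y, hy, ?_, fun κ => ?_⟩
      · rw [Cm_eq hxC]; exact hyC
      · rw [Cm_eq hxC]
        have hstp : Stp G l r (Cm e b) R (del R x y) := by
          refine Or.inr (Or.inl ⟨x, hxC, y, hxy, ?_, ?_, rfl⟩)
          · rw [hXr x hx]; omega
          · rw [hXr y hy]; omega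
        obtain ⟨cb, hFM, hsatb, hRb⟩ := h_REAL V G Δ l r (Cm e b) hPC (toPC c) hsatC hTb
          (del R x y) (Relation.ReflTransGen.single hstp)
        refine ⟨cb, hFM, hsatb, ?_, ?_⟩
        · intro a a' _ _ hax hay _ _ haa
          rw [hRb, del_adj]
          refine ⟨haa, ?_⟩
          rintro (⟨h1, -⟩ | ⟨h1, -⟩)
          · exact hax h1
          · exact hay h1
        · have hdx' : dg (del R x y) x < r := by
            have := dg_del_left hxy (hfin x)
            rw [hXr x hx] at this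
            omega
          have hdy' : dg (del R x y) y < r := by
            have := dg_del_right hxy (hfin y)
            rw [hXr y hy] at this
            omega
          rintro z (rfl | rfl) hz
          · rw [hRb]
            by_cases h1 : e.S κ z = y
            · exact ⟨y, Or.inl h1.symm, hdy'⟩
            · refine ⟨z, Or.inr ?_, hdx'⟩
              rw [del_adj]
              refine ⟨hz.symm, ?_⟩
              rintro (⟨h2, -⟩ | ⟨h2, -⟩)
              · exact hz.ne h2.symm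
              · exact h1 h2
          · rw [hRb]
            by_cases h1 : e.S κ z = x
            · exact ⟨x, Or.inl h1.symm, hdx'⟩
            · refine ⟨z, Or.inr ?_, hdy'⟩
              rw [del_adj]
              refine ⟨hz.symm, ?_⟩
              rintro (⟨h2, -⟩ | ⟨h2, -⟩)
              · exact h1 h2
              · exact hz.ne h2.symm
    · have hW : ∀ x ∈ X, ∀ y ∈ X, x ∈ Cm e b → R.Adj x y → dg G x = Δ ∨ dg G y = Δ := by
        intro x hx y hy hxC hxy
        by_contra hcon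
        push Not at hcon
        exact hcase ⟨x, hx, y, hy, hxC, hxy, lt_of_le_of_ne (hPX.deg x) hcon.1,
          lt_of_le_of_ne (hPX.deg y) hcon.2⟩
      obtain ⟨b', hbb'⟩ := XX_nbr hr1 hbX (hfin b)
      obtain ⟨b0, hb0X, hb0C, hb0⟩ : ∃ b0 ∈ X, b0 ∈ Cm e b ∧ dg G b0 = Δ := by
        rcases hW b hbX b' (hXa b hbX b' hbb') (Cm_self e b) hbb' with h1 | h1
        · exact ⟨b, hbX, Cm_self e b, h1⟩
        · exact ⟨b', hXa b hbX b' hbb', Cm_adj hlab (Cm_self e b) (hRG hbb'), h1⟩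
      obtain ⟨p, hpX, q, hqX, hpC, hqC, hf⟩ := h_PART V G Δ l r (Cm e b) hPC hlr hl1 hr1 R X hRG
        (fun x hx => ⟨hsb x hx, hdeg x⟩) hXr hXa hW b0 hb0X hb0C hb0 (hCb b0 hb0C hb0X hb0)
      refine hSb p hpC hpX ⟨q, hqX, ?_, fun κ => ?_⟩
      · rw [Cm_eq hpC]; exact hqC
      · rw [Cm_eq hpC]
        obtain ⟨f, hff⟩ := exists_f (R := R) (fun x => e.S κ x)
        have hp := hff p (XX_nbr hr1 hpX (hfin p))
        have hq := hff q (XX_nbr hr1 hqX (hfin q))
        obtain ⟨R', hst, hdp, hdq, hkeep⟩ := hf f hp.1 hq.1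
        obtain ⟨cb, hFM, hsatb, hRb⟩ := h_REAL V G Δ l r (Cm e b) hPC (toPC c) hsatC hTb
          R' hst
        refine ⟨cb, hFM, hsatb, ?_, ?_⟩
        · intro a a' h1 h2 h3 h4 h5 h6 h7
          rw [hRb]
          exact hkeep a a' h1 h2 h3 h4 h5 h6 h7
        · rintro z (rfl | rfl) hz
          · refine ⟨e.S κ z, Or.inl rfl, ?_⟩
            rw [hRb, ← hp.2 hz]
            exact hdp
          · refine ⟨e.S κ z, Or.inl rfl, ?_⟩
            rw [hRb, ← hq.2 hz]
            exact hdq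
  exact hX (measure_eq_zero_iff_ae_notMem.2 hae)

end Pool.Agent.MEO
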