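import Pool.Agent.MEO.Targets

set_option autoImplicit false

/-! MP_fff3e1_lc, target `tCLIMB`: one more colour.  The matching of `tORB`, `tMAT` becomes the
colour class number `l`. -/

namespace Pool.Agent.MEO

universe u

open Pool.Agent.MEC Pool.Agent.MEP MeasureTheory Set Filter

namespace CLIMB_

variable {V : Type u} {G : SimpleGraph V} {l : ℕ}

lemma RG_le (c : PC G l) : RG c ≤ G := fun _ _ h => h.1

open Classical in
/-- add the involution `T` as a new last colour -/
noncomputable def addS (S : Fin l → V → V) (T : V → V) : Fin (l + 1) → V → V :=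
  fun k => if h : k.val < l then S ⟨k.val, h⟩ else T

lemma addS_lt (S : Fin l → V → V) (T : V → V) {k : Fin (l + 1)} (h : k.val < l) :
    addS S T k = S ⟨k.val, h⟩ := by
  unfold addS
  rw [dif_pos h]

lemma addS_ge (S : Fin l → V → V) (T : V → V) {k : Fin (l + 1)} (h : ¬ k.val < l) :
    addS S T k = T := by
  unfold addS
  rw [dif_neg h]

lemma addS_cast (S : Fin l → V → V) (T : V → V) (k : Fin l) :
    addS S T ⟨k.val, by omega⟩ = S k := addS_lt S T (k := ⟨k.val, by omega⟩) k.isLt

lemma addS_last (S : Fin l → V → V) (T : V → V) :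
    addS S T ⟨l, by omega⟩ = T := addS_ge S T (k := ⟨l, by omega⟩) (lt_irrefl l)

variable [MeasurableSpace V]

/-- the colouring `c` with the new colour `T` -/
noncomputable def add (c : PCol G l) (T : V → V) (mT : Measurable T) (iT : ∀ x, T (T x) = x)
    (aT : ∀ x, T x ≠ x → (RG (toPC c)).Adj x (T x)) : PCol G (l + 1) where
  S := addS c.S T
  meas := by
    intro k
    by_cases h : k.val < l
    · rw [addS_lt _ _ h]; exact c.meas _
    · rw [addS_ge _ _ h]; exact mT
  invol := by
    intro k x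
    by_cases h : k.val < l
    · rw [addS_lt _ _ h]; exact c.invol _ _
    · rw [addS_ge _ _ h]; exact iT _
  adj := by
    intro k x
    by_cases h : k.val < l
    · rw [addS_lt _ _ h]; exact c.adj _ _
    · rw [addS_ge _ _ h]; exact fun hx => (aT x hx).1
  disj := by
    intro k k' x
    by_cases h : k.val < l
    · by_cases h' : k'.val < l
      · rw [addS_lt _ _ h, addS_lt _ _ h']
        intro he hx
        have := c.disj _ _ x he hx
        have := congrArg Fin.val this
        exact Fin.ext this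
      · rw [addS_lt _ _ h, addS_ge _ _ h']
        intro he hx
        rw [he] at hx
        exact absurd he ((aT x hx).2 ⟨k.val, h⟩)
    · by_cases h' : k'.val < l
      · rw [addS_ge _ _ h, addS_lt _ _ h']
        intro he hx
        exact absurd he.symm ((aT x hx).2 ⟨k'.val, h'⟩)
      · intro _ _
        have h1 := k.isLt
        have h2 := k'.isLt
        exact Fin.ext (by omega)

lemma RG_add (c : PCol G l) (T : V → V) (mT : Measurable T) (iT : ∀ x, T (T x) = x)
    (aT : ∀ x, T x ≠ x → (RG (toPC c)).Adj x (T x)) (x y : V) :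
    (RG (toPC (add c T mT iT aT))).Adj x y ↔ (RG (toPC c)).Adj x y ∧ T x ≠ y := by
  constructor
  · rintro ⟨h1, h2⟩
    refine ⟨⟨h1, fun k => ?_⟩, ?_⟩
    · have := h2 ⟨k.val, by omega⟩
      change addS c.S T ⟨k.val, _⟩ x ≠ y at this
      rw [addS_cast] at this
      exact this
    · have := h2 ⟨l, by omega⟩
      change addS c.S T ⟨l, _⟩ x ≠ y at this
      rw [addS_last] at this
      exact this
  · rintro ⟨⟨h1, h2⟩, h3⟩
    refine ⟨h1, fun k => ?_⟩
    change addS c.S T k x ≠ y
    by_cases h : k.val < l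
    · rw [addS_lt _ _ h]; exact h2 ⟨k.val, h⟩
    · rw [addS_ge _ _ h]; exact h3

lemma dg_add (c : PCol G l) (T : V → V) (mT : Measurable T) (iT : ∀ x, T (T x) = x)
    (aT : ∀ x, T x ≠ x → (RG (toPC c)).Adj x (T x)) {r : ℕ} (hr : 1 ≤ r) (x : V)
    (hfin : (G.neighborSet x).Finite) (h1 : dg (RG (toPC c)) x ≤ r)
    (h2 : dg (RG (toPC c)) x = r → T x ≠ x) :
    dg (RG (toPC (add c T mT iT aT))) x ≤ r - 1 := by
  have hfR : ((RG (toPC c)).neighborSet x).Finite := hfin.subset fun y hy => hy.1
  have hset : (RG (toPC (add c T mT iT aT))).neighborSet x =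
      (RG (toPC c)).neighborSet x \ {T x} := by
    ext y
    rw [SimpleGraph.mem_neighborSet, RG_add, mem_diff, SimpleGraph.mem_neighborSet,
      mem_singleton_iff]
    exact and_congr_right fun _ => ⟨fun h h' => h h'.symm, fun h h' => h h'.symm⟩
  unfold dg at h1 h2 ⊢
  rw [hset]
  by_cases he : ((RG (toPC c)).neighborSet x).ncard = r
  · have hT := h2 he
    have hmem : T x ∈ (RG (toPC c)).neighborSet x := aT x hT
    rw [ncard_diff_singleton_of_mem hmem, he]
  · have hle : ((RG (toPC c)).neighborSet x \ {T x}).ncard ≤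
        ((RG (toPC c)).neighborSet x).ncard := ncard_le_ncard diff_subset hfR
    omega

end CLIMB_

theorem allCLIMB (h_ORB : tORB.{u}) (h_MAT : tMAT.{u}) (h_MES : tMES.{u}) : tCLIMB.{u} := by
  intro V _ _ G m e μ _ Δ l r hLab hInv hPX hr c h1 h2
  have hmR : MeasurableSet {p : V × V | (RG (toPC c)).Adj p.1 p.2} :=
    (h_MES V G m l e c hLab).2.2.1
  obtain ⟨f, g, mf, mg, hf, hg, hcov, horb⟩ :=
    h_ORB V G m e μ r hLab hInv hr (RG (toPC c)) (CLIMB_.RG_le _) hmR h1 h2
  obtain ⟨χ, hχ⟩ := hPX.bip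
  obtain ⟨T, mT, iT, aT, cT⟩ :=
    h_MAT V (RG (toPC c)) χ f g (fun x y hxy => hχ x y hxy.1) mf mg hf hg
  refine ⟨CLIMB_.add c T mT iT aT, ?_⟩
  filter_upwards [h1, hcov, horb] with x hx1 hx2 hx3
  exact CLIMB_.dg_add c T mT iT aT hr x (hPX.fin x) hx1 fun he => cT x hx3 (hx2 he)

end Pool.Agent.MEO
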