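import Pool.Agent.MEO.Targets
import Pool.Agent.MEC.Complete

set_option autoImplicit false

/-! MP_fff3e1_lc, A9: the states form a complete space. -/

namespace Pool.Agent.MEO

universe u

open Pool.Agent.MEC Pool.Agent.MEP MeasureTheory Set Filter

theorem allCMP : tCMP.{u} := by
  intro V _ _ G l μ _ Q c hQ hs
  refine ⟨PCol.lim c, ?_, fun n => PCol.dst_lim_le c hs n⟩
  have hQ' : ∀ᵐ x ∂μ, ∀ n, Q x fun k => (c n).S k x := ae_all_iff.2 hQ
  filter_upwards [hQ', PCol.ae_eventually_eq_lim (ν := μ) c hs] with x hx hlim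
  obtain ⟨n, hn⟩ := (eventually_all.2 hlim).exists
  have h := hx n
  have he : (fun k => (PCol.lim c).S k x) = fun k => (c n).S k x := by
    funext k
    exact (hn k).symm
  rw [he]
  exact h

end Pool.Agent.MEO
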