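import Pool.Agent.MEO.Targets
import Pool.Agent.MEP.Walk

set_option autoImplicit false

/-! C4: the closure count. -/

namespace Pool.Agent.MEO

open MeasureTheory Set Filter
open scoped ENNReal
open Pool.Agent.MEC
open Pool.Agent.MEP

universe u

namespace CNT_

variable {V : Type u}

/-- points in no `TS n b` -/
def Out (G R : SimpleGraph V) (Δ l r : ℕ) (X : Set V) (b : Bool) : Set V :=
  {x | ∀ n, x ∉ TS G R Δ l r X n b}

lemma ex_adj {G R : SimpleGraph V} {Δ l r : ℕ} {X : Set V} {x s : V}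
    (hx : x ∈ Out G R Δ l r X true) (h : R.Adj x s) : s ∈ Out G R Δ l r X false := by
  intro n hn
  exact hx (n + 1) (Or.inr ⟨s, hn, h⟩)

lemma de_adj {G R : SimpleGraph V} {Δ l r : ℕ} {X : Set V} {s t : V}
    (hs : s ∈ Out G R Δ l r X false) (h : G.Adj s t) (h' : ¬ R.Adj s t) :
    t ∈ Out G R Δ l r X true := by
  intro n hn
  exact hs (n + 1) (Or.inr ⟨t, hn, h, h'⟩)

variable [MeasurableSpace V] {G : SimpleGraph V} {m : ℕ}

lemma ms_ex (e : PCol G m) (he : Lab e) (K : V → V → Prop) (hK : ∀ x y, K x y → G.Adj x y)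
    (hm : MeasurableSet {p : V × V | K p.1 p.2}) {A : Set V} (hA : MeasurableSet A) :
    MeasurableSet {x | ∃ s ∈ A, K x s} := by
  have h0 : {x | ∃ s ∈ A, K x s} = ⋃ k, {x | e.S k x ∈ A ∧ K x (e.S k x)} := by
    ext x
    simp only [mem_ofPred_eq, mem_iUnion]
    constructor
    · rintro ⟨s, hs, h⟩
      obtain ⟨k, hk⟩ := he x s (hK _ _ h)
      exact ⟨k, by rw [hk]; exact ⟨hs, h⟩⟩
    · rintro ⟨k, h1, h2⟩
      exact ⟨_, h1, h2⟩
  rw [h0]
  refine MeasurableSet.iUnion fun k => ?_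
  exact ((e.meas k) hA).inter ((measurable_id.prodMk (e.meas k)) hm)

lemma ms_TS (e : PCol G m) (he : Lab e) (R : SimpleGraph V) (Δ l r : ℕ) (X : Set V)
    (hRG : R ≤ G) (hR : MeasurableSet {p : V × V | R.Adj p.1 p.2})
    (hG : MeasurableSet {p : V × V | G.Adj p.1 p.2}) (hX : MeasurableSet X)
    (dR : Measurable (dg R)) (dG : Measurable (dg G)) (n : ℕ) :
    MeasurableSet (TS G R Δ l r X n true) ∧ MeasurableSet (TS G R Δ l r X n false) := by
  induction n with
  | zero =>
    refine ⟨?_, ?_⟩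
    · exact (measurableSet_lt dR measurable_const).union
        (hX.inter (measurableSet_eq_fun dG measurable_const))
    · exact measurableSet_lt dG (dR.add_const l)
  | succ n ih =>
    refine ⟨?_, ?_⟩
    · exact ih.1.union (ms_ex e he (fun x y => R.Adj x y) (fun x y h => hRG h) hR ih.2)
    · exact ih.2.union (ms_ex e he (fun x y => G.Adj x y ∧ ¬ R.Adj x y) (fun x y h => h.1)
        (hG.inter hR.compl) ih.1)

lemma ms_Out (e : PCol G m) (he : Lab e) (R : SimpleGraph V) (Δ l r : ℕ) (X : Set V)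
    (hRG : R ≤ G) (hR : MeasurableSet {p : V × V | R.Adj p.1 p.2})
    (hG : MeasurableSet {p : V × V | G.Adj p.1 p.2}) (hX : MeasurableSet X)
    (dR : Measurable (dg R)) (dG : Measurable (dg G)) (b : Bool) :
    MeasurableSet (Out G R Δ l r X b) := by
  have h0 : Out G R Δ l r X b = ⋂ n, (TS G R Δ l r X n b)ᶜ := by
    ext x
    simp [Out]
  rw [h0]
  refine MeasurableSet.iInter fun n => MeasurableSet.compl ?_
  have := ms_TS e he R Δ l r X hRG hR hG hX dR dG n
  cases b
  · exact this.2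
  · exact this.1

omit [MeasurableSpace V] in
/-- a set of neighbours, with `dg` -/
lemma encard_nb (R : SimpleGraph V) (x : V) (h : (R.neighborSet x).Finite) :
    (R.neighborSet x).encard = (dg R x : ℕ∞) := by
  rw [dg, h.cast_ncard_eq]

omit [MeasurableSpace V] in
lemma dg_sdiff (G R : SimpleGraph V) (hRG : R ≤ G) (x : V) (h : (G.neighborSet x).Finite) :
    {y | G.Adj x y ∧ ¬ R.Adj x y}.encard + (dg R x : ℕ∞) = (dg G x : ℕ∞) := by
  have h1 : (R.neighborSet x) ⊆ G.neighborSet x := fun y hy => hRG hy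
  rw [← encard_nb R x (h.subset h1), ← encard_nb G x h]
  have h2 : {y | G.Adj x y ∧ ¬ R.Adj x y} = G.neighborSet x \ R.neighborSet x := rfl
  rw [h2]
  exact encard_sdiff_add_encard_of_subset h1

lemma mem_Cm (e : PCol G m) (he : Lab e) {x y : V} (h : G.Adj x y) : y ∈ Cm e x := by
  obtain ⟨k, hk⟩ := he x y h
  refine ⟨[k], ?_⟩
  rw [← hk]
  rfl

end CNT_

open CNT_

theorem allCNT (h_MTP : tMTP.{u}) (h_MES : tMES.{u}) : tCNT.{u} := by
  intro V _ _ G m e μ _ Δ l r he hI hP hlr hl hr R X hRG hR hX had hXr hXc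
  obtain ⟨hG, hMd, -⟩ := h_MES V G m m e e he
  have dR : Measurable (dg R) := measurable_to_countable' fun j => (hMd R hRG hR).1 j
  have dG : Measurable (dg G) := measurable_to_countable' fun j => (hMd G le_rfl hG).1 j
  set Ex := Out G R Δ l r X true with hExd
  set De := Out G R Δ l r X false with hDed
  have mEx : MeasurableSet Ex := ms_Out e he R Δ l r X hRG hR hG hX dR dG true
  have mDe : MeasurableSet De := ms_Out e he R Δ l r X hRG hR hG hX dR dG false
  have finG : ∀ x, (G.neighborSet x).Finite := hP.fin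
  have finR : ∀ x, (R.neighborSet x).Finite := fun x => (finG x).subset fun y hy => hRG hy
  -- the two transports
  set K1 : Set (V × V) := {p | p.1 ∈ Ex ∧ R.Adj p.1 p.2} with hK1
  set K2 : Set (V × V) := {p | p.1 ∈ De ∧ G.Adj p.1 p.2 ∧ ¬ R.Adj p.1 p.2} with hK2
  have mK1 : MeasurableSet K1 := (measurable_fst mEx).inter hR
  have mK2 : MeasurableSet K2 := (measurable_fst mDe).inter (hG.inter hR.compl)
  obtain ⟨ma1, mb1, e1⟩ := h_MTP V G m e μ hI K1 mK1 (fun p hp => mem_Cm e he (hRG hp.2))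
  obtain ⟨ma2, mb2, e2⟩ := h_MTP V G m e μ hI K2 mK2 (fun p hp => mem_Cm e he hp.2.1)
  have r0 : (r : ℝ≥0∞) ≠ 0 := by
    have : r ≠ 0 := by omega
    exact_mod_cast this
  have l0 : (l : ℝ≥0∞) ≠ 0 := by
    have : l ≠ 0 := by omega
    exact_mod_cast this
  have a1 : ∀ᵐ x ∂μ, ({y | (x, y) ∈ K1}.encard : ℝ≥0∞) =
      Ex.indicator (fun _ => (r : ℝ≥0∞)) x := by
    filter_upwards [had] with x hx
    by_cases h : x ∈ Ex
    · have h1 : {y | (x, y) ∈ K1} = R.neighborSet x := by
        ext y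
        simp [hK1, h]
      have h2 : ¬ dg R x < r := fun hh => h 0 (Or.inl hh)
      rw [indicator_of_mem h, h1, encard_nb R x (finR x), show dg R x = r by omega]
      simp
    · have h1 : {y | (x, y) ∈ K1} = ∅ := by
        ext y
        simp [hK1, h]
      rw [indicator_of_notMem h, h1]
      simp
  have b1 : ∀ᵐ y ∂μ, ({x | (x, y) ∈ K1}.encard : ℝ≥0∞) ≤
      De.indicator (fun _ => (r : ℝ≥0∞)) y := by
    filter_upwards [had] with y hy
    by_cases h : y ∈ De
    · have h1 : {x | (x, y) ∈ K1} ⊆ R.neighborSet y := fun x hx => hx.2.symm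
      rw [indicator_of_mem h]
      have h2 := encard_le_encard h1
      rw [encard_nb R y (finR y)] at h2
      have h3 : {x | (x, y) ∈ K1}.encard ≤ (r : ℕ∞) := h2.trans (by exact_mod_cast hy.1)
      exact_mod_cast h3
    · have h1 : {x | (x, y) ∈ K1} = ∅ := by
        ext x
        simp only [hK1, mem_ofPred_eq, mem_empty_iff_false, iff_false, not_and]
        intro hx hxy
        exact h (ex_adj hx hxy)
      rw [h1]
      simp
  have a2 : ∀ᵐ x ∂μ, ({y | (x, y) ∈ K2}.encard : ℝ≥0∞) =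
      De.indicator (fun _ => (l : ℝ≥0∞)) x := by
    filter_upwards [had] with x hx
    by_cases h : x ∈ De
    · have h1 : {y | (x, y) ∈ K2} = {y | G.Adj x y ∧ ¬ R.Adj x y} := by
        ext y
        simp [hK2, h]
      have h2 : ¬ dg G x < dg R x + l := fun hh => h 0 hh
      have h3 := dg_sdiff G R hRG x (finG x)
      have h4 : dg G x = dg R x + l := by omega
      have h5 : {y | G.Adj x y ∧ ¬ R.Adj x y}.encard = (l : ℕ∞) := by
        rw [h4] at h3
        push_cast at h3
        rw [add_comm (dg R x : ℕ∞)] at h3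
        exact ENat.add_left_injective_of_ne_top (ENat.natCast_ne_top _) h3
      rw [indicator_of_mem h, h1, h5]
      simp
    · have h1 : {y | (x, y) ∈ K2} = ∅ := by
        ext y
        simp [hK2, h]
      rw [indicator_of_notMem h, h1]
      simp
  have b2' : ∀ᵐ y ∂μ, {x | (x, y) ∈ K2}.encard ≤ (l : ℕ∞) ∧
      {x | (x, y) ∈ K2}.encard + (dg R y : ℕ∞) ≤ (dg G y : ℕ∞) := by
    filter_upwards [had] with y hy
    have h1 : {x | (x, y) ∈ K2} ⊆ {x | G.Adj y x ∧ ¬ R.Adj y x} :=
      fun x hx => ⟨hx.2.1.symm, fun hh => hx.2.2 hh.symm⟩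
    have h3 := dg_sdiff G R hRG y (finG y)
    have h4 : {x | (x, y) ∈ K2}.encard + (dg R y : ℕ∞) ≤ (dg G y : ℕ∞) := by
      rw [← h3]
      gcongr
    refine ⟨?_, h4⟩
    have h5 : (dg G y : ℕ∞) ≤ (l : ℕ∞) + (dg R y : ℕ∞) := by
      have : dg G y ≤ l + dg R y := by omega
      exact_mod_cast this
    exact (ENat.add_le_add_iff_right (ENat.natCast_ne_top _)).1 (h4.trans h5)
  have b2 : ∀ᵐ y ∂μ, ({x | (x, y) ∈ K2}.encard : ℝ≥0∞) ≤
      Ex.indicator (fun _ => (l : ℝ≥0∞)) y := by
    filter_upwards [b2'] with y hy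
    by_cases h : y ∈ Ex
    · rw [indicator_of_mem h]
      exact_mod_cast hy.1
    · have h1 : {x | (x, y) ∈ K2} = ∅ := by
        ext x
        simp only [hK2, mem_ofPred_eq, mem_empty_iff_false, iff_false, not_and, not_not]
        intro hx hxy
        by_contra hn
        exact h (de_adj hx hxy hn)
      rw [h1]
      simp
  have i1 : (r : ℝ≥0∞) * μ Ex ≤ r * μ De := by
    rw [← lintegral_indicator_const mEx, ← lintegral_indicator_const mDe,
      ← lintegral_congr_ae a1, e1]
    exact lintegral_mono_ae b1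
  have i2 : (l : ℝ≥0∞) * μ De ≤ l * μ Ex := by
    rw [← lintegral_indicator_const mEx, ← lintegral_indicator_const mDe,
      ← lintegral_congr_ae a2, e2]
    exact lintegral_mono_ae b2
  have j1 : μ Ex ≤ μ De := (ENNReal.mul_le_mul_iff_right r0 (ENNReal.natCast_ne_top r)).1 i1
  have j2 : μ De ≤ μ Ex := (ENNReal.mul_le_mul_iff_right l0 (ENNReal.natCast_ne_top l)).1 i2
  have jj : μ Ex = μ De := le_antisymm j1 j2
  have fin1 : ∀ (n : ℕ) (A : Set V), MeasurableSet A →
      ∫⁻ x, A.indicator (fun _ => (n : ℝ≥0∞)) x ∂μ ≠ ∞ := by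
    intro n A hA
    rw [lintegral_indicator_const hA]
    exact ENNReal.mul_ne_top (ENNReal.natCast_ne_top n) (measure_ne_top μ A)
  have q1 : ∀ᵐ y ∂μ, ({x | (x, y) ∈ K1}.encard : ℝ≥0∞) =
      De.indicator (fun _ => (r : ℝ≥0∞)) y := by
    refine ae_eq_of_ae_le_of_lintegral_le b1 ?_ ?_ ?_
    · rw [← e1, lintegral_congr_ae a1]
      exact fin1 r Ex mEx
    · exact (measurable_const.indicator mDe).aemeasurable
    · rw [← e1, lintegral_congr_ae a1, lintegral_indicator_const mEx,
        lintegral_indicator_const mDe, jj]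
  have q2 : ∀ᵐ y ∂μ, ({x | (x, y) ∈ K2}.encard : ℝ≥0∞) =
      Ex.indicator (fun _ => (l : ℝ≥0∞)) y := by
    refine ae_eq_of_ae_le_of_lintegral_le b2 ?_ ?_ ?_
    · rw [← e2, lintegral_congr_ae a2]
      exact fin1 l De mDe
    · exact (measurable_const.indicator mEx).aemeasurable
    · rw [← e2, lintegral_congr_ae a2, lintegral_indicator_const mEx,
        lintegral_indicator_const mDe, jj]
  -- almost all points outside have degree Δ
  have s1 : ∀ᵐ t ∂μ, t ∈ Ex → dg G t = Δ := by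
    filter_upwards [q2, b2', had] with t h1 h2 h3 ht
    rw [indicator_of_mem ht] at h1
    have h4 : {x | (x, t) ∈ K2}.encard = (l : ℕ∞) := by exact_mod_cast h1
    rw [h4] at h2
    have h5 : l + dg R t ≤ dg G t := by exact_mod_cast h2.2
    have h6 : ¬ dg R t < r := fun hh => ht 0 (Or.inl hh)
    have h7 := hP.deg t
    omega
  have s2 : ∀ᵐ b ∂μ, ∀ k, e.S k b ∈ Ex → dg G (e.S k b) = Δ :=
    ae_all_iff.2 fun k => (mp_S hI e k).quasiMeasurePreserving.ae s1
  filter_upwards [q1, s2, had] with b h1 h2 h3 hbX hbd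
  by_contra hcon
  have hbD : b ∈ De := fun n hn => hcon ⟨n, hn⟩
  rw [indicator_of_mem hbD] at h1
  have h4 : {x | (x, b) ∈ K1}.encard = (r : ℕ∞) := by exact_mod_cast h1
  have h5 : {x | (x, b) ∈ K1}.Nonempty := by
    rw [← encard_ne_zero, h4]
    have : r ≠ 0 := by omega
    exact_mod_cast this
  obtain ⟨t, htE, htb⟩ := h5
  obtain ⟨k, hk⟩ := he b t (hRG htb.symm)
  have h6 : dg G t = Δ := by
    have := h2 k
    rw [hk] at this
    exact this htE
  exact htE 0 (Or.inr ⟨hXc b hbX t htb.symm, h6⟩)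

end Pool.Agent.MEO
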