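import Pool.Agent.MEO.Targets
import Pool.Agent.MEO.Base

set_option autoImplicit false

/-! MP_fff3e1_lc, invariant measures, no odd cycles: coded finite modifications (A4). -/

namespace Pool.Agent.MEO

open MeasureTheory Set Filter
open scoped ENNReal
open Pool.Agent.MEC
open Pool.Agent.MEP

universe u

namespace COD_

variable {V : Type u} [MeasurableSpace V] {G : SimpleGraph V} {l m : ℕ}

/-- the maps belonging to a code -/
noncomputable abbrev ph (e : PCol G m) (z : Cd m l) : z.1 → V → V :=
  fun w => (wd e w : V → V)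

lemma cbf_val {e : PCol G m} {c : PCol G l} {z : Cd m l} {b : V} (h : b ∈ Vld e c z)
    (k : Fin l) (x : V) :
    (cbf e c z b).S k x = GLUE_.gl (toPC c).S (ph e z) z.2 {b} k x := by
  unfold cbf
  rw [dif_pos h]
  rfl

lemma cbf_not {e : PCol G m} {c : PCol G l} {z : Cd m l} {b : V} (h : b ∉ Vld e c z)
    (k : Fin l) (x : V) : (cbf e c z b).S k x = c.S k x := by
  unfold cbf
  rw [dif_neg h]
  rfl

lemma cbf_pt {e : PCol G m} {c : PCol G l} {z : Cd m l} {b : V} (h : b ∈ Vld e c z)
    (k : Fin l) (j : z.1) :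
    (cbf e c z b).S k (wd e j b) = GLUE_.val c.S (ph e z) z.2 b j k := by
  rw [cbf_val h]
  exact GLUE_.gl_pt (c := toPC c) (φ := ph e z) (f := z.2) (B := {b})
    (by rintro x rfl; exact h) (GLUE_.Sep_single _ _ b) (mem_singleton b) j k

lemma cbf_off {e : PCol G m} {c : PCol G l} {z : Cd m l} {b x : V}
    (h : ∀ j : z.1, wd e j b ≠ x) (k : Fin l) : (cbf e c z b).S k x = c.S k x := by
  by_cases hb : b ∈ Vld e c z
  · rw [cbf_val hb]
    refine GLUE_.gl_off (c := toPC c) ?_
    rintro b' rfl j hj
    exact h j hj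
  · exact cbf_not hb k x

lemma mem_Rg {e : PCol G m} {z : Cd m l} {b x : V} :
    x ∈ Rg e z b ↔ ∃ j : z.1, wd e j b = x := by
  constructor
  · rintro ⟨w, hw, rfl⟩
    exact ⟨⟨w, hw⟩, rfl⟩
  · rintro ⟨j, rfl⟩
    exact ⟨j.1, j.2, rfl⟩

end COD_

open COD_

theorem allCOD (h_MES : tMES.{u}) : tCOD.{u} := by
  classical
  intro V _ _ G m l e c μ _ hlab hinv
  have hG : MeasurableSet {p : V × V | G.Adj p.1 p.2} := (h_MES V G m l e c hlab).1
  have hVld : ∀ z : Cd m l, MeasurableSet (Vld e c z) := fun z =>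
    GLUE_.measurableSet_Val c.meas (fun w : z.1 => wd e w) z.2 hG
  refine ⟨hVld, ?_, ?_, ?_, ?_⟩
  · -- codes exist
    intro b cb hfm W0
    have h1 : ∀ x ∈ {x | ∃ k, cb.S k x ≠ (toPC c).S k x}, ∃ w : List (Fin m), wd e w b = x := by
      rintro x ⟨k, hk⟩
      exact hfm.sub x k hk
    choose! g hg using h1
    let W : Finset (List (Fin m)) := W0 ∪ hfm.fin.toFinset.image g
    have hW : ∀ x k, cb.S k x ≠ (toPC c).S k x → ∃ j : W, wd e j b = x := by
      intro x k hk
      have h2 : x ∈ {x | ∃ k, cb.S k x ≠ (toPC c).S k x} := ⟨k, hk⟩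
      refine ⟨⟨g x, ?_⟩, hg x h2⟩
      refine Finset.mem_union_right _ (Finset.mem_image_of_mem _ ?_)
      rw [Set.Finite.mem_toFinset]
      exact h2
    let φ : W → V → V := fun w => (wd e w : V → V)
    let z : Cd m l := ⟨W, GLUE_.dat (toPC c).S φ cb.S b⟩
    have hz : b ∈ Vld e c z := GLUE_.Val_dat (toPC c) cb φ b hW
    refine ⟨z, Finset.subset_union_left, hz, ?_⟩
    intro k x
    by_cases hx : ∃ j : W, wd e j b = x
    · obtain ⟨j, rfl⟩ := hx
      have h3 : (cbf e c z b).S k (wd e j b) = GLUE_.val c.S (ph e z) z.2 b j k :=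
        cbf_pt (z := z) hz k j
      rw [h3]
      exact GLUE_.val_dat (toPC c) cb φ b hW j k
    · have h3 : ∀ j : z.1, wd e j b ≠ x := fun j hj => hx ⟨j, hj⟩
      rw [cbf_off h3]
      by_contra h4
      exact hx (hW x k (fun h5 => h4 h5.symm))
  · -- measurability
    intro z k w E hE
    have hv : ∀ j : z.1, Measurable fun b => GLUE_.val c.S (ph e z) z.2 b j k :=
      fun j => GLUE_.measurable_val (fun k => c.meas k) (fun w : z.1 => wd e w) z.2 j k
    have hD : ∀ j : z.1, MeasurableSet (Vld e c z ∩ {b | wd e j b = wd e w b}) := fun j =>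
      (hVld z).inter (measurableSet_eq_fun (wd e j).measurable (wd e w).measurable)
    have heq : (fun b => (cbf e c z b).S k (wd e w b)) ⁻¹' E =
        (⋃ j : z.1, (Vld e c z ∩ {b | wd e j b = wd e w b}) ∩
          ((fun b => GLUE_.val c.S (ph e z) z.2 b j k) ⁻¹' E)) ∪
        ((⋃ j : z.1, Vld e c z ∩ {b | wd e j b = wd e w b})ᶜ ∩
          (fun b => c.S k (wd e w b)) ⁻¹' E) := by
      ext b
      simp only [mem_preimage, mem_union, mem_iUnion, mem_inter_iff, mem_compl_iff, mem_ofPred_eq]
      by_cases hb : ∃ j : z.1, b ∈ Vld e c z ∧ wd e j b = wd e w b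
      · have hkey : ∀ j : z.1, b ∈ Vld e c z → wd e j b = wd e w b →
            (cbf e c z b).S k (wd e w b) = GLUE_.val c.S (ph e z) z.2 b j k := by
          intro j h1 h2
          rw [← h2]
          exact cbf_pt h1 k j
        constructor
        · intro h
          obtain ⟨j, h1, h2⟩ := hb
          left
          refine ⟨j, ⟨h1, h2⟩, ?_⟩
          rw [← hkey j h1 h2]
          exact h
        · rintro (⟨j, ⟨h1, h2⟩, h3⟩ | ⟨h1, -⟩)
          · rw [hkey j h1 h2]
            exact h3
          · exact absurd hb h1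
      · have hkey : (cbf e c z b).S k (wd e w b) = c.S k (wd e w b) := by
          by_cases h1 : b ∈ Vld e c z
          · exact cbf_off (fun j hj => hb ⟨j, h1, hj⟩) k
          · exact cbf_not h1 k _
        rw [hkey]
        constructor
        · intro h
          exact Or.inr ⟨hb, h⟩
        · rintro (⟨j, h1, -⟩ | ⟨-, h⟩)
          · exact absurd ⟨j, h1⟩ hb
          · exact h
    rw [heq]
    refine MeasurableSet.union (MeasurableSet.iUnion fun j => (hD j).inter (hv j hE)) ?_
    refine (MeasurableSet.iUnion fun j => hD j).compl.inter ?_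
    exact ((c.meas k).comp (wd e w).measurable) hE
  · -- changed points
    intro z b x k h
    rw [mem_Rg]
    by_contra h1
    exact h (cbf_off (fun j hj => h1 ⟨j, hj⟩) k)
  · -- gluing
    intro z
    let Sk : Fin l → V ≃ᵐ V := fun k => ofInvol (c.S k) (c.meas k) (c.invol k)
    let Θ : Finset (V ≃ᵐ V) :=
      (Finset.univ.image fun p : z.1 × z.1 => (wd e p.1).trans (wd e p.2).symm) ∪
      (Finset.univ.image fun p : z.1 × z.1 × Fin l =>
        ((wd e p.1).trans (Sk p.2.2)).trans (wd e p.2.1).symm)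
    have hmp : ∀ w : List (Fin m), MeasurePreserving (wd e w) μ μ := fun w => mp_wd hinv e w
    have hmS : ∀ k, MeasurePreserving (Sk k) μ μ := fun k => mp_S hinv c k
    refine ⟨Θ, ?_, ?_⟩
    · intro θ hθ
      rcases Finset.mem_union.1 hθ with h | h
      · obtain ⟨p, -, rfl⟩ := Finset.mem_image.1 h
        exact ((hmp p.2).symm).comp (hmp p.1)
      · obtain ⟨p, -, rfl⟩ := Finset.mem_image.1 h
        exact ((hmp p.2.1).symm).comp ((hmS p.2.2).comp (hmp p.1))
    · intro J hJ hJV hsp
      have hsep : GLUE_.Sep (toPC c).S (ph e z) J := by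
        refine ⟨?_, ?_⟩
        · intro i j b hb b' hb' h
          refine hsp ((wd e i).trans (wd e j).symm) ?_ b hb b' hb' ?_
          · exact Finset.mem_union_left _ (Finset.mem_image.2 ⟨(i, j), Finset.mem_univ _, rfl⟩)
          · change (wd e j).symm (wd e i b) = b'
            have h' : wd e i b = wd e j b' := h
            rw [h', MeasurableEquiv.symm_apply_apply]
        · intro i j k b hb b' hb' h
          refine hsp (((wd e i).trans (Sk k)).trans (wd e j).symm) ?_ b hb b' hb' ?_
          · exact Finset.mem_union_right _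
              (Finset.mem_image.2 ⟨(i, j, k), Finset.mem_univ _, rfl⟩)
          · change (wd e j).symm (c.S k (wd e i b)) = b'
            have h' : c.S k (wd e i b) = wd e j b' := h
            rw [h', MeasurableEquiv.symm_apply_apply]
      have hval : ∀ b ∈ J, GLUE_.Val G (toPC c).S (ph e z) z.2 b := fun b hb => hJV hb
      refine ⟨?_, ?_⟩
      · intro b hb b' hb' x hx hx'
        obtain ⟨j, hj⟩ := mem_Rg.1 hx
        obtain ⟨j', hj'⟩ := mem_Rg.1 hx'
        exact hsep.s1 j j' b hb b' hb' (hj.trans hj'.symm)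
      · let c' : PCol G l :=
          { S := (GLUE_.glP hval hsep).S
            meas := fun k => GLUE_.measurable_gl (φ := fun w : z.1 => wd e w) hJ hval hsep k
            invol := (GLUE_.glP hval hsep).invol
            adj := (GLUE_.glP hval hsep).adj
            disj := (GLUE_.glP hval hsep).disj }
        refine ⟨c', ?_, ?_⟩
        · intro b hb x hx k
          obtain ⟨j, rfl⟩ := mem_Rg.1 hx
          rw [cbf_pt (hJV hb)]
          exact GLUE_.gl_pt hval hsep hb j k
        · intro x hx k
          refine GLUE_.gl_off (c := toPC c) ?_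
          intro b hb j hj
          exact hx b hb (mem_Rg.2 ⟨j, hj⟩)

end Pool.Agent.MEO
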