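import Pool.Agent.MEO.Targets

set_option autoImplicit false

/-! E1: a graph without odd cycles has no odd closed walks, hence a 2-colouring. -/

namespace Pool.Agent.MEO

open Pool.Agent.MEC Pool.Agent.MEP MeasureTheory Set Filter

universe u

/-- a walk is a path or contains a nontrivial closed walk -/
theorem CYC_split {V : Type u} {G : SimpleGraph V} {x y : V} (p : G.Walk x y) :
    p.IsPath ∨ ∃ z, ∃ a : G.Walk x z, ∃ q : G.Walk z z, ∃ b : G.Walk z y,
      0 < q.length ∧ p.length = a.length + q.length + b.length := by
  classical
  induction p with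
  | nil => exact Or.inl SimpleGraph.Walk.IsPath.nil
  | @cons x v y h p ih =>
    rcases ih with hp | ⟨z, a, q, b, hq, hl⟩
    · by_cases hx : x ∈ p.support
      · right
        refine ⟨x, SimpleGraph.Walk.nil, SimpleGraph.Walk.cons h (p.takeUntil x hx),
          p.dropUntil x hx, by simp, ?_⟩
        have h1 := congrArg SimpleGraph.Walk.length (p.take_spec hx)
        rw [SimpleGraph.Walk.length_append] at h1
        simp only [SimpleGraph.Walk.length_cons, SimpleGraph.Walk.length_nil]
        omega
      · left
        exact (SimpleGraph.Walk.cons_isPath_iff h p).2 ⟨hp, hx⟩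
    · right
      refine ⟨z, SimpleGraph.Walk.cons h a, q, b, hq, ?_⟩
      simp only [SimpleGraph.Walk.length_cons]
      omega

/-- a path from `x` to `u` which uses the edge `u x` has length one -/
theorem CYC_one {V : Type u} {G : SimpleGraph V} {x w : V} (p : G.Walk x w) (hp : p.IsPath)
    (he : s(w, x) ∈ p.edges) : p.length = 1 := by
  cases p with
  | nil => simp at he
  | @cons _ v _ h p =>
    rw [SimpleGraph.Walk.cons_isPath_iff] at hp
    rw [SimpleGraph.Walk.edges_cons, List.mem_cons] at he
    rcases he with he | he
    · rw [Sym2.eq_iff] at he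
      rcases he with ⟨h1, h2⟩ | ⟨h1, -⟩
      · exact absurd h2 h.ne
      · subst h1
        rw [(SimpleGraph.Walk.isPath_iff_nil.1 hp.1).eq_nil]
        rfl
    · exact absurd (p.snd_mem_support_of_mem_edges he) hp.2

theorem CYC_even {V : Type u} {G : SimpleGraph V}
    (hG : ∀ (v : V) (p : G.Walk v v), p.IsCycle → Even p.length) :
    ∀ n : ℕ, ∀ (v : V) (p : G.Walk v v), p.length = n → Even p.length := by
  intro n
  induction n using Nat.strong_induction_on with
  | _ n ih =>
    intro v w hn
    cases w with
    | nil => simp
    | @cons _ x _ h p =>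
      rw [SimpleGraph.Walk.length_cons] at hn
      rcases CYC_split p with hp | ⟨z, a, q, b, hq, hl⟩
      · by_cases he : s(v, x) ∈ p.edges
        · have h1 := CYC_one p hp he
          rw [SimpleGraph.Walk.length_cons, h1]
          exact even_two
        · exact hG v _ ((SimpleGraph.Walk.cons_isCycle_iff p h).2 ⟨hp, he⟩)
      · have h1 : Even q.length := ih q.length (by omega) z q rfl
        have h2 : Even (SimpleGraph.Walk.cons h (a.append b)).length := by
          refine ih _ ?_ v _ rfl
          rw [SimpleGraph.Walk.length_cons, SimpleGraph.Walk.length_append]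
          omega
        rw [SimpleGraph.Walk.length_cons, SimpleGraph.Walk.length_append] at h2
        rw [SimpleGraph.Walk.length_cons, hl]
        have h3 : a.length + q.length + b.length + 1 = (a.length + b.length + 1) + q.length := by
          omega
        rw [h3]
        exact h2.add h1

theorem allCYC : tCYC.{u} := by
  intro V G hG
  have h2 : G.Colorable 2 :=
    SimpleGraph.two_colorable_iff_forall_loop_even.2 fun v w => CYC_even hG _ v w rfl
  obtain ⟨c⟩ := h2
  refine ⟨fun x => decide (c x = 0), fun x y hxy he => c.valid hxy ?_⟩
  have h3 : (c x = 0) ↔ (c y = 0) := by simpa using he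
  have h4 : ∀ i j : Fin 2, (i = 0 ↔ j = 0) → i = j := by decide
  exact h4 _ _ h3

end Pool.Agent.MEO
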