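import Pool.Agent.MEO.Targets
import Pool.Agent.MEO.Base

set_option autoImplicit false
set_option linter.unusedSectionVars false

/-! MP_fff3e1_lc, project MEO, target D7: the double cover satisfies the assumptions. -/

namespace Pool.Agent.MEO

open MeasureTheory Set Filter
open scoped ENNReal
open Pool.Agent.MEC
open Pool.Agent.MEP

universe u

namespace DKP_

/-! ### Involutions which are piecewise measure preserving -/

section pieces

variable {U : Type u} [MeasurableSpace U] [StandardBorelSpace U] {ν : Measure U} {n : ℕ}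

lemma pieces_le (g : Fin n → U → U) (hg : ∀ i, MeasurePreserving (g i) ν ν)
    (hgi : ∀ i x, g i (g i x) = x) (f : U → U) (hf : Measurable f) (hff : ∀ x, f (f x) = x)
    (hcov : ∀ x, ∃ i, f x = g i x) (B : Set U) (hB : MeasurableSet B) :
    ν (f ⁻¹' B) ≤ ν B := by
  classical
  set D : Fin n → Set U := fun i => {x | f x = g i x ∧ ∀ j, j < i → f x ≠ g j x} with hD
  have hDm : ∀ i, MeasurableSet (D i) := by
    intro i
    have h1 : D i = {x | f x = g i x} ∩ ⋂ j, {x | j < i → f x ≠ g j x} := by
      ext x
      simp [hD]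
    rw [h1]
    refine (measurableSet_eq_fun hf (hg i).measurable).inter (MeasurableSet.iInter fun j => ?_)
    by_cases hj : j < i
    · have : {x | j < i → f x ≠ g j x} = {x | f x = g j x}ᶜ := by
        ext x
        simp [hj]
      rw [this]
      exact (measurableSet_eq_fun hf (hg j).measurable).compl
    · have : {x | j < i → f x ≠ g j x} = univ := by
        ext x
        simp [hj]
      rw [this]
      exact MeasurableSet.univ
  have hDc : ∀ x, ∃ i, x ∈ D i := by
    intro x
    obtain ⟨i, hi⟩ := hcov x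
    obtain ⟨k, hk, hk'⟩ := WellFounded.has_min (wellFounded_lt (α := Fin n))
      {i | f x = g i x} ⟨i, hi⟩
    exact ⟨k, hk, fun j hj h => hk' j h hj⟩
  have hDd : ∀ x i j, x ∈ D i → x ∈ D j → i = j := by
    intro x i j hi hj
    rcases lt_trichotomy i j with h | h | h
    · exact absurd hi.1 (hj.2 i h)
    · exact h
    · exact absurd hj.1 (hi.2 j h)
  have h1 : f ⁻¹' B ⊆ ⋃ i, (g i ⁻¹' B) ∩ D i := by
    intro x hx
    obtain ⟨i, hi⟩ := hDc x
    refine mem_iUnion.2 ⟨i, ?_, hi⟩
    rw [mem_preimage, ← hi.1]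
    exact hx
  have h2 : ∀ i, ν ((g i ⁻¹' B) ∩ D i) = ν (B ∩ g i ⁻¹' D i) := by
    intro i
    have h3 : g i ⁻¹' ((g i ⁻¹' B) ∩ D i) = B ∩ g i ⁻¹' D i := by
      ext x
      simp [hgi]
    rw [← h3]
    exact ((hg i).measure_preimage
      (((hg i).measurable hB).inter (hDm i)).nullMeasurableSet).symm
  have h4 : Pairwise (Function.onFun Disjoint fun i => B ∩ g i ⁻¹' D i) := by
    intro i j hij
    rw [Function.onFun, Set.disjoint_left]
    rintro x ⟨-, hi⟩ ⟨-, hj⟩
    apply hij
    have e1 : f (g i x) = x := by rw [hi.1, hgi]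
    have e2 : f (g j x) = x := by rw [hj.1, hgi]
    have e3 : g i x = g j x := by rw [← hff (g i x), e1, ← hff (g j x), e2]
    refine hDd (g i x) i j hi ?_
    rw [e3]
    exact hj
  calc ν (f ⁻¹' B) ≤ ν (⋃ i, (g i ⁻¹' B) ∩ D i) := measure_mono h1
    _ ≤ ∑' i, ν ((g i ⁻¹' B) ∩ D i) := measure_iUnion_le _
    _ = ∑' i, ν (B ∩ g i ⁻¹' D i) := tsum_congr h2
    _ = ν (⋃ i, B ∩ g i ⁻¹' D i) :=
      (measure_iUnion h4 fun i => hB.inter ((hg i).measurable (hDm i))).symm
    _ ≤ ν B := measure_mono (iUnion_subset fun i => inter_subset_left)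

lemma mp_pieces (g : Fin n → U → U) (hg : ∀ i, MeasurePreserving (g i) ν ν)
    (hgi : ∀ i x, g i (g i x) = x) (f : U → U) (hf : Measurable f) (hff : ∀ x, f (f x) = x)
    (hcov : ∀ x, ∃ i, f x = g i x) : MeasurePreserving f ν ν := by
  refine ⟨hf, Measure.ext fun B hB => ?_⟩
  rw [Measure.map_apply hf hB]
  refine le_antisymm (pieces_le g hg hgi f hf hff hcov B hB) ?_
  have h := pieces_le g hg hgi f hf hff hcov (f ⁻¹' B) (hf hB)
  have h2 : f ⁻¹' (f ⁻¹' B) = B := by
    ext x
    simp [hff]
  rwa [h2] at h

end pieces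

/-! ### The measure on the double cover -/

section cover

variable {V : Type u} [MeasurableSpace V] {μ : Measure V}

lemma meas_mk (i : Bool) : Measurable fun x : V => (x, i) :=
  measurable_id.prodMk measurable_const

lemma dbl_apply {B : Set (V × Bool)} (hB : MeasurableSet B) :
    dbl μ B = μ {x | (x, false) ∈ B} + μ {x | (x, true) ∈ B} := by
  unfold dbl
  rw [Measure.add_apply, Measure.map_apply (meas_mk false) hB,
    Measure.map_apply (meas_mk true) hB]
  rfl

/-- the map which applies `s` and changes the copy -/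
def full (s : V → V) (p : V × Bool) : V × Bool := (s p.1, !p.2)

lemma meas_not : Measurable fun p : V × Bool => !p.2 :=
  (measurable_of_countable fun b : Bool => !b).comp measurable_snd

lemma meas_full {s : V → V} (hs : Measurable s) : Measurable (full s) :=
  (hs.comp measurable_fst).prodMk meas_not

lemma mp_full {s : V → V} (hs : MeasurePreserving s μ μ) :
    MeasurePreserving (full s) (dbl μ) (dbl μ) := by
  refine ⟨meas_full hs.measurable, Measure.ext fun B hB => ?_⟩
  rw [Measure.map_apply (meas_full hs.measurable) hB, dbl_apply (meas_full hs.measurable hB),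
    dbl_apply hB, add_comm]
  congr 1
  · exact hs.measure_preimage (s := {x | (x, false) ∈ B})
      (meas_mk false hB).nullMeasurableSet
  · exact hs.measure_preimage (s := {x | (x, true) ∈ B})
      (meas_mk true hB).nullMeasurableSet

lemma full_invol {s : V → V} (h : ∀ x, s (s x) = x) (p : V × Bool) : full s (full s p) = p := by
  unfold full
  simp [h]

lemma ae_dbl {P : V × Bool → Prop} (hP : MeasurableSet {p | P p})
    (h : ∀ i, ∀ᵐ x ∂μ, P (x, i)) : ∀ᵐ p ∂(dbl μ), P p := by
  have h1 : ∀ i, μ {x | ¬ P (x, i)} = 0 := fun i => ae_iff.1 (h i)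
  rw [ae_iff]
  have h2 : MeasurableSet {p : V × Bool | ¬ P p} := hP.compl
  rw [dbl_apply h2]
  have h3 := h1 false
  have h4 := h1 true
  change μ {x | ¬ P (x, false)} + μ {x | ¬ P (x, true)} = 0
  rw [h3, h4, add_zero]

variable {G : SimpleGraph V} {m : ℕ}

/-- edges of the double cover along the letter `k` -/
lemma adj_letter {R : SimpleGraph V} {F : Set V} {e : PCol G m} (hl : Lab e) (hR : R ≤ G)
    {p q : V × Bool} (h : (DK R F).Adj p q) : ∃ k, full (e.S k) p = q := by
  obtain ⟨k, hk⟩ := hl p.1 q.1 (hR h.1)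
  refine ⟨k, Prod.ext hk ?_⟩
  have h2 := h.2.1
  unfold full
  cases hp : p.2 <;> cases hq : q.2 <;> simp_all

lemma inv_DP [StandardBorelSpace V] {R : SimpleGraph V} {F : Set V} {e : PCol G m}
    (hl : Lab e) (hI : Inv G μ) (hR : R ≤ G) : Inv (DP R F) (dbl μ) := by
  intro f hf hff hadj
  set g : Fin (m + 2) → V × Bool → V × Bool :=
    Fin.cons id (Fin.cons (full id) fun k => full (e.S k)) with hgdef
  refine mp_pieces g ?_ ?_ f hf hff ?_
  · intro i
    refine Fin.cases ?_ (fun j => Fin.cases ?_ (fun k => ?_) j) i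
    · exact MeasurePreserving.id _
    · exact mp_full (MeasurePreserving.id μ)
    · exact mp_full (mp_S hI e k)
  · intro i
    refine Fin.cases ?_ (fun j => Fin.cases ?_ (fun k => ?_) j) i
    · exact fun x => rfl
    · exact full_invol fun _ => rfl
    · exact full_invol (e.invol k)
  · intro p
    by_cases hp : f p = p
    · exact ⟨0, hp⟩
    · rcases hadj p hp with h | ⟨h1, h2⟩
      · obtain ⟨k, hk⟩ := adj_letter hl hR h
        exact ⟨k.succ.succ, hk.symm⟩
      · refine ⟨(0 : Fin (m + 1)).succ, ?_⟩
        change f p = full id p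
        unfold full
        refine Prod.ext h1.symm ?_
        cases hp1 : p.2 <;> cases hq : (f p).2 <;> simp_all

lemma Inv_mono {K K' : SimpleGraph V} (h : K ≤ K') (hI : Inv K' μ) : Inv K μ :=
  fun f hf hff hadj => hI f hf hff fun x hx => h (hadj x hx)

/-! ### The labellings -/

open Classical in
/-- the letter `k` in the double cover -/
noncomputable def letS (R : SimpleGraph V) (F : Set V) (e : PCol G m) (k : Fin m)
    (p : V × Bool) : V × Bool :=
  if (DK R F).Adj p (full (e.S k) p) then full (e.S k) p else p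

lemma letS_pos {R : SimpleGraph V} {F : Set V} {e : PCol G m} {k : Fin m} {p : V × Bool}
    (h : (DK R F).Adj p (full (e.S k) p)) : letS R F e k p = full (e.S k) p := if_pos h

lemma letS_neg {R : SimpleGraph V} {F : Set V} {e : PCol G m} {k : Fin m} {p : V × Bool}
    (h : ¬ (DK R F).Adj p (full (e.S k) p)) : letS R F e k p = p := if_neg h

lemma letS_invol (R : SimpleGraph V) (F : Set V) (e : PCol G m) (k : Fin m) (p : V × Bool) :
    letS R F e k (letS R F e k p) = p := by
  by_cases h : (DK R F).Adj p (full (e.S k) p)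
  · rw [letS_pos h]
    have h2 : (DK R F).Adj (full (e.S k) p) (full (e.S k) (full (e.S k) p)) := by
      rw [full_invol (e.invol k)]
      exact h.symm
    rw [letS_pos h2, full_invol (e.invol k)]
  · rw [letS_neg h, letS_neg h]

lemma letS_adj {R : SimpleGraph V} {F : Set V} {e : PCol G m} {k : Fin m} {p : V × Bool}
    (h : letS R F e k p ≠ p) : (DK R F).Adj p (letS R F e k p) := by
  by_cases h1 : (DK R F).Adj p (full (e.S k) p)
  · rw [letS_pos h1]
    exact h1
  · exact absurd (letS_neg h1) h

lemma letS_ne {R : SimpleGraph V} {F : Set V} {e : PCol G m} {k : Fin m} {p : V × Bool}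
    (h : letS R F e k p ≠ p) : letS R F e k p = full (e.S k) p := by
  by_cases h1 : (DK R F).Adj p (full (e.S k) p)
  · exact letS_pos h1
  · exact absurd (letS_neg h1) h

lemma letS_disj {R : SimpleGraph V} {F : Set V} {e : PCol G m} {k k' : Fin m} {p : V × Bool}
    (h : letS R F e k p = letS R F e k' p) (h' : letS R F e k p ≠ p) : k = k' := by
  have h2 : letS R F e k' p ≠ p := by rwa [← h]
  have h3 := letS_adj h'
  rw [letS_ne h', letS_ne h2] at h
  rw [letS_ne h'] at h3
  have h4 : e.S k p.1 = e.S k' p.1 := congrArg Prod.fst h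
  have h5 : R.Adj p.1 (e.S k p.1) := h3.1
  exact e.disj k k' p.1 h4 (R.ne_of_adj h5).symm

lemma meas_letS {R : SimpleGraph V} {F : Set V} (e : PCol G m) (k : Fin m)
    (hR : MeasurableSet {p : V × V | R.Adj p.1 p.2}) (hF : MeasurableSet F) :
    Measurable (letS R F e k) := by
  classical
  have h1 : MeasurableSet {p : V × Bool | (DK R F).Adj p (full (e.S k) p)} := by
    have ha : MeasurableSet {p : V × Bool | R.Adj p.1 (e.S k p.1)} :=
      (measurable_fst.prodMk ((e.meas k).comp measurable_fst)) hR
    have hb : MeasurableSet {p : V × Bool | p.2 = false → p.1 ∈ F} := by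
      have : {p : V × Bool | p.2 = false → p.1 ∈ F} =
          {p : V × Bool | p.2 = false}ᶜ ∪ {p : V × Bool | p.1 ∈ F} := by
        ext p
        change (p.2 = false → p.1 ∈ F) ↔ (¬ p.2 = false ∨ p.1 ∈ F)
        tauto
      rw [this]
      exact (measurable_snd (measurableSet_singleton false)).compl.union (measurable_fst hF)
    have hc : MeasurableSet {p : V × Bool | (!p.2) = false → e.S k p.1 ∈ F} :=
      meas_full (e.meas k) hb
    have hd : {p : V × Bool | (DK R F).Adj p (full (e.S k) p)} =
        {p : V × Bool | R.Adj p.1 (e.S k p.1)} ∩ ({p : V × Bool | p.2 = false → p.1 ∈ F} ∩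
          {p : V × Bool | (!p.2) = false → e.S k p.1 ∈ F}) := by
      ext p
      constructor
      · rintro ⟨h1, -, h3, h4⟩
        exact ⟨h1, h3, h4⟩
      · rintro ⟨h1, h3, h4⟩
        refine ⟨h1, ?_, h3, h4⟩
        change p.2 ≠ !p.2
        cases p.2 <;> simp
    rw [hd]
    exact ha.inter (hb.inter hc)
  have h2 : letS R F e k = fun p => if (DK R F).Adj p (full (e.S k) p) then full (e.S k) p
      else p := by
    funext p
    unfold letS
    split_ifs <;> rfl
  rw [h2]
  exact Measurable.ite h1 (meas_full (e.meas k)) measurable_id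

/-- the labelling of the double cover -/
noncomputable def eK (R : SimpleGraph V) (F : Set V) (e : PCol G m)
    (hR : MeasurableSet {p : V × V | R.Adj p.1 p.2}) (hF : MeasurableSet F) :
    PCol (DK R F) m where
  S := letS R F e
  meas := fun k => meas_letS e k hR hF
  invol := letS_invol R F e
  adj := fun _ _ h => letS_adj h
  disj := fun _ _ _ h h' => letS_disj h h'

lemma lab_eK {R : SimpleGraph V} {F : Set V} {e : PCol G m} (hl : Lab e) (hle : R ≤ G)
    (hR : MeasurableSet {p : V × V | R.Adj p.1 p.2}) (hF : MeasurableSet F) :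
    Lab (eK R F e hR hF) := by
  intro p q h
  obtain ⟨k, hk⟩ := adj_letter hl hle h
  refine ⟨k, ?_⟩
  change letS R F e k p = q
  rw [letS_pos (by rw [hk]; exact h), hk]

lemma full_id_ne (p : V × Bool) : full id p ≠ p := by
  intro h
  have h2 : (!p.2) = p.2 := congrArg Prod.snd h
  cases hp : p.2 <;> simp [hp] at h2

/-- the labelling of the double cover with the edges joining the copies -/
noncomputable def eP (R : SimpleGraph V) (F : Set V) (e : PCol G m)
    (hR : MeasurableSet {p : V × V | R.Adj p.1 p.2}) (hF : MeasurableSet F) :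
    PCol (DP R F) (m + 1) where
  S := Fin.cons (full id) (letS R F e)
  meas := by
    intro k
    refine Fin.cases ?_ (fun j => ?_) k
    · exact meas_full measurable_id
    · exact meas_letS e j hR hF
  invol := by
    intro k
    refine Fin.cases ?_ (fun j => ?_) k
    · exact full_invol fun _ => rfl
    · exact letS_invol R F e j
  adj := by
    intro k
    refine Fin.cases ?_ (fun j => ?_) k
    · intro p _
      right
      refine ⟨rfl, ?_⟩
      change p.2 ≠ !p.2
      cases p.2 <;> simp
    · intro p h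
      exact Or.inl (letS_adj h)
  disj := by
    have key : ∀ (j : Fin m) (p : V × Bool), full id p ≠ letS R F e j p := by
      intro j p h
      have h1 : letS R F e j p ≠ p := by
        rw [← h]
        exact full_id_ne p
      have h2 := letS_adj h1
      rw [← h] at h2
      exact R.ne_of_adj h2.1 rfl
    intro k k' p
    refine Fin.cases (Fin.cases ?_ (fun j' => ?_) k') (fun j => Fin.cases ?_ (fun j' => ?_) k') k
    · exact fun _ _ => rfl
    · intro h _
      exact absurd h (key j' p)
    · intro h _
      exact absurd h.symm (key j p)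
    · intro h h'
      exact congrArg Fin.succ (letS_disj h h')

lemma lab_eP {R : SimpleGraph V} {F : Set V} {e : PCol G m} (hl : Lab e) (hle : R ≤ G)
    (hR : MeasurableSet {p : V × V | R.Adj p.1 p.2}) (hF : MeasurableSet F) :
    Lab (eP R F e hR hF) := by
  intro p q h
  rcases h with h | ⟨h1, h2⟩
  · obtain ⟨k, hk⟩ := lab_eK hl hle hR hF p q h
    exact ⟨k.succ, hk⟩
  · refine ⟨0, ?_⟩
    change full id p = q
    unfold full
    refine Prod.ext h1 ?_
    cases hp : p.2 <;> cases hq : q.2 <;> simp_all

/-! ### Degrees -/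

lemma dg_left {R : SimpleGraph V} {F : Set V} {x : V} (hx : x ∈ F) :
    dg (DK R F) (x, false) = dg R x := by
  unfold dg
  have h : (DK R F).neighborSet (x, false) = (fun y => (y, true)) '' R.neighborSet x := by
    ext ⟨y, i⟩
    constructor
    · rintro ⟨h1, h2, -, -⟩
      cases i with
      | true => exact ⟨y, h1, rfl⟩
      | false => exact absurd rfl h2
    · rintro ⟨z, hz, h⟩
      obtain ⟨rfl, rfl⟩ := Prod.mk.inj h
      exact ⟨hz, by simp, fun _ => hx, fun h => by simp at h⟩
  rw [h, ncard_image_of_injective _ (fun a b hab => congrArg Prod.fst hab)]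

lemma dg_le_fst {R : SimpleGraph V} {F : Set V} {p : V × Bool}
    (hfin : (R.neighborSet p.1).Finite) : dg (DK R F) p ≤ dg R p.1 := by
  unfold dg
  have h : (DK R F).neighborSet p ⊆ (fun y => (y, !p.2)) '' R.neighborSet p.1 := by
    rintro ⟨y, i⟩ ⟨h1, h2, -, -⟩
    refine ⟨y, h1, Prod.ext rfl ?_⟩
    change p.2 ≠ i at h2
    change (!p.2) = i
    cases hp : p.2 <;> cases i <;> simp_all
  calc ((DK R F).neighborSet p).ncard ≤ ((fun y => (y, !p.2)) '' R.neighborSet p.1).ncard :=
        ncard_le_ncard h (hfin.image _)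
    _ ≤ (R.neighborSet p.1).ncard := ncard_image_le hfin

end cover

end DKP_

open DKP_ in
theorem allDKP (h_MES : tMES.{u}) : tDKP.{u} := by
  intro V _ _ G m e μ _ r hl hI hr R hRG hRm hdeg
  have hM : ∀ j, MeasurableSet {x | dg R x = j} := ((h_MES V G m m e e hl).2.1 R hRG hRm).1
  have hF := hM r
  refine ⟨⟨eK R {x | dg R x = r} e hRm hF, ?_⟩,
    eP R {x | dg R x = r} e hRm hF, lab_eP hl hRG hRm hF, inv_DP hl hI hRG⟩
  have hfin : ∀ x, (R.neighborSet x).Finite := fun x => fin_of_le hRG (hl.fin x)
  refine ⟨lab_eK hl hRG hRm hF, ?_, ?_, ?_, hr, ?_, ?_⟩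
  · refine Inv_mono (K' := DP R {x | dg R x = r}) ?_ (inv_DP hl hI hRG)
    intro p q h
    exact Or.inl h
  · exact (measurable_snd (measurableSet_singleton false)).inter (measurable_fst hF)
  · rintro ⟨x, i⟩ ⟨y, j⟩ ⟨-, h2, h3, h4⟩
    change i ≠ j at h2
    cases i <;> cases j <;> simp_all
  · refine Eventually.of_forall ?_
    rintro ⟨x, i⟩ ⟨h1, h2⟩
    change i = false at h1
    subst h1
    exact (dg_left (x := x) h2).trans h2
  · have h1 : MeasurableSet {p : V × Bool | dg R p.1 ≤ r} := by
      have h2 : {x | dg R x ≤ r} = ⋃ j ∈ Finset.range (r + 1), {x | dg R x = j} := by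
        ext x
        simp
      have h3 : MeasurableSet {x | dg R x ≤ r} := by
        rw [h2]
        exact Finset.measurableSet_biUnion _ fun j _ => hM j
      exact measurable_fst h3
    filter_upwards [ae_dbl h1 fun i => hdeg] with p hp _
    exact (dg_le_fst (hfin p.1)).trans hp

end Pool.Agent.MEO
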