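import Pool.Agent.MEO.Targets

set_option autoImplicit false

/-! B3: generic states exist. -/

namespace Pool.Agent.MEO

open MeasureTheory Set Filter
open scoped ENNReal
open Pool.Agent.MEC
open Pool.Agent.MEP

universe u

namespace GEN_

lemma real_sdiff_eq {V : Type u} [MeasurableSpace V] (μ : Measure V) [IsFiniteMeasure μ]
    {A B : Set V} (hA : MeasurableSet A) (hB : MeasurableSet B) :
    μ.real (A \ B) = μ.real A - μ.real B + μ.real (B \ A) := by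
  have h1 := measureReal_sdiff_add_inter (μ := μ) (s := A) hB
  have h2 := measureReal_sdiff_add_inter (μ := μ) (s := B) hA
  rw [inter_comm] at h2
  linarith

lemma exists_delta {ι : Type} [Finite ι] {P : ι → ℝ → Prop}
    (hm : ∀ i δ δ', δ' ≤ δ → P i δ → P i δ') (h : ∀ i, ∃ δ : ℝ, 0 < δ ∧ P i δ) :
    ∃ δ : ℝ, 0 < δ ∧ ∀ i, P i δ := by
  have h1 : ∀ i, ∀ᶠ δ in nhdsWithin (0 : ℝ) (Ioi 0), P i δ := by
    intro i
    obtain ⟨δ, hδ, hP⟩ := h i
    filter_upwards [Ioo_mem_nhdsGT hδ] with x hx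
    exact hm i δ x hx.2.le hP
  have h2 := eventually_all.2 h1
  have h3 : ∀ᶠ δ in nhdsWithin (0 : ℝ) (Ioi 0), 0 < δ := self_mem_nhdsWithin
  obtain ⟨δ, h4, h5⟩ := (h3.and h2).exists
  exact ⟨δ, h4, h5⟩

/-- abstract form: finitely many upper semicontinuous set valued functions -/
lemma abstract (h_BAI : tBAI.{u}) {V : Type u} [MeasurableSpace V] (μ : Measure V)
    [IsFiniteMeasure μ] (X : Type u) (d : X → X → ℝ) (h0 : ∀ x y, 0 ≤ d x y)
    (h1 : ∀ x, d x x = 0) (h2 : ∀ x y, d x y = d y x) (h3 : ∀ x y z, d x z ≤ d x y + d y z)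
    (h4 : ∀ c : ℕ → X, Summable (fun n => d (c n) (c (n + 1))) →
      ∃ t, ∀ n, d (c n) t ≤ ∑' m, d (c (n + m)) (c (n + m + 1)))
    (ι : Type) [Fintype ι] (F : ι → X → Set V) (hF : ∀ i x, MeasurableSet (F i x))
    (hu : ∀ i x, ∀ ε : ℝ, 0 < ε → ∃ δ : ℝ, 0 < δ ∧ ∀ y, d x y < δ →
      μ.real (F i y \ F i x) < ε) (x0 : X) :
    ∃ x, ∀ i, ∀ ε : ℝ, 0 < ε → ∃ δ : ℝ, 0 < δ ∧ ∀ y, d x y < δ →
      μ.real (F i x \ F i y) < ε := by
  classical
  have key : ∀ x, ∀ ε : ℝ, 0 < ε → ∃ δ : ℝ, 0 < δ ∧ ∀ y, d x y < δ →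
      ∑ i, μ.real (F i y \ F i x) < ε := by
    intro x ε hε
    have hc : 0 < ε / (Fintype.card ι + 1) := by positivity
    obtain ⟨δ, hδ, hP⟩ := exists_delta (P := fun i δ => ∀ y, d x y < δ →
      μ.real (F i y \ F i x) < ε / (Fintype.card ι + 1))
      (fun i δ δ' hle hP y hy => hP y (hy.trans_le hle)) (fun i => hu i x _ hc)
    refine ⟨δ, hδ, fun y hy => ?_⟩
    have h5 : ∑ i, μ.real (F i y \ F i x) ≤ ∑ _i : ι, ε / (Fintype.card ι + 1) :=
      Finset.sum_le_sum fun i _ => (hP i y hy).le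
    rw [Finset.sum_const, Finset.card_univ, nsmul_eq_mul] at h5
    refine h5.trans_lt ?_
    rw [mul_div_assoc', div_lt_iff₀ (by positivity)]
    nlinarith
  have heq : ∀ x y, ∑ i, μ.real (F i x \ F i y) = (∑ i, μ.real (F i x)) -
      (∑ i, μ.real (F i y)) + ∑ i, μ.real (F i y \ F i x) := by
    intro x y
    rw [← Finset.sum_sub_distrib, ← Finset.sum_add_distrib]
    exact Finset.sum_congr rfl fun i _ => real_sdiff_eq μ (hF i x) (hF i y)
  obtain ⟨x, hx⟩ := h_BAI X d h0 h1 h2 h3 h4 (fun x => ∑ i, μ.real (F i x))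
    (fun x => Finset.sum_nonneg fun _ _ => measureReal_nonneg) (by
      intro x ε hε
      obtain ⟨δ, hδ, hP⟩ := key x ε hε
      refine ⟨δ, hδ, fun y hy => ?_⟩
      have h5 := heq x y
      have h6 : 0 ≤ ∑ i, μ.real (F i x \ F i y) :=
        Finset.sum_nonneg fun _ _ => measureReal_nonneg
      have h7 := hP y hy
      linarith) x0
  refine ⟨x, fun i ε hε => ?_⟩
  obtain ⟨δ1, hδ1, hP1⟩ := hx (ε / 2) (half_pos hε)
  obtain ⟨δ2, hδ2, hP2⟩ := key x (ε / 2) (half_pos hε)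
  refine ⟨min δ1 δ2, lt_min hδ1 hδ2, fun y hy => ?_⟩
  have h5 := hP1 y (hy.trans_le (min_le_left _ _))
  have h6 := hP2 y (hy.trans_le (min_le_right _ _))
  have h7 : μ.real (F i x \ F i y) ≤ ∑ j, μ.real (F j x \ F j y) :=
    Finset.single_le_sum (f := fun j => μ.real (F j x \ F j y))
      (fun _ _ => measureReal_nonneg) (Finset.mem_univ i)
  have h8 := heq x y
  linarith

end GEN_

open GEN_

/-- B3 -/
theorem allGEN (h_BAI : tBAI.{u}) (h_CMP : tCMP.{u}) (h_UST : tUST.{u}) (h_UXX : tUXX.{u})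
    (h_MES : tMES.{u}) : tGEN.{u} := by
  classical
  intro V _ _ G m l e μ _ hlab hinv Q r ⟨c0, hc0⟩
  let X : Type u := {c : PCol G l // ∀ᵐ x ∂μ, Q x fun k => c.S k x}
  let F : Option {p : Fin l × Fin l // p.1 ≠ p.2} → X → Set V := fun i c =>
    match i with
    | none => XX (RG (toPC c.1)) r
    | some p => Bad (c.1.S p.1.1) (c.1.S p.1.2)
  have hF : ∀ i x, MeasurableSet (F i x) := by
    intro i x
    obtain ⟨h1, h2, h3, h4, h5⟩ := h_MES V G m l e x.1 hlab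
    cases i with
    | none => exact (h2 (RG (toPC x.1)) (fun _ _ h => h.1) h3).2.2 r
    | some p => exact h5 _ _ (x.1.meas _) (x.1.meas _)
  have hu : ∀ i x, ∀ ε : ℝ, 0 < ε → ∃ δ : ℝ, 0 < δ ∧ ∀ y : X, PCol.dst μ x.1 y.1 < δ →
      μ.real (F i y \ F i x) < ε := by
    intro i x ε hε
    cases i with
    | none =>
      obtain ⟨δ, hδ, hP⟩ := h_UXX V G m l e μ hlab hinv r x.1 ε hε
      exact ⟨δ, hδ, fun y hy => hP y.1 hy⟩
    | some p =>
      obtain ⟨δ, hδ, hP⟩ := h_UST V G l μ hinv p.1.1 p.1.2 x.1 ε hε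
      exact ⟨δ, hδ, fun y hy => hP y.1 hy⟩
  obtain ⟨x, hx⟩ := GEN_.abstract h_BAI μ X (fun a b => PCol.dst μ a.1 b.1)
    (fun a b => PCol.dst_nonneg a.1 b.1) (fun a => PCol.dst_self a.1)
    (fun a b => PCol.dst_comm a.1 b.1) (fun a b c => PCol.dst_triangle a.1 b.1 c.1)
    (by
      intro c hc
      obtain ⟨t, ht, h1⟩ := h_CMP V G l μ Q (fun n => (c n).1) (fun n => (c n).2) hc
      exact ⟨⟨t, ht⟩, h1⟩)
    _ F hF hu ⟨c0, hc0⟩
  refine ⟨x.1, x.2, ?_, ?_⟩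
  · intro g h hgh ε hε
    obtain ⟨δ, hδ, hP⟩ := hx (some ⟨(g, h), hgh⟩) ε hε
    exact ⟨δ, hδ, fun c' hc' hd => hP ⟨c', hc'⟩ hd⟩
  · intro ε hε
    obtain ⟨δ, hδ, hP⟩ := hx none ε hε
    exact ⟨δ, hδ, fun c' hc' hd => hP ⟨c', hc'⟩ hd⟩

end Pool.Agent.MEO
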