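import Pool.Agent.MEO.Targets
import Pool.Agent.MEO.Base

set_option autoImplicit false

/-! D3, D4 (counting for matchings) of the project MEO. -/

namespace Pool.Agent.MEO

open MeasureTheory Set Filter
open scoped ENNReal
open Pool.Agent.MEC
open Pool.Agent.MEP

universe u

namespace HKC_

section

variable {U : Type u} [MeasurableSpace U] {K : SimpleGraph U} {m r : ℕ} {e : PCol K m}
  {ν : Measure U} {L : Set U}

lemma encard_nbr (hl : Lab e) (x : U) : (K.neighborSet x).encard = (dg K x : ℕ∞) := by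
  unfold dg
  exact ((Lab.fin hl x).cast_ncard_eq).symm

/-- the count of the edges between `Z` and `T` -/
lemma core [StandardBorelSpace U] [IsFiniteMeasure ν] (h_MTP : tMTP.{u}) (h_MES : tMES.{u})
    (bk : BK K e ν L r) {Z T : Set U} (mZ : MeasurableSet Z) (mT : MeasurableSet T)
    (hZ : Z ⊆ L) (hT : ∀ y ∈ T, y ∉ L) (hZT : ∀ x ∈ Z, ∀ y, K.Adj x y → y ∈ T) :
    ν Z ≤ ν T ∧ (ν T ≤ ν Z → ∀ᵐ y ∂ν, y ∈ T → dg K y = r ∧ ∀ x, K.Adj y x → x ∈ Z) := by
  classical
  obtain ⟨mA, -, -, -, -⟩ := h_MES U K m m e e bk.lab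
  set S : Set (U × U) := {p | p.1 ∈ Z ∧ K.Adj p.1 p.2} with hS
  have mS : MeasurableSet S := (measurable_fst mZ).inter mA
  obtain ⟨-, -, h⟩ := h_MTP U K m e ν bk.inv S mS
    (fun p hp => Cm_adj bk.lab (Cm_self e _) hp.2)
  have hr0 : (r : ℝ≥0∞) ≠ 0 := by
    have := bk.rpos
    simp only [ne_eq, Nat.cast_eq_zero]
    omega
  have hrt : (r : ℝ≥0∞) ≠ ⊤ := ENNReal.natCast_ne_top r
  -- left side
  have e1 : (fun x => ({y | (x, y) ∈ S}.encard : ℝ≥0∞)) =ᵐ[ν]
      Z.indicator (fun _ => (r : ℝ≥0∞)) := by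
    filter_upwards [bk.dL] with x hx
    by_cases hxZ : x ∈ Z
    · rw [indicator_of_mem hxZ]
      have h1 : {y | (x, y) ∈ S} = K.neighborSet x := by
        ext y
        exact ⟨fun hy => hy.2, fun hy => ⟨hxZ, hy⟩⟩
      rw [h1, encard_nbr bk.lab, hx (hZ hxZ)]
      simp
    · rw [indicator_of_notMem hxZ]
      have h1 : {y | (x, y) ∈ S} = ∅ := by
        ext y
        simp only [mem_ofPred_eq, mem_empty_iff_false, iff_false]
        exact fun hy => hxZ hy.1
      rw [h1]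
      simp
  have i1 : ∫⁻ x, ({y | (x, y) ∈ S}.encard : ℝ≥0∞) ∂ν = r * ν Z := by
    rw [lintegral_congr_ae e1, lintegral_indicator_const mZ]
  -- right side
  have sub : ∀ y, {x | (x, y) ∈ S} ⊆ K.neighborSet y := fun y x hx => hx.2.symm
  have e2 : (fun y => ({x | (x, y) ∈ S}.encard : ℝ≥0∞)) ≤ᵐ[ν]
      T.indicator (fun _ => (r : ℝ≥0∞)) := by
    filter_upwards [bk.dR] with y hy
    by_cases hyT : y ∈ T
    · rw [indicator_of_mem hyT]
      have h1 : {x | (x, y) ∈ S}.encard ≤ (r : ℕ∞) := by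
        refine (encard_le_encard (sub y)).trans ?_
        rw [encard_nbr bk.lab]
        exact_mod_cast hy (hT y hyT)
      exact_mod_cast ENat.toENNReal_le.2 h1
    · rw [indicator_of_notMem hyT]
      have h1 : {x | (x, y) ∈ S} = ∅ := by
        ext x
        simp only [mem_ofPred_eq, mem_empty_iff_false, iff_false]
        exact fun hx => hyT (hZT x hx.1 y hx.2)
      rw [h1]
      simp
  have i2 : ∫⁻ y, T.indicator (fun _ => (r : ℝ≥0∞)) y ∂ν = r * ν T := by
    rw [lintegral_indicator_const mT]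
  refine ⟨?_, fun hle => ?_⟩
  · have h1 : (r : ℝ≥0∞) * ν Z ≤ r * ν T := by
      rw [← i1, ← i2, h]
      exact lintegral_mono_ae e2
    exact (ENNReal.mul_le_mul_iff_right hr0 hrt).1 h1
  · have h1 : (fun y => ({x | (x, y) ∈ S}.encard : ℝ≥0∞)) =ᵐ[ν]
        T.indicator (fun _ => (r : ℝ≥0∞)) := by
      refine ae_eq_of_ae_le_of_lintegral_le e2 ?_ ?_ ?_
      · rw [← h, i1]
        exact ENNReal.mul_ne_top hrt (measure_ne_top _ _)
      · exact (measurable_const.indicator mT).aemeasurable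
      · rw [i2, ← h, i1]
        gcongr
    filter_upwards [h1, bk.dR] with y hy hd hyT
    rw [indicator_of_mem hyT] at hy
    have h2 : {x | (x, y) ∈ S}.encard = (r : ℕ∞) := by
      exact_mod_cast hy
    have h3 : (K.neighborSet y).encard ≤ {x | (x, y) ∈ S}.encard := by
      rw [h2, encard_nbr bk.lab]
      exact_mod_cast hd (hT y hyT)
    have h4 : {x | (x, y) ∈ S} = K.neighborSet y :=
      (Lab.fin bk.lab y).eq_of_subset_of_encard_le' (sub y) h3
    refine ⟨?_, fun x hx => ?_⟩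
    · rw [h4, encard_nbr bk.lab] at h2
      exact_mod_cast h2
    · have h5 : x ∈ {x | (x, y) ∈ S} := by
        rw [h4]
        exact hx
      exact h5.1

/-- the set of the points with a neighbour in `A` is measurable -/
lemma meas_nbr [MeasurableEq U] (hl : Lab e) {A : Set U} (mA : MeasurableSet A) :
    MeasurableSet {x | ∃ y, K.Adj x y ∧ y ∈ A} := by
  have h1 : {x | ∃ y, K.Adj x y ∧ y ∈ A} = ⋃ k : Fin m, {x | e.S k x ∈ A ∧ e.S k x ≠ x} := by
    ext x
    simp only [mem_ofPred_eq, mem_iUnion]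
    constructor
    · rintro ⟨y, h1, h2⟩
      obtain ⟨k, rfl⟩ := hl x y h1
      exact ⟨k, h2, fun h => h1.ne h.symm⟩
    · rintro ⟨k, h1, h2⟩
      exact ⟨e.S k x, e.adj k x h2, h1⟩
  rw [h1]
  refine MeasurableSet.iUnion fun k => ?_
  exact (e.meas k mA).inter (measurableSet_eq_fun (e.meas k) measurable_id).compl

lemma meas_EL [MeasurableEq U] (hl : Lab e) (mL : MeasurableSet L) {s : U → U}
    (ms : Measurable s) (j : ℕ) : MeasurableSet (EL K L s j) := by
  induction j with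
  | zero => exact mL.compl.inter (measurableSet_eq_fun ms measurable_id)
  | succ j ih =>
    refine mL.compl.inter ((measurableSet_eq_fun ms measurable_id).union ?_)
    exact ms (meas_nbr hl ih)

end

end HKC_

open HKC_

theorem allHKC (h_MTP : tMTP.{u}) (h_MES : tMES.{u}) : tHKC.{u} := by
  intro U _ _ K m r e ν _ L bk M hM
  set E : ℕ → ℕ → Set U := fun n j => EL K L ((M n).S 0) j with hE
  have mE : ∀ n j, MeasurableSet (E n j) := fun n j => meas_EL bk.lab bk.mL ((M n).meas 0) j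
  set D : Set U := {y | ∀ n j, y ∈ E (n + 1) j → y ∈ E n j} with hD
  have hD0 : ν Dᶜ = 0 := by
    have h1 : ∀ᵐ y ∂ν, y ∈ D := ae_all_iff.2 hM
    exact h1
  set T : Set U := {y | y ∉ L ∧ ∀ j, ∃ n, y ∉ E n j} with hTdef
  set Zj : ℕ → Set U := fun j => {x | x ∈ L ∧ ∃ n, ∀ y, K.Adj x y → y ∉ E n j} with hZj
  set Z : Set U := ⋂ j, Zj j with hZdef
  have mT : MeasurableSet T := by
    have h1 : T = Lᶜ ∩ ⋂ j, ⋃ n, (E n j)ᶜ := by
      ext y
      simp [hTdef]
    rw [h1]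
    exact bk.mL.compl.inter (MeasurableSet.iInter fun j => MeasurableSet.iUnion fun n =>
      (mE n j).compl)
  have mZj : ∀ j, MeasurableSet (Zj j) := by
    intro j
    have h1 : Zj j = L ∩ ⋃ n, {x | ∃ y, K.Adj x y ∧ y ∈ E n j}ᶜ := by
      ext x
      simp only [hZj, mem_ofPred_eq, mem_inter_iff, mem_iUnion, mem_compl_iff, not_exists,
        not_and]
    rw [h1]
    exact bk.mL.inter (MeasurableSet.iUnion fun n => (meas_nbr bk.lab (mE n j)).compl)
  have mZ : MeasurableSet Z := MeasurableSet.iInter mZj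
  have anti : Antitone Zj := by
    refine antitone_nat_of_succ_le fun j => ?_
    rintro x ⟨h1, n, h2⟩
    exact ⟨h1, n, fun y hy hy' => h2 y hy (EL_succ j hy')⟩
  -- the transport
  have key : ∀ j, ν T ≤ ν (Zj j) := by
    intro j
    set A : ℕ → Set U := fun n => {y | y ∈ D ∧ y ∉ L ∧ y ∉ E n (j + 1)} with hA
    have monoA : Monotone A := by
      refine monotone_nat_of_le_succ fun n => ?_
      rintro y ⟨h1, h2, h3⟩
      exact ⟨h1, h2, fun h4 => h3 (h1 n (j + 1) h4)⟩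
    have h1 : T ⊆ (⋃ n, A n) ∪ Dᶜ := by
      intro y hy
      by_cases hyD : y ∈ D
      · left
        obtain ⟨n, hn⟩ := hy.2 (j + 1)
        exact mem_iUnion.2 ⟨n, hyD, hy.1, hn⟩
      · exact Or.inr hyD
    have h2 : ∀ n, ν (A n) ≤ ν (Zj j) := by
      intro n
      have h3 : A n ⊆ (M n).S 0 ⁻¹' Zj j := by
        rintro y ⟨-, h3, h4⟩
        have h5 : (M n).S 0 y ≠ y := fun h => h4 ⟨h3, Or.inl h⟩
        refine ⟨?_, n, fun y' h6 h7 => h4 ⟨h3, Or.inr ⟨y', h6, h7⟩⟩⟩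
        by_contra h6
        exact h3 ((bk.bip y _ ((M n).adj 0 y h5)).2 h6)
      refine (measure_mono h3).trans ?_
      rw [(mp_S bk.inv (M n) 0).measure_preimage (mZj j).nullMeasurableSet]
    calc ν T ≤ ν ((⋃ n, A n) ∪ Dᶜ) := measure_mono h1
      _ ≤ ν (⋃ n, A n) + ν Dᶜ := measure_union_le _ _
      _ = ν (⋃ n, A n) := by rw [hD0, add_zero]
      _ = ⨆ n, ν (A n) := monoA.measure_iUnion
      _ ≤ ν (Zj j) := iSup_le h2
  have hTZ : ν T ≤ ν Z := by
    rw [hZdef, anti.measure_iInter (fun j => (mZj j).nullMeasurableSet)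
      ⟨0, measure_ne_top _ _⟩]
    exact le_iInf key
  have hc := (core h_MTP h_MES bk mZ mT (fun x hx => (mem_iInter.1 hx 0).1)
    (fun y hy => hy.1) (by
      intro x hx y hxy
      refine ⟨(bk.bip x y hxy).1 (mem_iInter.1 hx 0).1, fun j => ?_⟩
      obtain ⟨-, n, hn⟩ := mem_iInter.1 hx j
      exact ⟨n, hn y hxy⟩)).2 hTZ
  filter_upwards [hc] with y hy h1 h2
  obtain ⟨h3, h4⟩ := hy ⟨h1, h2⟩
  refine ⟨h3, fun x hx y' hy' j => ?_⟩
  obtain ⟨-, n, hn⟩ := mem_iInter.1 (h4 x hx) j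
  exact ⟨n, hn y' hy'⟩

theorem allUNC (h_MTP : tMTP.{u}) (h_MES : tMES.{u}) : tUNC.{u} := by
  intro U _ _ K m r e ν _ L bk M
  set E : ℕ → Set U := fun j => EL K L (M.S 0) j with hE
  have mE : ∀ j, MeasurableSet (E j) := fun j => meas_EL bk.lab bk.mL (M.meas 0) j
  set T : Set U := {y | y ∉ L ∧ ∀ j, y ∉ E j} with hTdef
  set Z : Set U := {x | x ∈ L ∧ ∀ j, ¬ ∃ y, K.Adj x y ∧ y ∈ E j} with hZdef
  have mT : MeasurableSet T := by
    have h1 : T = Lᶜ ∩ ⋂ j, (E j)ᶜ := by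
      ext y
      simp [hTdef]
    rw [h1]
    exact bk.mL.compl.inter (MeasurableSet.iInter fun j => (mE j).compl)
  have mZ : MeasurableSet Z := by
    have h1 : Z = L ∩ ⋂ j, {x | ∃ y, K.Adj x y ∧ y ∈ E j}ᶜ := by
      ext x
      simp only [hZdef, mem_ofPred_eq, mem_inter_iff, mem_iInter, mem_compl_iff]
    rw [h1]
    exact bk.mL.inter (MeasurableSet.iInter fun j => (meas_nbr bk.lab (mE j)).compl)
  have mC : MeasurableSet {x | M.S 0 x = x} := measurableSet_eq_fun (M.meas 0) measurable_id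
  have h1 : ν T ≤ ν (Z ∩ {x | M.S 0 x = x}ᶜ) := by
    have h3 : T ⊆ M.S 0 ⁻¹' (Z ∩ {x | M.S 0 x = x}ᶜ) := by
      rintro y ⟨h3, h4⟩
      have h5 : M.S 0 y ≠ y := fun h => h4 0 ⟨h3, h⟩
      refine ⟨⟨?_, ?_⟩, ?_⟩
      · by_contra h6
        exact h3 ((bk.bip y _ (M.adj 0 y h5)).2 h6)
      · rintro j ⟨y', h6, h7⟩
        exact h4 (j + 1) ⟨h3, Or.inr ⟨y', h6, h7⟩⟩
      · intro h6
        have h7 : M.S 0 (M.S 0 y) = M.S 0 y := h6
        rw [M.invol] at h7
        exact h5 h7.symm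
    refine (measure_mono h3).trans ?_
    rw [(mp_S bk.inv M 0).measure_preimage (mZ.inter mC.compl).nullMeasurableSet]
  have h2 : ν Z ≤ ν T := (core h_MTP h_MES bk mZ mT (fun x hx => hx.1)
    (fun y hy => hy.1) (by
      intro x hx y hxy
      exact ⟨(bk.bip x y hxy).1 hx.1, fun j hj => hx.2 j ⟨y, hxy, hj⟩⟩)).1
  have h3 : ν (Z ∩ {x | M.S 0 x = x}) = 0 := by
    have h4 : ν (Z ∩ {x | M.S 0 x = x}) + ν (Z \ {x | M.S 0 x = x}) = ν Z :=
      measure_inter_add_sdiff Z mC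
    have h5 : ν Z ≤ ν (Z \ {x | M.S 0 x = x}) := h2.trans h1
    have h6 : ν (Z \ {x | M.S 0 x = x}) ≠ ⊤ := measure_ne_top _ _
    have h7 : ν (Z ∩ {x | M.S 0 x = x}) + ν (Z \ {x | M.S 0 x = x}) ≤
        0 + ν (Z \ {x | M.S 0 x = x}) := by
      rw [h4, zero_add]
      exact h5
    exact le_antisymm ((ENNReal.add_le_add_iff_right h6).1 h7) zero_le
  filter_upwards [measure_eq_zero_iff_ae_notMem.1 h3] with x hx hxL hxM
  by_contra h4
  push Not at h4
  refine hx ⟨⟨hxL, ?_⟩, hxM⟩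
  rintro j ⟨y, h5, h6⟩
  exact h4 y h5 j h6

end Pool.Agent.MEO
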