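import Pool.Agent.MEO.Targets
import Pool.Agent.MEO.Base

set_option autoImplicit false

/-! MP_fff3e1_lc, target HKM: a matching of the bipartite graph `K` which covers `L`.
A maximal element of the order `LeM` covers almost all of `L`, because otherwise the augmentations
along shortest alternating paths can be glued along a sparse set of places. -/

namespace Pool.Agent.MEO

universe u

open Pool.Agent.MEC Pool.Agent.MEP MeasureTheory Set Filter

namespace HKM_

section order

variable {U : Type u} [MeasurableSpace U] {K : SimpleGraph U}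

lemma LeM_refl (ν : Measure U) (L : Set U) (M : PCol K 1) : LeM ν L M M :=
  ⟨ae_of_all _ fun _ _ h => h, ae_of_all _ fun _ _ h => absurd rfl h,
    ae_of_all _ fun _ _ h => h⟩

lemma LeM_trans {ν : Measure U} {L : Set U} {M M' M'' : PCol K 1} (h : LeM ν L M M')
    (h' : LeM ν L M' M'') : LeM ν L M M'' := by
  refine ⟨?_, ?_, ?_⟩
  · filter_upwards [h.lev, h'.lev] with y h1 h2 j hj
    exact h1 j (h2 j hj)
  · filter_upwards [h.lev, h.chg, h'.lev, h'.chg] with y h1 h2 h3 h4 hy hne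
    by_cases hc : M'.S 0 y = M.S 0 y
    · have hne' : M''.S 0 y ≠ M'.S 0 y := by
        rw [hc]
        exact hne
      obtain ⟨⟨j, hj⟩, h5⟩ := h4 hy hne'
      refine ⟨⟨j, h1 j hj⟩, fun j' hj' => ?_⟩
      obtain ⟨i, hi, hi'⟩ := h5 j' hj'
      exact ⟨i, hi, h1 i hi'⟩
    · obtain ⟨h5, h6⟩ := h2 hy hc
      exact ⟨h5, fun j hj => h6 j (h3 j hj)⟩
  · filter_upwards [h.cov, h'.cov] with x h1 h2 hx hx'
    exact h2 hx (h1 hx hx')

/-- the covered part of `L` -/
def cv (L : Set U) (M : PCol K 1) : Set U := {x | x ∈ L ∧ M.S 0 x ≠ x}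

lemma cv_mono {ν : Measure U} [IsFiniteMeasure ν] {L : Set U} {M M' : PCol K 1}
    (h : LeM ν L M M') : ν.real (cv L M) ≤ ν.real (cv L M') := by
  have h1 : ν (cv L M) ≤ ν (cv L M') := by
    refine measure_mono_ae ?_
    filter_upwards [h.cov] with x hx hx'
    exact ⟨hx'.1, hx hx'.1 hx'.2⟩
  exact ENNReal.toReal_mono (measure_ne_top _ _) h1

/-- the empty matching -/
def emp (K : SimpleGraph U) : PCol K 1 where
  S := fun _ x => x
  meas := fun _ => measurable_id
  invol := fun _ _ => rfl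
  adj := fun _ _ h => absurd rfl h
  disj := fun _ _ _ _ h => absurd rfl h

end order

section meas

variable {U : Type u} [MeasurableSpace U] [StandardBorelSpace U] {K : SimpleGraph U} {m : ℕ}

lemma EL_meas {e : PCol K m} (hl : Lab e) {L : Set U} (hL : MeasurableSet L) {s : U → U}
    (hs : Measurable s) (n : ℕ) : MeasurableSet (EL K L s n) := by
  have h0 : MeasurableSet {y | s y = y} := measurableSet_eq_fun hs measurable_id
  induction n with
  | zero => exact hL.compl.inter h0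
  | succ n ih =>
    have h1 : EL K L s (n + 1) = Lᶜ ∩ ({y | s y = y} ∪
        ⋃ k, ({y | e.S k (s y) = s y}ᶜ ∩ (fun y => e.S k (s y)) ⁻¹' EL K L s n)) := by
      ext y
      constructor
      · rintro ⟨h1, h2⟩
        refine ⟨h1, ?_⟩
        rcases h2 with h2 | ⟨y', h2, h3⟩
        · exact Or.inl h2
        · obtain ⟨k, rfl⟩ := hl _ _ h2
          exact Or.inr (mem_iUnion.2 ⟨k, fun h => h2.ne h.symm, h3⟩)
      · rintro ⟨h1, h2⟩
        refine ⟨h1, ?_⟩
        rcases h2 with h2 | h2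
        · exact Or.inl h2
        · obtain ⟨k, h3, h4⟩ := mem_iUnion.1 h2
          exact Or.inr ⟨_, e.adj k _ h3, h4⟩
    rw [h1]
    refine hL.compl.inter (h0.union (MeasurableSet.iUnion fun k => MeasurableSet.inter ?_ ?_))
    · exact (measurableSet_eq_fun ((e.meas k).comp hs) hs).compl
    · exact ((e.meas k).comp hs) ih

omit [StandardBorelSpace U] in
/-- the condition `HK` as a set of pairs -/
def HS (e : PCol K m) (L : Set U) (s : U → U) : Set (U × U) :=
  ({p | p.1 ∈ L} ∪ {p | p.2 = s p.1}) ∪ (({p | p.2 = p.1}ᶜ ∩ ⋃ n, {p | p.1 ∈ EL K L s n}) ∩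
    ⋂ k, ({p | e.S k p.2 = p.2} ∪ ⋂ n, ({p | e.S k p.2 ∈ EL K L s n}ᶜ ∪
      {p | p.1 ∈ EL K L s n})))

omit [StandardBorelSpace U] in
lemma HS_iff {e : PCol K m} (hl : Lab e) {L : Set U} {s s' : U → U} {y : U} :
    (y, s' y) ∈ HS e L s ↔ HK K L s s' y := by
  constructor
  · intro h h1 h2
    rcases h with h | h
    · exfalso
      rcases h with h | h
      · exact h1 h
      · exact h2 h
    · obtain ⟨⟨h3, h4⟩, h5⟩ := h
      obtain ⟨n0, hn0⟩ := mem_iUnion.1 h4
      refine ⟨h3, ⟨n0, hn0⟩, ?_⟩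
      intro y' hy' n hn
      obtain ⟨k, rfl⟩ := hl _ _ hy'
      rcases mem_iInter.1 h5 k with h6 | h6
      · exact absurd h6.symm hy'.ne
      · rcases mem_iInter.1 h6 n with h7 | h7
        · exact absurd hn h7
        · exact h7
  · intro h
    by_cases h1 : y ∈ L
    · exact Or.inl (Or.inl h1)
    by_cases h2 : s' y = s y
    · exact Or.inl (Or.inr h2)
    obtain ⟨h3, ⟨n0, hn0⟩, h5⟩ := h h1 h2
    refine Or.inr ⟨⟨h3, mem_iUnion.2 ⟨n0, hn0⟩⟩, mem_iInter.2 fun k => ?_⟩
    by_cases h6 : e.S k (s' y) = s' y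
    · exact Or.inl h6
    · refine Or.inr (mem_iInter.2 fun n => ?_)
      by_cases h7 : e.S k (s' y) ∈ EL K L s n
      · exact Or.inr (h5 _ (e.adj k _ h6) n h7)
      · exact Or.inl h7

lemma HS_meas {e : PCol K m} (hl : Lab e) {L : Set U} (hL : MeasurableSet L) {s : U → U}
    (hs : Measurable s) : MeasurableSet (HS e L s) := by
  have hE := EL_meas hl hL hs
  refine MeasurableSet.union (MeasurableSet.union ?_ ?_) (MeasurableSet.inter
    (MeasurableSet.inter ?_ ?_) (MeasurableSet.iInter fun k => MeasurableSet.union ?_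
      (MeasurableSet.iInter fun n => MeasurableSet.union ?_ ?_)))
  · exact measurable_fst hL
  · exact measurableSet_eq_fun measurable_snd (hs.comp measurable_fst)
  · exact (measurableSet_eq_fun measurable_snd measurable_fst).compl
  · exact MeasurableSet.iUnion fun n => measurable_fst (hE n)
  · exact measurableSet_eq_fun ((e.meas k).comp measurable_snd) measurable_snd
  · exact (((e.meas k).comp measurable_snd) (hE n)).compl
  · exact measurable_fst (hE n)

/-- the places at which the code `z` describes an improvement covering the place -/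
def Zz (e : PCol K m) (L : Set U) (M : PCol K 1) (z : Cd m 1) : Set U :=
  (((L ∩ {b | M.S 0 b = b}) ∩ Vld e M z) ∩ {b | (cbf e M z b).S 0 (wd e [] b) = b}ᶜ) ∩
    ⋂ w : List (Fin m), ({b | (wd e w b, (cbf e M z b).S 0 (wd e w b)) ∈ HS e L (M.S 0)} ∩
      (({b | wd e w b ∈ L}ᶜ ∪ {b | M.S 0 (wd e w b) = wd e w b}) ∪
        {b | (cbf e M z b).S 0 (wd e w b) = wd e w b}ᶜ))

lemma Zz_meas {e : PCol K m} (hl : Lab e) {L : Set U} (hL : MeasurableSet L) (M : PCol K 1)
    (z : Cd m 1) (h1 : MeasurableSet (Vld e M z))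
    (h2 : ∀ w : List (Fin m), Measurable fun b => (cbf e M z b).S 0 (wd e w b)) :
    MeasurableSet (Zz e L M z) := by
  have hw : ∀ w : List (Fin m), Measurable fun b => wd e w b := fun w => (wd e w).measurable
  refine MeasurableSet.inter (MeasurableSet.inter (MeasurableSet.inter
    (MeasurableSet.inter ?_ ?_) ?_) ?_) (MeasurableSet.iInter fun w => MeasurableSet.inter ?_
      (MeasurableSet.union (MeasurableSet.union ?_ ?_) ?_))
  · exact hL
  · exact measurableSet_eq_fun (M.meas 0) measurable_id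
  · exact h1
  · exact (measurableSet_eq_fun (h2 []) measurable_id).compl
  · exact ((hw w).prodMk (h2 w)) (HS_meas hl hL (M.meas 0))
  · exact ((hw w) hL).compl
  · exact measurableSet_eq_fun ((M.meas 0).comp (hw w)) (hw w)
  · exact (measurableSet_eq_fun (h2 w) (hw w)).compl

end meas

end HKM_

open HKM_ in
theorem allHKM (h_BB : tBB.{u}) (h_LIM : tLIM.{u}) (h_UNC : tUNC.{u}) (h_AUG : tAUG.{u})
    (h_MON : tMON.{u}) (h_COD : tCOD.{u}) (h_SPS : tSPS.{u}) (_h_MES : tMES.{u}) :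
    tHKM.{u} := by
  intro U _ _ K m r e ν _ L hBK hfin
  -- a maximal matching
  obtain ⟨M, -, hM⟩ := h_BB (PCol K 1) (LeM ν L) (fun M => ν.real (cv L M)) (ν.real univ)
    (LeM_refl ν L) (fun _ _ _ h h' => LeM_trans h h') (fun _ _ h => cv_mono h)
    (fun M => measureReal_mono (subset_univ _))
    (fun c hc => h_LIM U K m r e ν L hBK hfin c hc) (emp K)
  refine ⟨M, ?_⟩
  obtain ⟨c1, c2, c3, c4, c5⟩ := h_COD U K m 1 e M ν hBK.lab hBK.inv
  -- the uncovered part of `L` which can be covered by an augmentation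
  by_contra hcon
  have hA : ν {x | (x ∈ L ∧ M.S 0 x = x) ∧ ∃ y, K.Adj x y ∧ ∃ j, y ∈ EL K L (M.S 0) j} ≠ 0 := by
    intro h0
    apply hcon
    filter_upwards [h_UNC U K m r e ν L hBK M, measure_eq_zero_iff_ae_notMem.1 h0]
      with x h1 h2 hx hx'
    exact h2 ⟨⟨hx, hx'⟩, h1 hx hx'⟩
  have hcover : {x | (x ∈ L ∧ M.S 0 x = x) ∧ ∃ y, K.Adj x y ∧ ∃ j, y ∈ EL K L (M.S 0) j} ⊆
      ⋃ z : Cd m 1, Zz e L M z := by
    rintro b ⟨⟨hbL, hb⟩, hby⟩
    classical
    have hex : ∃ n, ∃ y, K.Adj b y ∧ y ∈ EL K L (M.S 0) n := by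
      obtain ⟨y, h1, j, h2⟩ := hby
      exact ⟨j, y, h1, h2⟩
    obtain ⟨s', a1, a2, a3, a4, a5, a6, -, -, a9, -⟩ := h_AUG U K L (M.S 0) hBK.bip
      (M.invol 0) (M.adj 0) b hbL (Nat.find hex) (Nat.find_spec hex)
      (fun y hy j hj hj' => Nat.find_min hex hj ⟨y, hy, hj'⟩)
    have hk : ∀ k : Fin 1, k = 0 := fun k => Subsingleton.elim _ _
    let cb : PC K 1 :=
      { S := fun _ => s'
        invol := fun _ => a1
        adj := fun _ => a2
        disj := fun k k' _ _ _ => (hk k).trans (hk k').symm }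
    have hFM : FM (toPC M) cb (Cm e b) := by
      refine ⟨a3.subset ?_, ?_⟩
      · rintro x ⟨k, hx⟩
        rw [hk k] at hx
        exact hx
      · intro x k hx
        rw [hk k] at hx
        exact (Cm_iff_reachable hBK.lab).2 (a4 x hx)
    obtain ⟨z, -, hz1, hz2⟩ := c2 b cb hFM ∅
    have hz3 : ∀ x, (cbf e M z b).S 0 x = s' x := fun x => hz2 0 x
    have hz4 : (cbf e M z b).S 0 = s' := funext hz3
    refine mem_iUnion.2 ⟨z, ⟨⟨⟨⟨hbL, hb⟩, hz1⟩, ?_⟩, mem_iInter.2 fun w => ⟨?_, ?_⟩⟩⟩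
    · change ¬ ((cbf e M z b).S 0 (wd e [] b) = b)
      rw [wd_nil, hz4]
      exact a5
    · change (wd e w b, (cbf e M z b).S 0 (wd e w b)) ∈ HS e L (M.S 0)
      rw [HS_iff hBK.lab, hz4]
      by_cases hy : wd e w b = M.S 0 b
      · intro h1 _
        exact absurd (show wd e w b ∈ L by rw [hy, hb]; exact hbL) h1
      · exact a9 _ hy
    · by_cases h1 : wd e w b ∈ L
      · by_cases h2 : M.S 0 (wd e w b) = wd e w b
        · exact Or.inl (Or.inr h2)
        · refine Or.inr ?_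
          change ¬ ((cbf e M z b).S 0 (wd e w b) = wd e w b)
          rw [hz4]
          exact a6 _ h1 h2
      · exact Or.inl (Or.inl h1)
  obtain ⟨z, hz⟩ := exists_piece hA hcover
  have hZm : MeasurableSet (Zz e L M z) := Zz_meas hBK.lab hBK.mL M z (c1 z) (c3 z 0)
  have hZ0 : ν (Zz e L M z) ≠ 0 := fun h => hz (measure_mono_null inter_subset_right h)
  -- the sparse set of places
  obtain ⟨Θ, hΘ, h5⟩ := c5 z
  obtain ⟨J, hJ1, hJ2, hJ3, hJ4⟩ := h_SPS U ν Θ (Zz e L M z) hΘ hZm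
  have hJ0 : 0 < ν.real J := by
    have h1 : 0 < ν.real (Zz e L M z) := by
      rw [measureReal_def]
      exact ENNReal.toReal_pos hZ0 (measure_ne_top _ _)
    by_contra h2
    have h3 : ν.real J = 0 := le_antisymm (not_lt.1 h2) measureReal_nonneg
    rw [h3, mul_zero] at hJ4
    exact absurd h1 (not_lt.2 hJ4)
  have hV : J ⊆ Vld e M z := fun b hb => (hJ1 hb).1.1.2
  obtain ⟨-, M', hM1, hM2⟩ := h5 J hJ2 hV hJ3
  have hHK : ∀ y, HK K L (M.S 0) (M'.S 0) y := by
    intro y
    by_cases hy : ∃ b ∈ J, y ∈ Rg e z b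
    · obtain ⟨b, hb, hyb⟩ := hy
      have h1 : M'.S 0 y = (cbf e M z b).S 0 y := hM1 b hb y hyb 0
      obtain ⟨w, -, rfl⟩ := hyb
      have h2 := (mem_iInter.1 (hJ1 hb).2 w).1
      have h3 : (wd e w b, M'.S 0 (wd e w b)) ∈ HS e L (M.S 0) := by
        rw [h1]
        exact h2
      exact (HS_iff hBK.lab).1 h3
    · push Not at hy
      intro _ h2
      exact absurd (hM2 y hy 0) h2
  have hcov : ∀ x, x ∈ L → M.S 0 x ≠ x → M'.S 0 x ≠ x := by
    intro x hx hx'
    by_cases hy : ∃ b ∈ J, x ∈ Rg e z b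
    · obtain ⟨b, hb, hyb⟩ := hy
      rw [hM1 b hb x hyb 0]
      obtain ⟨w, -, rfl⟩ := hyb
      rcases (mem_iInter.1 (hJ1 hb).2 w).2 with (h2 | h2) | h2
      · exact absurd hx h2
      · exact absurd h2 hx'
      · exact h2
    · push Not at hy
      rw [hM2 x hy 0]
      exact hx'
  have hmon := h_MON U K L (M.S 0) (M'.S 0) univ hBK.bip (fun _ _ _ _ => mem_univ _)
    (M.invol 0) (M.adj 0) (M'.invol 0) (M'.adj 0) (fun y _ => hHK y)
  have hle : LeM ν L M M' := by
    refine ⟨ae_of_all _ fun y => (hmon y (mem_univ y)).1,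
      ae_of_all _ fun y => (hmon y (mem_univ y)).2, ae_of_all _ hcov⟩
  have heq := hM M' hle
  -- the covered part has become larger
  have hJc : J ⊆ cv L M' := by
    intro b hb
    have hb1 := hJ1 hb
    have h1 : (cbf e M z b).S 0 b ≠ b := hb1.1.2
    have h2 : M.S 0 b = b := hb1.1.1.1.2
    have h3 : (cbf e M z b).S 0 b ≠ M.S 0 b := by
      rw [h2]
      exact h1
    refine ⟨hb1.1.1.1.1, ?_⟩
    rw [hM1 b hb b (c4 z b b 0 h3) 0]
    exact h1
  have hJd : Disjoint (cv L M) J := by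
    rw [Set.disjoint_left]
    intro b hb hb'
    exact hb.2 (hJ1 hb').1.1.1.2
  have hsub : cv L M ∪ J ⊆ cv L M' := union_subset (fun x hx => ⟨hx.1, hcov x hx.1 hx.2⟩) hJc
  have h6 : ν.real (cv L M) + ν.real J ≤ ν.real (cv L M') := by
    rw [← measureReal_union hJd hJ2]
    exact measureReal_mono hsub
  have h7 : ν.real (cv L M') = ν.real (cv L M) := heq
  rw [h7] at h6
  linarith

end Pool.Agent.MEO
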