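import Pool.Agent.MEO.Targets

set_option autoImplicit false

/-! A measurable listing of all edges by finitely many involutions. -/

namespace Pool.Agent.MEO

open MeasureTheory Set Filter
open scoped ENNReal
open Pool.Agent.MEC
open Pool.Agent.MEP

universe u

namespace LAB_

variable {V : Type u} [MeasurableSpace V] {G : SimpleGraph V} {Δ : ℕ}

open Classical in
/-- greedy colour of the edge number `i` at `x` -/
noncomputable def col (g : Gen G Δ) (i : ℕ) (x : V) : ℕ :=
  if g.T i x = x then 2 * Δ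
  else sInf {k | ∀ j, (hj : j < i) → col g j x ≠ k ∧ col g j (g.T i x) ≠ k}
termination_by i

lemma col_fix (g : Gen G Δ) {i : ℕ} {x : V} (h : g.T i x = x) : col g i x = 2 * Δ := by
  rw [col, if_pos h]

lemma col_ne (g : Gen G Δ) {i : ℕ} {x : V} (h : g.T i x ≠ x) :
    col g i x = sInf {k | ∀ j, j < i → col g j x ≠ k ∧ col g j (g.T i x) ≠ k} := by
  rw [col, if_neg h]

/-- number of earlier edges at `x` -/
lemma card_lt (g : Gen G Δ) {i : ℕ} {x : V} (h : g.T i x ≠ x) :
    ∀ s : Finset ℕ, (∀ j ∈ s, j < i ∧ g.T j x ≠ x) → s.card + 1 ≤ Δ := by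
  classical
  intro s hs
  have hi : i ∉ s := fun hi => (lt_irrefl i (hs i hi).1)
  have := g.card x (insert i s) (by
    intro j hj
    rcases Finset.mem_insert.1 hj with rfl | hj
    · exact h
    · exact (hs j hj).2)
  rwa [Finset.card_insert_of_notMem hi] at this

lemma exists_free (g : Gen G Δ) {i : ℕ} {x : V} (h : g.T i x ≠ x) :
    ∃ k, k < 2 * Δ ∧ ∀ j, j < i → col g j x ≠ k ∧ col g j (g.T i x) ≠ k := by
  classical
  set y := g.T i x with hy
  have h' : g.T i y ≠ y := by
    rw [hy, g.invol]; exact h.symm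
  set s1 := (Finset.range i).filter fun j => g.T j x ≠ x
  set s2 := (Finset.range i).filter fun j => g.T j y ≠ y
  have c1 : s1.card + 1 ≤ Δ := card_lt g h s1 (by
    intro j hj
    have := Finset.mem_filter.1 hj
    exact ⟨Finset.mem_range.1 this.1, this.2⟩)
  have c2 : s2.card + 1 ≤ Δ := card_lt g h' s2 (by
    intro j hj
    have := Finset.mem_filter.1 hj
    exact ⟨Finset.mem_range.1 this.1, this.2⟩)
  set U := s1.image (fun j => col g j x) ∪ s2.image (fun j => col g j y)
  have hU : U.card < (Finset.range (2 * Δ)).card := by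
    rw [Finset.card_range]
    have e1 := Finset.card_union_le (s1.image (fun j => col g j x)) (s2.image (fun j => col g j y))
    have e2 := Finset.card_image_le (s := s1) (f := fun j => col g j x)
    have e3 := Finset.card_image_le (s := s2) (f := fun j => col g j y)
    have e4 : U.card ≤ s1.card + s2.card := e1.trans (by omega)
    omega
  obtain ⟨k, hk1, hk2⟩ := Finset.exists_mem_notMem_of_card_lt_card hU
  have hk := Finset.mem_range.1 hk1
  refine ⟨k, hk, fun j hj => ⟨fun he => ?_, fun he => ?_⟩⟩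
  · by_cases hf : g.T j x = x
    · rw [col_fix g hf] at he
      omega
    · apply hk2
      refine Finset.mem_union_left _ (Finset.mem_image.2 ⟨j, ?_, he⟩)
      exact Finset.mem_filter.2 ⟨Finset.mem_range.2 hj, hf⟩
  · by_cases hf : g.T j y = y
    · rw [col_fix g hf] at he
      omega
    · apply hk2
      refine Finset.mem_union_right _ (Finset.mem_image.2 ⟨j, ?_, he⟩)
      exact Finset.mem_filter.2 ⟨Finset.mem_range.2 hj, hf⟩

lemma col_lt (g : Gen G Δ) {i : ℕ} {x : V} (h : g.T i x ≠ x) : col g i x < 2 * Δ := by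
  obtain ⟨k, hk, hk'⟩ := exists_free g h
  rw [col_ne g h]
  exact lt_of_le_of_lt (Nat.sInf_le hk') hk

lemma col_spec (g : Gen G Δ) {i : ℕ} {x : V} (h : g.T i x ≠ x) {j : ℕ} (hj : j < i) :
    col g j x ≠ col g i x := by
  obtain ⟨k, -, hk'⟩ := exists_free g h
  have hmem := Nat.sInf_mem (s := {k | ∀ j, j < i → col g j x ≠ k ∧ col g j (g.T i x) ≠ k})
    ⟨k, hk'⟩
  rw [← col_ne g h] at hmem
  exact (hmem j hj).1

lemma col_symm (g : Gen G Δ) (i : ℕ) (x : V) : col g i (g.T i x) = col g i x := by
  by_cases h : g.T i x = x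
  · rw [h]
  · have h' : g.T i (g.T i x) ≠ g.T i x := by
      rw [g.invol]; exact fun e => h e.symm
    rw [col_ne g h, col_ne g h', g.invol]
    congr 1
    ext k
    constructor
    · intro hk j hj
      exact ⟨(hk j hj).2, (hk j hj).1⟩
    · intro hk j hj
      exact ⟨(hk j hj).2, (hk j hj).1⟩

lemma col_inj (g : Gen G Δ) {i j : ℕ} {x : V} (hi : g.T i x ≠ x) (hj : g.T j x ≠ x)
    (h : col g i x = col g j x) : i = j := by
  rcases Nat.lt_trichotomy i j with hlt | heq | hgt
  · exact absurd h (col_spec g hj hlt)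
  · exact heq
  · exact absurd h.symm (col_spec g hi hgt)

lemma measurable_col [StandardBorelSpace V] (g : Gen G Δ) (i : ℕ) : Measurable (col g i) := by
  classical
  induction i using Nat.strong_induction_on with
  | _ i ih =>
    have hF : Measurable fun x => (fun j : Fin i => (col g j x, col g j (g.T i x))) := by
      refine measurable_pi_lambda _ fun j => ?_
      exact (ih j j.2).prodMk ((ih j j.2).comp (g.meas i))
    have hH : Measurable fun f : Fin i → ℕ × ℕ =>
        sInf {k | ∀ j : Fin i, (f j).1 ≠ k ∧ (f j).2 ≠ k} := Measurable.of_discrete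
    have hcol : col g i = fun x => if g.T i x = x then 2 * Δ else
        sInf {k | ∀ j : Fin i, col g j x ≠ k ∧ col g j (g.T i x) ≠ k} := by
      funext x
      by_cases h : g.T i x = x
      · rw [if_pos h, col_fix g h]
      · rw [if_neg h, col_ne g h]
        congr 1
        ext k
        exact ⟨fun hk j => hk j j.2, fun hk j hj => hk ⟨j, hj⟩⟩
    rw [hcol]
    exact Measurable.ite (measurableSet_eq_fun (g.meas i) measurable_id) measurable_const
      (hH.comp hF)

/-- `x` has the edge number `i` of colour `k` -/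
def Has (g : Gen G Δ) (k i : ℕ) (x : V) : Prop := g.T i x ≠ x ∧ col g i x = k

lemma Has.unique {g : Gen G Δ} {k i j : ℕ} {x : V} (h : Has g k i x) (h' : Has g k j x) :
    i = j := col_inj g h.1 h'.1 (h.2.trans h'.2.symm)

lemma Has.symm {g : Gen G Δ} {k i : ℕ} {x : V} (h : Has g k i x) : Has g k i (g.T i x) :=
  ⟨by rw [g.invol]; exact h.1.symm, by rw [col_symm]; exact h.2⟩

open Classical in
/-- the involution of colour `k` -/
noncomputable def S (g : Gen G Δ) (k : ℕ) (x : V) : V :=
  if h : ∃ i, Has g k i x then g.T h.choose x else x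

lemma S_of_has {g : Gen G Δ} {k i : ℕ} {x : V} (h : Has g k i x) : S g k x = g.T i x := by
  have hex : ∃ i, Has g k i x := ⟨i, h⟩
  have : S g k x = g.T hex.choose x := dif_pos hex
  rw [this, (hex.choose_spec.unique h)]

lemma S_of_not {g : Gen G Δ} {k : ℕ} {x : V} (h : ¬ ∃ i, Has g k i x) : S g k x = x :=
  dif_neg h

lemma has_of_S {g : Gen G Δ} {k : ℕ} {x : V} (h : S g k x ≠ x) :
    ∃ i, Has g k i x ∧ S g k x = g.T i x := by
  by_cases hex : ∃ i, Has g k i x
  · obtain ⟨i, hi⟩ := hex
    exact ⟨i, hi, S_of_has hi⟩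
  · exact absurd (S_of_not hex) h

lemma S_invol (g : Gen G Δ) (k : ℕ) (x : V) : S g k (S g k x) = x := by
  by_cases hex : ∃ i, Has g k i x
  · obtain ⟨i, hi⟩ := hex
    rw [S_of_has hi, S_of_has hi.symm, g.invol]
  · rw [S_of_not hex, S_of_not hex]

lemma measurable_S [StandardBorelSpace V] (g : Gen G Δ) (k : ℕ) : Measurable (S g k) := by
  have hA : ∀ i, MeasurableSet {x | Has g k i x} := by
    intro i
    exact (measurableSet_eq_fun (g.meas i) measurable_id).compl.inter
      (measurableSet_eq_fun (measurable_col g i) measurable_const)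
  intro B hB
  have : S g k ⁻¹' B = (⋃ i, ({x | Has g k i x} ∩ g.T i ⁻¹' B)) ∪
      ((⋃ i, {x | Has g k i x})ᶜ ∩ B) := by
    ext x
    simp only [mem_preimage, mem_union, mem_iUnion, mem_inter_iff, mem_compl_iff, mem_ofPred_eq]
    by_cases hex : ∃ i, Has g k i x
    · obtain ⟨i, hi⟩ := hex
      rw [S_of_has hi]
      constructor
      · intro h
        exact Or.inl ⟨i, hi, h⟩
      · rintro (⟨j, hj, h⟩ | ⟨h, -⟩)
        · rw [hi.unique hj]; exact h
        · exact absurd ⟨i, hi⟩ h
    · rw [S_of_not hex]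
      constructor
      · intro h
        exact Or.inr ⟨hex, h⟩
      · rintro (⟨j, hj, -⟩ | ⟨-, h⟩)
        · exact absurd ⟨j, hj⟩ hex
        · exact h
  rw [this]
  exact (MeasurableSet.iUnion fun i => (hA i).inter (g.meas i hB)).union
    ((MeasurableSet.iUnion hA).compl.inter hB)

/-- the listing -/
noncomputable def lab [StandardBorelSpace V] (g : Gen G Δ) : PCol G (2 * Δ) where
  S := fun k => S g k
  meas := fun k => measurable_S g k
  invol := fun k x => S_invol g k x
  adj := by
    intro k x h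
    obtain ⟨i, hi, he⟩ := has_of_S h
    rw [he]
    exact g.adj i x hi.1
  disj := by
    intro k k' x he hne
    obtain ⟨i, hi, h1⟩ := has_of_S hne
    obtain ⟨i', hi', h2⟩ := has_of_S (by rw [← he]; exact hne)
    have h3 : g.T i x = g.T i' x := by rw [← h1, ← h2]; exact he
    have h4 := g.disj i i' x h3 hi.1
    apply Fin.ext
    rw [← hi.2, ← hi'.2, h4]

end LAB_

theorem allLAB : tLAB.{u} := by
  intro V _ _ G Δ hE hdeg
  obtain ⟨g⟩ := exists_gen hE hdeg
  refine ⟨LAB_.lab g, fun x y hxy => ?_⟩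
  obtain ⟨i, hi⟩ := g.cover x y hxy
  have hne : g.T i x ≠ x := by rw [hi]; exact hxy.ne.symm
  refine ⟨⟨LAB_.col g i x, LAB_.col_lt g hne⟩, ?_⟩
  have hh : LAB_.Has g (LAB_.col g i x) i x := ⟨hne, rfl⟩
  exact (LAB_.S_of_has hh).trans hi

end Pool.Agent.MEO
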