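import Pool.Agent.MEO.Targets
import Pool.Agent.MEO.Base
import Pool.Agent.MEC.Complete

set_option autoImplicit false

/-! D5: increasing sequences of matchings have an upper bound. -/

namespace Pool.Agent.MEO

open MeasureTheory Set Filter
open scoped ENNReal
open Pool.Agent.MEC
open Pool.Agent.MEP

universe u

namespace LIM_

section plain

variable {U : Type u} {K : SimpleGraph U} {L : Set U}

lemma EL_stable {C : Set U} (hC : ∀ x ∈ C, ∀ y, K.Adj x y → y ∈ C) {s : U → U}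
    (hs : ∀ x ∈ C, s x ∈ C) {i : ℕ}
    (h : ∀ y ∈ C, y ∈ EL K L s (i + 1) → y ∈ EL K L s i) (k : ℕ) :
    ∀ y ∈ C, y ∈ EL K L s (i + k) → y ∈ EL K L s i := by
  induction k with
  | zero => exact fun y _ hy => hy
  | succ k ih =>
    intro y hy hyk
    refine h y hy ?_
    obtain ⟨h1, h2⟩ := hyk
    refine ⟨h1, ?_⟩
    rcases h2 with h2 | ⟨y', h2, h3⟩
    · exact Or.inl h2
    · exact Or.inr ⟨y', h2, ih y' (hC _ (hs y hy) _ h2) h3⟩

/-- the levels which occur in a finite closed set are consecutive -/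
lemma EL_bound {C : Set U} (hfin : C.Finite) (hC : ∀ x ∈ C, ∀ y, K.Adj x y → y ∈ C)
    {s : U → U} (hs : ∀ x ∈ C, s x ∈ C) {y : U} (hy : y ∈ C) {j : ℕ}
    (h : y ∈ EL K L s j) : y ∈ EL K L s C.ncard := by
  by_cases hcon : ∃ i ≤ C.ncard, ∀ y ∈ C, y ∈ EL K L s (i + 1) → y ∈ EL K L s i
  · obtain ⟨i, hi, h1⟩ := hcon
    have h2 := EL_stable hC hs h1 j y hy (EL_mono (by omega) h)
    exact EL_mono hi h2
  · push Not at hcon
    exfalso
    have h3 : ∀ i ≤ C.ncard + 1, i ≤ (C ∩ EL K L s i).ncard := by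
      intro i
      induction i with
      | zero => intro _; exact Nat.zero_le _
      | succ i ih =>
        intro hi
        obtain ⟨z, hz, hz1, hz2⟩ := hcon i (by omega)
        have h4 : (C ∩ EL K L s i) ⊂ (C ∩ EL K L s (i + 1)) :=
          ⟨inter_subset_inter_right _ (EL_succ i), fun h' => hz2 (h' ⟨hz, hz1⟩).2⟩
        have h5 := ncard_lt_ncard h4 (hfin.subset inter_subset_left)
        have := ih (by omega)
        omega
    have h6 := h3 (C.ncard + 1) le_rfl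
    have h7 := ncard_le_ncard (inter_subset_left : C ∩ EL K L s (C.ncard + 1) ⊆ C) hfin
    omega

lemma ev_const {α : Type*} {f : ℕ → α} (h : ∀ᶠ n in atTop, f (n + 1) = f n) :
    ∃ z, ∀ᶠ n in atTop, f n = z := by
  obtain ⟨N, hN⟩ := eventually_atTop.1 h
  refine ⟨f N, eventually_atTop.2 ⟨N, fun n hn => ?_⟩⟩
  induction n, hn using Nat.le_induction with
  | base => rfl
  | succ n hn ih => rw [hN n hn, ih]

/-- the situation on a good component `C` -/
structure Pt (K : SimpleGraph U) (L : Set U) (r : ℕ) (s : ℕ → U → U) (C : Set U) : Prop where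
  cl : ∀ x ∈ C, ∀ y, K.Adj x y → y ∈ C
  fin : ∀ x, (K.neighborSet x).Finite
  bip : ∀ x y, K.Adj x y → (x ∈ L ↔ y ∉ L)
  rpos : 1 ≤ r
  inv : ∀ n x, s n (s n x) = x
  adj : ∀ n x, s n x ≠ x → K.Adj x (s n x)
  lev : ∀ n, ∀ y ∈ C, ∀ j, y ∈ EL K L (s (n + 1)) j → y ∈ EL K L (s n) j
  chg : ∀ n, ∀ y ∈ C, y ∉ L → s (n + 1) y ≠ s n y → (∃ j, y ∈ EL K L (s n) j) ∧
    ∀ j, y ∈ EL K L (s (n + 1)) j → ∃ i < j, y ∈ EL K L (s n) i
  cov : ∀ n, ∀ x ∈ C, x ∈ L → s n x ≠ x → s (n + 1) x ≠ x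
  hkc : ∀ y ∈ C, y ∉ L → (∀ j, ∃ n, y ∉ EL K L (s n) j) → dg K y = r ∧
    ∀ x, K.Adj y x → ∀ y', K.Adj x y' → ∀ j, ∃ n, y' ∉ EL K L (s n) j
  rea : ∀ x ∈ C, x ∈ L → {y | K.Reachable x y}.Finite ∨
    ∃ y, y ∉ L ∧ K.Reachable x y ∧ dg K y < r

variable {r : ℕ} {s : ℕ → U → U} {C : Set U}

lemma Pt.levs (h : Pt K L r s C) {n n' : ℕ} (hn : n ≤ n') {y : U} (hy : y ∈ C) {j : ℕ}
    (hj : y ∈ EL K L (s n') j) : y ∈ EL K L (s n) j := by
  induction n', hn using Nat.le_induction with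
  | base => exact hj
  | succ n' _ ih => exact ih (h.lev n' y hy j hj)

lemma Pt.covs (h : Pt K L r s C) {n n' : ℕ} (hn : n ≤ n') {x : U} (hx : x ∈ C) (hxL : x ∈ L)
    (hj : s n x ≠ x) : s n' x ≠ x := by
  induction n', hn using Nat.le_induction with
  | base => exact hj
  | succ n' _ ih => exact h.cov n' x hx hxL ih

lemma Pt.mem (h : Pt K L r s C) (n : ℕ) {x : U} (hx : x ∈ C) : s n x ∈ C := by
  by_cases hk : s n x = x
  · rwa [hk]
  · exact h.cl x hx _ (h.adj n x hk)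

/-- the property which spreads over the component -/
lemma Pt.spread (h : Pt K L r s C) {y z : U} (hyz : K.Reachable y z)
    (hy : y ∈ C ∧ (y ∉ L → ∀ j, ∃ n, y ∉ EL K L (s n) j) ∧
      (y ∈ L → ∀ z', K.Adj y z' → ∀ j, ∃ n, z' ∉ EL K L (s n) j)) :
    z ∈ C ∧ (z ∉ L → ∀ j, ∃ n, z ∉ EL K L (s n) j) ∧
      (z ∈ L → ∀ z', K.Adj z z' → ∀ j, ∃ n, z' ∉ EL K L (s n) j) := by
  obtain ⟨p⟩ := hyz
  induction p with
  | nil => exact hy
  | @cons a b c hab _ ih =>
    refine ih ⟨h.cl a hy.1 b hab, fun hb => ?_, fun hb z' hz' => ?_⟩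
    · have ha : a ∈ L := (h.bip a b hab).2 hb
      exact hy.2.2 ha b hab
    · have ha : a ∉ L := fun ha => (h.bip a b hab).1 ha hb
      exact (h.hkc a hy.1 ha (hy.2.1 ha)).2 b hab z' hz'

lemma Pt.comp_finite (h : Pt K L r s C) {y : U} (hy : y ∈ C) (hyL : y ∉ L)
    (hB : ∀ j, ∃ n, y ∉ EL K L (s n) j) : {z | K.Reachable y z}.Finite := by
  have hd := (h.hkc y hy hyL hB).1
  have hpos : 0 < dg K y := by
    have := h.rpos
    omega
  obtain ⟨x, hx⟩ := (dg_pos_iff (h.fin y)).1 hpos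
  have hxL : x ∈ L := by
    by_contra hxL
    exact hyL ((h.bip y x hx).2 hxL)
  rcases h.rea x (h.cl y hy x hx) hxL with h1 | ⟨z, hzL, hxz, hdz⟩
  · exact h1.subset fun z hz => hx.symm.reachable.trans hz
  · exfalso
    have h2 := h.spread (hx.reachable.trans hxz) ⟨hy, fun _ => hB, fun h' => absurd h' hyL⟩
    have h3 := (h.hkc z h2.1 hzL (h2.2.1 hzL)).1
    omega

/-- right vertices change finitely often -/
lemma Pt.right (h : Pt K L r s C) {y : U} (hy : y ∈ C) (hyL : y ∉ L) :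
    ∀ᶠ n in atTop, s (n + 1) y = s n y := by
  by_contra hcon
  rw [eventually_atTop] at hcon
  push Not at hcon
  have h1 : ∀ n, ∃ j, y ∈ EL K L (s n) j := by
    intro n
    obtain ⟨n', hn', hne⟩ := hcon n
    obtain ⟨j, hj⟩ := (h.chg n' y hy hyL hne).1
    exact ⟨j, h.levs hn' hy hj⟩
  have hB : ∀ j, ∃ n, y ∉ EL K L (s n) j := by
    intro j
    induction j using Nat.strong_induction_on with
    | _ j ih =>
      by_contra hj
      push Not at hj
      have h2 : ∀ n, ∃ i < j, y ∈ EL K L (s n) i := by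
        intro n
        obtain ⟨n', hn', hne⟩ := hcon n
        obtain ⟨i, hi, hyi⟩ := (h.chg n' y hy hyL hne).2 j (hj (n' + 1))
        exact ⟨i, hi, h.levs hn' hy hyi⟩
      have hj0 : 0 < j := by
        obtain ⟨i, hi, -⟩ := h2 0
        omega
      obtain ⟨n, hn⟩ := ih (j - 1) (by omega)
      obtain ⟨i, hi, hyi⟩ := h2 n
      exact hn (EL_mono (by omega) hyi)
  have hfin := h.comp_finite hy hyL hB
  have hcl : ∀ x ∈ {z | K.Reachable y z}, ∀ z, K.Adj x z → z ∈ {z | K.Reachable y z} :=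
    fun x hx z hxz => (show K.Reachable y x from hx).trans hxz.reachable
  obtain ⟨n, hn⟩ := hB {z | K.Reachable y z}.ncard
  obtain ⟨j, hj⟩ := h1 n
  refine hn (EL_bound hfin hcl (s := s n) ?_ (show K.Reachable y y from .rfl) hj)
  intro x hx
  by_cases hk : s n x = x
  · rwa [hk]
  · exact hcl x hx _ (h.adj n x hk)

/-- left vertices change finitely often -/
lemma Pt.left (h : Pt K L r s C) {x : U} (hx : x ∈ C) (hxL : x ∈ L) :
    ∀ᶠ n in atTop, s (n + 1) x = s n x := by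
  have h1 : ∀ᶠ n in atTop, ∀ y ∈ K.neighborSet x, s (n + 1) y = s n y := by
    rw [eventually_all_finite (h.fin x)]
    intro y hy
    exact h.right (h.cl x hx y hy) ((h.bip x y hy).1 hxL)
  filter_upwards [h1] with n hn
  by_cases h2 : s n x = x
  · by_contra h3
    rw [h2] at h3
    have h4 := hn _ (h.adj (n + 1) x h3)
    rw [h.inv] at h4
    have h5 := h.inv n (s (n + 1) x)
    rw [← h4, h2] at h5
    exact h3 h5.symm
  · have h4 := hn _ (h.adj n x h2)
    rw [h.inv] at h4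
    have h5 := h.inv (n + 1) (s n x)
    rw [h4] at h5
    exact h5

lemma Pt.ev (h : Pt K L r s C) {x : U} (hx : x ∈ C) : ∃ z, ∀ᶠ n in atTop, s n x = z := by
  refine ev_const ?_
  by_cases hxL : x ∈ L
  · exact h.left hx hxL
  · exact h.right hx hxL

variable {T : U → U}

lemma Pt.lim_mem (h : Pt K L r s C) (hT : ∀ x ∈ C, ∀ᶠ n in atTop, s n x = T x) {x : U}
    (hx : x ∈ C) : T x ∈ C := by
  obtain ⟨n, hn⟩ := (hT x hx).exists
  rw [← hn]
  exact h.mem n hx

lemma Pt.lim_EL (h : Pt K L r s C) (hT : ∀ x ∈ C, ∀ᶠ n in atTop, s n x = T x) (j : ℕ) :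
    ∀ y ∈ C, y ∈ EL K L T j → ∀ᶠ n in atTop, y ∈ EL K L (s n) j := by
  induction j with
  | zero =>
    intro y hy hyj
    filter_upwards [hT y hy] with n hn
    exact ⟨hyj.1, hn.trans hyj.2⟩
  | succ j ih =>
    rintro y hy ⟨h1, h2 | ⟨y', h2, h3⟩⟩
    · filter_upwards [hT y hy] with n hn
      exact ⟨h1, Or.inl (hn.trans h2)⟩
    · filter_upwards [hT y hy, ih y' (h.cl _ (h.lim_mem hT hy) _ h2) h3] with n hn hn'
      exact ⟨h1, Or.inr ⟨y', by rw [hn]; exact h2, hn'⟩⟩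

lemma Pt.lim_lev (h : Pt K L r s C) (hT : ∀ x ∈ C, ∀ᶠ n in atTop, s n x = T x) (n j : ℕ)
    {y : U} (hy : y ∈ C) (hj : y ∈ EL K L T j) : y ∈ EL K L (s n) j := by
  obtain ⟨n', hn', h1⟩ := ((eventually_ge_atTop n).and (h.lim_EL hT j y hy hj)).exists
  exact h.levs hn' hy h1

lemma Pt.lim_chg (h : Pt K L r s C) (hT : ∀ x ∈ C, ∀ᶠ n in atTop, s n x = T x) (n : ℕ)
    {y : U} (hy : y ∈ C) (hyL : y ∉ L) (hne : T y ≠ s n y) :
    (∃ j, y ∈ EL K L (s n) j) ∧ ∀ j, y ∈ EL K L T j → ∃ i < j, y ∈ EL K L (s n) i := by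
  have h1 : ∃ n', n ≤ n' ∧ s (n' + 1) y ≠ s n' y := by
    by_contra hcon
    push Not at hcon
    have h2 : ∀ n', n ≤ n' → s n' y = s n y := by
      intro n' hn'
      induction n', hn' using Nat.le_induction with
      | base => rfl
      | succ n' hn' ih => rw [hcon n' hn', ih]
    obtain ⟨n', hn', h3⟩ := ((eventually_ge_atTop n).and (hT y hy)).exists
    exact hne (by rw [← h3, h2 n' hn'])
  obtain ⟨n', hn', h2⟩ := h1
  obtain ⟨⟨j, hj⟩, h3⟩ := h.chg n' y hy hyL h2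
  refine ⟨⟨j, h.levs hn' hy hj⟩, fun j hj => ?_⟩
  obtain ⟨i, hi, h4⟩ := h3 j (h.lim_lev hT (n' + 1) j hy hj)
  exact ⟨i, hi, h.levs hn' hy h4⟩

lemma Pt.lim_cov (h : Pt K L r s C) (hT : ∀ x ∈ C, ∀ᶠ n in atTop, s n x = T x) (n : ℕ)
    {x : U} (hx : x ∈ C) (hxL : x ∈ L) (hne : s n x ≠ x) : T x ≠ x := by
  obtain ⟨n', hn', h1⟩ := ((eventually_ge_atTop n).and (hT x hx)).exists
  rw [← h1]
  exact h.covs hn' hx hxL hne

end plain

end LIM_

/-- D5 -/
theorem allLIM (h_HKC : tHKC.{u}) (_h_MES : tMES.{u}) : tLIM.{u} := by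
  intro U _ _ K m r e ν _ L hBK hrea M hM
  have hl := hBK.lab
  have h1 := ae_Cm hBK.inv e (h_HKC U K m r e ν L hBK M fun n => (hM n).lev)
  have h2 := ae_Cm hBK.inv e hrea
  have h3 := ae_Cm hBK.inv e (ae_all_iff.2 fun n => (hM n).lev)
  have h4 := ae_Cm hBK.inv e (ae_all_iff.2 fun n => (hM n).chg)
  have h5 := ae_Cm hBK.inv e (ae_all_iff.2 fun n => (hM n).cov)
  have key : ∀ᵐ b ∂ν, LIM_.Pt K L r (fun n => (M n).S 0) (Cm e b) := by
    filter_upwards [h1, h2, h3, h4, h5] with b g1 g2 g3 g4 g5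
    exact
      { cl := fun x hx y hxy => Cm_adj hl hx hxy
        fin := hl.fin
        bip := hBK.bip
        rpos := hBK.rpos
        inv := fun n x => (M n).invol 0 x
        adj := fun n x hx => (M n).adj 0 x hx
        lev := fun n y hy => g3 y hy n
        chg := fun n y hy => g4 y hy n
        cov := fun n y hy => g5 y hy n
        hkc := fun y hy => g1 y hy
        rea := fun x hx => g2 x hx }
  have keyT : ∀ b, LIM_.Pt K L r (fun n => (M n).S 0) (Cm e b) →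
      ∀ x ∈ Cm e b, ∀ᶠ n in atTop, (fun n => (M n).S 0) n x = (PCol.lim M).S 0 x := by
    intro b hb x hx
    obtain ⟨z, hz⟩ := hb.ev hx
    have hz' : ∀ᶠ n in atTop, (M n).S 0 x = z := hz
    have h6 : (PCol.lim M).S 0 x = z := PCol.limS_eq hz'
    rw [h6]
    exact hz
  refine ⟨PCol.lim M, fun n => ⟨?_, ?_, ?_⟩⟩
  · filter_upwards [key] with b hb
    intro j hj
    exact hb.lim_lev (keyT b hb) n j (Cm_self e b) hj
  · filter_upwards [key] with b hb
    intro hbL hne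
    exact hb.lim_chg (keyT b hb) n (Cm_self e b) hbL hne
  · filter_upwards [key] with b hb
    intro hbL hne
    exact hb.lim_cov (keyT b hb) n (Cm_self e b) hbL hne

end Pool.Agent.MEO
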