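import Pool.Agent.MEO.Targets
import Pool.Agent.MEO.Base

set_option autoImplicit false
set_option linter.unusedVariables false

/-! MP_fff3e1_lc, project MEO: assembly of the theorem (target E2). -/

namespace Pool.Agent.MEO

open MeasureTheory Set Filter
open scoped ENNReal
open Pool.Agent.MEC
open Pool.Agent.MEP

universe u

namespace MAIN_

variable {V : Type u} {G : SimpleGraph V}

lemma fin_nb {Δ : ℕ} (hd : ∀ x, (G.neighborSet x).encard ≤ Δ) (x : V) :
    (G.neighborSet x).Finite :=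
  finite_of_encard_le_coe (hd x)

lemma encard_dg {Δ : ℕ} (hd : ∀ x, (G.neighborSet x).encard ≤ Δ) (x : V) :
    (G.neighborSet x).encard = (dg G x : ℕ∞) :=
  ((fin_nb hd x).cast_ncard_eq).symm

/-- the standing assumptions -/
lemma px {Δ : ℕ} (hd : ∀ x, (G.neighborSet x).encard ≤ Δ)
    (hi : ∀ x y, G.Adj x y → (G.neighborSet x).encard < Δ ∨ (G.neighborSet y).encard < Δ)
    (hχ : ∃ χ : V → Bool, ∀ x y, G.Adj x y → χ x ≠ χ y) : PX G Δ univ := by
  refine ⟨fun _ _ _ _ => mem_univ _, fin_nb hd, fun x => ?_, fun x y hxy => ?_, hχ⟩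
  · have := hd x
    rw [encard_dg hd x] at this
    exact_mod_cast this
  · have := hi x y hxy
    rw [encard_dg hd x, encard_dg hd y] at this
    exact_mod_cast this

/-- invariance from the full group -/
lemma inv_of_full [MeasurableSpace V] {μ : Measure V}
    (h : ∀ f : V ≃ᵐ V, (∀ x, G.Reachable x (f x)) → MeasurePreserving f μ μ) : Inv G μ := by
  intro f hf hinv hadj
  refine h (ofInvol f hf hinv) fun x => ?_
  by_cases hx : f x = x
  · have : (ofInvol f hf hinv) x = x := hx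
    rw [this]
  · exact (hadj x hx).reachable

/-- the empty colouring is clean -/
lemma base [MeasurableSpace V] {μ : Measure V} {Δ : ℕ} (hpx : PX G Δ univ) (hΔ : 1 ≤ Δ) :
    (∀ᵐ x ∂μ, dg (RG (toPC (PCol.empty G 0))) x ≤ Δ) ∧
      μ (XX (RG (toPC (PCol.empty G 0))) Δ) = 0 := by
  have h1 : RG (toPC (PCol.empty G 0)) = G := by
    ext x y
    rw [RG_adj]
    exact ⟨fun h => h.1, fun h => ⟨h, fun k => k.elim0⟩⟩
  rw [h1]
  refine ⟨Eventually.of_forall hpx.deg, ?_⟩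
  have h2 : XX G Δ = ∅ := by
    rw [eq_empty_iff_forall_notMem]
    rintro x ⟨-, hx⟩
    have h3 := hx x SimpleGraph.Reachable.rfl
    obtain ⟨y, hy⟩ := (dg_pos_iff (hpx.fin x)).1 (by omega)
    have h4 := hx y hy.reachable
    rcases hpx.ind x y hy with h5 | h5 <;> omega
  rw [h2]
  exact measure_empty

/-- clean states of all levels below `Δ` -/
lemma clean (h_CLEAN : tCLEAN.{u}) (h_CLIMB : tCLIMB.{u}) [MeasurableSpace V]
    [StandardBorelSpace V] {m : ℕ} (e : PCol G m) {μ : Measure V} [IsFiniteMeasure μ] {Δ : ℕ}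
    (hl : Lab e) (hinv : Inv G μ) (hpx : PX G Δ univ) : ∀ l r : ℕ, l + r = Δ → 1 ≤ r →
    ∃ c : PCol G l, (∀ᵐ x ∂μ, dg (RG (toPC c)) x ≤ r) ∧ μ (XX (RG (toPC c)) r) = 0 := by
  intro l
  induction l with
  | zero =>
    intro r hr h1
    have : r = Δ := by omega
    subst this
    exact ⟨PCol.empty G 0, base hpx h1⟩
  | succ l ih =>
    intro r hr h1
    obtain ⟨c, hc1, hc2⟩ := ih (r + 1) (by omega) (by omega)
    obtain ⟨c', hc'⟩ := h_CLIMB V G m e μ Δ l (r + 1) hl hinv hpx (by omega) c hc1 hc2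
    exact h_CLEAN V G m e μ Δ (l + 1) r hl hinv hpx hr (by omega) h1 ⟨c', hc'⟩

end MAIN_

open MAIN_ in
theorem allMAIN (h_LAB : tLAB.{u}) (h_CLEAN : tCLEAN.{u}) (h_CLIMB : tCLIMB.{u})
    (h_MES : tMES.{u}) : tMAIN.{u} := by
  intro V _ _ G Δ μ _ hG hd hi hχ hfull
  obtain ⟨e, hl⟩ := h_LAB V G Δ hG hd
  have hinv := inv_of_full hfull
  have hpx := px hd hi hχ
  rcases Nat.eq_zero_or_pos Δ with h0 | h0
  · subst h0
    refine ⟨PCol.empty G 0, Eventually.of_forall fun x y hxy => ?_⟩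
    have h1 := hpx.deg x
    have h2 := (dg_pos_iff (hpx.fin x)).2 ⟨y, hxy⟩
    omega
  · obtain ⟨l, rfl⟩ : ∃ l, Δ = l + 1 := ⟨Δ - 1, by omega⟩
    obtain ⟨c, hc1, hc2⟩ := clean h_CLEAN h_CLIMB e hl hinv hpx l 1 rfl le_rfl
    obtain ⟨c', hc'⟩ := h_CLIMB V G _ e μ (l + 1) l 1 hl hinv hpx le_rfl c hc1 hc2
    refine ⟨c', ?_⟩
    filter_upwards [hc'] with x hx y hxy
    by_contra hcon
    push Not at hcon
    have h1 : (RG (toPC c')).Adj x y := ⟨hxy, hcon⟩
    have h2 := (dg_pos_iff (fin_of_le (RG_le (toPC c')) (hpx.fin x))).2 ⟨y, h1⟩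
    omega

end Pool.Agent.MEO
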