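import Pool.Agent.MEO.Targets

set_option autoImplicit false

/-! MP_fff3e1_lc, D10: from the injection to a matching.  Proof of `tMAT`. -/

namespace Pool.Agent.MEO

open MeasureTheory Set Filter
open scoped ENNReal
open Pool.Agent.MEC
open Pool.Agent.MEP

universe u

namespace MAT_

variable {V : Type u}

/-- roots: points which are periodic under `g` and have the least value of `e` in their cycle -/
def Rt (g : V → V) (e : V → ℝ) : Set V :=
  {y | (∃ p, 1 ≤ p ∧ g^[p] y = y) ∧ ∀ j, e y ≤ e (g^[j] y)}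

/-- the first root is reached after exactly `n` steps -/
def At (g : V → V) (e : V → ℝ) (n : ℕ) : Set V :=
  {x | g^[n] x ∈ Rt g e ∧ ∀ m < n, g^[m] x ∉ Rt g e}

lemma at_unique {g : V → V} {e : V → ℝ} {x : V} {n m : ℕ} (hn : x ∈ At g e n)
    (hm : x ∈ At g e m) : n = m := by
  rcases lt_trichotomy n m with h | h | h
  · exact absurd hn.1 (hm.2 n h)
  · exact h
  · exact absurd hm.1 (hn.2 m h)

lemma exists_at {g : V → V} {e : V → ℝ} {x : V} (h : ∃ n, g^[n] x ∈ Rt g e) :
    ∃ n, x ∈ At g e n := by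
  classical
  exact ⟨Nat.find h, Nat.find_spec h, fun m hm => Nat.find_min h hm⟩

lemma iterate_mod {g : V → V} {x : V} {p : ℕ} (hp : g^[p] x = x) (j : ℕ) :
    g^[j] x = g^[j % p] x := by
  have h1 : Function.IsPeriodicPt g p x := hp
  exact (h1.iterate_mod_apply j).symm

lemma root_of_fix {g : V → V} {e : V → ℝ} {y : V} (h : g y = y) : y ∈ Rt g e := by
  refine ⟨⟨1, le_rfl, by simpa using h⟩, fun j => ?_⟩
  rw [Function.iterate_fixed h]

lemma root_of_periodic {g : V → V} {e : V → ℝ} {x : V} {p : ℕ} (hp1 : 1 ≤ p)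
    (hp : g^[p] x = x) : ∃ n, g^[n] x ∈ Rt g e := by
  obtain ⟨n, -, hn⟩ := Finset.exists_min_image (Finset.range p) (fun i => e (g^[i] x))
    ⟨0, Finset.mem_range.2 hp1⟩
  refine ⟨n, ⟨p, hp1, ?_⟩, fun j => ?_⟩
  · rw [← Function.iterate_add_apply, add_comm, Function.iterate_add_apply, hp]
  · rw [← Function.iterate_add_apply, iterate_mod hp (j + n)]
    exact hn _ (Finset.mem_range.2 (Nat.mod_lt _ hp1))

lemma root_unique {g : V → V} {e : V → ℝ} (he : Function.Injective e) {y : V} {m : ℕ}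
    (hy : y ∈ Rt g e) (hz : g^[m] y ∈ Rt g e) : g^[m] y = y := by
  obtain ⟨⟨p, hp1, hp⟩, hmin⟩ := hy
  apply he
  refine le_antisymm ?_ (hmin m)
  have h1 : ∃ j, g^[j] (g^[m] y) = y := by
    refine ⟨p * m - m, ?_⟩
    rw [← Function.iterate_add_apply, Nat.sub_add_cancel (Nat.le_mul_of_pos_left m hp1)]
    exact (Function.IsPeriodicPt.mul_const (show Function.IsPeriodicPt g p y from hp) m)
  obtain ⟨j, hj⟩ := h1
  have h2 := hz.2 j
  rwa [hj] at h2

lemma not_fix {g : V → V} {y : V} {p : ℕ} (hp1 : 1 ≤ p) (hp : g^[p] y = y) (hy : g y ≠ y)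
    (j : ℕ) : g (g^[j] y) ≠ g^[j] y := by
  intro h
  have h1 : ∀ i, g^[i] (g^[j] y) = g^[j] y := fun i => Function.iterate_fixed h i
  have h2 : g^[p * j - j] (g^[j] y) = y := by
    rw [← Function.iterate_add_apply, Nat.sub_add_cancel (Nat.le_mul_of_pos_left j hp1)]
    exact (Function.IsPeriodicPt.mul_const (show Function.IsPeriodicPt g p y from hp) j)
  rw [h1] at h2
  rw [h2] at h
  exact hy h

lemma parity {g : V → V} {χ : V → Bool} {y : V} (h : ∀ j, χ (g (g^[j] y)) ≠ χ (g^[j] y))
    (j : ℕ) : χ (g^[2 * j] y) = χ y ∧ χ (g^[2 * j + 1] y) ≠ χ y := by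
  have hs : ∀ i, χ (g^[i + 1] y) = ! χ (g^[i] y) := by
    intro i
    have := h i
    rw [Function.iterate_succ_apply']
    revert this
    cases χ (g (g^[i] y)) <;> cases χ (g^[i] y) <;> simp
  have h1 : ∀ i, χ (g^[2 * i] y) = χ y := by
    intro i
    induction i with
    | zero => rfl
    | succ i ih =>
      rw [show 2 * (i + 1) = (2 * i + 1) + 1 by ring, hs, hs, ih, Bool.not_not]
  refine ⟨h1 j, ?_⟩
  rw [hs, h1]
  cases χ y <;> simp

/-- the number of steps to the first root is even (`b = 0`) or odd (`b = 1`) -/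
def Par (g : V → V) (e : V → ℝ) (b : ℕ) : Set V := ⋃ k : ℕ, At g e (2 * k + b)

lemma mem_par {g : V → V} {e : V → ℝ} {b : ℕ} {x : V} :
    x ∈ Par g e b ↔ ∃ k, x ∈ At g e (2 * k + b) := by
  simp [Par]

lemma par_disj {g : V → V} {e : V → ℝ} {x : V} (h0 : x ∈ Par g e 0) (h1 : x ∈ Par g e 1) :
    False := by
  obtain ⟨k, hk⟩ := mem_par.1 h0
  obtain ⟨j, hj⟩ := mem_par.1 h1
  have := at_unique hk hj
  omega

open Classical in
/-- the matching -/
noncomputable def T (f g : V → V) (e : V → ℝ) (x : V) : V :=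
  if x ∈ Par g e 0 then f x else if x ∈ Par g e 1 then g x else x

section meas

variable [MeasurableSpace V] [StandardBorelSpace V]

lemma measurableSet_Rt {g : V → V} {e : V → ℝ} (hg : Measurable g) (he : Measurable e) :
    MeasurableSet (Rt g e) := by
  have h1 : Rt g e = (⋃ p : ℕ, ⋃ _ : 1 ≤ p, {y | g^[p] y = y}) ∩
      ⋂ j : ℕ, {y | e y ≤ e (g^[j] y)} := by
    ext y
    simp [Rt]
  rw [h1]
  refine MeasurableSet.inter ?_ ?_
  · refine MeasurableSet.iUnion fun p => MeasurableSet.iUnion fun _ => ?_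
    exact measurableSet_eq_fun (hg.iterate p) measurable_id
  · exact MeasurableSet.iInter fun j => measurableSet_le he (he.comp (hg.iterate j))

lemma measurableSet_At {g : V → V} {e : V → ℝ} (hg : Measurable g) (he : Measurable e)
    (n : ℕ) : MeasurableSet (At g e n) := by
  have h1 : At g e n = (g^[n]) ⁻¹' (Rt g e) ∩
      ⋂ m : ℕ, ⋂ _ : m < n, ((g^[m]) ⁻¹' (Rt g e))ᶜ := by
    ext y
    simp [At]
  rw [h1]
  refine MeasurableSet.inter ((hg.iterate n) (measurableSet_Rt hg he)) ?_
  exact MeasurableSet.iInter fun m => MeasurableSet.iInter fun _ =>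
    ((hg.iterate m) (measurableSet_Rt hg he)).compl

lemma measurableSet_Par {g : V → V} {e : V → ℝ} (hg : Measurable g) (he : Measurable e)
    (b : ℕ) : MeasurableSet (Par g e b) :=
  MeasurableSet.iUnion fun _ => measurableSet_At hg he _

lemma measurable_T {f g : V → V} {e : V → ℝ} (hf : Measurable f) (hg : Measurable g)
    (he : Measurable e) : Measurable (T f g e) := by
  classical
  exact Measurable.ite (measurableSet_Par hg he 0) hf
    (Measurable.ite (measurableSet_Par hg he 1) hg measurable_id)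

end meas

end MAT_

open MAT_ in
theorem allMAT : tMAT.{u} := by
  intro V _ _ R χ f g hχ hf hg hfR hgR
  have hemb := MeasureTheory.measurableEmbedding_embeddingReal V
  set e : V → ℝ := MeasureTheory.embeddingReal V with he_def
  have he : Measurable e := hemb.measurable
  have hinj : Function.Injective e := hemb.injective
  -- even points: `f x` is odd
  have hT0 : ∀ x, x ∈ Par g e 0 → T f g e x = f x := by
    intro x hx
    simp [T, hx]
  have hT1 : ∀ x, x ∈ Par g e 1 → T f g e x = g x := by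
    intro x hx
    have : x ∉ Par g e 0 := fun h => par_disj h hx
    simp [T, hx, this]
  have hT2 : ∀ x, x ∉ Par g e 0 → x ∉ Par g e 1 → T f g e x = x := by
    intro x h0 h1
    simp [T, h0, h1]
  have hev : ∀ x, x ∈ Par g e 0 → f x ≠ x → f x ∈ Par g e 1 := by
    intro x hx hfx
    obtain ⟨k, hk⟩ := mem_par.1 hx
    have hgf : g (f x) = x := (hfR x hfx).2
    have hgy : g (f x) ≠ f x := by rw [hgf]; exact fun h => hfx h.symm
    have hnot : f x ∉ Rt g e := by
      intro hr
      have h1 : g^[2 * k + 1] (f x) ∈ Rt g e := by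
        rw [Function.iterate_succ_apply, hgf]
        simpa using hk.1
      have h2 := root_unique hinj hr h1
      obtain ⟨⟨p, hp1, hp⟩, -⟩ := hr
      have h3 : ∀ j, χ (g (g^[j] (f x))) ≠ χ (g^[j] (f x)) := fun j =>
        hχ _ _ (hgR _ (not_fix hp1 hp hgy j)).1
      have h4 := (parity h3 k).2
      rw [h2] at h4
      exact h4 rfl
    refine mem_par.2 ⟨k, ?_, ?_⟩
    · rw [Function.iterate_succ_apply, hgf]
      simpa using hk.1
    · intro m hm
      rcases m with _ | m
      · simpa using hnot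
      · rw [Function.iterate_succ_apply, hgf]
        exact hk.2 m (by omega)
  have hod : ∀ x, x ∈ Par g e 1 → g x ≠ x ∧ g x ∈ Par g e 0 := by
    intro x hx
    obtain ⟨k, hk⟩ := mem_par.1 hx
    have hgx : g x ≠ x := by
      intro h
      have := hk.2 0 (by omega)
      exact this (by simpa using root_of_fix h)
    refine ⟨hgx, mem_par.2 ⟨k, ?_, ?_⟩⟩
    · rw [add_zero, ← Function.iterate_succ_apply]
      exact hk.1
    · intro m hm
      rw [← Function.iterate_succ_apply]
      exact hk.2 (m + 1) (by omega)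
  refine ⟨T f g e, measurable_T hf hg he, ?_, ?_, ?_⟩
  · intro x
    by_cases h0 : x ∈ Par g e 0
    · rw [hT0 x h0]
      by_cases hfx : f x = x
      · rw [hfx, hT0 x h0, hfx]
      · rw [hT1 _ (hev x h0 hfx)]
        exact (hfR x hfx).2
    · by_cases h1 : x ∈ Par g e 1
      · rw [hT1 x h1, hT0 _ (hod x h1).2]
        exact (hgR x (hod x h1).1).2
      · rw [hT2 x h0 h1, hT2 x h0 h1]
  · intro x hx
    by_cases h0 : x ∈ Par g e 0
    · rw [hT0 x h0] at hx ⊢
      exact (hfR x hx).1
    · by_cases h1 : x ∈ Par g e 1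
      · rw [hT1 x h1]
        exact (hgR x (hod x h1).1).1.symm
      · exact absurd (hT2 x h0 h1) hx
  · intro x hx hfx
    have hroot : ∃ n, g^[n] x ∈ Rt g e := by
      rcases hx with ⟨n, hn⟩ | ⟨p, hp1, hp⟩
      · exact ⟨n, root_of_fix hn⟩
      · exact root_of_periodic hp1 hp
    obtain ⟨n, hn⟩ := exists_at hroot
    rcases Nat.even_or_odd' n with ⟨k, rfl | rfl⟩
    · rw [hT0 x (mem_par.2 ⟨k, by simpa using hn⟩)]
      exact hfx
    · have h1 : x ∈ Par g e 1 := mem_par.2 ⟨k, hn⟩
      rw [hT1 x h1]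
      exact (hod x h1).1

end Pool.Agent.MEO
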