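import Pool.Agent.MEO.Targets
import Pool.Agent.MEO.Base
import Pool.Agent.MEP.Walk

set_option autoImplicit false
set_option linter.unusedSectionVars false

/-! A8: measurability of the sets which occur. -/

namespace Pool.Agent.MEO

open MeasureTheory Set Filter
open scoped ENNReal
open Pool.Agent.MEC
open Pool.Agent.MEP

universe u

namespace MES_

/-- conditions on the number of labels with a measurable property -/
lemma meas_card {α : Type*} [MeasurableSpace α] {m : ℕ} (P : Fin m → α → Prop)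
    (hP : ∀ k, MeasurableSet {x | P k x}) (N : Set ℕ) :
    MeasurableSet {x | {k | P k x}.ncard ∈ N} := by
  have h : {x | {k | P k x}.ncard ∈ N} =
      ⋃ A ∈ {A : Set (Fin m) | A.ncard ∈ N}, {x | ∀ k, P k x ↔ k ∈ A} := by
    ext x
    simp only [mem_ofPred_eq, mem_iUnion, exists_prop]
    constructor
    · intro hx
      exact ⟨{k | P k x}, hx, fun k => Iff.rfl⟩
    · rintro ⟨A, hA, h⟩
      have : {k | P k x} = A := by
        ext k
        exact h k
      rwa [this]
  rw [h]
  refine MeasurableSet.biUnion (toFinite _).countable fun A _ => ?_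
  have h2 : {x | ∀ k, P k x ↔ k ∈ A} = ⋂ k, {x | P k x ↔ k ∈ A} := by
    ext x
    simp
  rw [h2]
  refine MeasurableSet.iInter fun k => ?_
  by_cases hk : k ∈ A
  · have h3 : {x | P k x ↔ k ∈ A} = {x | P k x} := by
      ext x
      simp [hk]
    rw [h3]
    exact hP k
  · have h3 : {x | P k x ↔ k ∈ A} = {x | P k x}ᶜ := by
      ext x
      simp [hk]
    rw [h3]
    exact (hP k).compl

variable {V : Type u} [MeasurableSpace V] {G : SimpleGraph V} {l m : ℕ}

/-- the points from which the walk with labels `w` stays in `R` -/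
def Pth (e : PCol G m) (R : SimpleGraph V) : List (Fin m) → Set V
  | [] => univ
  | k :: w => {x | (e.S k x = x ∨ R.Adj x (e.S k x)) ∧ e.S k x ∈ Pth e R w}

lemma reach_iff {e : PCol G m} (hl : Lab e) {R : SimpleGraph V} (hR : R ≤ G) {x y : V} :
    R.Reachable x y ↔ ∃ w, x ∈ Pth e R w ∧ wd e w x = y := by
  constructor
  · rintro ⟨p⟩
    induction p with
    | nil => exact ⟨[], trivial, rfl⟩
    | cons h _ ih =>
      obtain ⟨w, h1, h2⟩ := ih
      obtain ⟨k, rfl⟩ := hl _ _ (hR h)
      exact ⟨k :: w, ⟨Or.inr h, h1⟩, h2⟩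
  · rintro ⟨w, h1, rfl⟩
    induction w generalizing x with
    | nil => exact SimpleGraph.Reachable.rfl
    | cons k w ih =>
      obtain ⟨h2, h3⟩ := h1
      rw [wd_cons]
      rcases h2 with h2 | h2
      · rw [h2] at h3 ⊢
        exact ih h3
      · exact h2.reachable.trans (ih h3)

variable [StandardBorelSpace V]

lemma meas_Pth (e : PCol G m) {R : SimpleGraph V}
    (hR : MeasurableSet {p : V × V | R.Adj p.1 p.2}) (w : List (Fin m)) :
    MeasurableSet (Pth e R w) := by
  induction w with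
  | nil => exact MeasurableSet.univ
  | cons k w ih =>
    refine MeasurableSet.inter ?_ (e.meas k ih)
    refine MeasurableSet.union (measurableSet_eq_fun (e.meas k) measurable_id) ?_
    exact (measurable_id.prodMk (e.meas k)) hR

lemma meas_G {e : PCol G m} (hl : Lab e) : MeasurableSet {p : V × V | G.Adj p.1 p.2} := by
  have h : {p : V × V | G.Adj p.1 p.2} =
      ⋃ k, ({p : V × V | e.S k p.1 = p.2} ∩ {p : V × V | p.1 = p.2}ᶜ) := by
    ext p
    simp only [mem_ofPred_eq, mem_iUnion, mem_inter_iff, mem_compl_iff]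
    constructor
    · intro hp
      obtain ⟨k, hk⟩ := hl _ _ hp
      exact ⟨k, hk, hp.ne⟩
    · rintro ⟨k, h1, h2⟩
      have := e.adj k p.1 (by rw [h1]; exact fun h => h2 h.symm)
      rwa [h1] at this
  rw [h]
  refine MeasurableSet.iUnion fun k => ?_
  exact (measurableSet_eq_fun ((e.meas k).comp measurable_fst) measurable_snd).inter
    (measurableSet_eq_fun measurable_fst measurable_snd).compl

lemma meas_dg {e : PCol G m} (hl : Lab e) {R : SimpleGraph V} (hR : R ≤ G)
    (hRm : MeasurableSet {p : V × V | R.Adj p.1 p.2}) (j : ℕ) :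
    MeasurableSet {x | dg R x = j} := by
  have h : {x | dg R x = j} = {x | {k | R.Adj x (e.S k x)}.ncard ∈ ({j} : Set ℕ)} := by
    ext x
    simp only [mem_ofPred_eq, mem_singleton_iff]
    rw [dg_eq_card hl hR]
  rw [h]
  exact meas_card (fun k x => R.Adj x (e.S k x))
    (fun k => (measurable_id.prodMk (e.meas k)) hRm) {j}

lemma meas_reach {e : PCol G m} (hl : Lab e) {R : SimpleGraph V} (hR : R ≤ G)
    (hRm : MeasurableSet {p : V × V | R.Adj p.1 p.2}) :
    MeasurableSet {p : V × V | R.Reachable p.1 p.2} := by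
  have h : {p : V × V | R.Reachable p.1 p.2} =
      ⋃ w, (Prod.fst ⁻¹' Pth e R w ∩ {p : V × V | wd e w p.1 = p.2}) := by
    ext p
    simp only [mem_ofPred_eq, mem_iUnion, mem_inter_iff, mem_preimage]
    exact reach_iff hl hR
  rw [h]
  refine MeasurableSet.iUnion fun w => ?_
  exact (measurable_fst (meas_Pth e hRm w)).inter
    (measurableSet_eq_fun ((wd e w).measurable.comp measurable_fst) measurable_snd)

lemma meas_XX {e : PCol G m} (hl : Lab e) {R : SimpleGraph V} (hR : R ≤ G)
    (hRm : MeasurableSet {p : V × V | R.Adj p.1 p.2}) (r : ℕ) : MeasurableSet (XX R r) := by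
  classical
  have h : XX R r =
      (⋂ F : Finset (List (Fin m)), ⋃ w, (Pth e R w ∩ ⋂ w' ∈ F, {x | wd e w' x = wd e w x}ᶜ)) ∩
      ⋂ w, ((Pth e R w)ᶜ ∪ wd e w ⁻¹' {x | dg R x = r}) := by
    ext x
    simp only [XX, mem_ofPred_eq, mem_inter_iff, mem_iInter, mem_iUnion, mem_compl_iff,
      mem_union, mem_preimage]
    refine and_congr ⟨fun hx F => ?_, fun hx hfin => ?_⟩ ⟨fun hx w => ?_, fun hx y hy => ?_⟩
    · obtain ⟨y, hy1, hy2⟩ := hx.exists_notMem_finset (F.image fun w' => wd e w' x)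
      obtain ⟨w, h1, rfl⟩ := (reach_iff hl hR).1 hy1
      refine ⟨w, h1, fun w' hw' heq => hy2 ?_⟩
      exact Finset.mem_image.2 ⟨w', hw', heq⟩
    · choose! f hf1 hf2 using fun y (hy : R.Reachable x y) => (reach_iff hl hR).1 hy
      obtain ⟨w, h1, h2⟩ := hx (hfin.toFinset.image f)
      have h3 : R.Reachable x (wd e w x) := (reach_iff hl hR).2 ⟨w, h1, rfl⟩
      exact h2 (f (wd e w x)) (Finset.mem_image.2 ⟨_, hfin.mem_toFinset.2 h3, rfl⟩) (hf2 _ h3)
    · by_cases h1 : x ∈ Pth e R w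
      · exact Or.inr (hx _ ((reach_iff hl hR).2 ⟨w, h1, rfl⟩))
      · exact Or.inl h1
    · obtain ⟨w, h1, rfl⟩ := (reach_iff hl hR).1 hy
      rcases hx w with h2 | h2
      · exact absurd h1 h2
      · exact h2
  rw [h]
  refine MeasurableSet.inter ?_ ?_
  · refine MeasurableSet.iInter fun F => MeasurableSet.iUnion fun w => ?_
    refine (meas_Pth e hRm w).inter ?_
    refine MeasurableSet.biInter F.countable_toSet fun w' _ => ?_
    exact (measurableSet_eq_fun (wd e w').measurable (wd e w).measurable).compl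
  · refine MeasurableSet.iInter fun w => ?_
    exact (meas_Pth e hRm w).compl.union ((wd e w).measurable (meas_dg hl hR hRm r))

lemma meas_RG {e : PCol G m} (hl : Lab e) (c : PCol G l) :
    MeasurableSet {p : V × V | (RG (toPC c)).Adj p.1 p.2} := by
  have h : {p : V × V | (RG (toPC c)).Adj p.1 p.2} =
      {p : V × V | G.Adj p.1 p.2} ∩ ⋂ k, {p : V × V | c.S k p.1 = p.2}ᶜ := by
    ext p
    simp only [mem_ofPred_eq, mem_inter_iff, mem_iInter, mem_compl_iff]
    exact Iff.rfl
  rw [h]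
  refine (meas_G hl).inter (MeasurableSet.iInter fun k => ?_)
  exact (measurableSet_eq_fun ((c.meas k).comp measurable_fst) measurable_snd).compl

lemma QR_iff {e : PCol G m} (hl : Lab e) (r : ℕ) (x : V) (s : Fin l → V) :
    QR G r x s ↔ {k | e.S k x ≠ x ∧ ∀ i, s i ≠ e.S k x}.ncard ∈ Iic r := by
  have h1 : {y | G.Adj x y ∧ ∀ k, s k ≠ y} =
      (fun k => e.S k x) '' {k | e.S k x ≠ x ∧ ∀ i, s i ≠ e.S k x} := by
    ext y
    constructor
    · rintro ⟨h1, h2⟩
      obtain ⟨k, rfl⟩ := hl x y h1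
      exact ⟨k, ⟨h1.ne', h2⟩, rfl⟩
    · rintro ⟨k, ⟨h1, h2⟩, rfl⟩
      exact ⟨e.adj k x h1, h2⟩
  have h2 : InjOn (fun k => e.S k x) {k | e.S k x ≠ x ∧ ∀ i, s i ≠ e.S k x} := by
    intro k hk k' _ h
    exact e.disj k k' x h hk.1
  unfold QR
  rw [h1, h2.ncard_image]
  exact Iff.rfl

lemma meas_QR {e : PCol G m} (hl : Lab e) (r : ℕ) :
    MeasurableSet {p : V × (Fin l → V) | QR G r p.1 p.2} := by
  have h : {p : V × (Fin l → V) | QR G r p.1 p.2} = {p : V × (Fin l → V) |
      {k | e.S k p.1 ≠ p.1 ∧ ∀ i, p.2 i ≠ e.S k p.1}.ncard ∈ Iic r} := by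
    ext p
    exact QR_iff hl r p.1 p.2
  rw [h]
  refine meas_card (fun k (p : V × (Fin l → V)) => e.S k p.1 ≠ p.1 ∧ ∀ i, p.2 i ≠ e.S k p.1)
    (fun k => ?_) _
  have h3 : {p : V × (Fin l → V) | e.S k p.1 ≠ p.1 ∧ ∀ i, p.2 i ≠ e.S k p.1} =
      {p : V × (Fin l → V) | e.S k p.1 = p.1}ᶜ ∩
        ⋂ i, {p : V × (Fin l → V) | p.2 i = e.S k p.1}ᶜ := by
    ext p
    simp
  rw [h3]
  refine (measurableSet_eq_fun ((e.meas k).comp measurable_fst) measurable_fst).compl.inter
    (MeasurableSet.iInter fun i => ?_)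
  exact (measurableSet_eq_fun ((measurable_pi_apply i).comp measurable_snd)
    ((e.meas k).comp measurable_fst)).compl

end MES_

theorem allMES : tMES.{u} := by
  intro V _ _ G m l e c hl
  refine ⟨MES_.meas_G hl, fun R hR hRm => ⟨fun j => MES_.meas_dg hl hR hRm j,
    MES_.meas_reach hl hR hRm, fun r => MES_.meas_XX hl hR hRm r⟩, MES_.meas_RG hl c,
    fun r => MES_.meas_QR hl r, fun s t hs ht => ?_⟩
  have h : Bad s t = ⋂ N, Clean s t N := by
    ext x
    simp [Bad]
  rw [h]
  exact MeasurableSet.iInter fun N => measurableSet_Clean hs ht N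

end Pool.Agent.MEO
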