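import Pool.Agent.MEO.Targets

set_option autoImplicit false

/-! MP_fff3e1_lc, project MEO, target D2: the levels do not decrease. -/

namespace Pool.Agent.MEO

open MeasureTheory Set Filter
open Pool.Agent.MEC
open Pool.Agent.MEP

universe u

namespace MON_

variable {U : Type u} {K : SimpleGraph U} {L : Set U} {s : U → U}

lemma EL_zero {y : U} : y ∈ EL K L s 0 ↔ y ∉ L ∧ s y = y := Iff.rfl

lemma EL_succ {n : ℕ} {y : U} : y ∈ EL K L s (n + 1) ↔
    y ∉ L ∧ (s y = y ∨ ∃ y', K.Adj (s y) y' ∧ y' ∈ EL K L s n) := Iff.rfl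

lemma EL_mono_succ (n : ℕ) : ∀ y ∈ EL K L s n, y ∈ EL K L s (n + 1) := by
  induction n with
  | zero => intro y hy; exact ⟨hy.1, Or.inl hy.2⟩
  | succ n ih =>
    intro y hy
    rcases hy with ⟨h1, h2 | ⟨y', h3, h4⟩⟩
    · exact ⟨h1, Or.inl h2⟩
    · exact ⟨h1, Or.inr ⟨y', h3, ih y' h4⟩⟩

end MON_

theorem allMON : tMON.{u} := by
  intro U K L s s' C hb hC hs1 hs2 hs1' hs2' hHK
  have key : ∀ j, ∀ y ∈ C, y ∈ EL K L s' j → y ∈ EL K L s j := by
    have fixed : ∀ y ∈ C, y ∉ L → s' y = y → s y = y := by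
      intro y hy hyL h
      by_contra hne
      have h1 : s' y ≠ s y := by rw [h]; exact fun h2 => hne h2.symm
      exact (hHK y hy hyL h1).1 h
    intro j
    induction j with
    | zero =>
      intro y hy h
      exact ⟨h.1, fixed y hy h.1 h.2⟩
    | succ j ih =>
      intro y hy h
      rcases h with ⟨hyL, h2 | ⟨y', h3, h4⟩⟩
      · exact ⟨hyL, Or.inl (fixed y hy hyL h2)⟩
      · have hsC : s' y ∈ C := by
          by_cases h5 : s' y = y
          · rw [h5]; exact hy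
          · exact hC y hy _ (hs2' y h5)
        have hy'C : y' ∈ C := hC _ hsC _ h3
        have h6 := ih y' hy'C h4
        by_cases h7 : s' y = s y
        · exact ⟨hyL, Or.inr ⟨y', by rw [← h7]; exact h3, h6⟩⟩
        · exact MON_.EL_mono_succ j y ((hHK y hy hyL h7).2.2 y' h3 j h6)
  intro y hy
  refine ⟨fun j => key j y hy, fun hyL hne => ?_⟩
  obtain ⟨h1, h2, h3⟩ := hHK y hy hyL hne
  refine ⟨h2, fun j hj => ?_⟩
  cases j with
  | zero => exact absurd hj.2 h1
  | succ j =>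
    rcases hj with ⟨-, h4 | ⟨y', h5, h6⟩⟩
    · exact absurd h4 h1
    · have hy'C : y' ∈ C := hC _ (hC y hy _ (hs2' y h1)) _ h5
      exact ⟨j, Nat.lt_succ_self j, h3 y' h5 j (key j y' hy'C h6)⟩

end Pool.Agent.MEO
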