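import Pool.Agent.MEO.Targets
import Pool.Agent.MEO.Base

set_option autoImplicit false

/-! MP_fff3e1_lc, MEO: mass transport. -/

namespace Pool.Agent.MEO

open MeasureTheory Set Filter
open scoped ENNReal
open Pool.Agent.MEC
open Pool.Agent.MEP

universe u

namespace MTP_

variable {V : Type u} [MeasurableSpace V] {G : SimpleGraph V} {m : ℕ}

/-- the points at which the word `w` is the first word giving its value, and the pair is in `K` -/
def KW (e : PCol G m) (K : Set (V × V)) (w : List (Fin m)) : Set V :=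
  {x | (x, wd e w x) ∈ K ∧
    ∀ w' : List (Fin m), Encodable.encode w' < Encodable.encode w → wd e w' x ≠ wd e w x}

lemma meas_KW [StandardBorelSpace V] (e : PCol G m) {K : Set (V × V)} (hK : MeasurableSet K)
    (w : List (Fin m)) : MeasurableSet (KW e K w) := by
  have h1 : MeasurableSet {x | (x, wd e w x) ∈ K} :=
    (measurable_id.prodMk (wd e w).measurable) hK
  have h2 : MeasurableSet {x | ∀ w' : List (Fin m),
      Encodable.encode w' < Encodable.encode w → wd e w' x ≠ wd e w x} := by
    have h3 : {x | ∀ w' : List (Fin m), Encodable.encode w' < Encodable.encode w →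
        wd e w' x ≠ wd e w x} = ⋂ w' : List (Fin m), ⋂ _ : Encodable.encode w' <
        Encodable.encode w, {x | wd e w' x = wd e w x}ᶜ := by
      ext x
      simp
    rw [h3]
    exact MeasurableSet.iInter fun w' => MeasurableSet.iInter fun _ =>
      (measurableSet_eq_fun (wd e w').measurable (wd e w).measurable).compl
  exact h1.inter h2

lemma exists_first (e : PCol G m) {x y : V} (h : y ∈ Cm e x) :
    ∃ w, wd e w x = y ∧ ∀ w' : List (Fin m), Encodable.encode w' < Encodable.encode w →
      wd e w' x ≠ y := by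
  classical
  obtain ⟨w0, h0⟩ := h
  have hex : ∃ n, ∃ w : List (Fin m), Encodable.encode w = n ∧ wd e w x = y := ⟨_, w0, rfl, h0⟩
  obtain ⟨w, hw, hy⟩ := Nat.find_spec hex
  refine ⟨w, hy, fun w' hlt heq => ?_⟩
  rw [hw] at hlt
  exact Nat.find_min hex hlt ⟨w', rfl, heq⟩

lemma first_unique (e : PCol G m) {x : V} {w w' : List (Fin m)} (h : wd e w x = wd e w' x)
    (h1 : ∀ v : List (Fin m), Encodable.encode v < Encodable.encode w → wd e v x ≠ wd e w x)
    (h2 : ∀ v : List (Fin m), Encodable.encode v < Encodable.encode w' → wd e v x ≠ wd e w' x) :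
    w = w' := by
  apply Encodable.encode_injective
  rcases lt_trichotomy (Encodable.encode w) (Encodable.encode w') with hlt | heq | hlt
  · exact absurd h (h2 w hlt)
  · exact heq
  · exact absurd h.symm (h1 w' hlt)

lemma out_eq (e : PCol G m) {K : Set (V × V)} (hC : ∀ p ∈ K, p.2 ∈ Cm e p.1) (x : V) :
    ({y | (x, y) ∈ K}.encard : ℝ≥0∞) = ∑' w : List (Fin m), (KW e K w).indicator 1 x := by
  have h1 : {y | (x, y) ∈ K}.encard = {w : List (Fin m) | x ∈ KW e K w}.encard := by
    symm
    rw [show {y | (x, y) ∈ K} = (fun w => wd e w x) '' {w : List (Fin m) | x ∈ KW e K w} from ?_]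
    · refine (InjOn.encard_image ?_).symm
      intro w hw w' hw' h
      exact first_unique e h hw.2 hw'.2
    · ext y
      constructor
      · intro hy
        obtain ⟨w, hw, hf⟩ := exists_first e (hC _ hy)
        simp only at hw hf
        refine ⟨w, ⟨?_, ?_⟩, hw⟩
        · rw [hw]
          exact hy
        · rw [hw]
          exact hf
      · rintro ⟨w, hw, rfl⟩
        exact hw.1
  rw [h1, ← ENNReal.tsum_set_one,
    tsum_subtype {w : List (Fin m) | x ∈ KW e K w} (fun _ => (1 : ℝ≥0∞))]
  refine tsum_congr fun w => ?_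
  simp only [indicator, Set.mem_ofPred_eq, Pi.one_apply]

lemma in_eq (e : PCol G m) {K : Set (V × V)} (hC : ∀ p ∈ K, p.2 ∈ Cm e p.1) (y : V) :
    ({x | (x, y) ∈ K}.encard : ℝ≥0∞) =
      ∑' w : List (Fin m), (wd e w '' KW e K w).indicator 1 y := by
  have h1 : {x | (x, y) ∈ K}.encard = {w : List (Fin m) | y ∈ wd e w '' KW e K w}.encard := by
    rw [show {x | (x, y) ∈ K} = (fun w => (wd e w).symm y) ''
      {w : List (Fin m) | y ∈ wd e w '' KW e K w} from ?_]
    · refine InjOn.encard_image ?_
      rintro w ⟨x, hx, hxy⟩ w' ⟨x', hx', hxy'⟩ h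
      have e1 : (wd e w).symm y = x := by rw [← hxy]; exact (wd e w).symm_apply_apply x
      have e2 : (wd e w').symm y = x' := by rw [← hxy']; exact (wd e w').symm_apply_apply x'
      simp only at h
      rw [e1, e2] at h
      subst h
      exact first_unique e (hxy.trans hxy'.symm) hx.2 hx'.2
    · ext x
      constructor
      · intro hx
        obtain ⟨w, hw, hf⟩ := exists_first e (hC _ hx)
        simp only at hw hf
        refine ⟨w, ⟨x, ⟨?_, ?_⟩, hw⟩, ?_⟩
        · rw [hw]
          exact hx
        · rw [hw]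
          exact hf
        · simp only
          rw [← hw]
          exact (wd e w).symm_apply_apply x
      · rintro ⟨w, ⟨x', hx', rfl⟩, rfl⟩
        simp only [MeasurableEquiv.symm_apply_apply, Set.mem_ofPred_eq]
        exact hx'.1
  rw [h1, ← ENNReal.tsum_set_one,
    tsum_subtype {w : List (Fin m) | y ∈ wd e w '' KW e K w} (fun _ => (1 : ℝ≥0∞))]
  refine tsum_congr fun w => ?_
  simp only [indicator, Set.mem_ofPred_eq, Pi.one_apply]

end MTP_

theorem allMTP : tMTP.{u} := by
  intro V _ _ G m e μ _ hinv K hK hC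
  have hm1 : ∀ w : List (Fin m), MeasurableSet (MTP_.KW e K w) := MTP_.meas_KW e hK
  have hm2 : ∀ w : List (Fin m), MeasurableSet (wd e w '' MTP_.KW e K w) := fun w =>
    (wd e w).measurableSet_image.2 (hm1 w)
  have hf1 : ∀ w : List (Fin m), Measurable ((MTP_.KW e K w).indicator (1 : V → ℝ≥0∞)) :=
    fun w => measurable_one.indicator (hm1 w)
  have hf2 : ∀ w : List (Fin m),
      Measurable ((wd e w '' MTP_.KW e K w).indicator (1 : V → ℝ≥0∞)) :=
    fun w => measurable_one.indicator (hm2 w)
  have h1 : (fun x => ({y | (x, y) ∈ K}.encard : ℝ≥0∞)) =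
      fun x => ∑' w : List (Fin m), (MTP_.KW e K w).indicator 1 x :=
    funext fun x => MTP_.out_eq e hC x
  have h2 : (fun y => ({x | (x, y) ∈ K}.encard : ℝ≥0∞)) =
      fun y => ∑' w : List (Fin m), (wd e w '' MTP_.KW e K w).indicator 1 y :=
    funext fun y => MTP_.in_eq e hC y
  refine ⟨?_, ?_, ?_⟩
  · rw [h1]
    exact Measurable.tsum hf1
  · rw [h2]
    exact Measurable.tsum hf2
  · rw [h1, h2, lintegral_tsum fun w => (hf1 w).aemeasurable,
      lintegral_tsum fun w => (hf2 w).aemeasurable]
    refine tsum_congr fun w => ?_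
    rw [lintegral_indicator_one (hm1 w), lintegral_indicator_one (hm2 w)]
    rw [(wd e w).image_eq_preimage_symm]
    exact ((mp_wd hinv e w).symm.measure_preimage_equiv _).symm

end Pool.Agent.MEO
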