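import Pool.Agent.MEO.Targets
import Pool.Agent.MEP.END

set_option autoImplicit false

/-! MP_fff3e1_lc, target A7: infinite strands with an end are null. -/

namespace Pool.Agent.MEO

universe u

open Pool.Agent.MEC Pool.Agent.MEP MeasureTheory Set Filter

namespace ONE_

variable {V : Type u} {s t : V → V}

/-- the ends in the first letter of infinite strands -/
def EE (s t : V → V) : Set V := {x | s x = x ∧ ∀ N, NS t s N x}

/-- the point at which a walk stalls is the end of an infinite strand -/
lemma key (hs : ∀ x, s (s x) = x) (ht : ∀ x, t (t x) = x) {x : V} (h1 : ∀ N, NS s t N x)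
    {n : ℕ} (h2 : StallAt t s n x) :
    (Even n → al t s n x ∈ EE t s) ∧ (¬ Even n → al t s n x ∈ EE s t) := by
  have hb : ∀ j, j ≤ n → (if Even n then al s t j (al t s n x) else al t s j (al t s n x)) =
      al t s (n - j) x := fun j hj => al_back ht hs hj x
  constructor
  · intro hn
    have hb' : ∀ j, j ≤ n → al s t j (al t s n x) = al t s (n - j) x := fun j hj => by
      have := hb j hj
      rwa [if_pos hn] at this
    have h3 : al s t n (al t s n x) = x := al_rev_even ht hs hn x
    refine ⟨by rw [← al_last_even t s hn]; exact h2.2, fun N j _ => ?_⟩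
    rcases Nat.lt_or_ge j n with hj | hj
    · rw [hb' j hj.le, hb' (j + 1) hj]
      have e : n - j = (n - (j + 1)) + 1 := by omega
      rw [e]
      exact (h2.1 (n - (j + 1)) (by omega)).symm
    · obtain ⟨m, rfl⟩ := Nat.exists_eq_add_of_le hj
      rw [add_assoc, al_add_even s t hn, al_add_even s t hn, h3]
      exact h1 (m + 1) m (by omega)
  · intro hn
    have hb' : ∀ j, j ≤ n → al t s j (al t s n x) = al t s (n - j) x := fun j hj => by
      have := hb j hj
      rwa [if_neg hn] at this
    have h3 : al t s n (al t s n x) = x := al_rev_odd ht hs hn x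
    refine ⟨by rw [← al_last_odd t s hn]; exact h2.2, fun N j _ => ?_⟩
    rcases Nat.lt_or_ge j n with hj | hj
    · rw [hb' j hj.le, hb' (j + 1) hj]
      have e : n - j = (n - (j + 1)) + 1 := by omega
      rw [e]
      exact (h2.1 (n - (j + 1)) (by omega)).symm
    · obtain ⟨m, rfl⟩ := Nat.exists_eq_add_of_le hj
      rw [add_assoc, al_add_odd t s hn, al_add_odd t s hn, h3]
      exact h1 (m + 1) m (by omega)

variable [MeasurableSpace V] [StandardBorelSpace V]

lemma measurableSet_EE (ms : Measurable s) (mt : Measurable t) : MeasurableSet (EE s t) := by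
  have : EE s t = {x | s x = x} ∩ ⋂ N, {x | NS t s N x} := by
    ext x
    simp only [EE, mem_inter_iff, mem_iInter, mem_setOf_eq]
  rw [this]
  exact (measurableSet_eq_fun ms measurable_id).inter
    (MeasurableSet.iInter fun N => measurableSet_NS mt ms N)

/-- infinite strands with an end: the ends are null -/
lemma null (μ : Measure V) [IsFiniteMeasure μ] (hs : ∀ x, s (s x) = x)
    (ht : ∀ x, t (t x) = x) (ms : MeasurePreserving s μ μ) (mt : MeasurePreserving t μ μ) :
    μ (EE s t) = 0 := by
  have hm := measurableSet_EE (V := V) ms.measurable mt.measurable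
  have h : ∀ m : ℕ, ((m : ℝ) + 1) * μ.real (EE s t) ≤ 2 * μ.real univ := fun m =>
    allEND V μ s t hs ht ms mt m (EE s t) univ hm MeasurableSet.univ
      (fun x hx => ⟨hx.1, hx.2 m⟩) (fun _ _ _ _ => mem_univ _)
  have h0 : μ.real (EE s t) = 0 := by
    by_contra hne
    have hpos : 0 < μ.real (EE s t) := lt_of_le_of_ne measureReal_nonneg (Ne.symm hne)
    obtain ⟨m, hm'⟩ := exists_nat_gt (2 * μ.real univ / μ.real (EE s t))
    have h1 := h m
    rw [div_lt_iff₀ hpos] at hm'
    nlinarith
  exact (measureReal_eq_zero_iff (measure_ne_top _ _)).1 h0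

end ONE_

theorem allONE : tONE.{u} := by
  intro V _ _ μ _ s t hs ht ms mt
  have h1 : ∀ᵐ x ∂μ, ∀ n, al t s n x ∉ ONE_.EE s t ∧ al t s n x ∉ ONE_.EE t s := by
    rw [ae_all_iff]
    intro n
    have a1 : ∀ᵐ x ∂μ, al t s n x ∉ ONE_.EE s t :=
      (mp_al mt ms n).quasiMeasurePreserving.ae
        (measure_eq_zero_iff_ae_notMem.1 (ONE_.null μ hs ht ms mt))
    have a2 : ∀ᵐ x ∂μ, al t s n x ∉ ONE_.EE t s :=
      (mp_al mt ms n).quasiMeasurePreserving.ae
        (measure_eq_zero_iff_ae_notMem.1 (ONE_.null μ ht hs mt ms))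
    filter_upwards [a1, a2] with x b1 b2 using ⟨b1, b2⟩
  filter_upwards [h1] with x hx hNS hp
  intro N
  refine ⟨⟨hNS N, ?_⟩, fun p hp1 _ => hp p hp1⟩
  rcases NS_or_stall t s N x with h | ⟨n, -, h⟩
  · exact h
  · exfalso
    by_cases hn : Even n
    · exact (hx n).2 ((ONE_.key hs ht hNS h).1 hn)
    · exact (hx n).1 ((ONE_.key hs ht hNS h).2 hn)

end Pool.Agent.MEO
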