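import Pool.Agent.MEO.Targets
import Pool.Agent.MEO.Base

set_option autoImplicit false

/-! MP_fff3e1_lc, project MEO: one exchange can be carried out by Kempe switches (tOPS). -/

namespace Pool.Agent.MEO

open Pool.Agent.MEC Pool.Agent.MEP MeasureTheory Set Filter

universe u

namespace OPS_

variable {V : Type u} {G : SimpleGraph V} {l : ℕ}

/-! ### Removing the colour of an edge -/

open Classical in
/-- the edge of colour `k` at `u` loses its colour -/
noncomputable def unc (c : PC G l) (k : Fin l) (u : V) : PC G l where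
  S := fun k' x => if k' = k ∧ (x = u ∨ x = c.S k u) then x else c.S k' x
  invol := by
    intro k' x
    by_cases h : k' = k ∧ (x = u ∨ x = c.S k u)
    · simp only [if_pos h]
    · rw [if_neg h]
      by_cases h' : k' = k ∧ (c.S k' x = u ∨ c.S k' x = c.S k u)
      · exfalso
        obtain ⟨rfl, h'⟩ := h'
        apply h
        refine ⟨rfl, ?_⟩
        rcases h' with h' | h'
        · right
          rw [← h', c.invol]
        · left
          rw [← c.invol k' x, h', c.invol]
      · rw [if_neg h', c.invol]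
  adj := by
    intro k' x hx
    by_cases h : k' = k ∧ (x = u ∨ x = c.S k u)
    · rw [if_pos h] at hx
      exact absurd rfl hx
    · rw [if_neg h] at hx ⊢
      exact c.adj k' x hx
  disj := by
    intro k1 k2 x h1 h2
    by_cases h : k1 = k ∧ (x = u ∨ x = c.S k u)
    · rw [if_pos h] at h2
      exact absurd rfl h2
    · rw [if_neg h] at h1 h2
      by_cases h' : k2 = k ∧ (x = u ∨ x = c.S k u)
      · rw [if_pos h'] at h1
        exact absurd h1 h2
      · rw [if_neg h'] at h1
        exact c.disj k1 k2 x h1 h2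

lemma unc_u (c : PC G l) (k : Fin l) (u : V) : (unc c k u).S k u = u := by
  simp [unc]

lemma unc_v (c : PC G l) (k : Fin l) (u : V) : (unc c k u).S k (c.S k u) = c.S k u := by
  simp [unc]

lemma unc_other (c : PC G l) (k : Fin l) (u : V) {k' : Fin l} (h : k' ≠ k) (x : V) :
    (unc c k u).S k' x = c.S k' x := by
  simp [unc, h]

lemma unc_of_ne (c : PC G l) (k : Fin l) (u : V) {x : V} (h1 : x ≠ u) (h2 : x ≠ c.S k u)
    (k' : Fin l) : (unc c k u).S k' x = c.S k' x := by
  simp [unc, h1, h2]

lemma unc_changed (c : PC G l) (k : Fin l) (u : V) {x : V} {k' : Fin l}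
    (h : (unc c k u).S k' x ≠ c.S k' x) : x = u ∨ x = c.S k u := by
  by_contra hcon
  push Not at hcon
  exact h (unc_of_ne c k u hcon.1 hcon.2 k')

lemma RG_unc (c : PC G l) (k : Fin l) (u : V) (hu : c.S k u ≠ u) :
    RG (unc c k u) = ins (RG c) u (c.S k u) := by
  ext x y
  rw [ins_adj, RG_adj, RG_adj]
  constructor
  · rintro ⟨h1, h2⟩
    by_cases h3 : ∃ k', c.S k' x = y
    · right
      refine ⟨h1.ne, ?_⟩
      obtain ⟨k', hk'⟩ := h3
      have h4 : (unc c k u).S k' x ≠ c.S k' x := by
        rw [hk']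
        exact h2 k'
      have h5 : k' = k := by
        by_contra h6
        exact h4 (unc_other c k u h6 x)
      subst h5
      rcases unc_changed c k' u h4 with h6 | h6
      · left
        refine ⟨h6, ?_⟩
        rw [← hk', h6]
      · right
        refine ⟨h6, ?_⟩
        rw [← hk', h6, c.invol]
    · left
      push Not at h3
      exact ⟨h1, h3⟩
  · rintro (⟨h1, h2⟩ | ⟨h1, (⟨rfl, rfl⟩ | ⟨rfl, rfl⟩)⟩)
    · refine ⟨h1, fun k' hk' => ?_⟩
      by_cases h3 : (unc c k u).S k' x = c.S k' x
      · rw [h3] at hk'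
        exact h2 k' hk'
      · have h4 : k' = k := by
          by_contra h6
          exact h3 (unc_other c k u h6 x)
        subst h4
        have h5 : (unc c k' u).S k' x = x := by
          rcases unc_changed c k' u h3 with h6 | h6
          · rw [h6]
            exact unc_u c k' u
          · rw [h6]
            exact unc_v c k' u
        rw [h5] at hk'
        exact h1.ne hk'
    · refine ⟨c.adj k x hu, fun k' hk' => ?_⟩
      by_cases h4 : k' = k
      · subst h4
        rw [unc_u] at hk'
        exact hu hk'.symm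
      · rw [unc_other c k x h4] at hk'
        exact h4 (c.disj k' k x hk' (by rw [hk']; exact hu))
    · refine ⟨(c.adj k y hu).symm, fun k' hk' => ?_⟩
      by_cases h4 : k' = k
      · subst h4
        rw [unc_v] at hk'
        exact hu hk'
      · rw [unc_other c k y h4] at hk'
        have h5 : c.S k' (c.S k y) = c.S k (c.S k y) := by
          rw [hk', c.invol]
        exact h4 (c.disj k' k _ h5 (by rw [hk']; exact hu.symm))

lemma FM_unc (c : PC G l) (k : Fin l) (u : V) {C : Set V} (h1 : u ∈ C) (h2 : c.S k u ∈ C) :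
    FM c (unc c k u) C := by
  constructor
  · refine (toFinite ({u, c.S k u} : Set V)).subset ?_
    rintro x ⟨k', hk'⟩
    rcases unc_changed c k u hk' with rfl | rfl
    · exact Or.inl rfl
    · exact Or.inr rfl
  · intro x k' hk'
    rcases unc_changed c k u hk' with rfl | rfl
    · exact h1
    · exact h2

/-! ### The uncoloured edges after a flip and after colouring an edge -/

lemma RG_flip (c : PC G l) (b h : Fin l) (Y : Set V)
    (hY : ∀ x ∈ Y, c.S b x ∈ Y ∧ c.S h x ∈ Y) : RG (c.flip b h Y hY) = RG c := by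
  ext x y
  rw [RG_adj, RG_adj]
  have h1 := PC.flip_range c b h Y hY x
  have h2 : (∃ k, (c.flip b h Y hY).S k x = y) ↔ ∃ k, c.S k x = y := by
    have h3 : y ∈ range (fun k => (c.flip b h Y hY).S k x) ↔ y ∈ range (fun k => c.S k x) := by
      rw [h1]
    exact h3
  refine and_congr_right fun _ => ?_
  rw [← not_exists, ← not_exists, h2]

lemma RG_colE (c : PC G l) (k : Fin l) (u v : V) (huv : G.Adj u v)
    (hunc : ∀ k', c.S k' u ≠ v) (hu : c.S k u = u) (hv : c.S k v = v) :
    RG (c.colE k u v huv hunc hu hv) = del (RG c) u v := by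
  ext x y
  rw [del_adj, RG_adj, RG_adj]
  constructor
  · rintro ⟨h1, h2⟩
    refine ⟨⟨h1, fun k' hk' => ?_⟩, ?_⟩
    · apply h2 k'
      rw [PC.colE_mono c k u v huv hunc hu hv (by rw [hk']; exact h1.ne'), hk']
    · rintro (⟨rfl, rfl⟩ | ⟨rfl, rfl⟩)
      · exact h2 k (PC.colE_u c k x y huv hunc hu hv)
      · exact h2 k (PC.colE_v c k y x huv hunc hu hv)
  · rintro ⟨⟨h1, h2⟩, h3⟩
    refine ⟨h1, fun k' hk' => ?_⟩
    by_cases hx : x = u
    · subst hx
      by_cases hkk : k' = k
      · subst hkk
        rw [PC.colE_u] at hk'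
        exact h3 (Or.inl ⟨rfl, hk'.symm⟩)
      · rw [PC.colE_other c k x v huv hunc hu hv hkk] at hk'
        exact h2 k' hk'
    · by_cases hx' : x = v
      · subst hx'
        by_cases hkk : k' = k
        · subst hkk
          rw [PC.colE_v] at hk'
          exact h3 (Or.inr ⟨rfl, hk'.symm⟩)
        · rw [PC.colE_other c k u x huv hunc hu hv hkk] at hk'
          exact h2 k' hk'
      · rw [PC.colE_of_ne c k u v huv hunc hu hv hx hx'] at hk'
        exact h2 k' hk'

/-! ### Finite chains -/

/-- the vertices of a stalled walk which starts at a fixed point of `t` are closed -/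
lemma walk_closed {s t : V → V} (hs : ∀ x, s (s x) = x) (ht : ∀ x, t (t x) = x) {b : V}
    (hb : t b = b) {N : ℕ} (hN : al s t (N + 1) b = al s t N b) {n : ℕ} (hn : n ≤ N) :
    (∃ j ≤ N, s (al s t n b) = al s t j b) ∧ (∃ j ≤ N, t (al s t n b) = al s t j b) := by
  have hfw : ∃ j ≤ N, al s t (n + 1) b = al s t j b := by
    rcases Nat.lt_or_ge n N with h | h
    · exact ⟨n + 1, h, rfl⟩
    · have : n = N := le_antisymm hn h
      subst this
      exact ⟨n, le_rfl, hN⟩
  by_cases hev : Even n
  · constructor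
    · rw [← al_last_even s t hev]
      exact hfw
    · rcases n with _ | n
      · exact ⟨0, Nat.zero_le _, hb⟩
      · have hn' : ¬ Even n := by
          rw [Nat.even_add_one] at hev
          exact hev
        refine ⟨n, by omega, ?_⟩
        rw [al_last_odd s t hn', ht]
  · constructor
    · rcases n with _ | n
      · exact absurd (by simp) hev
      · have hn' : Even n := by
          rw [Nat.even_add_one] at hev
          exact not_not.1 hev
        refine ⟨n, by omega, ?_⟩
        rw [al_last_even s t hn', hs]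
    · rw [← al_last_odd s t hev]
      exact hfw

/-- Colour an uncoloured edge `a b` where `a` misses `κ`, `b` misses `h`, and the chain of `b`
is finite; the graph is bipartite. -/
lemma join {Δ : ℕ} {C : Set V} (hP : PX G Δ C) (c : PC G l) {a b : V} (ha : a ∈ C)
    (hab : (RG c).Adj a b) {κ h : Fin l} (haκ : c.S κ a = a) (hbh : c.S h b = b)
    (hst : ∃ n, al (c.S κ) (c.S h) (n + 1) b = al (c.S κ) (c.S h) n b) :
    ∃ cb : PC G l, FM c cb C ∧ RG cb = del (RG c) a b := by
  classical
  obtain ⟨χ, hχ⟩ := hP.bip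
  have hG : G.Adj a b := hab.1
  have hbC : b ∈ C := hP.cl a ha b hG
  -- the first stall
  set N := Nat.find hst with hNdef
  have hN : al (c.S κ) (c.S h) (N + 1) b = al (c.S κ) (c.S h) N b := Nat.find_spec hst
  have hlt : ∀ j, j < N → al (c.S κ) (c.S h) (j + 1) b ≠ al (c.S κ) (c.S h) j b :=
    fun j hj => Nat.find_min hst hj
  -- sides
  have hside : ∀ n, n ≤ N → (χ (al (c.S κ) (c.S h) n b) = χ b ↔ Even n) := by
    intro n
    induction n with
    | zero => intro _; simp
    | succ n ih =>
      intro hn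
      have ih' := ih (by omega)
      have h1 := hlt n (by omega)
      have h2 : χ (al (c.S κ) (c.S h) (n + 1) b) ≠ χ (al (c.S κ) (c.S h) n b) := by
        by_cases hev : Even n
        · rw [al_last_even _ _ hev] at h1 ⊢
          exact hχ _ _ (c.adj κ _ h1).symm
        · rw [al_last_odd _ _ hev] at h1 ⊢
          exact hχ _ _ (c.adj h _ h1).symm
      rw [Nat.even_add_one, ← ih']
      revert h2
      generalize χ (al (c.S κ) (c.S h) (n + 1) b) = p
      generalize χ (al (c.S κ) (c.S h) n b) = q
      generalize χ b = t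
      revert p q t
      decide
  -- the chain
  set Y : Set V := (fun n => al (c.S κ) (c.S h) n b) '' {n | n ≤ N} with hYdef
  have hYfin : Y.Finite := (finite_le_nat N).image _
  have hYcl : ∀ x ∈ Y, c.S κ x ∈ Y ∧ c.S h x ∈ Y := by
    rintro x ⟨n, hn, rfl⟩
    obtain ⟨⟨j, hj, e1⟩, ⟨j', hj', e2⟩⟩ :=
      walk_closed (c.invol κ) (c.invol h) hbh hN (show n ≤ N from hn)
    exact ⟨⟨j, hj, e1.symm⟩, ⟨j', hj', e2.symm⟩⟩
  have hbY : b ∈ Y := ⟨0, Nat.zero_le _, rfl⟩
  have hYC : Y ⊆ C := by
    rintro x ⟨n, -, rfl⟩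
    simp only
    induction n with
    | zero => exact hbC
    | succ n ih =>
      by_cases hev : Even n
      · rw [al_last_even _ _ hev]
        by_cases h1 : c.S κ (al (c.S κ) (c.S h) n b) = al (c.S κ) (c.S h) n b
        · rw [h1]; exact ih
        · exact hP.cl _ ih _ (c.adj _ _ h1)
      · rw [al_last_odd _ _ hev]
        by_cases h1 : c.S h (al (c.S κ) (c.S h) n b) = al (c.S κ) (c.S h) n b
        · rw [h1]; exact ih
        · exact hP.cl _ ih _ (c.adj _ _ h1)
  have haY : a ∉ Y := by
    rintro ⟨n, hn, hna⟩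
    simp only at hna
    have hn' : n ≤ N := hn
    have h1 : ¬ Even n := by
      rw [← hside n hn', hna]
      exact hχ a b hG
    rcases n with _ | n
    · exact h1 (by simp)
    · have h2 : Even n := by
        rw [Nat.even_add_one] at h1
        exact not_not.1 h1
      have h3 := hlt n (by omega)
      rw [al_last_even _ _ h2] at h3 hna
      apply h3
      have h4 : c.S κ (c.S κ (al (c.S κ) (c.S h) n b)) = c.S κ (al (c.S κ) (c.S h) n b) := by
        rw [hna]
        exact haκ
      rw [c.invol] at h4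
      exact h4.symm
  -- flip it
  set c2 := c.flip κ h Y hYcl with hc2
  have hRG2 : RG c2 = RG c := RG_flip c κ h Y hYcl
  have h2a : c2.S κ a = a := by
    rw [hc2, PC.flip_notMem c κ h Y hYcl haY]
    exact haκ
  have h2b : c2.S κ b = b := by
    rw [hc2, PC.flip_left c κ h Y hYcl hbY]
    exact hbh
  have hunc : ∀ k', c2.S k' a ≠ b := by
    have : (RG c2).Adj a b := by rw [hRG2]; exact hab
    exact this.2
  refine ⟨c2.colE κ a b hG hunc h2a h2b, ?_, ?_⟩
  · have hF1 : FM c c2 C := by
      constructor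
      · refine hYfin.subset ?_
        rintro x ⟨k, hk⟩
        exact PC.flip_changed c κ h Y hYcl hk
      · intro x k hk
        exact hYC (PC.flip_changed c κ h Y hYcl hk)
    have hF2 : FM c2 (c2.colE κ a b hG hunc h2a h2b) C := by
      constructor
      · refine (toFinite ({a, b} : Set V)).subset ?_
        rintro x ⟨k, hk⟩
        rcases PC.colE_changed c2 κ a b hG hunc h2a h2b hk with rfl | rfl
        · exact Or.inl rfl
        · exact Or.inr rfl
      · intro x k hk
        rcases PC.colE_changed c2 κ a b hG hunc h2a h2b hk with rfl | rfl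
        · exact ha
        · exact hbC
    exact hF1.trans hF2
  · rw [RG_colE, hRG2]

/-- a walk of the colouring in which `a` loses its colour `κ` stalls -/
lemma stall_unc (c : PC G l) {κ h : Fin l} (hne : h ≠ κ) (a b : V)
    (hst : ∃ n, al (c.S κ) (c.S h) (n + 1) b = al (c.S κ) (c.S h) n b) :
    ∃ n, al ((unc c κ a).S κ) ((unc c κ a).S h) (n + 1) b =
      al ((unc c κ a).S κ) ((unc c κ a).S h) n b := by
  by_contra hcon
  push Not at hcon
  have key : ∀ n, al ((unc c κ a).S κ) ((unc c κ a).S h) n b = al (c.S κ) (c.S h) n b := by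
    intro n
    induction n with
    | zero => rfl
    | succ n ih =>
      by_cases hev : Even n
      · have h1 := hcon n
        rw [al_last_even _ _ hev] at h1 ⊢
        rw [al_last_even _ _ hev, ← ih]
        by_contra h2
        rcases unc_changed c κ a h2 with h3 | h3
        · apply h1
          rw [h3]
          exact unc_u c κ a
        · apply h1
          rw [h3]
          exact unc_v c κ a
      · rw [al_last_odd _ _ hev, al_last_odd _ _ hev, ih, unc_other c κ a hne]
  obtain ⟨n, hn⟩ := hst
  apply hcon n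
  rw [key, key]
  exact hn

end OPS_

open OPS_ in
theorem allOPS : tOPS.{u} := by
  intro V G Δ l r C hP c hsat hSK R' hstp
  have hsat' : ∀ x ∈ C, dg (RG c) x ≤ r := hsat
  have hfin : ∀ R : SimpleGraph V, R ≤ G → ∀ x, (R.neighborSet x).Finite := fun R hR x =>
    fin_of_le hR (hP.fin x)
  rcases hstp with ⟨a, ha, v, b, hab, hav, hnav, hv, hb, rfl⟩ |
    ⟨z, hz, z', hzz, h1, h2, rfl⟩ | ⟨z, hz, z', hzz, hn, h1, h2, rfl⟩
  · -- exchange at `a`
    have hvb : v ≠ b := by
      rintro rfl
      exact hnav hab
    obtain ⟨κ, hκ⟩ := exists_col c hav hnav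
    obtain ⟨h, hh⟩ := (miss_iff c (hP.fin b)).2 hb
    have hvC : v ∈ C := hP.cl a ha v hav
    have hbC : b ∈ C := hP.cl a ha b hab.1
    have hκa : c.S κ a ≠ a := by rw [hκ]; exact hav.ne'
    have hF1 : FM c (unc c κ a) C := FM_unc c κ a ha (by rw [hκ]; exact hvC)
    have hR1 : RG (unc c κ a) = ins (RG c) a v := by rw [RG_unc c κ a hκa, hκ]
    have hab1 : (RG (unc c κ a)).Adj a b := by
      rw [hR1]
      exact Or.inl hab
    have hle1 : RG (unc c κ a) ≤ G := RG_le _
    have hbv : b ≠ c.S κ a := by rw [hκ]; exact hvb.symm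
    have hba : b ≠ a := hab.1.ne'
    have hst : ∃ n, al ((unc c κ a).S κ) ((unc c κ a).S h) (n + 1) b =
        al ((unc c κ a).S κ) ((unc c κ a).S h) n b := by
      by_cases hκh : h = κ
      · subst hκh
        refine ⟨0, ?_⟩
        simp only [zero_add, al_one, al_zero]
        rw [unc_of_ne c h a hba hbv]
        exact hh
      · exact stall_unc c hκh a b (hSK h κ hκh b hbC hh)
    obtain ⟨cb, hF, hR⟩ := join hP (unc c κ a) ha hab1 (unc_u c κ a)
      (show (unc c κ a).S h b = b by rw [unc_of_ne c κ a hba hbv]; exact hh) hst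
    have hReq : RG cb = ins (del (RG c) a b) a v := by
      rw [hR, hR1]
      ext x y
      rw [del_adj, ins_adj, ins_adj, del_adj]
      constructor
      · rintro ⟨h3 | h3, h4⟩
        · exact Or.inl ⟨h3, h4⟩
        · exact Or.inr h3
      · rintro (⟨h3, h4⟩ | ⟨h3, h4⟩)
        · exact ⟨Or.inl h3, h4⟩
        · refine ⟨Or.inr ⟨h3, h4⟩, ?_⟩
          rintro (⟨rfl, rfl⟩ | ⟨rfl, rfl⟩)
          · rcases h4 with ⟨-, h5⟩ | ⟨h5, -⟩
            · exact hvb h5.symm
            · exact hav.ne h5
          · rcases h4 with ⟨h5, -⟩ | ⟨h5, -⟩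
            · exact h3 h5
            · exact hvb h5.symm
    refine ⟨cb, hF1.trans hF, ?_, hReq⟩
    have hdle : del (RG c) a b ≤ RG c := fun x y h3 => h3.1
    have hd : ∀ x, dg (del (RG c) a b) x ≤ dg (RG c) x := fun x =>
      dg_mono (fun y h3 => h3.1) (hfin _ (RG_le c) x)
    intro x hx
    change dg (RG cb) x ≤ r
    rw [hReq]
    have hnd : ¬ (del (RG c) a b).Adj a v := fun h3 => hnav h3.1
    by_cases hxa : x = a
    · subst hxa
      rw [dg_ins_left hnd hav.ne (hfin _ (hdle.trans (RG_le c)) _),
        dg_del_left hab (hfin _ (RG_le c) _)]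
      exact hsat' x hx
    · by_cases hxv : x = v
      · subst hxv
        rw [dg_ins_right hnd hav.ne (hfin _ (hdle.trans (RG_le c)) _)]
        have := hd x
        omega
      · rw [dg_ins_other hxa hxv]
        exact (hd x).trans (hsat' x hx)
  · -- colour an edge
    obtain ⟨k, hk⟩ := (miss_iff c (hP.fin z)).2 h1
    obtain ⟨k', hk'⟩ := (miss_iff c (hP.fin z')).2 h2
    have hz' : z' ∈ C := hP.cl z hz z' hzz.1
    have hst : ∃ n, al (c.S k) (c.S k') (n + 1) z' = al (c.S k) (c.S k') n z' := by
      by_cases hkk : k' = k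
      · subst hkk
        exact ⟨0, by simpa using hk'⟩
      · exact hSK k' k hkk z' hz' hk'
    obtain ⟨cb, hF, hR⟩ := join hP c hz hzz hk hk' hst
    refine ⟨cb, hF, ?_, hR⟩
    intro x hx
    change dg (RG cb) x ≤ r
    rw [hR]
    have hd : dg (del (RG c) z z') x ≤ dg (RG c) x :=
      dg_mono (fun y h3 => h3.1) (hfin _ (RG_le c) x)
    exact hd.trans (hsat' x hx)
  · -- remove a colour
    obtain ⟨κ, hκ⟩ := exists_col c hzz hn
    have hz' : z' ∈ C := hP.cl z hz z' hzz
    have hκz : c.S κ z ≠ z := by rw [hκ]; exact hzz.ne'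
    have hR1 : RG (unc c κ z) = ins (RG c) z z' := by rw [RG_unc c κ z hκz, hκ]
    refine ⟨unc c κ z, FM_unc c κ z hz (by rw [hκ]; exact hz'), ?_, hR1⟩
    intro x hx
    change dg (RG (unc c κ z)) x ≤ r
    rw [hR1]
    by_cases hxa : x = z
    · subst hxa
      rw [dg_ins_left hn hzz.ne (hfin _ (RG_le c) _)]
      exact h1
    · by_cases hxv : x = z'
      · subst hxv
        rw [dg_ins_right hn hzz.ne (hfin _ (RG_le c) _)]
        exact h2
      · rw [dg_ins_other hxa hxv]
        exact hsat' x hx

end Pool.Agent.MEO
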