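import Pool.Agent.MEO.Targets
import Pool.Agent.MEP.Walk

set_option autoImplicit false

/-! MP_fff3e1_lc, target tORB: an injection with finite orbits. -/

namespace Pool.Agent.MEO

open MeasureTheory Set Filter
open scoped ENNReal
open Pool.Agent.MEC
open Pool.Agent.MEP

universe u

namespace ORB_

/-! ### Words -/

section words

variable {V : Type u} [MeasurableSpace V] {G : SimpleGraph V} {m : ℕ}

lemma wd_cons (e : PCol G m) (k : Fin m) (w : List (Fin m)) (x : V) :
    wd e (k :: w) x = wd e w (e.S k x) := rfl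

lemma wd_append (e : PCol G m) (w w' : List (Fin m)) (x : V) :
    wd e (w ++ w') x = wd e w' (wd e w x) := by
  induction w generalizing x with
  | nil => rfl
  | cons k w ih =>
    rw [List.cons_append, wd_cons, ih, wd_cons]

lemma self_mem (e : PCol G m) (b : V) : b ∈ Cm e b := ⟨[], rfl⟩

lemma mem_adj {e : PCol G m} (he : Lab e) {b x y : V} (hx : x ∈ Cm e b) (h : G.Adj x y) :
    y ∈ Cm e b := by
  obtain ⟨w, rfl⟩ := hx
  obtain ⟨k, hk⟩ := he _ _ h
  refine ⟨w ++ [k], ?_⟩
  rw [wd_append]
  exact hk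

lemma mp_wd {μ : Measure V} (hinv : Inv G μ) (e : PCol G m) (w : List (Fin m)) :
    MeasurePreserving (wd e w) μ μ := by
  induction w with
  | nil => exact MeasurePreserving.id μ
  | cons k w ih => exact ih.comp (hinv _ (e.meas k) (e.invol k) (e.adj k))

lemma ae_Cm {μ : Measure V} (hinv : Inv G μ) (e : PCol G m) {P : V → Prop}
    (h : ∀ᵐ x ∂μ, P x) : ∀ᵐ b ∂μ, ∀ x ∈ Cm e b, P x := by
  have h1 : ∀ᵐ b ∂μ, ∀ w : List (Fin m), P (wd e w b) :=
    ae_all_iff.2 fun w => (mp_wd hinv e w).quasiMeasurePreserving.ae h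
  filter_upwards [h1] with b hb x hx
  obtain ⟨w, rfl⟩ := hx
  exact hb w

end words

/-! ### The double cover -/

/-- exchange the copies -/
def flp {V : Type u} (p : V × Bool) : V × Bool := (p.1, !p.2)

lemma flp_flp {V : Type u} (p : V × Bool) : flp (flp p) = p := by
  unfold flp
  simp

lemma flp_ne {V : Type u} (p : V × Bool) : flp p ≠ p := by
  intro h
  have := congrArg Prod.snd h
  unfold flp at this
  simp at this

section dbl

variable {V : Type u} [MeasurableSpace V]

lemma emb (i : Bool) : MeasurableEmbedding (fun x : V => (x, i)) where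
  injective := fun x y h => congrArg Prod.fst h
  measurable := measurable_id.prodMk measurable_const
  measurableSet_image' := by
    intro s hs
    have : (fun x : V => (x, i)) '' s = s ×ˢ {i} := by
      ext ⟨a, b⟩
      simp only [mem_image, Prod.mk.injEq, mem_prod, mem_singleton_iff]
      constructor
      · rintro ⟨x, hx, rfl, rfl⟩
        exact ⟨hx, rfl⟩
      · rintro ⟨h1, rfl⟩
        exact ⟨a, h1, rfl, rfl⟩
    rw [this]
    exact hs.prod (MeasurableSet.singleton i)

lemma ae_dbl {μ : Measure V} {P : V × Bool → Prop} :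
    (∀ᵐ p ∂dbl μ, P p) ↔ (∀ᵐ x ∂μ, P (x, false)) ∧ ∀ᵐ x ∂μ, P (x, true) := by
  unfold dbl
  rw [ae_add_measure_iff, (emb false).ae_map_iff, (emb true).ae_map_iff]

lemma fin_dbl (μ : Measure V) [IsFiniteMeasure μ] : IsFiniteMeasure (dbl μ) := by
  unfold dbl
  infer_instance

lemma measurable_flp : Measurable (flp : V × Bool → V × Bool) := by
  unfold flp
  exact measurable_fst.prodMk ((measurable_of_countable (fun i : Bool => !i)).comp
    measurable_snd)

end dbl

/-! ### Walks -/

section walks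

variable {W : Type u} {s t : W → W}

lemma bad_s (hs : ∀ x, s (s x) = x) (ht : ∀ x, t (t x) = x) {x : W} (h : x ∈ Bad s t) :
    s x ∈ Bad s t := by
  intro N
  refine ⟨⟨?_, ?_⟩, Long_s hs ht (h N).2⟩
  · intro n hn
    rcases Nat.eq_zero_or_pos n with rfl | hpos
    · rw [al_one, al_zero, hs]
      have := (h 1).1.1 0 (by omega)
      rw [al_zero] at this
      exact fun h' => this (h'.symm)
    · obtain ⟨k, rfl⟩ : ∃ k, n = k + 1 := ⟨n - 1, by omega⟩
      rw [al_succ, al_succ s t k, hs]
      exact (h (k + 1)).1.2 k (by omega)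
  · intro n hn
    have := (h (n + 2)).1.1 (n + 1) (by omega)
    rw [al_succ, al_succ s t n] at this
    exact this

lemma bad_comm (hs : ∀ x, s (s x) = x) (ht : ∀ x, t (t x) = x) : Bad s t = Bad t s := by
  unfold Bad
  ext x
  constructor
  · intro h N
    rw [Clean_comm ht hs]
    exact h N
  · intro h N
    rw [Clean_comm hs ht]
    exact h N

lemma bad_t (hs : ∀ x, s (s x) = x) (ht : ∀ x, t (t x) = x) {x : W} (h : x ∈ Bad s t) :
    t x ∈ Bad s t := by
  rw [bad_comm hs ht] at h ⊢
  exact bad_s ht hs h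

lemma bad_ne {x : W} (h : x ∈ Bad s t) : s x ≠ x := (h 1).1.1 0 (by omega)

/-- a bad walk does not return -/
lemma no_return (hs : ∀ x, s (s x) = x) (ht : ∀ x, t (t x) = x) {z : W} (h : z ∈ Bad s t)
    {n : ℕ} (hn : 1 ≤ n) : al t s n z ≠ z := by
  intro h1
  by_cases hev : Even n
  · obtain ⟨p, hp⟩ := hev
    have hp' : n = 2 * p := by omega
    subst hp'
    have h2 : z ∈ Long t s p := by
      rw [Long_comm ht hs]
      exact (h p).2
    exact h2 p (by omega) le_rfl h1
  · rw [Nat.not_even_iff] at hev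
    obtain ⟨q, hq⟩ : ∃ q, n = 2 * q + 1 := ⟨n / 2, by omega⟩
    subst hq
    have h2 := al_back ht hs (show q ≤ 2 * q + 1 by omega) z
    have hodd : ¬ Even (2 * q + 1) := by
      rw [Nat.not_even_iff]
      omega
    rw [if_neg hodd, h1] at h2
    have h3 : 2 * q + 1 - q = q + 1 := by omega
    rw [h3] at h2
    exact (h (q + 1)).1.2 q (by omega) h2.symm

lemma no_return' (hs : ∀ x, s (s x) = x) (ht : ∀ x, t (t x) = x) {z : W} (h : z ∈ Bad s t)
    (j : ℕ) : al t s (j + 1) z ≠ s z := by
  intro h1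
  by_cases hev : Even j
  · have hodd : ¬ Even (j + 1) := by
      rw [Nat.even_add_one]
      exact not_not.2 hev
    have h2 := al_last_odd t s hodd z
    rw [h1, hs] at h2
    exact no_return hs ht h (by omega) h2
  · have h2 := al_last_odd t s hev z
    rw [h1] at h2
    have h3 : al t s j z = z := by
      have := congrArg s h2
      rw [hs, hs] at this
      exact this.symm
    rcases Nat.eq_zero_or_pos j with rfl | hpos
    · exact hev (by decide)
    · exact no_return hs ht h hpos h3

lemma bad_al (hs : ∀ x, s (s x) = x) (ht : ∀ x, t (t x) = x) {z : W} (h : z ∈ Bad s t)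
    (n : ℕ) : al s t n z ∈ Bad s t :=
  al_mem (fun _ hx => bad_s hs ht hx) (fun _ hx => bad_t hs ht hx) n h

lemma bad_inj (hs : ∀ x, s (s x) = x) (ht : ∀ x, t (t x) = x) {z : W} (h : z ∈ Bad s t) :
    Function.Injective fun n : ℕ => al s t (2 * n) z := by
  have key : ∀ i j : ℕ, i < j → al s t (2 * i) z ≠ al s t (2 * j) z := by
    intro i j hij heq
    have h1 := al_eq_al hs ht (show 2 * i ≤ 2 * j by omega)
      (by simp) heq
    have h2 : 2 * j - 2 * i = 2 * (j - i) := by omega
    rw [h2] at h1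
    exact (h (j - i)).2 (j - i) (by omega) le_rfl h1.symm
  intro i j hij
  rcases Nat.lt_trichotomy i j with h1 | h1 | h1
  · exact absurd hij (key i j h1)
  · exact h1
  · exact absurd hij.symm (key j i h1)

end walks

/-! ### Levels -/

section levels

variable {U : Type u} {K : SimpleGraph U} {L : Set U} {s : U → U}

lemma EL_notL {n : ℕ} {y : U} (h : y ∈ EL K L s n) : y ∉ L := by
  cases n with
  | zero => exact h.1
  | succ n => exact h.1

end levels

/-- the pointwise core: on a closed set `C` without ends of infinite strands after modification,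
no point is bad -/
lemma core (h_AUG : tAUG.{u}) {V : Type u} {R : SimpleGraph V} {r : ℕ}
    (c : PC (DP R {x | dg R x = r}) 2) (s : V × Bool → V × Bool) (C : Set (V × Bool))
    (hbip : ∀ x y, (DK R {x | dg R x = r}).Adj x y →
      (x ∈ {p : V × Bool | p.2 = false ∧ dg R p.1 = r} ↔
        y ∉ {p : V × Bool | p.2 = false ∧ dg R p.1 = r}))
    (hcl : ∀ x ∈ C, ∀ y, (DP R {x | dg R x = r}).Adj x y → y ∈ C)
    (hs : ∀ x, s (s x) = x) (hsa : ∀ x, s x ≠ x → (DK R {x | dg R x = r}).Adj x (s x))
    (hsc : ∀ x ∈ C, c.S 0 x = s x) (hfc : ∀ x ∈ C, c.S 1 x = flp x)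
    (hL : ∀ x ∈ C, x.2 = false → (dg R x.1 = r ↔ s x ≠ x))
    (hSK : ∀ cb : PC (DP R {x | dg R x = r}) 2, FM c cb C →
      (∀ x ∈ C, cb.S 1 x = flp x ∧ (x.2 = false → (dg R x.1 = r ↔ cb.S 0 x ≠ x))) → SK cb C)
    (hlev : ∀ p ∈ C, p ∈ Bad s flp → p ∈ {p : V × Bool | p.2 = false ∧ dg R p.1 = r} →
      ∃ n y, (DK R {x | dg R x = r}).Adj p y ∧
        y ∈ EL (DK R {x | dg R x = r}) {p : V × Bool | p.2 = false ∧ dg R p.1 = r} s n) :
    ∀ b ∈ C, b ∉ Bad s flp := by
  classical
  set K := DK R {x | dg R x = r} with hK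
  set L := {p : V × Bool | p.2 = false ∧ dg R p.1 = r} with hLdef
  have hKP : ∀ x y, K.Adj x y → (DP R {x | dg R x = r}).Adj x y := fun x y h => Or.inl h
  have hflC : ∀ x ∈ C, flp x ∈ C := fun x hx => hcl x hx _ (Or.inr ⟨rfl, by
    unfold flp
    cases x.2 <;> simp⟩)
  have hsC : ∀ x ∈ C, s x ∈ C := by
    intro x hx
    by_cases h : s x = x
    · rw [h]; exact hx
    · exact hcl x hx _ (hKP _ _ (hsa x h))
  have ff : ∀ x : V × Bool, flp (flp x) = x := flp_flp
  intro b hb hbad
  -- a left point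
  have hleft : ∃ p, p ∈ C ∧ p ∈ Bad s flp ∧ p ∈ L := by
    have key : ∀ p, p ∈ C → p ∈ Bad s flp → p.2 = false → p ∈ L := fun p hp hpb h2 =>
      ⟨h2, (hL p hp h2).2 (bad_ne hpb)⟩
    cases hb2 : b.2 with
    | false => exact ⟨b, hb, hbad, key b hb hbad hb2⟩
    | true =>
      refine ⟨flp b, hflC b hb, bad_t hs ff hbad, key _ (hflC b hb) (bad_t hs ff hbad) ?_⟩
      unfold flp
      simp [hb2]
  have hex : ∃ n, ∃ p, p ∈ C ∧ p ∈ Bad s flp ∧ p ∈ L ∧ ∃ y, K.Adj p y ∧ y ∈ EL K L s n := by
    obtain ⟨p, h1, h2, h3⟩ := hleft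
    obtain ⟨n, y, h4, h5⟩ := hlev p h1 h2 h3
    exact ⟨n, p, h1, h2, h3, y, h4, h5⟩
  obtain ⟨x0, hx0C, hx0B, hx0L, hx0y⟩ := Nat.find_spec hex
  set n := Nat.find hex with hn
  have hmin : ∀ j < n, ∀ p, p ∈ C → p ∈ Bad s flp → p ∈ L → ∀ y, K.Adj p y →
      y ∉ EL K L s j := by
    intro j hj p h1 h2 h3 y h4 h5
    exact Nat.find_min hex hj ⟨p, h1, h2, h3, y, h4, h5⟩
  obtain ⟨s', hs', hsa', hfin, hreach, -, hcov, hnew, hz, -, hch⟩ := h_AUG (V × Bool) K L s
    hbip hs hsa x0 hx0L n hx0y (fun y hy j hj => hmin j hj x0 hx0C hx0B hx0L y hy)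
  have hne0 : s x0 ≠ x0 := bad_ne hx0B
  have hz' := hz hne0
  -- changed bad points
  have hunch : ∀ y, y ∈ C → y ∈ Bad s flp → y ≠ x0 → y ≠ s x0 → s' y = s y := by
    intro y hyC hyB h1 h2
    by_contra h3
    obtain ⟨h4, h5⟩ := hch y h3 h1 h2
    by_cases hyL : y ∈ L
    · obtain ⟨j, hj, y', h6, h7⟩ := h5 hyL
      exact hmin j hj y hyC hyB hyL y' h6 h7
    · obtain ⟨j, hj, h6⟩ := h4 hyL
      have hyne : s y ≠ y := bad_ne hyB
      cases j with
      | zero => exact hyne h6.2
      | succ j =>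
        rcases h6.2 with h7 | ⟨y', h7, h8⟩
        · exact hyne h7
        · have hsyL : s y ∈ L := by
            by_contra h9
            exact hyL ((hbip _ _ (hsa y hyne)).2 h9)
          exact hmin j (by omega) (s y) (hsC y hyC) (bad_s hs ff hyB) hsyL y' h7 h8
  have hs'C : ∀ x ∈ C, s' x ∈ C := by
    intro x hx
    by_cases h : s' x = x
    · rw [h]; exact hx
    · exact hcl x hx _ (hKP _ _ (hsa' x h))
  have hcC : ∀ k : Fin 2, ∀ x, x ∉ C → c.S k x ∉ C := by
    intro k x hx h
    apply hx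
    have h1 := c.invol k x
    by_cases h2 : c.S k (c.S k x) = c.S k x
    · rw [h1] at h2
      rw [h2]
      exact h
    · rw [← h1]
      exact hcl _ h _ (c.adj k _ h2)
  -- the modified colouring
  let T : Fin 2 → V × Bool → V × Bool := fun k x => if k = 0 ∧ x ∈ C then s' x else c.S k x
  have hT0C : ∀ x ∈ C, T 0 x = s' x := fun x hx => if_pos ⟨rfl, hx⟩
  have hT0n : ∀ x, x ∉ C → T 0 x = c.S 0 x := fun x hx => if_neg fun h => hx h.2
  have hT1 : ∀ x, T 1 x = c.S 1 x := fun x => if_neg fun h => absurd h.1 (by decide)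
  have hdisj0 : ∀ x, T 0 x = T 1 x → T 0 x = x := by
    intro x h
    by_cases hx : x ∈ C
    · rw [hT0C x hx, hT1 x, hfc x hx] at h
      rw [hT0C x hx]
      by_contra h1
      have h2 := (hsa' x h1).1
      rw [h] at h2
      exact h2.ne rfl
    · rw [hT0n x hx, hT1 x] at h
      rw [hT0n x hx]
      by_contra h1
      exact absurd (c.disj 0 1 x h h1) (by decide)
  let cb : PC (DP R {x | dg R x = r}) 2 :=
    { S := T
      invol := by
        intro k x
        rcases Fin.exists_fin_two.1 ⟨k, rfl⟩ with hk | hk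
        · subst hk
          by_cases hx : x ∈ C
          · rw [hT0C x hx, hT0C _ (hs'C x hx), hs']
          · rw [hT0n x hx, hT0n _ (hcC 0 x hx), c.invol]
        · subst hk
          rw [hT1, hT1, c.invol]
      adj := by
        intro k x
        rcases Fin.exists_fin_two.1 ⟨k, rfl⟩ with hk | hk
        · subst hk
          by_cases hx : x ∈ C
          · rw [hT0C x hx]
            exact fun h => hKP _ _ (hsa' x h)
          · rw [hT0n x hx]
            exact c.adj 0 x
        · subst hk
          rw [hT1]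
          exact c.adj 1 x
      disj := by
        intro k k' x h1 h2
        rcases Fin.exists_fin_two.1 ⟨k, rfl⟩ with hk | hk <;>
        rcases Fin.exists_fin_two.1 ⟨k', rfl⟩ with hk' | hk' <;> subst hk <;> subst hk'
        · rfl
        · exact absurd (hdisj0 x h1) h2
        · exact absurd (h1.trans (hdisj0 x h1.symm)) h2
        · rfl }
  have hFM : FM c cb C := by
    constructor
    · refine hfin.subset ?_
      rintro x ⟨k, hk⟩
      rcases Fin.exists_fin_two.1 ⟨k, rfl⟩ with hk' | hk'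
      · subst hk'
        by_cases hx : x ∈ C
        · intro h
          apply hk
          change T 0 x = c.S 0 x
          rw [hT0C x hx, hsc x hx, h]
        · exact absurd (hT0n x hx) hk
      · subst hk'
        exact absurd (hT1 x) hk
    · intro x k hk
      rcases Fin.exists_fin_two.1 ⟨k, rfl⟩ with hk' | hk'
      · subst hk'
        by_contra hx
        exact hk (hT0n x hx)
      · subst hk'
        exact absurd (hT1 x) hk
  have hSat : ∀ x ∈ C, cb.S 1 x = flp x ∧ (x.2 = false → (dg R x.1 = r ↔ cb.S 0 x ≠ x)) := by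
    intro x hx
    refine ⟨(hT1 x).trans (hfc x hx), fun h2 => ?_⟩
    change dg R x.1 = r ↔ T 0 x ≠ x
    rw [hT0C x hx]
    constructor
    · intro h3
      exact hcov x ⟨h2, h3⟩ ((hL x hx h2).1 h3)
    · intro h3
      exact (hsa' x h3).2.2.1 h2
  have hSKc := hSK cb hFM hSat
  -- the walk of z
  have hzC : s x0 ∈ C := hsC x0 hx0C
  have hzB : s x0 ∈ Bad s flp := bad_s hs ff hx0B
  have hcb0 : cb.S 0 (s x0) = s x0 := by
    change T 0 (s x0) = s x0
    rw [hT0C _ hzC, hz']
  obtain ⟨N, hN⟩ := hSKc 0 1 (by decide) (s x0) hzC hcb0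
  have hzBt : ∀ n, al flp s n (s x0) ∈ Bad s flp := fun n => by
    have h1 : s x0 ∈ Bad flp s := by
      rw [bad_comm ff hs]
      exact hzB
    have h2 := bad_al ff hs h1 n
    rwa [bad_comm ff hs] at h2
  have hzCt : ∀ n, al flp s n (s x0) ∈ C := fun n =>
    al_mem (fun x hx => hflC x hx) (fun x hx => hsC x hx) n hzC
  have hwalk : ∀ n, al (cb.S 1) (cb.S 0) n (s x0) = al flp s n (s x0) := by
    intro n
    induction n with
    | zero => rfl
    | succ n ih =>
      rw [al_last, al_last, ih]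
      by_cases hev : Even n
      · rw [if_pos hev, if_pos hev]
        exact (hSat _ (hzCt n)).1
      · rw [if_neg hev, if_neg hev]
        change T 0 _ = _
        rw [hT0C _ (hzCt n)]
        obtain ⟨j, rfl⟩ : ∃ j, n = j + 1 := by
          rcases Nat.eq_zero_or_pos n with h | h
          · subst h
            exact absurd (by decide : Even 0) hev
          · exact ⟨n - 1, by omega⟩
        refine hunch _ (hzCt _) (hzBt _) ?_ ?_
        · have h1 := no_return' hs ff hzB j
          rwa [hs] at h1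
        · exact no_return hs ff hzB (by omega)
  rw [hwalk, hwalk] at hN
  exact (hzB (N + 1)).1.2 N (by omega) hN

/-- every bad left point of a closed set has a neighbour with a finite level -/
lemma lev {V : Type u} {R : SimpleGraph V} {r : ℕ} (s : V × Bool → V × Bool)
    (C : Set (V × Bool))
    (hbip : ∀ x y, (DK R {x | dg R x = r}).Adj x y →
      (x ∈ {p : V × Bool | p.2 = false ∧ dg R p.1 = r} ↔
        y ∉ {p : V × Bool | p.2 = false ∧ dg R p.1 = r}))
    (hcl : ∀ x ∈ C, ∀ y, (DP R {x | dg R x = r}).Adj x y → y ∈ C)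
    (hs : ∀ x, s (s x) = x) (hsa : ∀ x, s x ≠ x → (DK R {x | dg R x = r}).Adj x (s x))
    (h3 : ∀ y ∈ C, y ∉ {p : V × Bool | p.2 = false ∧ dg R p.1 = r} →
      (∀ j, y ∉ EL (DK R {x | dg R x = r}) {p : V × Bool | p.2 = false ∧ dg R p.1 = r} s j) →
      dg (DK R {x | dg R x = r}) y = r ∧ ∀ x, (DK R {x | dg R x = r}).Adj y x →
        ∀ y', (DK R {x | dg R x = r}).Adj x y' → ∀ j,
        y' ∉ EL (DK R {x | dg R x = r}) {p : V × Bool | p.2 = false ∧ dg R p.1 = r} s j)
    (h4 : ∀ p ∈ C, p ∈ {p : V × Bool | p.2 = false ∧ dg R p.1 = r} →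
      {y | R.Reachable p.1 y}.Finite ∨
      ∃ y, (DK R {x | dg R x = r}).Reachable p (y, true) ∧
        dg (DK R {x | dg R x = r}) (y, true) < r) :
    ∀ p ∈ C, p ∈ Bad s flp → p ∈ {p : V × Bool | p.2 = false ∧ dg R p.1 = r} →
      ∃ n y, (DK R {x | dg R x = r}).Adj p y ∧
        y ∈ EL (DK R {x | dg R x = r}) {p : V × Bool | p.2 = false ∧ dg R p.1 = r} s n := by
  set K := DK R {x | dg R x = r} with hK
  set L := {p : V × Bool | p.2 = false ∧ dg R p.1 = r} with hLdef
  intro p hpC hpB hpL
  by_contra hcon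
  push Not at hcon
  rcases h4 p hpC hpL with hfin | ⟨y, hy, hdy⟩
  · -- finite component
    have hmem : ∀ n, al s flp (2 * n) p ∈ {q : V × Bool | R.Reachable p.1 q.1} := fun n =>
      al_mem (s := s) (t := flp) (P := {q : V × Bool | R.Reachable p.1 q.1}) (fun q hq => by
        by_cases h : s q = q
        · rw [h]; exact hq
        · exact SimpleGraph.Reachable.trans hq (hsa q h).1.reachable)
        (fun q hq => hq) _ (SimpleGraph.Reachable.refl _)
    have hfin2 : {q : V × Bool | R.Reachable p.1 q.1}.Finite := by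
      refine (hfin.prod (Set.finite_univ (α := Bool))).subset ?_
      intro q hq
      exact ⟨hq, mem_univ _⟩
    exact Set.infinite_of_injective_forall_mem (bad_inj hs flp_flp hpB) hmem hfin2
  · have key : ∀ q q', K.Walk q q' →
        (q ∈ C ∧ (q ∈ L → ∀ y, K.Adj q y → ∀ j, y ∉ EL K L s j) ∧
          (q ∉ L → ∀ j, q ∉ EL K L s j)) →
        (q' ∈ C ∧ (q' ∈ L → ∀ y, K.Adj q' y → ∀ j, y ∉ EL K L s j) ∧
          (q' ∉ L → ∀ j, q' ∉ EL K L s j)) := by
      intro q q' w
      induction w with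
      | nil => exact fun h => h
      | @cons a b d hab w ih =>
        rintro ⟨h1, h2, h5⟩
        apply ih
        refine ⟨hcl a h1 b (Or.inl hab), ?_, ?_⟩
        · intro hbL y hy j
          have haL : a ∉ L := fun h => ((hbip _ _ hab).1 h) hbL
          exact (h3 a h1 haL (h5 haL)).2 b hab y hy j
        · intro hbL j
          have haL : a ∈ L := (hbip _ _ hab).2 hbL
          exact h2 haL b hab j
    obtain ⟨w⟩ := hy
    obtain ⟨h5, -, h6⟩ := key _ _ w ⟨hpC, fun _ y hy j => hcon j y hy, fun h => absurd hpL h⟩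
    have hyL : ((y, true) : V × Bool) ∉ L := fun h => absurd h.1 (by simp)
    exact absurd (h3 _ h5 hyL (h6 hyL)).1 (by omega)

lemma reach_fst {V : Type u} {R : SimpleGraph V} {F : Set V} {p q : V × Bool}
    (h : (DK R F).Reachable p q) : R.Reachable p.1 q.1 := by
  obtain ⟨w⟩ := h
  induction w with
  | nil => exact SimpleGraph.Reachable.refl _
  | cons hab w ih => exact SimpleGraph.Reachable.trans hab.1.reachable ih

end ORB_

open ORB_

theorem allORB (h_HKM : tHKM.{u}) (h_HKC : tHKC.{u}) (h_GEN : tGEN.{u}) (h_TAIL : tTAIL.{u})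
    (h_ONE : tONE.{u}) (h_AUG : tAUG.{u}) (h_DKP : tDKP.{u}) (h_BDY : tBDY.{u})
    (h_MES : tMES.{u}) : tORB.{u} := by
  intro V _ _ G m e μ _ r hLab hInv hr R hRG hRm hdeg hXX
  classical
  have hD := h_DKP V G m e μ r hLab hInv hr R hRG hRm hdeg
  have hbdy := h_BDY V G m e μ r hLab hInv hr R hRG hdeg hXX
  have hfinD := fin_dbl μ
  have hdm : ∀ j, MeasurableSet {x | dg R x = j} := ((h_MES V G m m e e hLab).2.1 R hRG hRm).1
  set K := DK R {x | dg R x = r} with hK
  set L := {p : V × Bool | p.2 = false ∧ dg R p.1 = r} with hLdef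
  set ν := dbl μ with hν
  obtain ⟨⟨eK, hBK⟩, eP, hLabP, hInvP⟩ := hD
  have hKm := (h_MES (V × Bool) K m m eK eK hBK.lab).1
  -- the boundary condition on the double cover
  have hb1 : ∀ᵐ p ∂ν, p ∈ L → {y | R.Reachable p.1 y}.Finite ∨
      ∃ y, K.Reachable p (y, true) ∧ dg K (y, true) < r := by
    rw [hν, ae_dbl]
    refine ⟨?_, Eventually.of_forall fun x h => absurd h.1 (by simp)⟩
    filter_upwards [hbdy] with x hx h
    exact hx h.2
  have hb2 : ∀ᵐ p ∂ν, p ∈ L → {y | K.Reachable p y}.Finite ∨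
      ∃ y, y ∉ L ∧ K.Reachable p y ∧ dg K y < r := by
    filter_upwards [hb1] with p hp hpL
    rcases hp hpL with h | ⟨y, h1, h2⟩
    · left
      refine (h.prod (Set.finite_univ (α := Bool))).subset ?_
      intro q hq
      exact ⟨reach_fst hq, mem_univ _⟩
    · right
      exact ⟨(y, true), fun h => absurd h.1 (by simp), h1, h2⟩
  obtain ⟨M, hM⟩ := h_HKM (V × Bool) K m r eK ν L hBK hb2
  -- the state
  let Q : V × Bool → (Fin 2 → V × Bool) → Prop := fun p σ =>
    σ 1 = flp p ∧ (p.2 = false → (dg R p.1 = r ↔ σ 0 ≠ p))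
  have hfa : ∀ x : V × Bool, (DP R {x | dg R x = r}).Adj x (flp x) := fun x =>
    Or.inr ⟨rfl, by
      unfold flp
      cases x.2 <;> simp⟩
  have hst : ∃ c : PCol (DP R {x | dg R x = r}) 2, ∀ᵐ x ∂ν, Q x fun k => c.S k x := by
    let T : Fin 2 → V × Bool → V × Bool := fun k => if k = 0 then M.S 0 else flp
    have hT0 : T 0 = M.S 0 := if_pos rfl
    have hT1 : T 1 = flp := if_neg (by decide)
    have hd : ∀ x, M.S 0 x = flp x → M.S 0 x = x := by
      intro x h
      by_contra h1
      have h2 := (M.adj 0 x h1).1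
      rw [h] at h2
      exact h2.ne rfl
    refine ⟨{ S := T
              meas := ?_
              invol := ?_
              adj := ?_
              disj := ?_ }, ?_⟩
    · intro k
      rcases Fin.exists_fin_two.1 ⟨k, rfl⟩ with hk | hk <;> subst hk
      · rw [hT0]; exact M.meas 0
      · rw [hT1]; exact measurable_flp
    · intro k x
      rcases Fin.exists_fin_two.1 ⟨k, rfl⟩ with hk | hk <;> subst hk
      · rw [hT0]; exact M.invol 0 x
      · rw [hT1]; exact flp_flp x
    · intro k x
      rcases Fin.exists_fin_two.1 ⟨k, rfl⟩ with hk | hk <;> subst hk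
      · rw [hT0]; exact fun h => Or.inl (M.adj 0 x h)
      · rw [hT1]; exact fun _ => hfa x
    · intro k k' x h1 h2
      rcases Fin.exists_fin_two.1 ⟨k, rfl⟩ with hk | hk <;>
      rcases Fin.exists_fin_two.1 ⟨k', rfl⟩ with hk' | hk' <;> subst hk <;> subst hk'
      · rfl
      · rw [hT0, hT1] at h1
        rw [hT0] at h2
        exact absurd (hd x h1) h2
      · rw [hT0, hT1] at h1
        rw [hT1] at h2
        exact absurd (h1.trans (hd x h1.symm)) h2
      · rfl
    · filter_upwards [hM] with x hx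
      change T 1 x = flp x ∧ (x.2 = false → (dg R x.1 = r ↔ T 0 x ≠ x))
      rw [hT0, hT1]
      refine ⟨rfl, fun h2 => ⟨fun h3 => hx ⟨h2, h3⟩, fun h3 => ?_⟩⟩
      exact (M.adj 0 x h3).2.2.1 h2
  obtain ⟨c, hc⟩ := h_GEN (V × Bool) (DP R {x | dg R x = r}) (m + 1) 2 eP ν hLabP hInvP Q r hst
  have hQm : MeasurableSet {p : (V × Bool) × (Fin 2 → V × Bool) | Q p.1 p.2} := by
    have hA : MeasurableSet {p : (V × Bool) × (Fin 2 → V × Bool) | p.2 1 = flp p.1} :=
      measurableSet_eq_fun ((measurable_pi_apply 1).comp measurable_snd)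
        (measurable_flp.comp measurable_fst)
    have hB : MeasurableSet {p : (V × Bool) × (Fin 2 → V × Bool) | p.1.2 = false} :=
      measurableSet_eq_fun (measurable_snd.comp measurable_fst) measurable_const
    have hC : MeasurableSet {p : (V × Bool) × (Fin 2 → V × Bool) | dg R p.1.1 = r} :=
      (measurable_fst.comp measurable_fst) (hdm r)
    have hD : MeasurableSet {p : (V × Bool) × (Fin 2 → V × Bool) | p.2 0 = p.1} :=
      measurableSet_eq_fun ((measurable_pi_apply 0).comp measurable_snd) measurable_fst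
    have : {p : (V × Bool) × (Fin 2 → V × Bool) | Q p.1 p.2} =
        {p | p.2 1 = flp p.1} ∩ ({p | p.1.2 = false}ᶜ ∪
          (({p | dg R p.1.1 = r} ∩ {p | p.2 0 = p.1}ᶜ) ∪
            ({p | dg R p.1.1 = r}ᶜ ∩ {p | p.2 0 = p.1}))) := by
      ext p
      simp only [Q, mem_ofPred_eq, mem_inter_iff, mem_union, mem_compl_iff]
      tauto
    rw [this]
    exact hA.inter (hB.compl.union ((hC.inter hD.compl).union (hC.compl.inter hD)))
  have htail := h_TAIL (V × Bool) (DP R {x | dg R x = r}) (m + 1) 2 eP ν hLabP hInvP Q r c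
    hQm hc
  -- the matching of the generic state
  let s : V × Bool → V × Bool := fun x => if K.Adj x (c.S 0 x) then c.S 0 x else x
  have hsy : ∀ x, K.Adj x (c.S 0 x) → s x = c.S 0 x := fun x h => if_pos h
  have hsn : ∀ x, ¬ K.Adj x (c.S 0 x) → s x = x := fun x h => if_neg h
  have hsm : Measurable s := by
    refine Measurable.ite ?_ (c.meas 0) measurable_id
    exact (measurable_id.prodMk (c.meas 0)) hKm
  have hs : ∀ x, s (s x) = x := by
    intro x
    by_cases h : K.Adj x (c.S 0 x)
    · rw [hsy x h, hsy _ (by rw [c.invol]; exact h.symm), c.invol]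
    · rw [hsn x h, hsn x h]
  have hsa : ∀ x, s x ≠ x → K.Adj x (s x) := by
    intro x hx
    by_cases h : K.Adj x (c.S 0 x)
    · rw [hsy x h]; exact h
    · exact absurd (hsn x h) hx
  let M' : PCol K 1 :=
    { S := fun _ => s
      meas := fun _ => hsm
      invol := fun _ => hs
      adj := fun _ => hsa
      disj := fun _ _ _ _ _ => Subsingleton.elim _ _ }
  have hkc := h_HKC (V × Bool) K m r eK ν L hBK (fun _ => M')
    (fun _ => Eventually.of_forall fun _ _ h => h)
  have hkc' : ∀ᵐ y ∂ν, y ∉ L → (∀ j, y ∉ EL K L s j) → dg K y = r ∧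
      ∀ x, K.Adj y x → ∀ y', K.Adj x y' → ∀ j, y' ∉ EL K L s j := by
    filter_upwards [hkc] with y hy h1 h2
    obtain ⟨h3, h4⟩ := hy h1 fun j => ⟨0, h2 j⟩
    refine ⟨h3, fun x hx y' hy' j => ?_⟩
    obtain ⟨-, h5⟩ := h4 x hx y' hy' j
    exact h5
  -- agreement with the state
  have hagr : ∀ x, (Q x fun k => c.S k x) → c.S 0 x = s x := by
    intro x hx
    by_cases h : K.Adj x (c.S 0 x)
    · exact (hsy x h).symm
    · rw [hsn x h]
      by_contra h1
      rcases c.adj 0 x h1 with h2 | h2
      · exact h h2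
      · have h3 : c.S 0 x = c.S 1 x := by
          have h4 : c.S 1 x = flp x := hx.1
          rw [h4]
          unfold flp
          refine Prod.ext h2.1.symm ?_
          have := h2.2
          revert this
          cases x.2 <;> cases (c.S 0 x).2 <;> simp
        exact absurd (c.disj 0 1 x h3 h1) (by decide)
  have hnb : ∀ᵐ b ∂ν, b ∉ Bad s flp := by
    filter_upwards [ae_Cm hInvP eP hc.sat, htail, ae_Cm hInvP eP hkc', ae_Cm hInvP eP hb1]
      with b hq htl h3 h4
    refine core h_AUG (toPC c) s (Cm eP b) hBK.bip (fun x hx y hy => mem_adj hLabP hx hy) hs hsa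
      (fun x hx => hagr x (hq x hx)) (fun x hx => (hq x hx).1) ?_ ?_ ?_ b (self_mem eP b)
    · intro x hx h2
      have h5 := (hq x hx).2 h2
      have h6 := hagr x (hq x hx)
      rw [← h6]
      exact h5
    · intro cb hFM hSat
      exact htl cb hFM hSat
    · exact lev s (Cm eP b) hBK.bip (fun x hx y hy => mem_adj hLabP hx hy) hs hsa h3 h4
  have hone := h_ONE (V × Bool) ν s flp hs flp_flp (hBK.inv s hsm hs hsa)
    (hInvP flp measurable_flp flp_flp fun x _ => hfa x)
  -- the two maps
  have hsF : ∀ x, s (x, false) ≠ (x, false) → R.Adj x (s (x, false)).1 ∧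
      s (x, false) = ((s (x, false)).1, true) := by
    intro x h
    have h1 := hsa _ h
    refine ⟨h1.1, Prod.ext rfl ?_⟩
    have h2 := h1.2.1
    revert h2
    cases (s (x, false)).2 <;> simp
  have hsT : ∀ x, s (x, true) ≠ (x, true) → R.Adj x (s (x, true)).1 ∧
      s (x, true) = ((s (x, true)).1, false) := by
    intro x h
    have h1 := hsa _ h
    refine ⟨h1.1, Prod.ext rfl ?_⟩
    have h2 := h1.2.1
    revert h2
    cases (s (x, true)).2 <;> simp
  have hfne : ∀ x, (s (x, false)).1 ≠ x → s (x, false) ≠ (x, false) := by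
    intro x h h1
    exact h (by rw [h1])
  have hgne : ∀ x, (s (x, true)).1 ≠ x → s (x, true) ≠ (x, true) := by
    intro x h h1
    exact h (by rw [h1])
  refine ⟨fun x => (s (x, false)).1, fun y => (s (y, true)).1,
    measurable_fst.comp (hsm.comp (measurable_id.prodMk measurable_const)),
    measurable_fst.comp (hsm.comp (measurable_id.prodMk measurable_const)), ?_, ?_, ?_, ?_⟩
  · intro x hx
    obtain ⟨h1, h2⟩ := hsF x (hfne x hx)
    refine ⟨h1, ?_⟩
    change (s ((s (x, false)).1, true)).1 = x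
    rw [← h2, hs]
  · intro y hy
    obtain ⟨h1, h2⟩ := hsT y (hgne y hy)
    refine ⟨h1.symm, ?_⟩
    change (s ((s (y, true)).1, false)).1 = y
    rw [← h2, hs]
  · have h1 := (ae_dbl.1 hc.sat).1
    filter_upwards [h1] with x hx hr' h2
    have h3 : c.S 0 (x, false) ≠ (x, false) := (hx.2 rfl).1 hr'
    rw [hagr _ hx] at h3
    obtain ⟨h4, -⟩ := hsF x h3
    change (s (x, false)).1 = x at h2
    rw [h2] at h4
    exact h4.ne rfl
  · have h1 := (ae_dbl.1 hnb).2
    have h2 := (ae_dbl.1 hone).2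
    filter_upwards [h1, h2] with x hx1 hx2
    by_contra hcon
    push Not at hcon
    obtain ⟨hc1, hc2⟩ := hcon
    set g : V → V := fun y => (s (y, true)).1 with hg
    have hstep : ∀ n, s (g^[n] x, true) = (g^[n + 1] x, false) := by
      intro n
      rw [Function.iterate_succ_apply']
      exact (hsT _ (hgne _ (hc1 n))).2
    have hA : ∀ n, al s flp (2 * n) (x, true) = (g^[n] x, true) := by
      intro n
      induction n with
      | zero => rfl
      | succ n ih =>
        have e1 : 2 * (n + 1) = (2 * n + 1) + 1 := by ring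
        rw [e1, al_last_odd s flp (by
          rw [Nat.even_add_one]
          exact not_not.2 (even_two_mul n)), al_last_even s flp (even_two_mul n), ih, hstep]
        rfl
    have hB : ∀ n, al s flp (2 * n + 1) (x, true) = (g^[n + 1] x, false) := by
      intro n
      rw [al_last_even s flp (even_two_mul n), hA, hstep]
    apply hx1
    apply hx2
    · intro N n _
      rcases Nat.even_or_odd' n with ⟨k, rfl | rfl⟩
      · rw [hA, hB]
        intro h
        exact absurd (congrArg Prod.snd h) (by simp)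
      · have e1 : 2 * k + 1 + 1 = 2 * (k + 1) := by ring
        rw [e1, hA, hB]
        intro h
        exact absurd (congrArg Prod.snd h) (by simp)
    · intro p hp h
      rw [hA] at h
      exact hc2 p hp (congrArg Prod.fst h)

end Pool.Agent.MEO
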