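import Pool.Agent.MEO.Targets

set_option autoImplicit false

/-! C3: the exchanges for all options at a place (no colours). -/

namespace Pool.Agent.MEO

open MeasureTheory Set Filter
open scoped ENNReal
open Pool.Agent.MEC
open Pool.Agent.MEP

universe u

namespace PART_

variable {V : Type u}

/-! ### Degrees after one change -/

lemma dg_congr {R R' : SimpleGraph V} {x : V} (h : R'.neighborSet x = R.neighborSet x) :
    dg R' x = dg R x := by
  unfold dg
  rw [h]

lemma adj_congr {R R' : SimpleGraph V} {x : V} (h : R'.neighborSet x = R.neighborSet x)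
    (y : V) : R'.Adj x y ↔ R.Adj x y := by
  have := Set.ext_iff.1 h y
  simpa using this

lemma nb_del_off (R : SimpleGraph V) {a b y : V} (ha : y ≠ a) (hb : y ≠ b) :
    (del R a b).neighborSet y = R.neighborSet y := by
  ext z
  simp only [SimpleGraph.mem_neighborSet]
  constructor
  · rintro ⟨h, -⟩
    exact h
  · intro h
    exact ⟨h, by tauto⟩

lemma nb_ins_off (R : SimpleGraph V) {a v y : V} (ha : y ≠ a) (hv : y ≠ v) :
    (ins R a v).neighborSet y = R.neighborSet y := by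
  ext z
  simp only [SimpleGraph.mem_neighborSet]
  constructor
  · rintro (h | h)
    · exact h
    · exact absurd h.2 (by tauto)
  · intro h
    exact Or.inl h

lemma nb_del (R : SimpleGraph V) {a b : V} (h : a ≠ b) :
    (del R a b).neighborSet b = R.neighborSet b \ {a} := by
  ext z
  simp only [SimpleGraph.mem_neighborSet, Set.mem_sdiff, mem_singleton_iff]
  constructor
  · rintro ⟨h1, h2⟩
    exact ⟨h1, fun hz => h2 (Or.inr ⟨rfl, hz⟩)⟩
  · rintro ⟨h1, h2⟩
    refine ⟨h1, ?_⟩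
    rintro (⟨h3, -⟩ | ⟨-, h3⟩)
    · exact h h3.symm
    · exact h2 h3

lemma nb_del' (R : SimpleGraph V) {a b : V} (h : a ≠ b) :
    (del R a b).neighborSet a = R.neighborSet a \ {b} := by
  ext z
  simp only [SimpleGraph.mem_neighborSet, Set.mem_sdiff, mem_singleton_iff]
  constructor
  · rintro ⟨h1, h2⟩
    exact ⟨h1, fun hz => h2 (Or.inl ⟨rfl, hz⟩)⟩
  · rintro ⟨h1, h2⟩
    refine ⟨h1, ?_⟩
    rintro (⟨-, h3⟩ | ⟨h3, -⟩)
    · exact h2 h3
    · exact h h3

lemma nb_ins (R : SimpleGraph V) {a v : V} (h : a ≠ v) :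
    (ins R a v).neighborSet v = insert a (R.neighborSet v) := by
  ext z
  simp only [SimpleGraph.mem_neighborSet, mem_insert_iff]
  constructor
  · rintro (h1 | ⟨-, h1 | h1⟩)
    · exact Or.inr h1
    · exact absurd h1.1.symm h
    · exact Or.inl h1.2
  · rintro (rfl | h1)
    · exact Or.inr ⟨h.symm, Or.inr ⟨rfl, rfl⟩⟩
    · exact Or.inl h1

lemma dg_del_lt {R : SimpleGraph V} {a b : V} (h : R.Adj a b) (hf : (R.neighborSet b).Finite) :
    dg (del R a b) b < dg R b := by
  unfold dg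
  rw [nb_del R h.ne]
  exact ncard_sdiff_singleton_lt_of_mem h.symm hf

lemma dg_del_lt' {R : SimpleGraph V} {a b : V} (h : R.Adj a b)
    (hf : (R.neighborSet a).Finite) : dg (del R a b) a < dg R a := by
  unfold dg
  rw [nb_del' R h.ne]
  exact ncard_sdiff_singleton_lt_of_mem h hf

lemma dg_ins {R : SimpleGraph V} {a v : V} (hav : a ≠ v) (h : ¬ R.Adj a v)
    (hf : (R.neighborSet v).Finite) : dg (ins R a v) v = dg R v + 1 := by
  unfold dg
  rw [nb_ins R hav]
  exact ncard_insert_of_notMem (fun h' => h (SimpleGraph.Adj.symm h')) hf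

lemma nbfin {G R : SimpleGraph V} (hle : R ≤ G) (hf : ∀ x, (G.neighborSet x).Finite) (x : V) :
    (R.neighborSet x).Finite := (hf x).subset fun _ h => hle h

/-! ### Steps -/

lemma stp_le {G : SimpleGraph V} {l r : ℕ} {C : Set V} {R R' : SimpleGraph V} (h : R ≤ G)
    (hs : Stp G l r C R R') : R' ≤ G := by
  rcases hs with ⟨a, -, v, b, -, h2, -, -, -, rfl⟩ | ⟨z, -, z', -, -, -, rfl⟩ |
    ⟨z, -, z', h1, -, -, -, rfl⟩
  · intro x y hxy
    rcases hxy with hxy | ⟨-, ⟨rfl, rfl⟩ | ⟨rfl, rfl⟩⟩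
    · exact h hxy.1
    · exact h2
    · exact h2.symm
  · intro x y hxy
    exact h hxy.1
  · intro x y hxy
    rcases hxy with hxy | ⟨-, ⟨rfl, rfl⟩ | ⟨rfl, rfl⟩⟩
    · exact h hxy
    · exact h1
    · exact h1.symm

lemma steps_le {G : SimpleGraph V} {l r : ℕ} {C : Set V} {R R' : SimpleGraph V} (h : R ≤ G)
    (hs : Relation.ReflTransGen (Stp G l r C) R R') : R' ≤ G := by
  induction hs with
  | refl => exact h
  | tail _ h2 ih => exact stp_le ih h2

/-- the effect of the first operation -/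
lemma op1 {G : SimpleGraph V} {l r : ℕ} {C : Set V} {R R1 : SimpleGraph V} (hle : R ≤ G)
    (hf : ∀ x, (G.neighborSet x).Finite) (hs : Relation.ReflTransGen (Stp G l r C) R R1)
    {a v b : V} (ha : a ∈ C) (hab : R1.Adj a b) (hav : G.Adj a v) (hnv : ¬ R1.Adj a v)
    (hv : dg R1 v < r) (hb : dg G b < dg R1 b + l) :
    ∃ R', Relation.ReflTransGen (Stp G l r C) R R' ∧ dg R' b < dg R1 b ∧
      dg R' v = dg R1 v + 1 ∧
      (∀ y, y ≠ a → y ≠ b → y ≠ v → R'.neighborSet y = R1.neighborSet y) ∧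
      ∀ x y, x ≠ a → y ≠ a → R1.Adj x y → R'.Adj x y := by
  have hbv : b ≠ v := by
    rintro rfl
    exact hnv hab
  have hle1 := steps_le hle hs
  have hav' : a ≠ v := hav.ne
  have hdel : ¬ (del R1 a b).Adj a v := fun h => hnv h.1
  refine ⟨ins (del R1 a b) a v, hs.tail (Or.inl ⟨a, ha, v, b, hab, hav, hnv, hv, hb, rfl⟩),
    ?_, ?_, ?_, ?_⟩
  · rw [dg_congr (nb_ins_off (del R1 a b) hab.ne.symm hbv)]
    exact dg_del_lt hab (nbfin hle1 hf b)
  · rw [dg_ins hav' hdel, dg_congr (nb_del_off R1 hav'.symm hbv.symm)]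
    rw [nb_del_off R1 hav'.symm hbv.symm]
    exact nbfin hle1 hf v
  · intro y h1 h2 h3
    rw [nb_ins_off _ h1 h3, nb_del_off _ h1 h2]
  · intro x y h1 h2 h
    exact Or.inl ⟨h, by tauto⟩

lemma op2 {G : SimpleGraph V} {l r : ℕ} {C : Set V} {R R1 : SimpleGraph V} (hle : R ≤ G)
    (hf : ∀ x, (G.neighborSet x).Finite) (hs : Relation.ReflTransGen (Stp G l r C) R R1)
    {z z' : V} (hz : z ∈ C) (h : R1.Adj z z') (h1 : dg G z < dg R1 z + l)
    (h2 : dg G z' < dg R1 z' + l) :
    ∃ R', Relation.ReflTransGen (Stp G l r C) R R' ∧ dg R' z < dg R1 z ∧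
      ∀ y, y ≠ z → y ≠ z' → R'.neighborSet y = R1.neighborSet y :=
  ⟨del R1 z z', hs.tail (Or.inr (Or.inl ⟨z, hz, z', h, h1, h2, rfl⟩)),
    dg_del_lt' h (nbfin (steps_le hle hs) hf z), fun _ h3 h4 => nb_del_off R1 h3 h4⟩

lemma op3 {G : SimpleGraph V} {l r : ℕ} {C : Set V} {R R1 : SimpleGraph V} (hle : R ≤ G)
    (hf : ∀ x, (G.neighborSet x).Finite) (hs : Relation.ReflTransGen (Stp G l r C) R R1)
    {z z' : V} (hz : z ∈ C) (h : G.Adj z z') (hn : ¬ R1.Adj z z') (h1 : dg R1 z < r)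
    (h2 : dg R1 z' < r) :
    ∃ R', Relation.ReflTransGen (Stp G l r C) R R' ∧ dg R' z' = dg R1 z' + 1 ∧
      ∀ y, y ≠ z → y ≠ z' → R'.neighborSet y = R1.neighborSet y :=
  ⟨ins R1 z z', hs.tail (Or.inr (Or.inr ⟨z, hz, z', h, hn, h1, h2, rfl⟩)),
    dg_ins h.ne hn (nbfin (steps_le hle hs) hf z'), fun _ h3 h4 => nb_ins_off R1 h3 h4⟩

/-! ### Levels -/

section levels

variable {G R : SimpleGraph V} {Δ l r : ℕ} {X : Set V}

lemma ts_true {n : ℕ} {t : V} (h : t ∈ TS G R Δ l r X n true) :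
    (dg R t < r ∨ (t ∈ X ∧ dg G t = Δ)) ∨ ∃ j < n, ∃ s ∈ TS G R Δ l r X j false, R.Adj t s := by
  induction n with
  | zero => exact Or.inl h
  | succ n ih =>
    rcases h with h | ⟨s, hs, h⟩
    · rcases ih h with h1 | ⟨j, hj, h1⟩
      · exact Or.inl h1
      · exact Or.inr ⟨j, by omega, h1⟩
    · exact Or.inr ⟨n, by omega, s, hs, h⟩

lemma ts_false {n : ℕ} {s : V} (h : s ∈ TS G R Δ l r X n false) :
    dg G s < dg R s + l ∨
      ∃ j < n, ∃ t ∈ TS G R Δ l r X j true, G.Adj s t ∧ ¬ R.Adj s t := by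
  induction n with
  | zero => exact Or.inl h
  | succ n ih =>
    rcases h with h | ⟨s, hs, h⟩
    · rcases ih h with h1 | ⟨j, hj, h1⟩
      · exact Or.inl h1
      · exact Or.inr ⟨j, by omega, h1⟩
    · exact Or.inr ⟨n, by omega, s, hs, h⟩

lemma ts_min {n : ℕ} {b : Bool} {x : V} (h : x ∈ TS G R Δ l r X n b) :
    ∃ m ≤ n, x ∈ TS G R Δ l r X m b ∧ ∀ j < m, x ∉ TS G R Δ l r X j b := by
  classical
  have hex : ∃ m, x ∈ TS G R Δ l r X m b := ⟨n, h⟩
  exact ⟨Nat.find hex, Nat.find_min' hex h, Nat.find_spec hex, fun j hj => Nat.find_min hex hj⟩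

end levels

/-- the standing assumptions -/
structure Hy (G R : SimpleGraph V) (Δ l r k : ℕ) (C X : Set V) (ρ : V → Bool) : Prop where
  px : PX G Δ C
  lr : l + r = Δ
  r1 : 1 ≤ r
  le : R ≤ G
  dg : ∀ x ∈ C, dg R x ≤ r ∧ dg G x ≤ dg R x + l
  Xr : ∀ x ∈ X, MEO.dg R x = r
  Xc : ∀ x ∈ X, ∀ y, R.Adj x y → y ∈ X
  Xw : ∀ x ∈ X, ∀ y ∈ X, x ∈ C → R.Adj x y → MEO.dg G x = Δ ∨ MEO.dg G y = Δ
  ad : ∀ x y, G.Adj x y → ρ y = !ρ x
  km : ∀ x ∈ X, x ∈ C → MEO.dg G x = Δ → ∀ j < k, x ∉ TS G R Δ l r X j false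

variable {G R : SimpleGraph V} {Δ l r k : ℕ} {C X : Set V} {ρ : V → Bool}

lemma Hy.full (h : Hy G R Δ l r k C X ρ) {x : V} (hx : x ∈ C) (hd : MEO.dg G x = Δ) :
    MEO.dg R x = r ∧ MEO.dg G x = MEO.dg R x + l := by
  have h1 := h.dg x hx
  have h2 := h.lr
  omega

lemma Hy.notX (h : Hy G R Δ l r k C X ρ) {n : ℕ} (hn : n ≤ k) {t : V} (ht : t ∈ C)
    (hd : MEO.dg G t < Δ) (hT : t ∈ TS G R Δ l r X n true) : t ∉ X := by
  intro hX
  rcases ts_true hT with (h1 | h1) | ⟨j, hj, s, hs, h1⟩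
  · have := h.Xr t hX
    omega
  · omega
  · have hsX := h.Xc t hX s h1
    rcases h.Xw t hX s hsX ht h1 with h2 | h2
    · omega
    · exact h.km s hsX (h.px.cl t ht s (h.le h1)) h2 j (by omega) hs

/-- the claim -/
def Cl (G R : SimpleGraph V) (Δ l r : ℕ) (C X : Set V) (ρ : V → Bool) (n : ℕ) (v : V) : Prop :=
  ∃ Q : Set V, Q.Subsingleton ∧ (∀ x ∈ Q, x ∈ X ∧ x ∈ C ∧ dg G x = Δ ∧ ρ x = true) ∧
    ∀ f : V → V, (∀ x ∈ Q, R.Adj x (f x)) → ∃ R', Relation.ReflTransGen (Stp G l r C) R R' ∧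
      (ρ v = true → dg R' v < r) ∧ (ρ v = false → dg G v < dg R' v + l) ∧
      (∀ x ∈ Q, dg R' (f x) < r) ∧
      ∀ y, R'.neighborSet y ≠ R.neighborSet y →
        (y = v ∨ ∃ j < n, y ∈ TS G R Δ l r X j (ρ y)) ∧ (y ∈ X → y ∈ Q ∨ ∃ x ∈ Q, y = f x)

lemma claim (h : Hy G R Δ l r k C X ρ) : ∀ n, n < k → ∀ v ∈ C, v ∉ X → dg G v < Δ →
    v ∈ TS G R Δ l r X n (ρ v) → (∀ j < n, v ∉ TS G R Δ l r X j (ρ v)) →
    Cl G R Δ l r C X ρ n v := by
  intro n
  induction n using Nat.strong_induction_on with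
  | _ n ih =>
  intro hnk v hvC hvX hvd hvn hvm
  have hdv := h.dg v hvC
  have hlr := h.lr
  have hf := h.px.fin
  cases hρ : ρ v with
  | true =>
    rw [hρ] at hvn hvm
    by_cases h0 : dg R v < r
    · refine ⟨∅, subsingleton_empty, fun x hx => absurd hx (notMem_empty x), fun f _ => ?_⟩
      refine ⟨R, Relation.ReflTransGen.refl, fun _ => h0, fun hh => ?_, ?_, ?_⟩
      · rw [hρ] at hh
        exact absurd hh (by decide)
      · exact fun x hx => absurd hx (notMem_empty x)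
      · exact fun y hy => absurd rfl hy
    rcases ts_true hvn with (h1 | h1) | ⟨j, hj, s, hs, hvs⟩
    · exact absurd h1 h0
    · exact absurd h1.1 hvX
    have hsC : s ∈ C := h.px.cl v hvC s (h.le hvs)
    have hsX : s ∉ X := fun hsX => hvX (h.Xc s hsX v hvs.symm)
    have hρs : ρ s = false := by rw [h.ad v s (h.le hvs), hρ]; rfl
    obtain ⟨j', hj', hs', hsm⟩ := ts_min hs
    by_cases hsd : dg G s < Δ
    · obtain ⟨Q, hQ1, hQ2, hQ3⟩ := ih j' (by omega) (by omega) s hsC hsX hsd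
        (by rw [hρs]; exact hs') (by rw [hρs]; exact hsm)
      refine ⟨Q, hQ1, hQ2, fun f hff => ?_⟩
      obtain ⟨R1, hR1, -, hR3, hR4, hR5⟩ := hQ3 f hff
      have hv1 : R1.neighborSet v = R.neighborSet v := by
        by_contra hc
        rcases (hR5 v hc).1 with h2 | ⟨i, hi, h2⟩
        · exact hvs.ne h2
        · rw [hρ] at h2
          exact hvm i (by omega) h2
      obtain ⟨R', hR', hR'1, hR'2⟩ := op2 h.le hf hR1 hvC ((adj_congr hv1 s).2 hvs)
        (by rw [dg_congr hv1]; omega) (hR3 hρs)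
      refine ⟨R', hR', fun _ => ?_, fun hh => ?_, fun x hx => ?_, fun y hy => ?_⟩
      · rw [dg_congr hv1] at hR'1
        omega
      · rw [hρ] at hh
        exact absurd hh (by decide)
      · have hfx : f x ∈ X := h.Xc x (hQ2 x hx).1 (f x) (hff x hx)
        rw [dg_congr (hR'2 (f x) (fun hh => hvX (hh ▸ hfx)) (fun hh => hsX (hh ▸ hfx)))]
        exact hR4 x hx
      · by_cases hyv : y = v
        · subst hyv
          exact ⟨Or.inl rfl, fun hyX => absurd hyX hvX⟩
        by_cases hys : y = s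
        · subst hys
          exact ⟨Or.inr ⟨j', by omega, by rw [hρs]; exact hs'⟩, fun hyX => absurd hyX hsX⟩
        rw [hR'2 y hyv hys] at hy
        obtain ⟨h2, h3⟩ := hR5 y hy
        refine ⟨Or.inr ?_, h3⟩
        rcases h2 with h2 | ⟨i, hi, h2⟩
        · exact absurd h2 hys
        · exact ⟨i, by omega, h2⟩
    · have hsΔ : dg G s = Δ := le_antisymm (h.px.deg s) (not_lt.1 hsd)
      have hfs := h.full hsC hsΔ
      rcases ts_false hs' with h1 | ⟨i, hi, t, ht, hst, hnst⟩
      · omega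
      have htd : dg G t < Δ := by
        rcases h.px.ind s t hst with h2 | h2
        · omega
        · exact h2
      have htC : t ∈ C := h.px.cl s hsC t hst
      have htX : t ∉ X := h.notX (by omega) htC htd ht
      have hρt : ρ t = true := by rw [h.ad s t hst, hρs]; rfl
      obtain ⟨i', hi', ht', htm⟩ := ts_min ht
      obtain ⟨Q, hQ1, hQ2, hQ3⟩ := ih i' (by omega) (by omega) t htC htX htd
        (by rw [hρt]; exact ht') (by rw [hρt]; exact htm)
      refine ⟨Q, hQ1, hQ2, fun f hff => ?_⟩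
      obtain ⟨R1, hR1, hR2, -, hR4, hR5⟩ := hQ3 f hff
      have hvt : v ≠ t := by
        rintro rfl
        exact hvm i' (by omega) ht'
      have hv1 : R1.neighborSet v = R.neighborSet v := by
        by_contra hc
        rcases (hR5 v hc).1 with h2 | ⟨i, hi, h2⟩
        · exact hvt h2
        · rw [hρ] at h2
          exact hvm i (by omega) h2
      have hs1 : R1.neighborSet s = R.neighborSet s := by
        by_contra hc
        rcases (hR5 s hc).1 with h2 | ⟨i, hi, h2⟩
        · exact hst.ne h2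
        · rw [hρs] at h2
          exact hsm i (by omega) h2
      obtain ⟨R', hR', hR'1, -, hR'3, -⟩ := op1 h.le hf hR1 hsC ((adj_congr hs1 v).2 hvs.symm)
        hst (fun hh => hnst ((adj_congr hs1 t).1 hh)) (hR2 hρt) (by rw [dg_congr hv1]; omega)
      refine ⟨R', hR', fun _ => ?_, fun hh => ?_, fun x hx => ?_, fun y hy => ?_⟩
      · rw [dg_congr hv1] at hR'1
        omega
      · rw [hρ] at hh
        exact absurd hh (by decide)
      · have hfx : f x ∈ X := h.Xc x (hQ2 x hx).1 (f x) (hff x hx)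
        rw [dg_congr (hR'3 (f x) (fun hh => hsX (hh ▸ hfx)) (fun hh => hvX (hh ▸ hfx))
          (fun hh => htX (hh ▸ hfx)))]
        exact hR4 x hx
      · by_cases hyv : y = v
        · subst hyv
          exact ⟨Or.inl rfl, fun hyX => absurd hyX hvX⟩
        by_cases hys : y = s
        · subst hys
          exact ⟨Or.inr ⟨j', by omega, by rw [hρs]; exact hs'⟩, fun hyX => absurd hyX hsX⟩
        by_cases hyt : y = t
        · subst hyt
          exact ⟨Or.inr ⟨i', by omega, by rw [hρt]; exact ht'⟩, fun hyX => absurd hyX htX⟩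
        rw [hR'3 y hys hyv hyt] at hy
        obtain ⟨h2, h3⟩ := hR5 y hy
        refine ⟨Or.inr ?_, h3⟩
        rcases h2 with h2 | ⟨i, hi, h2⟩
        · exact absurd h2 hyt
        · exact ⟨i, by omega, h2⟩
  | false =>
    rw [hρ] at hvn hvm
    by_cases h0 : dg G v < dg R v + l
    · refine ⟨∅, subsingleton_empty, fun x hx => absurd hx (notMem_empty x), fun f _ => ?_⟩
      refine ⟨R, Relation.ReflTransGen.refl, fun hh => ?_, fun _ => h0, ?_, ?_⟩
      · rw [hρ] at hh
        exact absurd hh (by decide)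
      · exact fun x hx => absurd hx (notMem_empty x)
      · exact fun y hy => absurd rfl hy
    rcases ts_false hvn with h1 | ⟨j, hj, t, ht, hvt, hnvt⟩
    · exact absurd h1 h0
    have htC : t ∈ C := h.px.cl v hvC t hvt
    have hρt : ρ t = true := by rw [h.ad v t hvt, hρ]; rfl
    by_cases htd : dg G t < Δ
    · have htX : t ∉ X := h.notX (by omega) htC htd ht
      obtain ⟨j', hj', ht', htm⟩ := ts_min ht
      obtain ⟨Q, hQ1, hQ2, hQ3⟩ := ih j' (by omega) (by omega) t htC htX htd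
        (by rw [hρt]; exact ht') (by rw [hρt]; exact htm)
      refine ⟨Q, hQ1, hQ2, fun f hff => ?_⟩
      obtain ⟨R1, hR1, hR2, -, hR4, hR5⟩ := hQ3 f hff
      have hv1 : R1.neighborSet v = R.neighborSet v := by
        by_contra hc
        rcases (hR5 v hc).1 with h2 | ⟨i, hi, h2⟩
        · exact hvt.ne h2
        · rw [hρ] at h2
          exact hvm i (by omega) h2
      obtain ⟨R', hR', hR'1, hR'2⟩ := op3 h.le hf hR1 htC hvt.symm
        (fun hh => hnvt ((adj_congr hv1 t).1 hh.symm)) (hR2 hρt)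
        (by rw [dg_congr hv1]; omega)
      refine ⟨R', hR', fun hh => ?_, fun _ => ?_, fun x hx => ?_, fun y hy => ?_⟩
      · rw [hρ] at hh
        exact absurd hh (by decide)
      · rw [dg_congr hv1] at hR'1
        omega
      · have hfx : f x ∈ X := h.Xc x (hQ2 x hx).1 (f x) (hff x hx)
        rw [dg_congr (hR'2 (f x) (fun hh => htX (hh ▸ hfx)) (fun hh => hvX (hh ▸ hfx)))]
        exact hR4 x hx
      · by_cases hyv : y = v
        · subst hyv
          exact ⟨Or.inl rfl, fun hyX => absurd hyX hvX⟩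
        by_cases hyt : y = t
        · subst hyt
          exact ⟨Or.inr ⟨j', by omega, by rw [hρt]; exact ht'⟩, fun hyX => absurd hyX htX⟩
        rw [hR'2 y hyt hyv] at hy
        obtain ⟨h2, h3⟩ := hR5 y hy
        refine ⟨Or.inr ?_, h3⟩
        rcases h2 with h2 | ⟨i, hi, h2⟩
        · exact absurd h2 hyt
        · exact ⟨i, by omega, h2⟩
    have htΔ : dg G t = Δ := le_antisymm (h.px.deg t) (not_lt.1 htd)
    have hft := h.full htC htΔ
    by_cases htX : t ∈ X
    · refine ⟨{t}, subsingleton_singleton, fun x hx => ?_, fun f hff => ?_⟩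
      · rw [mem_singleton_iff.1 hx]
        exact ⟨htX, htC, htΔ, hρt⟩
      have hadj : R.Adj t (f t) := hff t rfl
      have hfX : f t ∈ X := h.Xc t htX (f t) hadj
      have hfd : dg G (f t) < Δ := by
        rcases h.px.ind t (f t) (h.le hadj) with h2 | h2
        · omega
        · exact h2
      have hfr := h.Xr (f t) hfX
      have hρf : ρ (f t) = false := by rw [h.ad t (f t) (h.le hadj), hρt]; rfl
      obtain ⟨R', hR', hR'1, hR'2, hR'3, -⟩ := op1 (l := l) (r := r) (R := R) (R1 := R) h.le hf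
        Relation.ReflTransGen.refl htC hadj hvt.symm (fun hh => hnvt hh.symm) (by omega)
        (by omega)
      refine ⟨R', hR', fun hh => ?_, fun _ => ?_, fun x hx => ?_, fun y hy => ?_⟩
      · rw [hρ] at hh
        exact absurd hh (by decide)
      · omega
      · rw [mem_singleton_iff.1 hx]
        omega
      · by_cases hyv : y = v
        · subst hyv
          exact ⟨Or.inl rfl, fun hyX => absurd hyX hvX⟩
        by_cases hyt : y = t
        · subst hyt
          exact ⟨Or.inr ⟨j, by omega, by rw [hρt]; exact ht⟩, fun _ => Or.inl rfl⟩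
        by_cases hyf : y = f t
        · subst hyf
          refine ⟨Or.inr ⟨0, by omega, ?_⟩, fun _ => Or.inr ⟨t, rfl, rfl⟩⟩
          rw [hρf]
          change dg G (f t) < dg R (f t) + l
          omega
        exact absurd (hR'3 y hyt hyf hyv) hy
    · obtain ⟨j', hj', ht', htm⟩ := ts_min ht
      rcases ts_true ht' with (h1 | h1) | ⟨i, hi, s, hs, hts⟩
      · omega
      · exact absurd h1.1 htX
      have hsC : s ∈ C := h.px.cl t htC s (h.le hts)
      have hsX : s ∉ X := fun hsX => htX (h.Xc s hsX t hts.symm)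
      have hsd : dg G s < Δ := by
        rcases h.px.ind t s (h.le hts) with h2 | h2
        · omega
        · exact h2
      have hρs : ρ s = false := by rw [h.ad t s (h.le hts), hρt]; rfl
      obtain ⟨i', hi', hs', hsm⟩ := ts_min hs
      obtain ⟨Q, hQ1, hQ2, hQ3⟩ := ih i' (by omega) (by omega) s hsC hsX hsd
        (by rw [hρs]; exact hs') (by rw [hρs]; exact hsm)
      refine ⟨Q, hQ1, hQ2, fun f hff => ?_⟩
      obtain ⟨R1, hR1, -, hR3, hR4, hR5⟩ := hQ3 f hff
      have hvs : v ≠ s := by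
        rintro rfl
        exact hvm i' (by omega) hs'
      have hv1 : R1.neighborSet v = R.neighborSet v := by
        by_contra hc
        rcases (hR5 v hc).1 with h2 | ⟨i, hi, h2⟩
        · exact hvs h2
        · rw [hρ] at h2
          exact hvm i (by omega) h2
      have ht1 : R1.neighborSet t = R.neighborSet t := by
        by_contra hc
        rcases (hR5 t hc).1 with h2 | ⟨i, hi, h2⟩
        · exact hts.ne h2
        · rw [hρt] at h2
          exact htm i (by omega) h2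
      obtain ⟨R', hR', hR'1, hR'2, hR'3, -⟩ := op1 h.le hf hR1 htC ((adj_congr ht1 s).2 hts)
        hvt.symm (fun hh => hnvt ((adj_congr ht1 v).1 hh).symm) (by rw [dg_congr hv1]; omega)
        (hR3 hρs)
      refine ⟨R', hR', fun hh => ?_, fun _ => ?_, fun x hx => ?_, fun y hy => ?_⟩
      · rw [hρ] at hh
        exact absurd hh (by decide)
      · rw [dg_congr hv1] at hR'2
        omega
      · have hfx : f x ∈ X := h.Xc x (hQ2 x hx).1 (f x) (hff x hx)
        rw [dg_congr (hR'3 (f x) (fun hh => htX (hh ▸ hfx)) (fun hh => hsX (hh ▸ hfx))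
          (fun hh => hvX (hh ▸ hfx)))]
        exact hR4 x hx
      · by_cases hyv : y = v
        · subst hyv
          exact ⟨Or.inl rfl, fun hyX => absurd hyX hvX⟩
        by_cases hys : y = s
        · subst hys
          exact ⟨Or.inr ⟨i', by omega, by rw [hρs]; exact hs'⟩, fun hyX => absurd hyX hsX⟩
        by_cases hyt : y = t
        · subst hyt
          exact ⟨Or.inr ⟨j', by omega, by rw [hρt]; exact ht'⟩, fun hyX => absurd hyX htX⟩
        rw [hR'3 y hyt hys hyv] at hy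
        obtain ⟨h2, h3⟩ := hR5 y hy
        refine ⟨Or.inr ?_, h3⟩
        rcases h2 with h2 | ⟨i, hi, h2⟩
        · exact absurd h2 hys
        · exact ⟨i, by omega, h2⟩

end PART_

open PART_ in
theorem allPART : tPART.{u} := by
  intro V G Δ l r C px lr l1 r1 R X hle hdg hXr hXc hXw b hbX hbC hbΔ hbT
  classical
  have hex : ∃ n, ∃ x ∈ X, x ∈ C ∧ dg G x = Δ ∧ x ∈ TS G R Δ l r X n false := by
    obtain ⟨n, hn⟩ := hbT
    exact ⟨n, b, hbX, hbC, hbΔ, hn⟩
  obtain ⟨k, ⟨p, hpX, hpC, hpΔ, hpT⟩, hkm⟩ :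
      ∃ k, (∃ x ∈ X, x ∈ C ∧ dg G x = Δ ∧ x ∈ TS G R Δ l r X k false) ∧
        ∀ j < k, ¬ ∃ x ∈ X, x ∈ C ∧ dg G x = Δ ∧ x ∈ TS G R Δ l r X j false :=
    ⟨Nat.find hex, Nat.find_spec hex, fun j hj => Nat.find_min hex hj⟩
  obtain ⟨χ, hχ⟩ := px.bip
  have h : Hy G R Δ l r k C X (fun y => χ y != χ p) :=
    { px := px, lr := lr, r1 := r1, le := hle, dg := hdg, Xr := hXr, Xc := hXc, Xw := hXw
      ad := by
        intro x y hxy
        have := hχ x y hxy
        revert this
        cases χ x <;> cases χ y <;> cases χ p <;> decide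
      km := fun x hx hxC hxd j hj hT => hkm j hj ⟨x, hx, hxC, hxd, hT⟩ }
  have hρp : (fun y => χ y != χ p) p = false := by simp
  generalize hρ : (fun y => χ y != χ p) = ρ at h hρp
  clear hρ hχ
  have hfp := h.full hpC hpΔ
  rcases ts_false hpT with h1 | ⟨j, hj, t, ht, hpt, hnpt⟩
  · omega
  have htd : dg G t < Δ := by
    rcases px.ind p t hpt with h2 | h2
    · omega
    · exact h2
  have htC : t ∈ C := px.cl p hpC t hpt
  have htX : t ∉ X := h.notX (by omega) htC htd ht
  have hρt : ρ t = true := by rw [h.ad p t hpt, hρp]; rfl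
  obtain ⟨j', hj', ht', htm⟩ := ts_min ht
  obtain ⟨Q, hQ1, hQ2, hQ3⟩ := claim h j' (by omega) t htC htX htd
    (by rw [hρt]; exact ht') (by rw [hρt]; exact htm)
  obtain ⟨q, hqX, hqC, hqQ, hQq⟩ : ∃ q ∈ X, q ∈ C ∧ (q = p ∨ q ∈ Q) ∧ ∀ x ∈ Q, x = q := by
    rcases Q.eq_empty_or_nonempty with hQ | ⟨q, hq⟩
    · subst hQ
      exact ⟨p, hpX, hpC, Or.inl rfl, fun x hx => absurd hx (notMem_empty x)⟩
    · exact ⟨q, (hQ2 q hq).1, (hQ2 q hq).2.1, Or.inr hq, fun x hx => hQ1 hx hq⟩
  refine ⟨p, hpX, q, hqX, hpC, hqC, fun f hfp' hfq' => ?_⟩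
  have hff : ∀ x ∈ Q, R.Adj x (f x) := fun x hx => by rw [hQq x hx]; exact hfq'
  obtain ⟨R1, hR1, hR2, -, hR4, hR5⟩ := hQ3 f hff
  have hρfp : ρ (f p) = true := by rw [h.ad p (f p) (hle hfp'), hρp]; rfl
  have hfpX : f p ∈ X := hXc p hpX (f p) hfp'
  have hfpd : dg G (f p) < Δ := by
    rcases px.ind p (f p) (hle hfp') with h2 | h2
    · omega
    · exact h2
  have hp1 : R1.neighborSet p = R.neighborSet p := by
    by_contra hc
    rcases (hR5 p hc).1 with h2 | ⟨i, hi, h2⟩
    · exact hpt.ne h2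
    · rw [hρp] at h2
      exact h.km p hpX hpC hpΔ i (by omega) h2
  have hfp1 : R1.neighborSet (f p) = R.neighborSet (f p) := by
    by_contra hc
    rcases (hR5 (f p) hc).2 hfpX with h2 | ⟨x, hx, h2⟩
    · have := (hQ2 _ h2).2.2.1
      omega
    · have h3 := h.ad x (f x) (hle (hff x hx))
      rw [← h2, hρfp, (hQ2 x hx).2.2.2] at h3
      exact absurd h3 (by decide)
  have hfpr := hXr (f p) hfpX
  obtain ⟨R', hR', hR'1, -, hR'3, hR'4⟩ := op1 hle px.fin hR1 hpC ((adj_congr hp1 (f p)).2 hfp')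
    hpt (fun hh => hnpt ((adj_congr hp1 t).1 hh)) (hR2 hρt) (by rw [dg_congr hfp1]; omega)
  rw [dg_congr hfp1] at hR'1
  have hRfp : dg R' (f p) < r := by omega
  refine ⟨R', hR', hRfp, ?_, ?_⟩
  · rcases hqQ with rfl | hqQ
    · exact hRfp
    · have hfqX : f q ∈ X := hXc q hqX (f q) hfq'
      have hρfq : ρ (f q) = false := by
        rw [h.ad q (f q) (hle hfq'), (hQ2 q hqQ).2.2.2]; rfl
      have h2 : f q ≠ p := by
        intro hh
        rcases px.ind q (f q) (hle hfq') with h3 | h3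
        · have := (hQ2 q hqQ).2.2.1
          omega
        · rw [hh] at h3
          omega
      have h3 : f q ≠ f p := by
        intro hh
        rw [hh, hρfp] at hρfq
        exact absurd hρfq (by decide)
      have h4 : f q ≠ t := fun hh => htX (hh ▸ hfqX)
      rw [dg_congr (hR'3 (f q) h2 h3 h4)]
      exact hR4 q hqQ
  · intro x y hx hy hxp hxq hyp hyq hxy
    apply hR'4 x y hxp hyp
    by_cases hcx : R1.neighborSet x = R.neighborSet x
    · exact (adj_congr hcx y).2 hxy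
    by_cases hcy : R1.neighborSet y = R.neighborSet y
    · exact ((adj_congr hcy x).2 hxy.symm).symm
    exfalso
    have h1 : x = f q := by
      rcases (hR5 x hcx).2 hx with h2 | ⟨z, hz, h2⟩
      · exact absurd (hQq x h2) hxq
      · rw [h2, hQq z hz]
    have h2 : y = f q := by
      rcases (hR5 y hcy).2 hy with h2 | ⟨z, hz, h2⟩
      · exact absurd (hQq y h2) hyq
      · rw [h2, hQq z hz]
    exact hxy.ne (h1.trans h2.symm)

end Pool.Agent.MEO
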