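import Pool.Agent.MEO.Defs

set_option autoImplicit false

/-! MP_fff3e1_lc, invariant measures, no odd cycles, every `Δ`: exact targets.
Proofs: Blueprint.lean.txt. -/

namespace Pool.Agent.MEO

open MeasureTheory Set Filter
open scoped ENNReal
open Pool.Agent.MEC
open Pool.Agent.MEP

universe u

/-! ### A. General tools -/

/-- A1 a measurable listing of all edges by finitely many involutions -/
def tLAB : Prop := ∀ (V : Type u) [MeasurableSpace V] [StandardBorelSpace V]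
    (G : SimpleGraph V) (Δ : ℕ), MeasurableSet {p : V × V | G.Adj p.1 p.2} →
  (∀ x, (G.neighborSet x).encard ≤ Δ) → ∃ e : PCol G (2 * Δ), Lab e

/-- A2 mass transport -/
def tMTP : Prop := ∀ (V : Type u) [MeasurableSpace V] [StandardBorelSpace V]
    (G : SimpleGraph V) (m : ℕ) (e : PCol G m) (μ : Measure V) [IsFiniteMeasure μ],
  Inv G μ → ∀ K : Set (V × V), MeasurableSet K → (∀ p ∈ K, p.2 ∈ Cm e p.1) →
  Measurable (fun x => ({y | (x, y) ∈ K}.encard : ℝ≥0∞)) ∧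
  Measurable (fun y => ({x | (x, y) ∈ K}.encard : ℝ≥0∞)) ∧
  ∫⁻ x, ({y | (x, y) ∈ K}.encard : ℝ≥0∞) ∂μ = ∫⁻ y, ({x | (x, y) ∈ K}.encard : ℝ≥0∞) ∂μ

/-- A3 large sparse subsets -/
def tSPS : Prop := ∀ (V : Type u) [MeasurableSpace V] [StandardBorelSpace V]
    (μ : Measure V) [IsFiniteMeasure μ] (Θ : Finset (V ≃ᵐ V)) (Z : Set V),
  (∀ θ ∈ Θ, MeasurePreserving θ μ μ) → MeasurableSet Z → ∃ J ⊆ Z, MeasurableSet J ∧
    (∀ θ ∈ Θ, ∀ x ∈ J, ∀ y ∈ J, θ x = y → x = y) ∧ μ.real Z ≤ (2 * Θ.card + 1) * μ.real J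

/-- A4 coded finite modifications -/
def tCOD : Prop := ∀ (V : Type u) [MeasurableSpace V] [StandardBorelSpace V]
    (G : SimpleGraph V) (m l : ℕ) (e : PCol G m) (c : PCol G l) (μ : Measure V)
    [IsFiniteMeasure μ], Lab e → Inv G μ →
  (∀ z : Cd m l, MeasurableSet (Vld e c z)) ∧
  (∀ (b : V) (cb : PC G l), FM (toPC c) cb (Cm e b) → ∀ W0 : Finset (List (Fin m)),
    ∃ z : Cd m l, W0 ⊆ z.1 ∧ b ∈ Vld e c z ∧ ∀ k x, (cbf e c z b).S k x = cb.S k x) ∧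
  (∀ (z : Cd m l) (k : Fin l) (w : List (Fin m)),
    Measurable fun b => (cbf e c z b).S k (wd e w b)) ∧
  (∀ (z : Cd m l) (b x : V) (k : Fin l), (cbf e c z b).S k x ≠ c.S k x → x ∈ Rg e z b) ∧
  (∀ z : Cd m l, ∃ Θ : Finset (V ≃ᵐ V), (∀ θ ∈ Θ, MeasurePreserving θ μ μ) ∧
    ∀ J : Set V, MeasurableSet J → J ⊆ Vld e c z →
      (∀ θ ∈ Θ, ∀ x ∈ J, ∀ y ∈ J, θ x = y → x = y) →
      (∀ b ∈ J, ∀ b' ∈ J, ∀ x, x ∈ Rg e z b → x ∈ Rg e z b' → b = b') ∧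
      ∃ c' : PCol G l, (∀ b ∈ J, ∀ x ∈ Rg e z b, ∀ k, c'.S k x = (cbf e c z b).S k x) ∧
        ∀ x, (∀ b ∈ J, x ∉ Rg e z b) → ∀ k, c'.S k x = c.S k x)

/-- A5 abstract: an upper semicontinuous function on a complete space has a point at which it is
lower semicontinuous -/
def tBAI : Prop := ∀ (X : Type u) (d : X → X → ℝ), (∀ x y, 0 ≤ d x y) → (∀ x, d x x = 0) →
  (∀ x y, d x y = d y x) → (∀ x y z, d x z ≤ d x y + d y z) →
  (∀ c : ℕ → X, Summable (fun n => d (c n) (c (n + 1))) →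
    ∃ t, ∀ n, d (c n) t ≤ ∑' m, d (c (n + m)) (c (n + m + 1))) →
  ∀ (Ψ : X → ℝ), (∀ x, 0 ≤ Ψ x) →
  (∀ x, ∀ ε : ℝ, 0 < ε → ∃ δ : ℝ, 0 < δ ∧ ∀ y, d x y < δ → Ψ y < Ψ x + ε) →
  ∀ _x0 : X, ∃ x, ∀ ε : ℝ, 0 < ε → ∃ δ : ℝ, 0 < δ ∧ ∀ y, d x y < δ → Ψ x < Ψ y + ε

/-- A6 abstract: ordering principle (Brezis, Browder) -/
def tBB : Prop := ∀ (X : Type u) (le : X → X → Prop) (J : X → ℝ) (B : ℝ), (∀ x, le x x) →
  (∀ x y z, le x y → le y z → le x z) → (∀ x y, le x y → J x ≤ J y) → (∀ x, J x ≤ B) →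
  (∀ c : ℕ → X, (∀ n, le (c n) (c (n + 1))) → ∃ t, ∀ n, le (c n) t) →
  ∀ x0, ∃ x, le x0 x ∧ ∀ y, le x y → J y = J x

/-- A7 infinite strands with an end are null -/
def tONE : Prop := ∀ (V : Type u) [MeasurableSpace V] [StandardBorelSpace V] (μ : Measure V)
    [IsFiniteMeasure μ] (s t : V → V), (∀ x, s (s x) = x) → (∀ x, t (t x) = x) →
  MeasurePreserving s μ μ → MeasurePreserving t μ μ →
  ∀ᵐ x ∂μ, (∀ N, NS s t N x) → (∀ p, 1 ≤ p → al s t (2 * p) x ≠ x) → x ∈ Bad s t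

/-- A8 measurability of the sets which occur -/
def tMES : Prop := ∀ (V : Type u) [MeasurableSpace V] [StandardBorelSpace V]
    (G : SimpleGraph V) (m l : ℕ) (e : PCol G m) (c : PCol G l), Lab e →
  MeasurableSet {p : V × V | G.Adj p.1 p.2} ∧
  (∀ R : SimpleGraph V, R ≤ G → MeasurableSet {p : V × V | R.Adj p.1 p.2} →
    (∀ j, MeasurableSet {x | dg R x = j}) ∧ MeasurableSet {p : V × V | R.Reachable p.1 p.2} ∧
    (∀ r, MeasurableSet (XX R r))) ∧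
  MeasurableSet {p : V × V | (RG (toPC c)).Adj p.1 p.2} ∧
  (∀ r, MeasurableSet {p : V × (Fin l → V) | QR G r p.1 p.2}) ∧
  (∀ s t : V → V, Measurable s → Measurable t → MeasurableSet (Bad s t))

/-- A9 the states form a complete space -/
def tCMP : Prop := ∀ (V : Type u) [MeasurableSpace V] [StandardBorelSpace V]
    (G : SimpleGraph V) (l : ℕ) (μ : Measure V) [IsFiniteMeasure μ]
    (Q : V → (Fin l → V) → Prop) (c : ℕ → PCol G l),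
  (∀ n, ∀ᵐ x ∂μ, Q x fun k => (c n).S k x) →
  Summable (fun n => PCol.dst μ (c n) (c (n + 1))) →
  ∃ t : PCol G l, (∀ᵐ x ∂μ, Q x fun k => t.S k x) ∧
    ∀ n, PCol.dst μ (c n) t ≤ ∑' m, PCol.dst μ (c (n + m)) (c (n + m + 1))

/-! ### B. Generic states -/

/-- B1 bad strands depend on the state in an upper semicontinuous way -/
def tUST : Prop := ∀ (V : Type u) [MeasurableSpace V] [StandardBorelSpace V]
    (G : SimpleGraph V) (l : ℕ) (μ : Measure V) [IsFiniteMeasure μ], Inv G μ →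
  ∀ (g h : Fin l) (c : PCol G l) (ε : ℝ), 0 < ε → ∃ δ : ℝ, 0 < δ ∧ ∀ c' : PCol G l,
    PCol.dst μ c c' < δ → μ.real (Bad (c'.S g) (c'.S h) \ Bad (c.S g) (c.S h)) < ε

/-- B2 bad components depend on the state in an upper semicontinuous way -/
def tUXX : Prop := ∀ (V : Type u) [MeasurableSpace V] [StandardBorelSpace V]
    (G : SimpleGraph V) (m l : ℕ) (e : PCol G m) (μ : Measure V) [IsFiniteMeasure μ],
  Lab e → Inv G μ → ∀ (r : ℕ) (c : PCol G l) (ε : ℝ), 0 < ε → ∃ δ : ℝ, 0 < δ ∧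
  ∀ c' : PCol G l, PCol.dst μ c c' < δ →
    μ.real (XX (RG (toPC c')) r \ XX (RG (toPC c)) r) < ε

/-- B3 generic states exist -/
def tGEN : Prop := ∀ (V : Type u) [MeasurableSpace V] [StandardBorelSpace V]
    (G : SimpleGraph V) (m l : ℕ) (e : PCol G m) (μ : Measure V) [IsFiniteMeasure μ],
  Lab e → Inv G μ → ∀ (Q : V → (Fin l → V) → Prop) (r : ℕ),
  (∃ c : PCol G l, ∀ᵐ x ∂μ, Q x fun k => c.S k x) → ∃ c : PCol G l, Gnc μ Q r c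

/-- B4 at a generic state, no finite modification gives an infinite strand an end -/
def tTAIL : Prop := ∀ (V : Type u) [MeasurableSpace V] [StandardBorelSpace V]
    (G : SimpleGraph V) (m l : ℕ) (e : PCol G m) (μ : Measure V) [IsFiniteMeasure μ],
  Lab e → Inv G μ → ∀ (Q : V → (Fin l → V) → Prop) (r : ℕ) (c : PCol G l),
  MeasurableSet {p : V × (Fin l → V) | Q p.1 p.2} → Gnc μ Q r c →
  ∀ᵐ b ∂μ, ∀ cb : PC G l, FM (toPC c) cb (Cm e b) → Sat Q cb (Cm e b) → SK cb (Cm e b)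

/-- B5 vanishing sets of places meeting every component -/
def tVAN : Prop := ∀ (V : Type u) [MeasurableSpace V] [StandardBorelSpace V]
    (G : SimpleGraph V) (m : ℕ) (e : PCol G m) (μ : Measure V) [IsFiniteMeasure μ],
  Lab e → Inv G μ → ∀ R : SimpleGraph V, R ≤ G → MeasurableSet {p : V × V | R.Adj p.1 p.2} →
  ∀ Z : Set V, MeasurableSet Z → (∀ x ∈ Z, {y | R.Reachable x y}.Infinite) →
  ∀ ε : ℝ, 0 < ε → ∃ J ⊆ Z, MeasurableSet J ∧ μ.real J < ε ∧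
    ∀ x ∈ Z, ∃ y ∈ J, R.Reachable x y

/-- B6 at a generic state there is no place at which every option is available -/
def tSERVE : Prop := ∀ (V : Type u) [MeasurableSpace V] [StandardBorelSpace V]
    (G : SimpleGraph V) (m l : ℕ) (e : PCol G m) (μ : Measure V) [IsFiniteMeasure μ],
  Lab e → Inv G μ → ∀ (r : ℕ) (c : PCol G l), Gnc μ (QR G r) r c →
  ∀ᵐ p ∂μ, p ∈ XX (RG (toPC c)) r → ¬ ∃ q ∈ XX (RG (toPC c)) r, q ∈ Cm e p ∧ ∀ κ : Fin m,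
    ∃ cb : PC G l, FM (toPC c) cb (Cm e p) ∧ Sat (QR G r) cb (Cm e p) ∧
      Opt e (toPC c) r (XX (RG (toPC c)) r) p q κ cb

/-! ### C. Cleaning (pointwise part and counting) -/

/-- C1 one exchange can be carried out by Kempe switches -/
def tOPS : Prop := ∀ (V : Type u) (G : SimpleGraph V) (Δ l r : ℕ) (C : Set V), PX G Δ C →
  ∀ c : PC G l, Sat (QR G r) c C → SK c C → ∀ R', Stp G l r C (RG c) R' →
  ∃ cb : PC G l, FM c cb C ∧ Sat (QR G r) cb C ∧ RG cb = R'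

/-- C2 sequences of exchanges can be carried out -/
def tREAL : Prop := ∀ (V : Type u) (G : SimpleGraph V) (Δ l r : ℕ) (C : Set V), PX G Δ C →
  ∀ c : PC G l, Sat (QR G r) c C →
  (∀ cb : PC G l, FM c cb C → Sat (QR G r) cb C → SK cb C) →
  ∀ R', Relation.ReflTransGen (Stp G l r C) (RG c) R' →
  ∃ cb : PC G l, FM c cb C ∧ Sat (QR G r) cb C ∧ RG cb = R'

/-- C3 the exchanges for all options at a place (no colours) -/
def tPART : Prop := ∀ (V : Type u) (G : SimpleGraph V) (Δ l r : ℕ) (C : Set V), PX G Δ C →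
  l + r = Δ → 1 ≤ l → 1 ≤ r → ∀ (R : SimpleGraph V) (X : Set V), R ≤ G →
  (∀ x ∈ C, dg R x ≤ r ∧ dg G x ≤ dg R x + l) → (∀ x ∈ X, dg R x = r) →
  (∀ x ∈ X, ∀ y, R.Adj x y → y ∈ X) →
  (∀ x ∈ X, ∀ y ∈ X, x ∈ C → R.Adj x y → dg G x = Δ ∨ dg G y = Δ) →
  ∀ b ∈ X, b ∈ C → dg G b = Δ → (∃ n, b ∈ TS G R Δ l r X n false) →
  ∃ p ∈ X, ∃ q ∈ X, p ∈ C ∧ q ∈ C ∧ ∀ f : V → V, R.Adj p (f p) → R.Adj q (f q) →
    ∃ R', Relation.ReflTransGen (Stp G l r C) R R' ∧ dg R' (f p) < r ∧ dg R' (f q) < r ∧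
      ∀ x y, x ∈ X → y ∈ X → x ≠ p → x ≠ q → y ≠ p → y ≠ q → R.Adj x y → R'.Adj x y

/-- C4 the closure count -/
def tCNT : Prop := ∀ (V : Type u) [MeasurableSpace V] [StandardBorelSpace V]
    (G : SimpleGraph V) (m : ℕ) (e : PCol G m) (μ : Measure V) [IsFiniteMeasure μ] (Δ l r : ℕ),
  Lab e → Inv G μ → PX G Δ univ → l + r = Δ → 1 ≤ l → 1 ≤ r →
  ∀ (R : SimpleGraph V) (X : Set V), R ≤ G → MeasurableSet {p : V × V | R.Adj p.1 p.2} →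
  MeasurableSet X → (∀ᵐ x ∂μ, dg R x ≤ r ∧ dg G x ≤ dg R x + l) → (∀ x ∈ X, dg R x = r) →
  (∀ x ∈ X, ∀ y, R.Adj x y → y ∈ X) →
  ∀ᵐ b ∂μ, b ∈ X → dg G b = Δ → ∃ n, b ∈ TS G R Δ l r X n false

/-- C5 clean states exist -/
def tCLEAN : Prop := ∀ (V : Type u) [MeasurableSpace V] [StandardBorelSpace V]
    (G : SimpleGraph V) (m : ℕ) (e : PCol G m) (μ : Measure V) [IsFiniteMeasure μ] (Δ l r : ℕ),
  Lab e → Inv G μ → PX G Δ univ → l + r = Δ → 1 ≤ l → 1 ≤ r →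
  (∃ c : PCol G l, ∀ᵐ x ∂μ, dg (RG (toPC c)) x ≤ r) →
  ∃ c : PCol G l, (∀ᵐ x ∂μ, dg (RG (toPC c)) x ≤ r) ∧ μ (XX (RG (toPC c)) r) = 0

/-! ### D. Matchings in the double cover -/

/-- D1 augmentation along a shortest alternating path (pointwise) -/
def tAUG : Prop := ∀ (U : Type u) (K : SimpleGraph U) (L : Set U) (s : U → U),
  (∀ x y, K.Adj x y → (x ∈ L ↔ y ∉ L)) → (∀ x, s (s x) = x) →
  (∀ x, s x ≠ x → K.Adj x (s x)) → ∀ x0 ∈ L, ∀ n, (∃ y, K.Adj x0 y ∧ y ∈ EL K L s n) →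
  (∀ y, K.Adj x0 y → ∀ j < n, y ∉ EL K L s j) →
  ∃ s' : U → U, (∀ x, s' (s' x) = x) ∧ (∀ x, s' x ≠ x → K.Adj x (s' x)) ∧
    {x | s' x ≠ s x}.Finite ∧ (∀ x, s' x ≠ s x → K.Reachable x0 x) ∧ s' x0 ≠ x0 ∧
    (∀ x ∈ L, s x ≠ x → s' x ≠ x) ∧ (∀ x ∈ L, s' x ≠ x → s x ≠ x ∨ x = x0) ∧
    (s x0 ≠ x0 → s' (s x0) = s x0) ∧ (∀ y, y ≠ s x0 → HK K L s s' y) ∧
    (∀ p, s' p ≠ s p → p ≠ x0 → p ≠ s x0 → (p ∉ L → ∃ j ≤ n, p ∈ EL K L s j) ∧
      (p ∈ L → ∃ j < n, ∃ y, K.Adj p y ∧ y ∈ EL K L s j))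

/-- D2 the levels do not decrease (pointwise, on a closed set `C`) -/
def tMON : Prop := ∀ (U : Type u) (K : SimpleGraph U) (L : Set U) (s s' : U → U) (C : Set U),
  (∀ x y, K.Adj x y → (x ∈ L ↔ y ∉ L)) → (∀ x ∈ C, ∀ y, K.Adj x y → y ∈ C) →
  (∀ x, s (s x) = x) → (∀ x, s x ≠ x → K.Adj x (s x)) → (∀ x, s' (s' x) = x) →
  (∀ x, s' x ≠ x → K.Adj x (s' x)) → (∀ y ∈ C, HK K L s s' y) → ∀ y ∈ C,
  (∀ j, y ∈ EL K L s' j → y ∈ EL K L s j) ∧ (y ∉ L → s' y ≠ s y →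
    (∃ j, y ∈ EL K L s j) ∧ ∀ j, y ∈ EL K L s' j → ∃ i < j, y ∈ EL K L s i)

/-- D3 the count for a sequence of matchings with increasing levels -/
def tHKC : Prop := ∀ (U : Type u) [MeasurableSpace U] [StandardBorelSpace U]
    (K : SimpleGraph U) (m r : ℕ) (e : PCol K m) (ν : Measure U) [IsFiniteMeasure ν]
    (L : Set U), BK K e ν L r → ∀ M : ℕ → PCol K 1,
  (∀ n, ∀ᵐ y ∂ν, ∀ j, y ∈ EL K L ((M (n + 1)).S 0) j → y ∈ EL K L ((M n).S 0) j) →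
  (∀ᵐ y ∂ν, y ∉ L → (∀ j, ∃ n, y ∉ EL K L ((M n).S 0) j) → dg K y = r ∧
    ∀ x, K.Adj y x → ∀ y', K.Adj x y' → ∀ j, ∃ n, y' ∉ EL K L ((M n).S 0) j)

/-- D4 an uncovered vertex can be covered by an augmentation -/
def tUNC : Prop := ∀ (U : Type u) [MeasurableSpace U] [StandardBorelSpace U]
    (K : SimpleGraph U) (m r : ℕ) (e : PCol K m) (ν : Measure U) [IsFiniteMeasure ν]
    (L : Set U), BK K e ν L r → ∀ M : PCol K 1,
  ∀ᵐ x ∂ν, x ∈ L → M.S 0 x = x → ∃ y, K.Adj x y ∧ ∃ j, y ∈ EL K L (M.S 0) j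

/-- D5 increasing sequences of matchings have an upper bound -/
def tLIM : Prop := ∀ (U : Type u) [MeasurableSpace U] [StandardBorelSpace U]
    (K : SimpleGraph U) (m r : ℕ) (e : PCol K m) (ν : Measure U) [IsFiniteMeasure ν]
    (L : Set U), BK K e ν L r →
  (∀ᵐ x ∂ν, x ∈ L → {y | K.Reachable x y}.Finite ∨
    ∃ y, y ∉ L ∧ K.Reachable x y ∧ dg K y < r) →
  ∀ M : ℕ → PCol K 1, (∀ n, LeM ν L (M n) (M (n + 1))) → ∃ T, ∀ n, LeM ν L (M n) T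

/-- D6 a matching covering `L` -/
def tHKM : Prop := ∀ (U : Type u) [MeasurableSpace U] [StandardBorelSpace U]
    (K : SimpleGraph U) (m r : ℕ) (e : PCol K m) (ν : Measure U) [IsFiniteMeasure ν]
    (L : Set U), BK K e ν L r →
  (∀ᵐ x ∂ν, x ∈ L → {y | K.Reachable x y}.Finite ∨
    ∃ y, y ∉ L ∧ K.Reachable x y ∧ dg K y < r) →
  ∃ M : PCol K 1, ∀ᵐ x ∂ν, x ∈ L → M.S 0 x ≠ x

/-- D7 the double cover satisfies the assumptions -/
def tDKP : Prop := ∀ (V : Type u) [MeasurableSpace V] [StandardBorelSpace V]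
    (G : SimpleGraph V) (m : ℕ) (e : PCol G m) (μ : Measure V) [IsFiniteMeasure μ] (r : ℕ),
  Lab e → Inv G μ → 1 ≤ r → ∀ R : SimpleGraph V, R ≤ G →
  MeasurableSet {p : V × V | R.Adj p.1 p.2} → (∀ᵐ x ∂μ, dg R x ≤ r) →
  (∃ eK : PCol (DK R {x | dg R x = r}) m,
    BK (DK R {x | dg R x = r}) eK (dbl μ) {p | p.2 = false ∧ dg R p.1 = r} r) ∧
  ∃ eP : PCol (DP R {x | dg R x = r}) (m + 1), Lab eP ∧
    Inv (DP R {x | dg R x = r}) (dbl μ)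

/-- D8 in clean graphs the double cover has vertices of degree less than `r` -/
def tBDY : Prop := ∀ (V : Type u) [MeasurableSpace V] [StandardBorelSpace V]
    (G : SimpleGraph V) (m : ℕ) (e : PCol G m) (μ : Measure V) [IsFiniteMeasure μ] (r : ℕ),
  Lab e → Inv G μ → 1 ≤ r → ∀ R : SimpleGraph V, R ≤ G → (∀ᵐ x ∂μ, dg R x ≤ r) →
  μ (XX R r) = 0 → ∀ᵐ x ∂μ, dg R x = r → {y | R.Reachable x y}.Finite ∨
    ∃ y, (DK R {x | dg R x = r}).Reachable (x, false) (y, true) ∧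
      dg (DK R {x | dg R x = r}) (y, true) < r

/-- D9 an injection with finite orbits -/
def tORB : Prop := ∀ (V : Type u) [MeasurableSpace V] [StandardBorelSpace V]
    (G : SimpleGraph V) (m : ℕ) (e : PCol G m) (μ : Measure V) [IsFiniteMeasure μ] (r : ℕ),
  Lab e → Inv G μ → 1 ≤ r → ∀ R : SimpleGraph V, R ≤ G →
  MeasurableSet {p : V × V | R.Adj p.1 p.2} → (∀ᵐ x ∂μ, dg R x ≤ r) → μ (XX R r) = 0 →
  ∃ f g : V → V, Measurable f ∧ Measurable g ∧ (∀ x, f x ≠ x → R.Adj x (f x) ∧ g (f x) = x) ∧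
    (∀ y, g y ≠ y → R.Adj (g y) y ∧ f (g y) = y) ∧ (∀ᵐ x ∂μ, dg R x = r → f x ≠ x) ∧
    ∀ᵐ x ∂μ, (∃ n, g (g^[n] x) = g^[n] x) ∨ ∃ p, 1 ≤ p ∧ g^[p] x = x

/-- D10 from the injection to a matching -/
def tMAT : Prop := ∀ (V : Type u) [MeasurableSpace V] [StandardBorelSpace V]
    (R : SimpleGraph V) (χ : V → Bool) (f g : V → V), (∀ x y, R.Adj x y → χ x ≠ χ y) →
  Measurable f → Measurable g → (∀ x, f x ≠ x → R.Adj x (f x) ∧ g (f x) = x) →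
  (∀ y, g y ≠ y → R.Adj (g y) y ∧ f (g y) = y) →
  ∃ T : V → V, Measurable T ∧ (∀ x, T (T x) = x) ∧ (∀ x, T x ≠ x → R.Adj x (T x)) ∧
    ∀ x, ((∃ n, g (g^[n] x) = g^[n] x) ∨ ∃ p, 1 ≤ p ∧ g^[p] x = x) → f x ≠ x → T x ≠ x

/-- D11 one more colour -/
def tCLIMB : Prop := ∀ (V : Type u) [MeasurableSpace V] [StandardBorelSpace V]
    (G : SimpleGraph V) (m : ℕ) (e : PCol G m) (μ : Measure V) [IsFiniteMeasure μ] (Δ l r : ℕ),
  Lab e → Inv G μ → PX G Δ univ → 1 ≤ r → ∀ c : PCol G l,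
  (∀ᵐ x ∂μ, dg (RG (toPC c)) x ≤ r) → μ (XX (RG (toPC c)) r) = 0 →
  ∃ c' : PCol G (l + 1), ∀ᵐ x ∂μ, dg (RG (toPC c')) x ≤ r - 1

/-! ### E. Assembly -/

/-- E1 no odd cycles => no odd closed walks => a (not necessarily measurable) 2-colouring -/
def tCYC : Prop := ∀ (V : Type u) (G : SimpleGraph V),
  (∀ (v : V) (p : G.Walk v v), p.IsCycle → Even p.length) →
  ∃ χ : V → Bool, ∀ x y, G.Adj x y → χ x ≠ χ y

/-- E2 the theorem -/
def tMAIN : Prop := ∀ (V : Type u) [MeasurableSpace V] [StandardBorelSpace V]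
    (G : SimpleGraph V) (Δ : ℕ) (μ : Measure V) [IsFiniteMeasure μ],
  MeasurableSet {p : V × V | G.Adj p.1 p.2} → (∀ x, (G.neighborSet x).encard ≤ Δ) →
  (∀ x y, G.Adj x y → (G.neighborSet x).encard < Δ ∨ (G.neighborSet y).encard < Δ) →
  (∃ χ : V → Bool, ∀ x y, G.Adj x y → χ x ≠ χ y) →
  (∀ f : V ≃ᵐ V, (∀ x, G.Reachable x (f x)) → MeasurePreserving f μ μ) →
  ∃ c : PCol G Δ, ∀ᵐ x ∂μ, ∀ y, G.Adj x y → ∃ k, c.S k x = y

end Pool.Agent.MEO
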