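import Pool.Agent.MEO.Base
import Pool.Agent.MEO.Targets

set_option autoImplicit false

/-! B6: at a generic state there is no place at which every option is available. -/

namespace Pool.Agent.MEO

open MeasureTheory Set Filter
open scoped ENNReal
open Pool.Agent.MEC
open Pool.Agent.MEP

universe u

namespace SERVE_

section plain

variable {V : Type u} {G : SimpleGraph V} {l : ℕ}

lemma PC_eq {c c' : PC G l} (h : ∀ k x, c.S k x = c'.S k x) : c = c' := by
  obtain ⟨S, h1, h2, h3⟩ := c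
  obtain ⟨S', h1', h2', h3'⟩ := c'
  have : S = S' := funext fun k => funext fun x => h k x
  subst this
  rfl

lemma XX_reach {R : SimpleGraph V} {r : ℕ} {x y : V} (hx : x ∈ XX R r)
    (h : R.Reachable x y) : y ∈ XX R r := by
  refine ⟨?_, fun z hz => hx.2 z (h.trans hz)⟩
  have h1 : {z | R.Reachable y z} = {z | R.Reachable x z} := by
    ext z
    exact ⟨fun hz => h.trans hz, fun hz => h.symm.trans hz⟩
  rw [h1]
  exact hx.1

/-- the first point of `P` on a walk -/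
lemma first_entry {R : SimpleGraph V} {P : Set V} {y y' : V} (p : R.Walk y y') (h : y ∉ P)
    (h' : y' ∈ P) : ∃ u x, Relation.ReflTransGen (fun a b => R.Adj a b ∧ a ∉ P ∧ b ∉ P) y u ∧
      R.Adj u x ∧ u ∉ P ∧ x ∈ P := by
  induction p with
  | nil => exact absurd h' h
  | @cons a b d hab p ih =>
    by_cases hb : b ∈ P
    · exact ⟨a, b, Relation.ReflTransGen.refl, hab, h, hb⟩
    · obtain ⟨u, x, h1, h2⟩ := ih hb h'
      exact ⟨u, x, Relation.ReflTransGen.head ⟨hab, h, hb⟩ h1, h2⟩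

/-- the words which have to be in the codes -/
def W0 {m : ℕ} (w : List (Fin m)) : Finset (List (Fin m)) :=
  (Finset.univ.image fun q : Fin m => [] ++ [q]) ∪
  (Finset.univ.image fun q : Fin m × Fin m => [] ++ [q.1, q.2]) ∪
  (Finset.univ.image fun q : Fin m => w ++ [q]) ∪
  (Finset.univ.image fun q : Fin m × Fin m => w ++ [q.1, q.2])

lemma mem_W0_one {m : ℕ} {w v : List (Fin m)} (hv : v = [] ∨ v = w) (k : Fin m) :
    v ++ [k] ∈ W0 w := by
  unfold W0
  simp only [Finset.mem_union, Finset.mem_image, Finset.mem_univ, true_and]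
  rcases hv with rfl | rfl
  · exact Or.inl (Or.inl (Or.inl ⟨k, rfl⟩))
  · exact Or.inl (Or.inr ⟨k, rfl⟩)

lemma mem_W0_two {m : ℕ} {w v : List (Fin m)} (hv : v = [] ∨ v = w) (k k' : Fin m) :
    v ++ [k, k'] ∈ W0 w := by
  unfold W0
  simp only [Finset.mem_union, Finset.mem_image, Finset.mem_univ, true_and]
  rcases hv with rfl | rfl
  · exact Or.inl (Or.inl (Or.inr ⟨(k, k'), rfl⟩))
  · exact Or.inr ⟨(k, k'), rfl⟩

end plain

section meas

variable {V : Type u} [MeasurableSpace V] {G : SimpleGraph V} {l m : ℕ} {e : PCol G m}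

/-- the conditions at a place with parameters `w, z` -/
def Pl (e : PCol G m) (c : PCol G l) (r : ℕ) (X : Set V) (w : List (Fin m))
    (z : Fin m → Cd m l) (p : V) : Prop :=
  p ∈ X ∧ wd e w p ∈ X ∧ ∀ κ, p ∈ Vld e c (z κ) ∧
    (∀ v : List (Fin m), QR G r (wd e v p) fun k => (cbf e c (z κ) p).S k (wd e v p)) ∧
    (∀ (v : List (Fin m)) (k : Fin m), wd e v p ∈ X → wd e (v ++ [k]) p ∈ X →
      wd e v p ≠ p → wd e v p ≠ wd e w p → wd e (v ++ [k]) p ≠ p →
      wd e (v ++ [k]) p ≠ wd e w p → (RG (toPC c)).Adj (wd e v p) (wd e (v ++ [k]) p) →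
      (RG (cbf e c (z κ) p)).Adj (wd e v p) (wd e (v ++ [k]) p)) ∧
    ∀ v : List (Fin m), (v = [] ∨ v = w) →
      (RG (toPC c)).Adj (wd e v p) (wd e (v ++ [κ]) p) →
      dg (RG (cbf e c (z κ) p)) (wd e (v ++ [κ]) p) < r ∨
      ∃ k : Fin m, (RG (cbf e c (z κ) p)).Adj (wd e (v ++ [κ]) p) (wd e (v ++ [κ, k]) p) ∧
        dg (RG (cbf e c (z κ) p)) (wd e (v ++ [κ, k]) p) < r

/-- the places at which all options are available -/
def Bd (e : PCol G m) (c : PCol G l) (r : ℕ) : Set V :=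
  {p | p ∈ XX (RG (toPC c)) r ∧ ∃ q ∈ XX (RG (toPC c)) r, q ∈ Cm e p ∧ ∀ κ : Fin m,
    ∃ cb : PC G l, FM (toPC c) cb (Cm e p) ∧ Sat (QR G r) cb (Cm e p) ∧
      Opt e (toPC c) r (XX (RG (toPC c)) r) p q κ cb}

variable [StandardBorelSpace V]

lemma meq {α : Type*} [MeasurableSpace α] {f g : α → V} (hf : Measurable f)
    (hg : Measurable g) : Measurable fun x => f x = g x :=
  measurableSet_setOfPred.1 (measurableSet_eq_fun hf hg)

lemma measurableSet_Pl (h_COD : tCOD.{u}) (h_MES : tMES.{u}) (e : PCol G m) (c : PCol G l)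
    (μ : Measure V) [IsFiniteMeasure μ] (hl : Lab e) (hinv : Inv G μ) (r : ℕ) (X : Set V)
    (hX : MeasurableSet X) (w : List (Fin m)) (z : Fin m → Cd m l) :
    MeasurableSet {p | Pl e c r X w z p} := by
  obtain ⟨hG, -, hRG, hQ, -⟩ := h_MES V G m l e c hl
  obtain ⟨hV, -, hS, -, -⟩ := h_COD V G m l e c μ hl hinv
  have hw : ∀ v, Measurable fun p => wd e v p := fun v => (wd e v).measurable
  have hX' : ∀ v, Measurable fun p => wd e v p ∈ X := fun v =>
    measurableSet_setOfPred.1 (hw v hX)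
  have hXp : Measurable fun p => p ∈ X := measurableSet_setOfPred.1 hX
  have hadj : ∀ v v', Measurable fun p => G.Adj (wd e v p) (wd e v' p) := fun v v' =>
    measurableSet_setOfPred.1 (((hw v).prodMk (hw v')) hG)
  have hR : ∀ v v', Measurable fun p => (RG (toPC c)).Adj (wd e v p) (wd e v' p) :=
    fun v v' => measurableSet_setOfPred.1 (((hw v).prodMk (hw v')) hRG)
  have hcb : ∀ κ v v', Measurable fun p =>
      (RG (cbf e c (z κ) p)).Adj (wd e v p) (wd e v' p) := by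
    intro κ v v'
    refine Measurable.and (hadj v v') ?_
    exact Measurable.forall fun k => (meq (hS (z κ) k v) (hw v')).not
  have hQR : ∀ κ v r', Measurable fun p =>
      QR G r' (wd e v p) fun k => (cbf e c (z κ) p).S k (wd e v p) := by
    intro κ v r'
    have h1 : Measurable fun p => (fun k => (cbf e c (z κ) p).S k (wd e v p) : Fin l → V) :=
      measurable_pi_iff.2 fun k => hS (z κ) k v
    exact measurableSet_setOfPred.1 (((hw v).prodMk h1) (hQ r'))
  have hdg : ∀ κ v, Measurable fun p => dg (RG (cbf e c (z κ) p)) (wd e v p) < r := by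
    intro κ v
    rcases Nat.eq_zero_or_pos r with h0 | h0
    · subst h0
      simp only [Nat.not_lt_zero]
      exact measurable_const
    · have h1 : (fun p => dg (RG (cbf e c (z κ) p)) (wd e v p) < r) = fun p =>
          QR G (r - 1) (wd e v p) fun k => (cbf e c (z κ) p).S k (wd e v p) := by
        funext p
        apply propext
        have h2 : dg (RG (cbf e c (z κ) p)) (wd e v p) ≤ r - 1 ↔
          QR G (r - 1) (wd e v p) fun k => (cbf e c (z κ) p).S k (wd e v p) := Iff.rfl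
        rw [← h2]
        omega
      rw [h1]
      exact hQR κ v (r - 1)
  refine measurableSet_setOfPred.2 ?_
  refine hXp.and ((hX' w).and (Measurable.forall fun κ => ?_))
  refine Measurable.and (measurableSet_setOfPred.1 (hV (z κ))) (Measurable.and
    (Measurable.forall fun v => hQR κ v r) (Measurable.and ?_ ?_))
  · refine Measurable.forall fun v => Measurable.forall fun k => ?_
    refine (hX' v).imp ((hX' _).imp ?_)
    refine (meq (hw v) measurable_id).not.imp ((meq (hw v) (hw w)).not.imp ?_)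
    refine (meq (hw _) measurable_id).not.imp ((meq (hw _) (hw w)).not.imp ?_)
    exact (hR v _).imp (hcb κ v _)
  · refine Measurable.forall fun v => ?_
    refine Measurable.imp measurable_const ((hR v _).imp ?_)
    refine (hdg κ _).or (Measurable.exists fun k => ?_)
    exact (hcb κ _ _).and (hdg κ _)

lemma Bd_subset (h_COD : tCOD.{u}) (e : PCol G m) (c : PCol G l)
    (μ : Measure V) [IsFiniteMeasure μ] (hl : Lab e) (hinv : Inv G μ) (r : ℕ) :
    Bd e c r ⊆ ⋃ q : List (Fin m) × (Fin m → Cd m l),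
      {p | Pl e c r (XX (RG (toPC c)) r) q.1 q.2 p ∧ ∀ κ, W0 q.1 ⊆ (q.2 κ).1} := by
  obtain ⟨-, hC, -, -, -⟩ := h_COD V G m l e c μ hl hinv
  rintro p ⟨hp, q, hq, ⟨w, rfl⟩, hopt⟩
  have hz : ∀ κ : Fin m, ∃ z : Cd m l, W0 w ⊆ z.1 ∧ p ∈ Vld e c z ∧
      Sat (QR G r) (cbf e c z p) (Cm e p) ∧
      Opt e (toPC c) r (XX (RG (toPC c)) r) p (wd e w p) κ (cbf e c z p) := by
    intro κ
    obtain ⟨cb, h1, h2, h3⟩ := hopt κ
    obtain ⟨z, h4, h5, h6⟩ := hC p cb h1 (W0 w)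
    have h7 : cbf e c z p = cb := PC_eq h6
    exact ⟨z, h4, h5, by rw [h7]; exact h2, by rw [h7]; exact h3⟩
  choose z hz1 hz2 hz3 hz4 using hz
  refine mem_iUnion.2 ⟨(w, z), ⟨hp, hq, fun κ => ⟨hz2 κ, ?_, ?_, ?_⟩⟩, hz1⟩
  · intro v
    exact hz3 κ _ ⟨v, rfl⟩
  · intro v k h1 h2 h3 h4 h5 h6 h7
    exact (hz4 κ).keep _ _ h1 h2 h3 h4 h5 h6 h7
  · intro v hv h1
    have h2 : wd e v p = p ∨ wd e v p = wd e w p := by
      rcases hv with rfl | rfl
      · exact Or.inl rfl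
      · exact Or.inr rfl
    have h3 : wd e (v ++ [κ]) p = e.S κ (wd e v p) := wd_snoc e v κ p
    rw [h3] at h1
    obtain ⟨y, hy, hy'⟩ := (hz4 κ).room _ h2 h1
    rcases hy with rfl | hy
    · left
      rw [h3]
      exact hy'
    · right
      obtain ⟨k, rfl⟩ := hl _ _ hy.1
      have h4 : wd e (v ++ [κ, k]) p = e.S k (e.S κ (wd e v p)) := by
        rw [wd_append]
        rfl
      refine ⟨k, ?_, ?_⟩
      · rw [h3, h4]
        exact hy
      · rw [h4]
        exact hy'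

omit [StandardBorelSpace V] in
/-- the pointwise part of the main step -/
lemma serve_cover (hl : Lab e) (c : PCol G l) (r : ℕ) (w : List (Fin m))
    (z : Fin m → Cd m l) (hW : ∀ κ, W0 w ⊆ (z κ).1) (J : Set V)
    (hJ : ∀ b ∈ J, Pl e c r (XX (RG (toPC c)) r) w z b) (c' : Fin m → PCol G l)
    (hc1 : ∀ κ, ∀ b ∈ J, ∀ x ∈ Rg e (z κ) b, ∀ k, (c' κ).S k x = (cbf e c (z κ) b).S k x)
    (hc2 : ∀ κ, ∀ x, (∀ b ∈ J, x ∉ Rg e (z κ) b) → ∀ k, (c' κ).S k x = c.S k x) (y y' : V)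
    (hyX : y ∈ XX (RG (toPC c)) r) (hyP : y ∉ J ∪ wd e w '' J) (hy' : y' ∈ J)
    (hreach : (RG (toPC c)).Reachable y y') :
    ∃ κ, y ∉ XX (RG (toPC (c' κ))) r := by
  obtain ⟨walk⟩ := hreach
  obtain ⟨u, x, h1, h2, h3, h4⟩ := first_entry walk hyP (Or.inl hy')
  -- the place
  obtain ⟨p, v, hp, hv, hx⟩ : ∃ p v, p ∈ J ∧ (v = [] ∨ v = w) ∧ x = wd e v p := by
    rcases h4 with h4 | ⟨p, hp, rfl⟩
    · exact ⟨x, [], h4, Or.inl rfl, rfl⟩
    · exact ⟨p, w, hp, Or.inr rfl, rfl⟩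
  obtain ⟨κ, hκ⟩ := hl x u h2.symm.1
  have hu : u = wd e (v ++ [κ]) p := by rw [wd_snoc, ← hx, hκ]
  refine ⟨κ, fun hXX => ?_⟩
  -- the edges off `P` survive
  have hkeep : ∀ s t, (RG (toPC c)).Adj s t → s ∉ J ∪ wd e w '' J → t ∉ J ∪ wd e w '' J →
      s ∈ XX (RG (toPC c)) r → (RG (toPC (c' κ))).Adj s t := by
    intro s t hst hs ht hsX
    have htX : t ∈ XX (RG (toPC c)) r := XX_reach hsX hst.reachable
    by_cases hsR : ∃ b ∈ J, s ∈ Rg e (z κ) b
    · obtain ⟨b, hb, ⟨v', hv', rfl⟩⟩ := hsR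
      obtain ⟨k, hk⟩ := hl _ _ hst.1
      have ht' : wd e (v' ++ [k]) b = t := by rw [wd_snoc, hk]
      have hk1 := ((hJ b hb).2.2 κ).2.2.1 v' k hsX (by rw [ht']; exact htX)
        (fun h => hs (Or.inl (by rw [h]; exact hb)))
        (fun h => hs (Or.inr ⟨b, hb, h.symm⟩))
        (fun h => ht (Or.inl (by rw [← ht', h]; exact hb)))
        (fun h => ht (Or.inr ⟨b, hb, by rw [← ht', h]⟩)) (by rw [ht']; exact hst)
      rw [ht'] at hk1
      refine ⟨hst.1, fun k' hk' => hk1.2 k' ?_⟩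
      exact (hc1 κ b hb _ ⟨v', hv', rfl⟩ k').symm.trans hk'
    · have hsR' : ∀ b ∈ J, s ∉ Rg e (z κ) b := fun b hb h => hsR ⟨b, hb, h⟩
      refine ⟨hst.1, fun k' hk' => hst.2 k' ?_⟩
      exact (hc2 κ s hsR' k').symm.trans hk'
  have aux : ∀ s, Relation.ReflTransGen (fun a b => (RG (toPC c)).Adj a b ∧
      a ∉ J ∪ wd e w '' J ∧ b ∉ J ∪ wd e w '' J) y s →
      s ∈ XX (RG (toPC c)) r ∧ (RG (toPC (c' κ))).Reachable y s := by
    intro s hs
    induction hs with
    | refl => exact ⟨hyX, SimpleGraph.Reachable.rfl⟩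
    | tail _ hab ih =>
      exact ⟨XX_reach ih.1 hab.1.reachable,
        ih.2.trans (hkeep _ _ hab.1 hab.2.1 hab.2.2 ih.1).reachable⟩
  have h6 : (RG (toPC (c' κ))).Reachable y u := (aux u h1).2
  -- the stars of the points near the place
  have hstar : ∀ v' ∈ W0 w, ∀ k, (toPC (c' κ)).S k (wd e v' p) =
      (cbf e c (z κ) p).S k (wd e v' p) := fun v' hv' k =>
    hc1 κ p hp _ ⟨v', hW κ hv', rfl⟩ k
  have hroom := ((hJ p hp).2.2 κ).2.2.2 v hv (by
    rw [← hx, ← hu]; exact h2.symm)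
  rcases hroom with hroom | ⟨k, hroom1, hroom2⟩
  · have h7 := hXX.2 u h6
    have h8 := dg_RG_congr (hstar _ (mem_W0_one hv κ))
    rw [hu, h8] at h7
    omega
  · have h8 : (RG (toPC (c' κ))).Adj u (wd e (v ++ [κ, k]) p) := by
      rw [hu]
      exact (RG_congr (hstar _ (mem_W0_one hv κ)) _).2 hroom1
    have h7 := hXX.2 _ (h6.trans h8.reachable)
    have h9 := dg_RG_congr (hstar _ (mem_W0_two hv κ k))
    rw [h9] at h7
    omega

omit [StandardBorelSpace V] in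
/-- the distance of the glued state -/
lemma serve_dst (e : PCol G m) (μ : Measure V) [IsFiniteMeasure μ] (hinv : Inv G μ)
    (c c' : PCol G l) (W : Finset (List (Fin m))) (J : Set V)
    (h : ∀ x, (∀ b ∈ J, ¬ ∃ v ∈ W, wd e v b = x) → ∀ k, c'.S k x = c.S k x) (N : ℕ)
    (hN : l * W.card ≤ N) (δ : ℝ) (hJ : μ.real J < δ / (N + 1)) : PCol.dst μ c c' < δ := by
  have h1 : PCol.dst μ c c' ≤ l * μ.real {x | ∃ b ∈ J, ∃ v ∈ W, wd e v b = x} := by
    refine dst_le_of_agree fun x hx k => h x (fun b hb hxb => hx ?_) k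
    exact ⟨b, hb, hxb⟩
  have h2 := real_region_le hinv e W J
  have h3 : (l : ℝ) * μ.real {x | ∃ b ∈ J, ∃ v ∈ W, wd e v b = x} ≤
      l * (W.card * μ.real J) := mul_le_mul_of_nonneg_left h2 (by positivity)
  have h5 : (l : ℝ) * W.card ≤ N := by exact_mod_cast hN
  have h0 : 0 ≤ μ.real J := measureReal_nonneg
  have h6 : (l : ℝ) * (W.card * μ.real J) ≤ N * μ.real J := by
    rw [← mul_assoc]
    exact mul_le_mul_of_nonneg_right h5 h0
  have h8 : μ.real J * (N + 1 : ℝ) < δ := by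
    rwa [lt_div_iff₀ (by positivity)] at hJ
  nlinarith

/-- the final inequality -/
lemma arith (a p s J : ℝ) (m : ℕ) (h1 : a ≤ p + s) (h2 : p ≤ 2 * J) (h3 : J < a / 4)
    (h4 : s ≤ m * (a / (2 * (m + 1)))) (ha : 0 < a) : False := by
  have h5 : (m : ℝ) * (a / (2 * (m + 1))) ≤ a / 2 := by
    rw [mul_div_assoc', div_le_div_iff₀ (by positivity) (by positivity)]
    nlinarith
  linarith

/-- the main step -/
lemma piece_null (h_SPS : tSPS.{u}) (h_COD : tCOD.{u}) (h_VAN : tVAN.{u}) (h_MES : tMES.{u})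
    (e : PCol G m) (c : PCol G l) (μ : Measure V) [IsFiniteMeasure μ] (hl : Lab e)
    (hinv : Inv G μ) (r : ℕ) (hgen : Gnc μ (QR G r) r c) (w : List (Fin m))
    (z : Fin m → Cd m l) (hW : ∀ κ, W0 w ⊆ (z κ).1) :
    μ {p | Pl e c r (XX (RG (toPC c)) r) w z p} = 0 := by
  classical
  by_contra hμ
  obtain ⟨-, hRs, hRG, -, -⟩ := h_MES V G m l e c hl
  have hXm : MeasurableSet (XX (RG (toPC c)) r) := (hRs (RG (toPC c)) (RG_le _) hRG).2.2 r
  have mZ0 := measurableSet_Pl h_COD h_MES e c μ hl hinv r _ hXm w z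
  obtain ⟨-, -, -, -, hglue⟩ := h_COD V G m l e c μ hl hinv
  choose Θ hΘ1 hΘ2 using hglue
  -- a sparse set of places
  obtain ⟨Z1, hZ1, mZ1, hsp, hZ1m⟩ := h_SPS V μ (Finset.univ.biUnion fun κ => Θ (z κ)) _
    (by
      intro θ hθ
      obtain ⟨κ, -, hκ⟩ := Finset.mem_biUnion.1 hθ
      exact hΘ1 _ θ hκ) mZ0
  have hZ1P : ∀ b ∈ Z1, Pl e c r (XX (RG (toPC c)) r) w z b := fun b hb => hZ1 hb
  have hZ1pos : 0 < μ.real Z1 := by
    by_contra hcon
    have h0 : μ.real Z1 = 0 := le_antisymm (not_lt.1 hcon) measureReal_nonneg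
    rw [h0, mul_zero] at hZ1m
    exact absurd (ENNReal.toReal_pos hμ (measure_ne_top _ _)) (not_lt.2 hZ1m)
  -- constants
  obtain ⟨a, ha⟩ : ∃ a, a = μ.real Z1 := ⟨_, rfl⟩
  rw [← ha] at hZ1pos
  obtain ⟨δ, hδ, hxx⟩ := hgen.xx (a / (2 * (m + 1))) (by positivity)
  obtain ⟨N, hN⟩ : ∃ N : ℕ, ∀ κ, l * (z κ).1.card ≤ N := by
    refine ⟨l * ∑ κ, (z κ).1.card, fun κ => Nat.mul_le_mul_left l ?_⟩
    exact Finset.single_le_sum (f := fun κ => (z κ).1.card) (fun _ _ => Nat.zero_le _)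
      (Finset.mem_univ κ)
  -- a small set of places meeting every component
  have hpos : 0 < min (a / 4) (δ / (N + 1)) := lt_min (by positivity) (by positivity)
  obtain ⟨J, hJ, mJ, hJm, hJr⟩ := h_VAN V G m e μ hl hinv (RG (toPC c)) (RG_le _) hRG Z1 mZ1
    (fun x hx => (hZ1P x hx).1.1) _ hpos
  have hJa : μ.real J < a / 4 := hJm.trans_le (min_le_left _ _)
  have hJδ : μ.real J < δ / (N + 1) := hJm.trans_le (min_le_right _ _)
  -- the glued states
  have hc' : ∀ κ : Fin m, ∃ c' : PCol G l,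
      (∀ b ∈ J, ∀ x ∈ Rg e (z κ) b, ∀ k, c'.S k x = (cbf e c (z κ) b).S k x) ∧
      ∀ x, (∀ b ∈ J, x ∉ Rg e (z κ) b) → ∀ k, c'.S k x = c.S k x := by
    intro κ
    refine (hΘ2 (z κ) J mJ (fun x hx => ((hZ1P x (hJ hx)).2.2 κ).1) ?_).2
    intro θ hθ x hx y hy hxy
    exact hsp θ (Finset.mem_biUnion.2 ⟨κ, Finset.mem_univ _, hθ⟩) x (hJ hx) y (hJ hy) hxy
  choose c' hc1 hc2 using hc'
  have hsat : ∀ κ, ∀ᵐ x ∂μ, QR G r x fun k => (c' κ).S k x := by
    intro κ
    filter_upwards [hgen.sat] with x hx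
    by_cases hxR : ∃ b ∈ J, x ∈ Rg e (z κ) b
    · obtain ⟨b, hb, hxb⟩ := hxR
      have h1 : (fun k => (c' κ).S k x) = fun k => (cbf e c (z κ) b).S k x :=
        funext fun k => hc1 κ b hb x hxb k
      rw [h1]
      obtain ⟨v, -, rfl⟩ := hxb
      exact ((hZ1P b (hJ hb)).2.2 κ).2.1 v
    · have hxR' : ∀ b ∈ J, x ∉ Rg e (z κ) b := fun b hb h => hxR ⟨b, hb, h⟩
      have h1 : (fun k => (c' κ).S k x) = fun k => c.S k x := funext fun k => hc2 κ x hxR' k
      rw [h1]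
      exact hx
  have hsmall : ∀ κ, μ.real (XX (RG (toPC c)) r \ XX (RG (toPC (c' κ))) r) <
      a / (2 * (m + 1)) := fun κ => hxx (c' κ) (hsat κ)
    (serve_dst e μ hinv c (c' κ) (z κ).1 J (hc2 κ) N (hN κ) δ hJδ)
  have hcover : Z1 ⊆ (J ∪ wd e w '' J) ∪ ⋃ κ ∈ (Finset.univ : Finset (Fin m)),
      (XX (RG (toPC c)) r \ XX (RG (toPC (c' κ))) r) := by
    intro y hy
    by_cases hyP : y ∈ J ∪ wd e w '' J
    · exact Or.inl hyP
    · right
      obtain ⟨y', hy', hr⟩ := hJr y hy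
      obtain ⟨κ, hκ⟩ := serve_cover hl c r w z hW J (fun b hb => hZ1P b (hJ hb)) c' hc1 hc2
        y y' (hZ1P y hy).1 hyP hy' hr
      exact mem_biUnion (Finset.mem_univ κ) ⟨(hZ1P y hy).1, hκ⟩
  have hfin : μ.real Z1 ≤ μ.real (J ∪ wd e w '' J) +
      ∑ κ, μ.real (XX (RG (toPC c)) r \ XX (RG (toPC (c' κ))) r) := by
    refine (measureReal_mono hcover (measure_ne_top _ _)).trans ?_
    refine (measureReal_union_le _ _).trans ?_
    gcongr
    exact measureReal_biUnion_finset_le _ _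
  have hPm : μ.real (J ∪ wd e w '' J) ≤ 2 * μ.real J := by
    rw [two_mul]
    refine (measureReal_union_le _ _).trans ?_
    rw [real_image (wd e w) (mp_wd hinv e w) J]
  have hsum : ∑ κ, μ.real (XX (RG (toPC c)) r \ XX (RG (toPC (c' κ))) r) ≤
      m * (a / (2 * (m + 1))) := by
    refine (Finset.sum_le_sum fun κ _ => (hsmall κ).le).trans ?_
    rw [Finset.sum_const, Finset.card_univ, Fintype.card_fin, nsmul_eq_mul]
  rw [← ha] at hfin
  exact arith _ _ _ _ m hfin hPm hJa hsum hZ1pos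

end meas

end SERVE_

theorem allSERVE (h_SPS : tSPS.{u}) (h_COD : tCOD.{u}) (h_VAN : tVAN.{u})
    (h_MES : tMES.{u}) : tSERVE.{u} := by
  intro V _ _ G m l e μ _ hl hinv r c hgen
  have h1 : μ (SERVE_.Bd e c r) = 0 := by
    by_contra hμ
    obtain ⟨q, hq⟩ := exists_piece hμ (SERVE_.Bd_subset h_COD e c μ hl hinv r)
    by_cases hW : ∀ κ, SERVE_.W0 q.1 ⊆ (q.2 κ).1
    · apply hq
      refine measure_mono_null ?_ (SERVE_.piece_null h_SPS h_COD h_VAN h_MES e c μ hl hinv r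
        hgen q.1 q.2 hW)
      exact fun p hp => hp.2.1
    · apply hq
      refine measure_mono_null ?_ measure_empty
      exact fun p hp => absurd hp.2.2 hW
  filter_upwards [measure_eq_zero_iff_ae_notMem.1 h1] with p hp hpX
  rintro ⟨q, hq, hqC, hopt⟩
  exact hp ⟨hpX, q, hq, hqC, hopt⟩

end Pool.Agent.MEO
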