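import Pool.Agent.MEO.Targets
import Pool.Agent.MEP.GLUE

set_option autoImplicit false

/-! MP_fff3e1_lc: large sparse subsets. -/

namespace Pool.Agent.MEO

open Pool.Agent.MEC Pool.Agent.MEP MeasureTheory Set Filter
open scoped ENNReal

universe u

namespace SPS_

/-- sparse for the maps in `Θ` -/
def Sp {V : Type u} [MeasurableSpace V] (Θ : Finset (V ≃ᵐ V)) (J : Set V) : Prop :=
  ∀ θ ∈ Θ, ∀ x ∈ J, ∀ y ∈ J, θ x = y → x = y

end SPS_

open SPS_

theorem allSPS (h_BB : tBB.{u}) : tSPS.{u} := by
  intro V _ _ μ _ Θ Z hΘ hZ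
  classical
  -- the maximal sparse subset
  let X : Type u := {J : Set V // J ⊆ Z ∧ MeasurableSet J ∧ Sp Θ J}
  have hbb := h_BB X (fun a b => a.1 ⊆ b.1) (fun a => μ.real a.1) (μ.real univ)
    (fun a => Subset.rfl) (fun a b c hab hbc => hab.trans hbc)
    (fun a b hab => measureReal_mono hab) (fun a => measureReal_mono (subset_univ _)) ?_
    ⟨∅, empty_subset _, MeasurableSet.empty, fun θ _ x hx => absurd hx (by simp)⟩
  · obtain ⟨⟨J, hJZ, hJm, hJs⟩, -, hmax⟩ := hbb
    refine ⟨J, hJZ, hJm, hJs, ?_⟩
    set U : Set V := J ∪ ⋃ θ ∈ Θ, (θ ⁻¹' J ∪ θ '' J) with hU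
    have him : ∀ θ : V ≃ᵐ V, θ '' J = θ.symm ⁻¹' J := fun θ => θ.image_eq_preimage_symm J
    have hUm : MeasurableSet U := by
      refine hJm.union (MeasurableSet.biUnion (Finset.countable_toSet Θ) fun θ _ => ?_)
      rw [him]
      exact (θ.measurable hJm).union (θ.symm.measurable hJm)
    have hnull : μ (Z \ U) = 0 := by
      by_contra hpos
      obtain ⟨B, hB1, hB2, hB3, hB4⟩ := GLUE_.sparse μ (Finset.finite_toSet Θ) (Z \ U)
        (hZ.diff hUm) hpos
      have hs : Sp Θ (J ∪ B) := by
        rintro θ hθ x (hx | hx) y (hy | hy) hxy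
        · exact hJs θ hθ x hx y hy hxy
        · exfalso
          refine (hB1 hy).2 (Or.inr ?_)
          refine mem_biUnion (x := θ) hθ (Or.inr ⟨x, hx, hxy⟩)
        · exfalso
          refine (hB1 hx).2 (Or.inr ?_)
          refine mem_biUnion (x := θ) hθ (Or.inl ?_)
          change θ x ∈ J
          rw [hxy]
          exact hy
        · exact hB4 θ hθ x hx y hy hxy
      have h1 := hmax ⟨J ∪ B, union_subset hJZ (hB1.trans sdiff_subset), hJm.union hB2, hs⟩
        subset_union_left
      have hd : Disjoint J B := by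
        rw [Set.disjoint_left]
        intro x hx hxB
        exact (hB1 hxB).2 (Or.inl hx)
      have h2 : μ.real (J ∪ B) = μ.real J + μ.real B := measureReal_union hd hB2
      have h3 : 0 < μ.real B := by
        rw [measureReal_def]
        exact ENNReal.toReal_pos hB3 (measure_ne_top μ B)
      have h4 : μ.real (J ∪ B) = μ.real J := h1
      linarith
    have h1 : μ.real Z ≤ μ.real U := by
      have h2 : μ Z ≤ μ U := by
        calc μ Z ≤ μ (U ∪ (Z \ U)) := measure_mono (by
              intro x hx
              by_cases h : x ∈ U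
              · exact Or.inl h
              · exact Or.inr ⟨hx, h⟩)
          _ ≤ μ U + μ (Z \ U) := measure_union_le _ _
          _ = μ U := by rw [hnull, add_zero]
      exact ENNReal.toReal_mono (measure_ne_top μ U) h2
    have h2 : μ.real U ≤ μ.real J + ∑ θ ∈ Θ, (μ.real J + μ.real J) := by
      refine (measureReal_union_le _ _).trans (add_le_add le_rfl ?_)
      refine (measureReal_biUnion_finset_le Θ _).trans (Finset.sum_le_sum fun θ hθ => ?_)
      refine (measureReal_union_le _ _).trans (le_of_eq ?_)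
      have hp := hΘ θ hθ
      have e1 : μ.real (θ ⁻¹' J) = μ.real J := by
        rw [measureReal_def, hp.measure_preimage hJm.nullMeasurableSet, measureReal_def]
      have e2 : μ.real (θ '' J) = μ.real J := by
        have hp' : MeasurePreserving θ.symm μ μ := hp.symm θ
        rw [him, measureReal_def, hp'.measure_preimage hJm.nullMeasurableSet, measureReal_def]
      rw [e1, e2]
    refine (h1.trans h2).trans (le_of_eq ?_)
    rw [Finset.sum_const, nsmul_eq_mul]
    ring
  · -- chains have upper bounds
    intro c hc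
    have hmono : Monotone fun n => (c n).1 := monotone_nat_of_le_succ hc
    refine ⟨⟨⋃ n, (c n).1, iUnion_subset fun n => (c n).2.1,
      MeasurableSet.iUnion fun n => (c n).2.2.1, ?_⟩, fun n => subset_iUnion (fun n => (c n).1) n⟩
    intro θ hθ x hx y hy hxy
    obtain ⟨i, hi⟩ := mem_iUnion.1 hx
    obtain ⟨j, hj⟩ := mem_iUnion.1 hy
    exact (c (max i j)).2.2.2 θ hθ x (hmono (le_max_left i j) hi) y
      (hmono (le_max_right i j) hj) hxy

end Pool.Agent.MEO
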