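import Pool.Agent.MEO.Base
import Pool.Agent.MEO.Targets

set_option autoImplicit false
set_option linter.unusedSectionVars false

/-! At a generic state no finite modification gives an infinite strand an end. -/

namespace Pool.Agent.MEO

open MeasureTheory Set Filter
open scoped ENNReal
open Pool.Agent.MEC
open Pool.Agent.MEP

universe u

namespace TAIL_

section plain

variable {V : Type u} {s t : V → V}

lemma Bad_comm (hs : ∀ x, s (s x) = x) (ht : ∀ x, t (t x) = x) : Bad s t = Bad t s := by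
  ext x
  constructor
  · intro h N
    rw [← Clean_comm hs ht]
    exact h N
  · intro h N
    rw [Clean_comm hs ht]
    exact h N

lemma Bad_s (hs : ∀ x, s (s x) = x) (ht : ∀ x, t (t x) = x) {x : V} (h : x ∈ Bad s t) :
    s x ∈ Bad s t := by
  rw [Bad_iff] at h ⊢
  obtain ⟨h1, h2, h3⟩ := h
  refine ⟨fun n => ?_, fun n => h1 (n + 1), fun p hp h4 => ?_⟩
  · cases n with
    | zero =>
      intro h4
      have h5 : s (s x) = s x := h4
      rw [hs] at h5
      exact h1 0 h5.symm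
    | succ n =>
      have e1 : al s t (n + 1 + 1) (s x) = al t s (n + 1) x := by rw [al_succ, hs]
      have e2 : al s t (n + 1) (s x) = al t s n x := by rw [al_succ, hs]
      rw [e1, e2]
      exact h2 n
  · have h5 := al_period_step hs ht h4
    rw [hs] at h5
    exact h3 p hp h5

lemma Bad_al (hs : ∀ x, s (s x) = x) (ht : ∀ x, t (t x) = x) (n : ℕ) {x : V}
    (h : x ∈ Bad s t) : al s t n x ∈ Bad s t := by
  refine al_mem (fun y hy => Bad_s hs ht hy) (fun y hy => ?_) n h
  rw [Bad_comm hs ht] at hy ⊢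
  exact Bad_s ht hs hy

/-- a point of an infinite strand is not reached from an end by a walk of even length -/
lemma not_Bad_of_end (hs : ∀ x, s (s x) = x) (ht : ∀ x, t (t x) = x) {n : ℕ} (hn : Even n)
    {v : V} (hv : t v = v) : al s t n v ∉ Bad s t := by
  intro h
  rw [Bad_iff] at h
  apply h.2.1 n
  have h1 : al t s n (al s t n v) = v := al_rev_even hs ht hn v
  rw [al_last_even t s hn, h1, hv]

end plain

section words

variable {V : Type u} [MeasurableSpace V] {G : SimpleGraph V} {l m : ℕ}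

/-- the walk of the modified colouring which starts at the place with word `w0` -/
noncomputable def X (e : PCol G m) (c : PCol G l) (z : Cd m l) (g h : Fin l)
    (w0 : List (Fin m)) (i : ℕ) (b : V) : V :=
  al ((cbf e c z b).S h) ((cbf e c z b).S g) i (wd e w0 b)

/-- the conditions on the place -/
structure ZP (Q : V → (Fin l → V) → Prop) (e : PCol G m) (c : PCol G l) (z : Cd m l)
    (g h : Fin l) (w0 w1 : List (Fin m)) (q : ℕ) (b : V) : Prop where
  vld : b ∈ Vld e c z
  sat : ∀ w ∈ z.1, Q (wd e w b) fun k => (cbf e c z b).S k (wd e w b)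
  fix : (cbf e c z b).S g (wd e w0 b) = wd e w0 b
  reg : ∀ i ≤ 2 * q, X e c z g h w0 i b ∈ Rg e z b
  fin : X e c z g h w0 (2 * q) b = wd e w1 b
  bad : wd e w1 b ∈ Bad (c.S h) (c.S g)
  agr : ∀ n, ∀ w ∈ z.1, wd e w b = al (c.S h) (c.S g) n (wd e w1 b) →
    ∀ k, (cbf e c z b).S k (wd e w b) = c.S k (wd e w b)

/-- the parameters -/
def Par (m l : ℕ) : Type :=
  (Cd m l × Fin l × Fin l) × (List (Fin m) × List (Fin m) × ℕ)

instance (m l : ℕ) : Countable (Par m l) := by
  unfold Par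
  infer_instance

/-- the set of places for a parameter -/
def ZS (Q : V → (Fin l → V) → Prop) (e : PCol G m) (c : PCol G l) (p : Par m l) : Set V :=
  {b | p.1.2.1 ≠ p.1.2.2 ∧ p.2.1 ∈ p.1.1.1 ∧ p.2.2.1 ∈ p.1.1.1 ∧
    ZP Q e c p.1.1 p.1.2.1 p.1.2.2 p.2.1 p.2.2.1 p.2.2.2 b}

/-- a bad modification at `b` gives a parameter -/
lemma cover {Q : V → (Fin l → V) → Prop} {e : PCol G m} {c : PCol G l} (hl : Lab e) {b : V}
    (hcod : ∀ cb : PC G l, FM (toPC c) cb (Cm e b) → ∀ W0 : Finset (List (Fin m)),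
      ∃ z : Cd m l, W0 ⊆ z.1 ∧ b ∈ Vld e c z ∧ ∀ k x, (cbf e c z b).S k x = cb.S k x)
    (hone : ∀ g h : Fin l, ∀ x ∈ Cm e b, (∀ N, NS (c.S h) (c.S g) N x) →
      (∀ p, 1 ≤ p → al (c.S h) (c.S g) (2 * p) x ≠ x) → x ∈ Bad (c.S h) (c.S g))
    (cb : PC G l) (hFM : FM (toPC c) cb (Cm e b)) (hsat : Sat Q cb (Cm e b)) (g h : Fin l)
    (hgh : g ≠ h) (v : V) (hvC : v ∈ Cm e b) (hv : cb.S g v = v)
    (hns : ∀ n, al (cb.S h) (cb.S g) (n + 1) v ≠ al (cb.S h) (cb.S g) n v) :
    b ∈ ⋃ p : Par m l, ZS Q e c p := by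
  classical
  have hinj : ∀ i j, al (cb.S h) (cb.S g) i v = al (cb.S h) (cb.S g) j v → i = j := by
    intro i j hij
    exact al_inj_of_fixed (cb.invol g) (cb.invol h) (m := max i j) hv (fun n _ => hns n) i j
      (le_max_left _ _) (le_max_right _ _) hij
  have hfin : {n | al (cb.S h) (cb.S g) n v ∈ {x | ∃ k, cb.S k x ≠ (toPC c).S k x}}.Finite := by
    refine hFM.fin.preimage ?_
    intro i _ j _ hij
    exact hinj i j hij
  obtain ⟨N, hN⟩ := hfin.bddAbove
  have hout : ∀ n, N + 1 ≤ n → ∀ k, cb.S k (al (cb.S h) (cb.S g) n v) =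
      c.S k (al (cb.S h) (cb.S g) n v) := by
    intro n hn k
    by_contra hk
    have h1 : n ≤ N := hN ⟨k, hk⟩
    omega
  have hw : ∀ i, ∃ w, wd e w b = al (cb.S h) (cb.S g) i v := fun i => Cm_al hl cb hvC h g i
  choose ws hws using hw
  obtain ⟨z, hz1, hz2, hz3⟩ := hcod cb hFM ((Finset.range (2 * (N + 1) + 1)).image ws)
  have hS : ∀ k, (cbf e c z b).S k = cb.S k := fun k => funext (hz3 k)
  have hmem : ∀ i, i ≤ 2 * (N + 1) → ws i ∈ z.1 := fun i hi =>
    hz1 (Finset.mem_image_of_mem ws (Finset.mem_range.2 (by omega)))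
  have hX : ∀ i, X e c z g h (ws 0) i b = al (cb.S h) (cb.S g) i v := by
    intro i
    unfold X
    rw [hS, hS, hws 0]
    rfl
  have hcont : ∀ n, al (c.S h) (c.S g) n (wd e (ws (2 * (N + 1))) b) =
      al (cb.S h) (cb.S g) (2 * (N + 1) + n) v := by
    intro n
    rw [hws, al_add_even _ _ (even_two_mul _)]
    refine al_congr (s := cb.S h) (t := cb.S g) n _ fun j _ => ?_
    rw [← al_add_even _ _ (even_two_mul _)]
    exact ⟨(hout _ (by omega) h).symm, (hout _ (by omega) g).symm⟩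
  refine mem_iUnion.2 ⟨((z, g, h), (ws 0, ws (2 * (N + 1)), N + 1)), hgh, hmem 0 (by omega),
    hmem _ le_rfl, ?_⟩
  refine ⟨hz2, ?_, ?_, ?_, ?_, ?_, ?_⟩
  · intro w _
    have h1 := hsat (wd e w b) ⟨w, rfl⟩
    have h2 : (fun k => (cbf e c z b).S k (wd e w b)) = fun k => cb.S k (wd e w b) :=
      funext fun k => hz3 k _
    change Q (wd e w b) fun k => (cbf e c z b).S k (wd e w b)
    rw [h2]
    exact h1
  · change (cbf e c z b).S g (wd e (ws 0) b) = wd e (ws 0) b
    rw [hS, hws 0]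
    exact hv
  · intro i hi
    exact ⟨ws i, hmem i hi, by rw [hws]; exact (hX i).symm⟩
  · change X e c z g h (ws 0) (2 * (N + 1)) b = wd e (ws (2 * (N + 1))) b
    rw [hX, hws]
  · refine hone g h _ ⟨_, rfl⟩ ?_ ?_
    · intro M n _
      rw [hcont, hcont]
      exact hns _
    · intro p hp h1
      have h2 := hcont (2 * p)
      rw [h1, hws] at h2
      have := hinj _ _ h2
      omega
  · intro n w _ hn k
    change (cbf e c z b).S k (wd e w b) = c.S k (wd e w b)
    rw [hS, hn, hcont]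
    exact hout _ (by omega) k

end words

section meas

variable {V : Type u} [MeasurableSpace V] [StandardBorelSpace V] {G : SimpleGraph V} {l m : ℕ}

lemma meas_step {e : PCol G m} {c : PCol G l} {z : Cd m l}
    (h3 : ∀ (k : Fin l) (w : List (Fin m)), Measurable fun b => (cbf e c z b).S k (wd e w b))
    (k : Fin l) {p : V → V} (hp : Measurable p) (hC : ∀ b, p b ∈ Cm e b) :
    Measurable fun b => (cbf e c z b).S k (p b) := by
  intro E hE
  have h : (fun b => (cbf e c z b).S k (p b)) ⁻¹' E = ⋃ w : List (Fin m),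
      ({b | wd e w b = p b} ∩ (fun b => (cbf e c z b).S k (wd e w b)) ⁻¹' E) := by
    ext b
    simp only [mem_preimage, mem_iUnion, mem_inter_iff, mem_ofPred_eq]
    constructor
    · intro hb
      obtain ⟨w, hw⟩ := hC b
      exact ⟨w, hw, by rw [hw]; exact hb⟩
    · rintro ⟨w, hw, hb⟩
      rw [hw] at hb
      exact hb
  rw [h]
  exact MeasurableSet.iUnion fun w =>
    (measurableSet_eq_fun (wd e w).measurable hp).inter (h3 k w hE)

lemma meas_al {e : PCol G m} {c : PCol G l} {z : Cd m l} (hl : Lab e)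
    (h3 : ∀ (k : Fin l) (w : List (Fin m)), Measurable fun b => (cbf e c z b).S k (wd e w b))
    (n : ℕ) : ∀ (g h : Fin l) (p : V → V), Measurable p → (∀ b, p b ∈ Cm e b) →
      Measurable fun b => al ((cbf e c z b).S h) ((cbf e c z b).S g) n (p b) := by
  induction n with
  | zero =>
    intro g h p hp _
    exact hp
  | succ n ih =>
    intro g h p hp hC
    exact ih h g (fun b => (cbf e c z b).S h (p b)) (meas_step h3 h hp hC)
      fun b => Cm_col hl _ (hC b) h

lemma meas_X {e : PCol G m} {c : PCol G l} {z : Cd m l} (hl : Lab e)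
    (h3 : ∀ (k : Fin l) (w : List (Fin m)), Measurable fun b => (cbf e c z b).S k (wd e w b))
    (g h : Fin l) (w0 : List (Fin m)) (n : ℕ) : Measurable (X e c z g h w0 n) :=
  meas_al hl h3 n g h (fun b => wd e w0 b) (wd e w0).measurable fun _ => ⟨w0, rfl⟩

lemma measurableSet_ZP {Q : V → (Fin l → V) → Prop}
    (hQ : MeasurableSet {p : V × (Fin l → V) | Q p.1 p.2}) {e : PCol G m} {c : PCol G l}
    {z : Cd m l} (hl : Lab e) (hvld : MeasurableSet (Vld e c z))
    (h3 : ∀ (k : Fin l) (w : List (Fin m)), Measurable fun b => (cbf e c z b).S k (wd e w b))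
    (hbad : ∀ s t : V → V, Measurable s → Measurable t → MeasurableSet (Bad s t))
    (g h : Fin l) (w0 w1 : List (Fin m)) (q : ℕ) :
    MeasurableSet {b | ZP Q e c z g h w0 w1 q b} := by
  have e1 : {b | ZP Q e c z g h w0 w1 q b} = Vld e c z ∩
      ((⋂ w ∈ z.1, (fun b => (wd e w b, fun k => (cbf e c z b).S k (wd e w b))) ⁻¹'
        {p : V × (Fin l → V) | Q p.1 p.2}) ∩
      ({b | (cbf e c z b).S g (wd e w0 b) = wd e w0 b} ∩
      ((⋂ i, ⋂ (_ : i ≤ 2 * q), ⋃ w ∈ z.1, {b | wd e w b = X e c z g h w0 i b}) ∩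
      ({b | X e c z g h w0 (2 * q) b = wd e w1 b} ∩
      ((wd e w1) ⁻¹' Bad (c.S h) (c.S g) ∩
      ⋂ n, ⋂ w ∈ z.1, ({b | wd e w b = al (c.S h) (c.S g) n (wd e w1 b)}ᶜ ∪
        ⋂ k, {b | (cbf e c z b).S k (wd e w b) = c.S k (wd e w b)})))))) := by
    ext b
    simp only [mem_inter_iff, mem_iInter, mem_preimage, mem_ofPred_eq, mem_iUnion,
      mem_union, mem_compl_iff]
    constructor
    · rintro ⟨a1, a2, a3, a4, a5, a6, a7⟩
      refine ⟨a1, a2, a3, fun i hi => ?_, a5, a6, fun n w hw => ?_⟩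
      · obtain ⟨w, hw, hw'⟩ := a4 i hi
        exact ⟨w, hw, hw'⟩
      · by_cases hc : wd e w b = al (c.S h) (c.S g) n (wd e w1 b)
        · exact Or.inr (a7 n w hw hc)
        · exact Or.inl hc
    · rintro ⟨a1, a2, a3, a4, a5, a6, a7⟩
      refine ⟨a1, a2, a3, fun i hi => ?_, a5, a6, fun n w hw hc => ?_⟩
      · obtain ⟨w, hw, hw'⟩ := a4 i hi
        exact ⟨w, hw, hw'⟩
      · exact (a7 n w hw).resolve_left fun h' => h' hc
  rw [e1]
  refine hvld.inter (MeasurableSet.inter ?_ (MeasurableSet.inter ?_ (MeasurableSet.inter ?_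
    (MeasurableSet.inter ?_ (MeasurableSet.inter ?_ ?_)))))
  · refine MeasurableSet.biInter z.1.countable_toSet fun w _ => ?_
    exact ((wd e w).measurable.prodMk (measurable_pi_lambda _ fun k => h3 k w)) hQ
  · exact measurableSet_eq_fun (h3 g w0) (wd e w0).measurable
  · refine MeasurableSet.iInter fun i => MeasurableSet.iInter fun _ =>
      MeasurableSet.biUnion z.1.countable_toSet fun w _ => ?_
    exact measurableSet_eq_fun (wd e w).measurable (meas_X hl h3 g h w0 i)
  · exact measurableSet_eq_fun (meas_X hl h3 g h w0 _) (wd e w1).measurable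
  · exact (wd e w1).measurable (hbad _ _ (c.meas h) (c.meas g))
  · refine MeasurableSet.iInter fun n => MeasurableSet.biInter z.1.countable_toSet
      fun w _ => MeasurableSet.union ?_ (MeasurableSet.iInter fun k => ?_)
    · exact (measurableSet_eq_fun (wd e w).measurable
        ((measurable_al (c.meas h) (c.meas g) n).comp (wd e w1).measurable)).compl
    · exact measurableSet_eq_fun (h3 k w) ((c.meas k).comp (wd e w).measurable)

end meas

/-! ### The glued colouring -/

section key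

variable {V : Type u} [MeasurableSpace V] {G : SimpleGraph V} {l m : ℕ}

/-- in the glued colouring the strand of a place has an end -/
lemma place {Q : V → (Fin l → V) → Prop} {e : PCol G m} {c c' : PCol G l} {z : Cd m l}
    {g h : Fin l} {w0 w1 : List (Fin m)} {q : ℕ} {J : Set V} {b : V} (hb : b ∈ J)
    (hw0 : w0 ∈ z.1) (hZ : ZP Q e c z g h w0 w1 q b)
    (hJr : ∀ b ∈ J, ∀ x ∈ Rg e z b, ∀ k, c'.S k x = (cbf e c z b).S k x)
    (hJo : ∀ x, (∀ b ∈ J, x ∉ Rg e z b) → ∀ k, c'.S k x = c.S k x) {n : ℕ}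
    (hsp : ∀ i < n, ∀ b' ∈ J, al (c.S h) (c.S g) i (wd e w1 b) ∈ Rg e z b' → b = b')
    (hn : Even n) : al (c.S h) (c.S g) n (wd e w1 b) ∉ Bad (c'.S h) (c'.S g) := by
  have h1 : ∀ i ≤ 2 * q, al (c'.S h) (c'.S g) i (wd e w0 b) = X e c z g h w0 i b := by
    intro i hi
    refine al_congr (s := (cbf e c z b).S h) (t := (cbf e c z b).S g) i _ fun j hj => ?_
    have := hJr b hb _ (hZ.reg j (by omega))
    exact ⟨this h, this g⟩
  have h2 : al (c'.S h) (c'.S g) (2 * q + n) (wd e w0 b) =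
      al (c.S h) (c.S g) n (wd e w1 b) := by
    rw [al_add_even _ _ (even_two_mul q), h1 _ le_rfl, hZ.fin]
    refine al_congr (s := c.S h) (t := c.S g) n _ fun j hj => ?_
    have key : ∀ k, c'.S k (al (c.S h) (c.S g) j (wd e w1 b)) =
        c.S k (al (c.S h) (c.S g) j (wd e w1 b)) := by
      intro k
      by_cases hx : ∃ b' ∈ J, al (c.S h) (c.S g) j (wd e w1 b) ∈ Rg e z b'
      · obtain ⟨b', hb', hx⟩ := hx
        obtain rfl := hsp j hj b' hb' hx
        rw [hJr b hb _ hx k]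
        obtain ⟨w, hw, hwx⟩ := hx
        rw [← hwx]
        exact hZ.agr j w hw hwx k
      · push Not at hx
        exact hJo _ hx k
    exact ⟨key h, key g⟩
  have h3 : c'.S g (wd e w0 b) = wd e w0 b := by
    rw [hJr b hb _ ⟨w0, hw0, rfl⟩ g, hZ.fix]
  rw [← h2]
  exact not_Bad_of_end (c'.invol h) (c'.invol g) ((even_two_mul q).add hn) h3

/-- the maps used for the sparseness -/
noncomputable def th (e : PCol G m) (c : PCol G l) (g h : Fin l) (w1 : List (Fin m)) (n : ℕ)
    (w : List (Fin m)) : V ≃ᵐ V :=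
  ((wd e w1).trans (alE (c.S h) (c.S g) (c.meas h) (c.meas g) (c.invol h) (c.invol g) n)).trans
    (wd e w).symm

lemma th_eq {e : PCol G m} {c : PCol G l} {g h : Fin l} {w1 : List (Fin m)} {n : ℕ}
    {w : List (Fin m)} {b b' : V} :
    th e c g h w1 n w b = b' ↔ al (c.S h) (c.S g) n (wd e w1 b) = wd e w b' := by
  change (wd e w).toEquiv.symm (al (c.S h) (c.S g) n (wd e w1 b)) = b' ↔ _
  exact (wd e w).toEquiv.symm_apply_eq

variable {μ : Measure V}

lemma mp_th (hinv : Inv G μ) (e : PCol G m) (c : PCol G l) (g h : Fin l) (w1 : List (Fin m))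
    (n : ℕ) (w : List (Fin m)) : MeasurePreserving (th e c g h w1 n w) μ μ :=
  (MeasurePreserving.symm (wd e w) (mp_wd hinv e w)).comp
    ((mp_al (mp_S hinv c h) (mp_S hinv c g) n).comp (mp_wd hinv e w1))

/-- many disjoint images of the set of places -/
lemma mass [IsFiniteMeasure μ] (hinv : Inv G μ) (e : PCol G m) (c : PCol G l) (g h : Fin l)
    (w1 : List (Fin m)) {J : Set V} (hJ : MeasurableSet J) (M : ℕ)
    (hd : ∀ i j, i < j → j < M → ∀ b ∈ J, ∀ b' ∈ J,
      al (c.S h) (c.S g) (2 * i) (wd e w1 b) ≠ al (c.S h) (c.S g) (2 * j) (wd e w1 b'))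
    {B : Set V} (hB : ∀ i < M, ∀ b ∈ J, al (c.S h) (c.S g) (2 * i) (wd e w1 b) ∈ B) :
    M * μ.real J ≤ μ.real B := by
  set F : ℕ → (V ≃ᵐ V) := fun i => (wd e w1).trans
    (alE (c.S h) (c.S g) (c.meas h) (c.meas g) (c.invol h) (c.invol g) (2 * i)) with hF
  have hFa : ∀ i b, F i b = al (c.S h) (c.S g) (2 * i) (wd e w1 b) := fun i b => rfl
  have hmp : ∀ i, MeasurePreserving (F i) μ μ := fun i =>
    (mp_al (mp_S hinv c h) (mp_S hinv c g) (2 * i)).comp (mp_wd hinv e w1)
  have h1 : μ.real (⋃ i ∈ Finset.range M, F i '' J) =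
      ∑ i ∈ Finset.range M, μ.real (F i '' J) := by
    refine measureReal_biUnion_finset ?_ fun i _ => (F i).measurableSet_image.2 hJ
    intro i hi j hj hij
    change Disjoint (F i '' J) (F j '' J)
    rw [Set.disjoint_left]
    rintro x ⟨b, hb, rfl⟩ ⟨b', hb', hx⟩
    rw [hFa, hFa] at hx
    have hi' := Finset.mem_range.1 (Finset.mem_coe.1 hi)
    have hj' := Finset.mem_range.1 (Finset.mem_coe.1 hj)
    rcases Nat.lt_or_ge i j with hlt | hge
    · exact hd i j hlt hj' b hb b' hb' hx.symm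
    · exact hd j i (by omega) hi' b' hb' b hb hx
  have h2 : (⋃ i ∈ Finset.range M, F i '' J) ⊆ B := by
    intro x hx
    simp only [mem_iUnion, Finset.mem_range] at hx
    obtain ⟨i, hi, b, hb, rfl⟩ := hx
    exact hB i hi b hb
  have h3 := measureReal_mono (μ := μ) h2 (measure_ne_top _ _)
  rw [h1, Finset.sum_congr rfl fun i _ => real_image (F i) (hmp i) J, Finset.sum_const,
    Finset.card_range, nsmul_eq_mul] at h3
  exact h3

end key

section final

variable {V : Type u} [MeasurableSpace V] [StandardBorelSpace V] {G : SimpleGraph V} {l m : ℕ}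
  {μ : Measure V} [IsFiniteMeasure μ]

/-- the sets of places are null -/
lemma ZS_null (h_SPS : tSPS.{u}) (h_COD : tCOD.{u}) (h_MES : tMES.{u}) {e : PCol G m}
    (hl : Lab e) (hinv : Inv G μ) {Q : V → (Fin l → V) → Prop} {r : ℕ} {c : PCol G l}
    (hQ : MeasurableSet {p : V × (Fin l → V) | Q p.1 p.2}) (hG : Gnc μ Q r c) (p : Par m l) :
    μ (ZS Q e c p) = 0 := by
  classical
  obtain ⟨⟨z, g, h⟩, w0, w1, q⟩ := p
  by_contra hne
  set A := ZS Q e c ((z, g, h), (w0, w1, q)) with hA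
  obtain ⟨b0, hb0⟩ := nonempty_of_measure_ne_zero hne
  have hgh : g ≠ h := hb0.1
  have hw0 : w0 ∈ z.1 := hb0.2.1
  have hw1 : w1 ∈ z.1 := hb0.2.2.1
  obtain ⟨hvld, -, h3, -, h5⟩ := h_COD V G m l e c μ hl hinv
  obtain ⟨-, -, -, -, hbad⟩ := h_MES V G m l e c hl
  have hAm : MeasurableSet A := by
    have h1 : A = {b | ZP Q e c z g h w0 w1 q b} := by
      ext b
      exact ⟨fun hb => hb.2.2.2, fun hb => ⟨hgh, hw0, hw1, hb⟩⟩
    rw [h1]
    exact measurableSet_ZP hQ hl (hvld z) (h3 z) hbad g h w0 w1 q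
  obtain ⟨Θz, hΘ, hglue⟩ := h5 z
  have hApos : 0 < μ.real A :=
    ENNReal.toReal_pos hne (measure_ne_top μ A)
  have hD : (0 : ℝ) < 2 * Θz.card + 6 * z.1.card + 1 := by positivity
  obtain ⟨δ, hδ, hstr⟩ := hG.str h g hgh.symm
    (μ.real A / (2 * Θz.card + 6 * z.1.card + 1)) (div_pos hApos hD)
  obtain ⟨M0, hM0⟩ := exists_nat_gt (l * z.1.card * μ.real univ / δ)
  obtain ⟨M, hM, hM1⟩ : ∃ M : ℕ, l * z.1.card * μ.real univ / δ < M ∧ 1 ≤ M :=
    ⟨M0 + 1, hM0.trans (by push_cast; linarith), by omega⟩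
  set Θ : Finset (V ≃ᵐ V) := Θz ∪ ((Finset.range (2 * M + 1)) ×ˢ z.1).image
    (fun p => th e c g h w1 p.1 p.2) with hΘdef
  have hcard : Θ.card ≤ Θz.card + (2 * M + 1) * z.1.card := by
    refine (Finset.card_union_le _ _).trans (Nat.add_le_add_left ?_ _)
    refine Finset.card_image_le.trans ?_
    rw [Finset.card_product, Finset.card_range]
  have hΘmp : ∀ θ ∈ Θ, MeasurePreserving θ μ μ := by
    intro θ hθ
    rcases Finset.mem_union.1 hθ with h1 | h1
    · exact hΘ θ h1
    · obtain ⟨p, -, rfl⟩ := Finset.mem_image.1 h1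
      exact mp_th hinv e c g h w1 p.1 p.2
  obtain ⟨J, hJA, hJm, hJs, hJμ⟩ := h_SPS V μ Θ A hΘmp hAm
  have hZP : ∀ b ∈ J, ZP Q e c z g h w0 w1 q b := fun b hb => (hJA hb).2.2.2
  obtain ⟨-, c', hJr, hJo⟩ := hglue J hJm (fun b hb => (hZP b hb).vld)
    fun θ hθ => hJs θ (Finset.mem_union_left _ hθ)
  have hth : ∀ n ≤ 2 * M, ∀ w ∈ z.1, ∀ b ∈ J, ∀ b' ∈ J,
      al (c.S h) (c.S g) n (wd e w1 b) = wd e w b' → b = b' := by
    intro n hn w hw b hb b' hb' h1
    refine hJs (th e c g h w1 n w) (Finset.mem_union_right _ (Finset.mem_image.2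
      ⟨(n, w), Finset.mem_product.2 ⟨Finset.mem_range.2 (by omega), hw⟩, rfl⟩)) b hb b' hb' ?_
    exact th_eq.2 h1
  have hmass : M * μ.real J ≤ μ.real (Bad (c.S h) (c.S g) \ Bad (c'.S h) (c'.S g)) := by
    refine mass hinv e c g h w1 hJm M ?_ ?_
    · intro i j hij hj b hb b' hb' h1
      have h2 := al_eq_al (c.invol h) (c.invol g) (by omega : 2 * i ≤ 2 * j)
        ⟨fun _ => even_two_mul j, fun _ => even_two_mul i⟩ h1
      have h4 := hth (2 * j - 2 * i) (by omega) w1 hw1 b' hb' b hb h2.symm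
      subst h4
      have h6 := (Bad_iff.1 (hZP b' hb').bad).2.2 (j - i) (by omega)
      apply h6
      have e1 : 2 * (j - i) = 2 * j - 2 * i := by omega
      rw [e1]
      exact h2.symm
    · intro i hi b hb
      refine ⟨Bad_al (c.invol h) (c.invol g) _ (hZP b hb).bad, ?_⟩
      refine place hb hw0 (hZP b hb) hJr hJo ?_ (even_two_mul i)
      intro j hj b' hb' hx
      obtain ⟨w, hw, hwx⟩ := hx
      exact hth j (by omega) w hw b hb b' hb' hwx.symm
  have hlow : μ.real A / (2 * Θz.card + 6 * z.1.card + 1) ≤ M * μ.real J := by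
    rw [div_le_iff₀ hD]
    refine hJμ.trans ?_
    have h1 : (Θ.card : ℝ) ≤ Θz.card + (2 * M + 1) * z.1.card := by exact_mod_cast hcard
    have h2 : (1 : ℝ) ≤ M := by exact_mod_cast hM1
    have h4 : (0 : ℝ) ≤ Θz.card := by positivity
    have h6 : (0 : ℝ) ≤ z.1.card := by positivity
    have h7 : (2 * Θ.card + 1 : ℝ) ≤ M * (2 * Θz.card + 6 * z.1.card + 1) := by
      nlinarith [mul_nonneg (sub_nonneg.2 h2) h4, mul_nonneg (sub_nonneg.2 h2) h6]
    calc (2 * Θ.card + 1 : ℝ) * μ.real J ≤ (M * (2 * Θz.card + 6 * z.1.card + 1)) * μ.real J :=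
          mul_le_mul_of_nonneg_right h7 measureReal_nonneg
      _ = M * μ.real J * (2 * Θz.card + 6 * z.1.card + 1) := by ring
  have hQ' : ∀ᵐ x ∂μ, Q x fun k => c'.S k x := by
    filter_upwards [hG.sat] with x hx
    by_cases h1 : ∃ b ∈ J, x ∈ Rg e z b
    · obtain ⟨b, hb, hxb⟩ := h1
      have h2 : (fun k => c'.S k x) = fun k => (cbf e c z b).S k x :=
        funext fun k => hJr b hb x hxb k
      rw [h2]
      obtain ⟨w, hw, rfl⟩ := hxb
      exact (hZP b hb).sat w hw
    · push Not at h1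
      have h2 : (fun k => c'.S k x) = fun k => c.S k x := funext fun k => hJo x h1 k
      rw [h2]
      exact hx
  have hdst : PCol.dst μ c c' < δ := by
    have h1 : PCol.dst μ c c' ≤ l * μ.real {x | ∃ b ∈ J, ∃ w ∈ z.1, wd e w b = x} := by
      refine dst_le_of_agree fun x hx => hJo x fun b hb hxb => hx ?_
      obtain ⟨w, hw, hwx⟩ := hxb
      exact ⟨b, hb, w, hw, hwx⟩
    have h2 := real_region_le hinv e z.1 J
    have h4 : M * μ.real J ≤ μ.real univ :=
      hmass.trans (measureReal_mono (subset_univ _) (measure_ne_top _ _))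
    have h6 : (0 : ℝ) < M := by
      have : (1 : ℝ) ≤ M := by exact_mod_cast hM1
      linarith
    have h7 : (l : ℝ) * z.1.card * μ.real univ < δ * M := by
      rw [div_lt_iff₀ hδ] at hM
      linarith
    have h8 : PCol.dst μ c c' ≤ l * (z.1.card * μ.real J) :=
      h1.trans (mul_le_mul_of_nonneg_left h2 (by positivity))
    have h9 : (l : ℝ) * (z.1.card * μ.real J) * M ≤ l * z.1.card * μ.real univ := by
      have : (l : ℝ) * (z.1.card * μ.real J) * M = l * z.1.card * (M * μ.real J) := by ring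
      rw [this]
      exact mul_le_mul_of_nonneg_left h4 (by positivity)
    have h10 : (l : ℝ) * (z.1.card * μ.real J) < δ := by
      by_contra hcon
      push Not at hcon
      have := mul_le_mul_of_nonneg_right hcon h6.le
      linarith
    exact h8.trans_lt h10
  have := hstr c' hQ' hdst
  linarith

end final

end TAIL_

/-- B4 -/
theorem allTAIL (h_SPS : tSPS.{u}) (h_COD : tCOD.{u}) (h_ONE : tONE.{u}) (h_MES : tMES.{u}) :
    tTAIL.{u} := by
  intro V _ _ G m l e μ _ hl hinv Q r c hQ hG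
  have h1 : ∀ᵐ b ∂μ, ∀ g h : Fin l, ∀ x ∈ Cm e b, (∀ N, NS (c.S h) (c.S g) N x) →
      (∀ p, 1 ≤ p → al (c.S h) (c.S g) (2 * p) x ≠ x) → x ∈ Bad (c.S h) (c.S g) := by
    rw [ae_all_iff]
    intro g
    rw [ae_all_iff]
    intro h
    exact ae_Cm hinv e (h_ONE V μ (c.S h) (c.S g) (c.invol h) (c.invol g) (mp_S hinv c h)
      (mp_S hinv c g))
  have h2 : ∀ᵐ b ∂μ, b ∉ ⋃ p : TAIL_.Par m l, TAIL_.ZS Q e c p := by
    refine measure_eq_zero_iff_ae_notMem.1 ?_
    exact measure_iUnion_null fun p => TAIL_.ZS_null h_SPS h_COD h_MES hl hinv hQ hG p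
  obtain ⟨-, hcod, -, -, -⟩ := h_COD V G m l e c μ hl hinv
  filter_upwards [h1, h2] with b hb1 hb2
  intro cb hFM hsat g h hgh v hvC hv
  by_contra hcon
  push Not at hcon
  exact hb2 (TAIL_.cover hl (fun cb hcb W0 => hcod b cb hcb W0) hb1 cb hFM hsat g h hgh v hvC hv
    hcon)

end Pool.Agent.MEO
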