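import Pool.Agent.MEO.Targets
import Pool.Agent.MEP.LIP

set_option autoImplicit false

/-! B1: bad strands depend on the state in an upper semicontinuous way. -/

namespace Pool.Agent.MEO

open MeasureTheory Set Filter
open scoped ENNReal
open Pool.Agent.MEC
open Pool.Agent.MEP

universe u

namespace UST_

section

variable {V : Type u}

lemma Clean_anti (s t : V → V) : Antitone fun N : ℕ => Clean s t N := fun _ _ h =>
  inter_subset_inter (Far_anti h) (Long_anti h)

lemma Bad_eq (s t : V → V) : Bad s t = ⋂ N : ℕ, Clean s t N := by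
  ext x
  simp [Bad]

lemma Bad_subset (s t : V → V) (N : ℕ) : Bad s t ⊆ Clean s t N := fun _ hx => hx N

/-- `Clean` depends only on the walks of length less than `2 * N` -/
lemma clean_sub (s t s' t' : V → V) (N : ℕ) :
    Clean s' t' N \ Clean s t N ⊆ (⋃ j ∈ Finset.range (2 * N),
      al s t j ⁻¹' {x | s' x ≠ s x ∨ t' x ≠ t x}) ∪ ⋃ j ∈ Finset.range (2 * N),
      al t s j ⁻¹' {x | s' x ≠ s x ∨ t' x ≠ t x} := by
  rintro x ⟨hx, hnx⟩
  by_contra hc
  rw [mem_union, not_or] at hc
  obtain ⟨h2, h3⟩ := hc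
  have k2 : ∀ j, j < 2 * N → s' (al s t j x) = s (al s t j x) ∧
      t' (al s t j x) = t (al s t j x) := by
    intro j hj
    by_contra hj'
    apply h2
    rw [mem_iUnion₂]
    refine ⟨j, Finset.mem_range.2 hj, ?_⟩
    rw [not_and_or] at hj'
    exact hj'
  have k3 : ∀ j, j < 2 * N → t' (al t s j x) = t (al t s j x) ∧
      s' (al t s j x) = s (al t s j x) := by
    intro j hj
    by_contra hj'
    apply h3
    rw [mem_iUnion₂]
    refine ⟨j, Finset.mem_range.2 hj, ?_⟩
    rw [not_and_or] at hj'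
    exact hj'.symm
  have e2 : ∀ n, n ≤ 2 * N → al s' t' n x = al s t n x := fun n hn =>
    al_congr n x fun j hj => k2 j (by omega)
  have e3 : ∀ n, n ≤ 2 * N → al t' s' n x = al t s n x := fun n hn =>
    al_congr n x fun j hj => k3 j (by omega)
  apply hnx
  refine ⟨⟨fun n hn => ?_, fun n hn => ?_⟩, fun p h1 hp => ?_⟩
  · rw [← e2 (n + 1) (by omega), ← e2 n (by omega)]
    exact hx.1.1 n hn
  · rw [← e3 (n + 1) (by omega), ← e3 n (by omega)]
    exact hx.1.2 n hn
  · rw [← e2 (2 * p) (by omega)]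
    exact hx.2 p h1 hp

end

section meas

variable {V : Type u} [MeasurableSpace V] [StandardBorelSpace V]

lemma clean_real_le {μ : Measure V} [IsFiniteMeasure μ] {s t s' t' : V → V}
    (ms : MeasurePreserving s μ μ) (mt : MeasurePreserving t μ μ) (ms' : Measurable s')
    (mt' : Measurable t') (N : ℕ) : μ.real (Clean s' t' N \ Clean s t N) ≤
      4 * N * (μ.real {x | s x ≠ s' x} + μ.real {x | t x ≠ t' x}) := by
  have hD : MeasurableSet {x | s' x ≠ s x ∨ t' x ≠ t x} :=
    (measurableSet_eq_fun ms' ms.measurable).compl.union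
      (measurableSet_eq_fun mt' mt.measurable).compl
  have hDle : μ.real {x | s' x ≠ s x ∨ t' x ≠ t x} ≤
      μ.real {x | s x ≠ s' x} + μ.real {x | t x ≠ t' x} := by
    refine le_trans (measureReal_mono ?_) (measureReal_union_le _ _)
    rintro x (hx | hx)
    · exact Or.inl hx.symm
    · exact Or.inr hx.symm
  refine (measureReal_mono (clean_sub s t s' t' N)).trans ?_
  refine (measureReal_union_le _ _).trans ?_
  have h1 := LIP_.real_biUnion_le ms mt hD (2 * N)
  have h2 := LIP_.real_biUnion_le mt ms hD (2 * N)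
  push_cast at h1 h2
  have h3 : (4 * N : ℝ) * μ.real {x | s' x ≠ s x ∨ t' x ≠ t x} ≤
      4 * N * (μ.real {x | s x ≠ s' x} + μ.real {x | t x ≠ t' x}) :=
    mul_le_mul_of_nonneg_left hDle (by positivity)
  linarith

/-- the clean sets decrease to the bad set -/
lemma exists_clean {μ : Measure V} [IsFiniteMeasure μ] {s t : V → V} (ms : Measurable s)
    (mt : Measurable t) {ε : ℝ} (hε : 0 < ε) :
    ∃ N : ℕ, μ.real (Clean s t N \ Bad s t) < ε := by
  have hB : MeasurableSet (Bad s t) := by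
    rw [Bad_eq]
    exact MeasurableSet.iInter fun N => measurableSet_Clean ms mt N
  have h1 : Tendsto (fun N : ℕ => μ (Clean s t N)) atTop (nhds (μ (Bad s t))) := by
    rw [Bad_eq]
    exact tendsto_measure_iInter_atTop (fun N => (measurableSet_Clean ms mt N).nullMeasurableSet)
      (Clean_anti s t) ⟨0, measure_ne_top _ _⟩
  have h2 : Tendsto (fun N : ℕ => μ.real (Clean s t N)) atTop (nhds (μ.real (Bad s t))) :=
    (ENNReal.tendsto_toReal (measure_ne_top _ _)).comp h1
  have h3 : ∀ᶠ N : ℕ in atTop, μ.real (Clean s t N) < μ.real (Bad s t) + ε :=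
    h2.eventually (gt_mem_nhds (by linarith))
  obtain ⟨N, hN⟩ := h3.exists
  refine ⟨N, ?_⟩
  rw [measureReal_sdiff (Bad_subset s t N) hB]
  linarith

end meas

end UST_

open UST_

/-- B1 -/
theorem allUST : tUST.{u} := by
  intro V _ _ G l μ _ hinv g h c ε hε
  obtain ⟨N, hN⟩ := exists_clean (μ := μ) (c.meas g) (c.meas h) (half_pos hε)
  refine ⟨ε / (2 * (8 * N + 1)), by positivity, fun c' hd => ?_⟩
  have hk : ∀ k, μ.real {x | c.S k x ≠ c'.S k x} ≤ PCol.dst μ c c' := fun k =>
    Finset.single_le_sum (f := fun k => μ.real {x | c.S k x ≠ c'.S k x})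
      (fun _ _ => measureReal_nonneg) (Finset.mem_univ k)
  have h1 := clean_real_le (mp_S hinv c g) (mp_S hinv c h) (c'.meas g) (c'.meas h) N
  have h2 : μ.real (Bad (c'.S g) (c'.S h) \ Bad (c.S g) (c.S h)) ≤
      μ.real (Clean (c'.S g) (c'.S h) N \ Clean (c.S g) (c.S h) N) +
        μ.real (Clean (c.S g) (c.S h) N \ Bad (c.S g) (c.S h)) := by
    refine le_trans (measureReal_mono ?_) (measureReal_union_le _ _)
    rintro x ⟨hx, hnx⟩
    by_cases hc : x ∈ Clean (c.S g) (c.S h) N
    · exact Or.inr ⟨hc, hnx⟩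
    · exact Or.inl ⟨hx N, hc⟩
  have hd0 : 0 ≤ PCol.dst μ c c' := PCol.dst_nonneg c c'
  have hN0 : (0 : ℝ) ≤ N := Nat.cast_nonneg N
  have h3 : 4 * N * (μ.real {x | c.S g x ≠ c'.S g x} + μ.real {x | c.S h x ≠ c'.S h x}) ≤
      8 * N * PCol.dst μ c c' := by
    have := mul_le_mul_of_nonneg_left (add_le_add (hk g) (hk h)) (by positivity : 0 ≤ 4 * (N : ℝ))
    linarith
  have h4 : (2 * (8 * N + 1)) * PCol.dst μ c c' < ε := by
    rw [lt_div_iff₀ (by positivity)] at hd
    linarith
  nlinarith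

end Pool.Agent.MEO
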