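import Pool.Agent.MEO.Targets
import Pool.Agent.MEO.Base

set_option autoImplicit false

/-! B2: bad components depend on the state in an upper semicontinuous way. -/

namespace Pool.Agent.MEO

open MeasureTheory Set Filter
open scoped ENNReal
open Pool.Agent.MEC
open Pool.Agent.MEP

universe u

namespace UXX_

section plain

variable {V : Type u} {G : SimpleGraph V} {l : ℕ}

/-- balls -/
def Bl (R : SimpleGraph V) : ℕ → V → Set V
  | 0, x => {x}
  | n + 1, x => Bl R n x ∪ {z | ∃ y ∈ Bl R n x, R.Adj y z}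

lemma Bl_zero (R : SimpleGraph V) (x : V) : Bl R 0 x = {x} := rfl

lemma Bl_step (R : SimpleGraph V) (n : ℕ) (x : V) :
    Bl R (n + 1) x = Bl R n x ∪ {z | ∃ y ∈ Bl R n x, R.Adj y z} := rfl

lemma Bl_succ_sub (R : SimpleGraph V) (n : ℕ) (x : V) : Bl R n x ⊆ Bl R (n + 1) x :=
  subset_union_left

lemma Bl_mono (R : SimpleGraph V) {n n' : ℕ} (h : n ≤ n') (x : V) : Bl R n x ⊆ Bl R n' x := by
  induction n', h using Nat.le_induction with
  | base => exact Subset.rfl
  | succ n' _ ih => exact ih.trans (Bl_succ_sub R n' x)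

lemma Bl_reach {R : SimpleGraph V} {n : ℕ} {x y : V} (h : y ∈ Bl R n x) : R.Reachable x y := by
  induction n generalizing y with
  | zero =>
    rw [Bl_zero, mem_singleton_iff] at h
    rw [h]
  | succ n ih =>
    rcases h with h | ⟨z, hz, hzy⟩
    · exact ih h
    · exact (ih hz).trans hzy.reachable

lemma reach_Bl {R : SimpleGraph V} {x y : V} (h : R.Reachable x y) : ∃ n, y ∈ Bl R n x := by
  rw [SimpleGraph.reachable_iff_reflTransGen] at h
  induction h with
  | refl => exact ⟨0, rfl⟩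
  | tail _ hbc ih =>
    obtain ⟨n, hn⟩ := ih
    exact ⟨n + 1, Or.inr ⟨_, hn, hbc⟩⟩

lemma Bl_fin {R : SimpleGraph V} (hf : ∀ x, (R.neighborSet x).Finite) (n : ℕ) (x : V) :
    (Bl R n x).Finite := by
  induction n with
  | zero => exact finite_singleton x
  | succ n ih =>
    refine ih.union ?_
    refine (ih.biUnion fun y _ => hf y).subset ?_
    rintro z ⟨y, hy, hyz⟩
    exact mem_biUnion hy hyz

lemma Bl_stab {R : SimpleGraph V} {n : ℕ} {x : V} (h : Bl R (n + 1) x = Bl R n x) (k : ℕ) :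
    Bl R (n + k) x = Bl R n x := by
  induction k with
  | zero => rfl
  | succ k ih =>
    rw [← add_assoc, Bl_step, ih, ← Bl_step, h]

/-- the approximations of the bad components -/
def XN (R : SimpleGraph V) (r N : ℕ) : Set V :=
  {x | (∀ y ∈ Bl R N x, dg R y = r) ∧ Bl R (N + 1) x ≠ Bl R N x}

lemma XN_anti (R : SimpleGraph V) (r : ℕ) : Antitone (XN R r) := by
  refine antitone_nat_of_succ_le fun N => ?_
  rintro x ⟨h1, h2⟩
  refine ⟨fun y hy => h1 y (Bl_succ_sub R N x hy), fun h3 => h2 ?_⟩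
  rw [Bl_step R (N + 1), h3, ← Bl_step, h3]

lemma XX_eq {R : SimpleGraph V} (hf : ∀ x, (R.neighborSet x).Finite) (r : ℕ) :
    XX R r = ⋂ N, XN R r N := by
  ext x
  rw [mem_iInter]
  constructor
  · rintro ⟨h1, h2⟩ N
    refine ⟨fun y hy => h2 y (Bl_reach hy), fun h3 => h1 ?_⟩
    refine (Bl_fin hf N x).subset ?_
    intro y hy
    obtain ⟨n, hn⟩ := reach_Bl hy
    rw [← Bl_stab h3 n]
    exact Bl_mono R (by omega) x hn
  · intro h
    refine ⟨fun hfin => ?_, fun y hy => ?_⟩
    · have hsub : ∀ N, Bl R N x ⊆ {y | R.Reachable x y} := fun N y hy => Bl_reach hy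
      have hcard : ∀ N, N + 1 ≤ (Bl R N x).ncard := by
        intro N
        induction N with
        | zero => rw [Bl_zero, ncard_singleton]
        | succ N ih =>
          have hlt : (Bl R N x).ncard < (Bl R (N + 1) x).ncard :=
            ncard_lt_ncard ((Bl_succ_sub R N x).ssubset_of_ne (h N).2.symm) (Bl_fin hf _ x)
          omega
      have h1 := hcard {y | R.Reachable x y}.ncard
      have h2 := ncard_le_ncard (hsub {y | R.Reachable x y}.ncard) hfin
      omega
    · obtain ⟨n, hn⟩ := reach_Bl hy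
      exact (h n).1 y hn

lemma Bl_congr {c cb : PC G l} {x : V} {N : ℕ}
    (h : ∀ y ∈ Bl (RG c) N x, ∀ k, cb.S k y = c.S k y) (n : ℕ) (hn : n ≤ N + 1) :
    Bl (RG cb) n x = Bl (RG c) n x := by
  induction n with
  | zero => rfl
  | succ n ih =>
    rw [Bl_step, Bl_step, ih (by omega)]
    congr 1
    ext z
    constructor
    · rintro ⟨y, hy, hyz⟩
      exact ⟨y, hy, (RG_congr (h y (Bl_mono _ (by omega) x hy)) z).1 hyz⟩
    · rintro ⟨y, hy, hyz⟩
      exact ⟨y, hy, (RG_congr (h y (Bl_mono _ (by omega) x hy)) z).2 hyz⟩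

lemma XN_congr {c cb : PC G l} {x : V} {N r : ℕ}
    (h : ∀ y ∈ Bl (RG c) N x, ∀ k, cb.S k y = c.S k y) (hx : x ∈ XN (RG cb) r N) :
    x ∈ XN (RG c) r N := by
  obtain ⟨h1, h2⟩ := hx
  rw [Bl_congr h N (by omega)] at h1 h2
  rw [Bl_congr h (N + 1) le_rfl] at h2
  refine ⟨fun y hy => ?_, h2⟩
  rw [← h1 y hy]
  exact (dg_RG_congr (h y hy)).symm

end plain

section meas

variable {V : Type u} [MeasurableSpace V] {G : SimpleGraph V} {l m : ℕ} {e : PCol G m}

lemma Bl_word (hl : Lab e) {R : SimpleGraph V} (hR : R ≤ G) {n : ℕ} {x y : V}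
    (h : y ∈ Bl R n x) : ∃ w : List (Fin m), w.length ≤ n ∧ wd e w x = y := by
  induction n generalizing y with
  | zero => exact ⟨[], le_rfl, h.symm⟩
  | succ n ih =>
    rcases h with h | ⟨z, hz, hzy⟩
    · obtain ⟨w, hw, hwy⟩ := ih h
      exact ⟨w, by omega, hwy⟩
    · obtain ⟨w, hw, rfl⟩ := ih hz
      obtain ⟨k, hk⟩ := hl _ _ (hR hzy)
      refine ⟨w ++ [k], ?_, ?_⟩
      · rw [List.length_append, List.length_singleton]
        omega
      · rw [wd_snoc, hk]

lemma meas_Bl [StandardBorelSpace V] (hl : Lab e) {R : SimpleGraph V} (hR : R ≤ G)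
    (hm : MeasurableSet {p : V × V | R.Adj p.1 p.2}) (n : ℕ) :
    MeasurableSet {p : V × V | p.2 ∈ Bl R n p.1} := by
  induction n with
  | zero =>
    have : {p : V × V | p.2 ∈ Bl R 0 p.1} = {p : V × V | p.2 = p.1} := by
      ext p
      simp [Bl_zero]
    rw [this]
    exact measurableSet_eq_fun measurable_snd measurable_fst
  | succ n ih =>
    have : {p : V × V | p.2 ∈ Bl R (n + 1) p.1} = {p : V × V | p.2 ∈ Bl R n p.1} ∪
        ⋃ k, ((fun p : V × V => (p.1, e.S k p.2)) ⁻¹' {p : V × V | p.2 ∈ Bl R n p.1}) ∩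
          ((fun p : V × V => (e.S k p.2, p.2)) ⁻¹' {p : V × V | R.Adj p.1 p.2}) := by
      ext p
      simp only [mem_union, mem_iUnion, mem_inter_iff, mem_preimage, mem_ofPred_eq]
      constructor
      · rintro (h | ⟨y, hy, hyp⟩)
        · exact Or.inl h
        · obtain ⟨k, hk⟩ := hl _ _ (hR hyp.symm)
          right
          refine ⟨k, ?_, ?_⟩
          · rw [hk]; exact hy
          · rw [hk]; exact hyp
      · rintro (h | ⟨k, h1, h2⟩)
        · exact Or.inl h
        · exact Or.inr ⟨_, h1, h2⟩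
    rw [this]
    refine ih.union (MeasurableSet.iUnion fun k => ?_)
    have m1 : Measurable fun p : V × V => (p.1, e.S k p.2) :=
      measurable_fst.prodMk ((e.meas k).comp measurable_snd)
    have m2 : Measurable fun p : V × V => (e.S k p.2, p.2) :=
      ((e.meas k).comp measurable_snd).prodMk measurable_snd
    exact (m1 ih).inter (m2 hm)

lemma meas_XN [StandardBorelSpace V] (hl : Lab e) {R : SimpleGraph V} (hR : R ≤ G)
    (hm : MeasurableSet {p : V × V | R.Adj p.1 p.2})
    (hd : ∀ j, MeasurableSet {x | dg R x = j}) (r N : ℕ) : MeasurableSet (XN R r N) := by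
  have hw : ∀ (w : List (Fin m)) (n : ℕ), MeasurableSet {x | wd e w x ∈ Bl R n x} := by
    intro w n
    have m1 : Measurable fun x : V => (x, wd e w x) :=
      measurable_id.prodMk (wd e w).measurable
    exact m1 (meas_Bl hl hR hm n)
  have : XN R r N = (⋂ w : List (Fin m), ({x | wd e w x ∈ Bl R N x}ᶜ ∪
      (wd e w) ⁻¹' {x | dg R x = r})) ∩ ⋃ w : List (Fin m), ({x | wd e w x ∈ Bl R (N + 1) x} ∩
      {x | wd e w x ∈ Bl R N x}ᶜ) := by
    ext x
    simp only [mem_inter_iff, mem_iInter, mem_iUnion, mem_union, mem_compl_iff, mem_preimage,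
      mem_ofPred_eq]
    constructor
    · rintro ⟨h1, h2⟩
      refine ⟨fun w => ?_, ?_⟩
      · by_cases hx : wd e w x ∈ Bl R N x
        · exact Or.inr (h1 _ hx)
        · exact Or.inl hx
      · by_contra hcon
        push Not at hcon
        apply h2
        refine Subset.antisymm ?_ (Bl_succ_sub R N x)
        intro y hy
        obtain ⟨w, -, rfl⟩ := Bl_word hl hR hy
        exact hcon w hy
    · rintro ⟨h1, w, h2, h3⟩
      refine ⟨fun y hy => ?_, fun h4 => ?_⟩
      · obtain ⟨w', -, rfl⟩ := Bl_word hl hR hy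
        rcases h1 w' with h | h
        · exact absurd hy h
        · exact h
      · rw [h4] at h2
        exact h3 h2
  rw [this]
  refine (MeasurableSet.iInter fun w => ?_).inter (MeasurableSet.iUnion fun w => ?_)
  · exact (hw w N).compl.union ((wd e w).measurable (hd r))
  · exact (hw w (N + 1)).inter (hw w N).compl

end meas

end UXX_

open UXX_

/-- B2 -/
theorem allUXX (h_MES : tMES.{u}) : tUXX.{u} := by
  intro V _ _ G m l e μ _ hl hinv r c ε hε
  obtain ⟨-, hR, hadj, -, -⟩ := h_MES V G m l e c hl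
  obtain ⟨hdg, -, hXX⟩ := hR (RG (toPC c)) (RG_le _) hadj
  have hf : ∀ x, ((RG (toPC c)).neighborSet x).Finite := fun x =>
    fin_of_le (RG_le _) (Lab.fin hl x)
  have hXN := meas_XN hl (RG_le (toPC c)) hadj hdg r
  have h1 : Tendsto (fun N : ℕ => μ (XN (RG (toPC c)) r N)) atTop
      (nhds (μ (XX (RG (toPC c)) r))) := by
    rw [XX_eq hf r]
    exact tendsto_measure_iInter_atTop (fun N => (hXN N).nullMeasurableSet)
      (XN_anti _ r) ⟨0, measure_ne_top _ _⟩
  have h2 : Tendsto (fun N : ℕ => μ.real (XN (RG (toPC c)) r N)) atTop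
      (nhds (μ.real (XX (RG (toPC c)) r))) :=
    (ENNReal.tendsto_toReal (measure_ne_top _ _)).comp h1
  have h3 : ∀ᶠ N : ℕ in atTop, μ.real (XN (RG (toPC c)) r N) <
      μ.real (XX (RG (toPC c)) r) + ε / 2 := h2.eventually (gt_mem_nhds (by linarith))
  obtain ⟨N, hN⟩ := h3.exists
  have hsub : XX (RG (toPC c)) r ⊆ XN (RG (toPC c)) r N := by
    rw [XX_eq hf r]
    exact iInter_subset _ N
  have h4 : μ.real (XN (RG (toPC c)) r N \ XX (RG (toPC c)) r) < ε / 2 := by
    rw [measureReal_sdiff hsub (hXX r)]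
    linarith
  classical
  have hfin : {w : List (Fin m) | w.length ≤ N}.Finite := List.finite_length_le _ _
  refine ⟨ε / (2 * (hfin.toFinset.card + 1)), by positivity, fun c' hd => ?_⟩
  set D : Set V := {x | ∃ k, c'.S k x ≠ c.S k x} with hD
  have hDle : μ.real D ≤ PCol.dst μ c c' := by
    have hDs : D ⊆ ⋃ k ∈ (Finset.univ : Finset (Fin l)), {x | c.S k x ≠ c'.S k x} := by
      rintro x ⟨k, hk⟩
      simp only [Finset.mem_univ, iUnion_true, mem_iUnion]
      exact ⟨k, hk.symm⟩
    refine (measureReal_mono hDs (measure_ne_top _ _)).trans ?_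
    exact measureReal_biUnion_finset_le _ _
  have hXX' : XX (RG (toPC c')) r ⊆ XN (RG (toPC c')) r N := by
    rw [XX_eq (fun x => fin_of_le (RG_le _) (Lab.fin hl x)) r]
    exact iInter_subset _ N
  have h5 : XX (RG (toPC c')) r \ XX (RG (toPC c)) r ⊆
      (XN (RG (toPC c)) r N \ XX (RG (toPC c)) r) ∪
        {x | ∃ b ∈ D, ∃ w ∈ hfin.toFinset, wd e w b = x} := by
    rintro x ⟨hx, hnx⟩
    by_cases hex : ∀ y ∈ Bl (RG (toPC c)) N x, ∀ k, c'.S k y = c.S k y
    · left
      exact ⟨XN_congr (c := toPC c) (cb := toPC c') hex (hXX' hx), hnx⟩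
    · right
      push Not at hex
      obtain ⟨y, hy, k, hk⟩ := hex
      obtain ⟨w, hw, rfl⟩ := Bl_word hl (RG_le _) hy
      refine ⟨wd e w x, ⟨k, hk⟩, w.reverse, ?_, wd_reverse e w x⟩
      rw [Finite.mem_toFinset]
      show w.reverse.length ≤ N
      rw [List.length_reverse]
      exact hw
  have h6 := (measureReal_mono h5 (measure_ne_top μ _)).trans (measureReal_union_le _ _)
  have h7 := real_region_le hinv e hfin.toFinset D
  have hd0 : 0 ≤ PCol.dst μ c c' := PCol.dst_nonneg c c'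
  have h8 : (hfin.toFinset.card : ℝ) * μ.real D ≤ hfin.toFinset.card * PCol.dst μ c c' :=
    mul_le_mul_of_nonneg_left hDle (Nat.cast_nonneg _)
  have h9 : (2 * ((hfin.toFinset.card : ℝ) + 1)) * PCol.dst μ c c' < ε := by
    rw [lt_div_iff₀ (by positivity)] at hd
    linarith
  nlinarith

end Pool.Agent.MEO
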