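import Pool.Agent.MEO.Targets
import Pool.Agent.MEO.Base

set_option autoImplicit false

/-! Vanishing sets of places which meet every component. -/

namespace Pool.Agent.MEO

open Pool.Agent.MEC Pool.Agent.MEP MeasureTheory Set Filter
open scoped ENNReal

universe u

namespace VAN_

variable {V : Type u} [MeasurableSpace V] {G : SimpleGraph V} {m : ℕ}

/-- points of `Z` at which `f` is minimal up to `δ` in their class -/
def JJ (e : PCol G m) (R : SimpleGraph V) (Z : Set V) (f : V → ℝ) (δ : ℝ) : Set V :=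
  {x | x ∈ Z ∧ ∀ w : List (Fin m), wd e w x ∈ Z → R.Reachable x (wd e w x) →
    f x ≤ f (wd e w x) + δ}

variable {e : PCol G m} {R : SimpleGraph V} {Z : Set V} {f : V → ℝ}

lemma meas_JJ (hf : Measurable f) (hR : MeasurableSet {p : V × V | R.Reachable p.1 p.2})
    (hZ : MeasurableSet Z) (δ : ℝ) : MeasurableSet (JJ e R Z f δ) := by
  have e1 : JJ e R Z f δ = Z ∩ ⋂ w : List (Fin m), {x | wd e w x ∈ Z →
      R.Reachable x (wd e w x) → f x ≤ f (wd e w x) + δ} := by
    ext x
    simp only [JJ, mem_ofPred_eq, mem_inter_iff, mem_iInter]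
  rw [e1]
  refine hZ.inter (MeasurableSet.iInter fun w => ?_)
  have hw : Measurable (wd e w) := (wd e w).measurable
  have h1 : MeasurableSet {x | wd e w x ∈ Z} := hw hZ
  have h2 : MeasurableSet {x | R.Reachable x (wd e w x)} :=
    (measurable_id.prodMk hw) hR
  have h3 : MeasurableSet {x | f x ≤ f (wd e w x) + δ} :=
    measurableSet_le hf ((hf.comp hw).add_const δ)
  have e2 : {x | wd e w x ∈ Z → R.Reachable x (wd e w x) → f x ≤ f (wd e w x) + δ} =
      {x | wd e w x ∈ Z}ᶜ ∪ ({x | R.Reachable x (wd e w x)}ᶜ ∪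
        {x | f x ≤ f (wd e w x) + δ}) := by
    ext x
    simp only [mem_ofPred_eq, mem_union, mem_compl_iff]
    tauto
  rw [e2]
  exact h1.compl.union (h2.compl.union h3)

lemma JJ_mono {δ δ' : ℝ} (h : δ ≤ δ') : JJ e R Z f δ ⊆ JJ e R Z f δ' := by
  rintro x ⟨h1, h2⟩
  exact ⟨h1, fun w h3 h4 => (h2 w h3 h4).trans (by linarith)⟩

lemma JJ_meets (hf : ∀ x, 0 ≤ f x) {δ : ℝ} (hδ : 0 < δ) {x : V} (hx : x ∈ Z) :
    ∃ y ∈ JJ e R Z f δ, R.Reachable x y := by
  set S := f '' {y | y ∈ Z ∧ R.Reachable x y} with hS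
  have hne : S.Nonempty := ⟨f x, x, ⟨hx, SimpleGraph.Reachable.rfl⟩, rfl⟩
  have hbd : BddBelow S := ⟨0, by rintro _ ⟨y, -, rfl⟩; exact hf y⟩
  obtain ⟨_, ⟨y, ⟨hy1, hy2⟩, rfl⟩, hlt⟩ := exists_lt_of_csInf_lt hne
    (show sInf S < sInf S + δ by linarith)
  refine ⟨y, ⟨hy1, fun w h1 h2 => ?_⟩, hy2⟩
  have h3 : sInf S ≤ f (wd e w y) := csInf_le hbd ⟨_, ⟨h1, hy2.trans h2⟩, rfl⟩
  linarith

lemma JJ_unique (hl : Lab e) (hR : R ≤ G) (hf : Function.Injective f) {x y : V}
    (hx : ∀ n : ℕ, x ∈ JJ e R Z f (1 / ((n : ℝ) + 1)))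
    (hy : ∀ n : ℕ, y ∈ JJ e R Z f (1 / ((n : ℝ) + 1))) (h : R.Reachable x y) : x = y := by
  have key : ∀ x y, (∀ n : ℕ, x ∈ JJ e R Z f (1 / ((n : ℝ) + 1))) →
      (∀ n : ℕ, y ∈ JJ e R Z f (1 / ((n : ℝ) + 1))) → R.Reachable x y → f x ≤ f y := by
    intro x y hx hy h
    obtain ⟨w, rfl⟩ := Cm_of_reachable hl hR h
    refine le_of_forall_pos_le_add fun ε hε => ?_
    obtain ⟨n, hn⟩ := exists_nat_one_div_lt hε
    exact ((hx n).2 w (hy n).1 h).trans (by linarith)
  exact hf (le_antisymm (key x y hx hy h) (key y x hy hx h.symm))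

end VAN_

open VAN_ in
theorem allVAN (h_MTP : tMTP.{u}) (h_MES : tMES.{u}) : tVAN.{u} := by
  intro V _ _ G m e μ _ hl hinv R hR hRm Z hZ hinf ε hε
  obtain ⟨-, hres, -⟩ := h_MES V G m m e e hl
  obtain ⟨-, hreach, -⟩ := hres R hR hRm
  -- a bounded injective measurable function
  have hemb := measurableEmbedding_embeddingReal V
  set f : V → ℝ := fun x => Real.arctan (embeddingReal V x) + Real.pi / 2 with hf
  have hfm : Measurable f := (Real.measurable_arctan.comp hemb.measurable).add_const _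
  have hf0 : ∀ x, 0 ≤ f x := fun x => by
    have := Real.neg_pi_div_two_lt_arctan (embeddingReal V x)
    simp only [hf]
    linarith
  have hfi : Function.Injective f := by
    intro x y hxy
    simp only [hf, add_left_inj] at hxy
    exact hemb.injective (Real.arctan_injective hxy)
  set J : ℕ → Set V := fun n => JJ e R Z f (1 / ((n : ℝ) + 1)) with hJ
  have hJm : ∀ n, MeasurableSet (J n) := fun n => meas_JJ hfm hreach hZ _
  have hJa : Antitone J := by
    intro n k hnk
    refine JJ_mono ?_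
    apply one_div_le_one_div_of_le (by positivity)
    have : (n : ℝ) ≤ k := by exact_mod_cast hnk
    linarith
  -- the intersection is null
  set N := ⋂ n, J n with hN
  have hNm : MeasurableSet N := MeasurableSet.iInter hJm
  have hN0 : μ N = 0 := by
    set K : Set (V × V) := {p | p.1 ∈ N ∧ R.Reachable p.1 p.2} with hK
    have hKm : MeasurableSet K := (measurable_fst hNm).inter hreach
    obtain ⟨h1, h2, h3⟩ := h_MTP V G m e μ hinv K hKm
      (fun p hp => Cm_of_reachable hl hR hp.2)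
    by_contra hne
    have h4 : ∫⁻ x, ({y | (x, y) ∈ K}.encard : ℝ≥0∞) ∂μ = ⊤ := by
      rw [eq_top_iff]
      calc (⊤ : ℝ≥0∞) = ⊤ * μ N := (ENNReal.top_mul hne).symm
        _ = ∫⁻ _ in N, (⊤ : ℝ≥0∞) ∂μ := (setLIntegral_const N ⊤).symm
        _ ≤ ∫⁻ x in N, ({y | (x, y) ∈ K}.encard : ℝ≥0∞) ∂μ := by
            refine setLIntegral_mono h1 fun x hx => ?_
            have hxZ : x ∈ Z := (mem_iInter.1 hx 0).1
            have e1 : {y | (x, y) ∈ K} = {y | R.Reachable x y} := by
              ext y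
              simp only [hK, mem_ofPred_eq, hx, true_and]
            rw [e1, (hinf x hxZ).encard_eq]
            simp
        _ ≤ _ := setLIntegral_le_lintegral _ _
    have h5 : ∫⁻ y, ({x | (x, y) ∈ K}.encard : ℝ≥0∞) ∂μ ≤ μ univ := by
      calc _ ≤ ∫⁻ _, (1 : ℝ≥0∞) ∂μ := by
            refine lintegral_mono fun y => ?_
            have e2 : {x | (x, y) ∈ K}.encard ≤ 1 := by
              rw [encard_le_one_iff]
              intro a b ha hb
              exact JJ_unique hl hR hfi (fun n => mem_iInter.1 ha.1 n)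
                (fun n => mem_iInter.1 hb.1 n) (ha.2.trans hb.2.symm)
            simpa using ENat.toENNReal_le.2 e2
        _ = μ univ := by simp
    rw [← h3, h4] at h5
    exact (measure_lt_top μ univ).ne (top_le_iff.1 h5)
  have htend : Tendsto (fun n => μ (J n)) atTop (nhds 0) := by
    have := tendsto_measure_iInter_atTop (μ := μ) (s := J)
      (fun n => (hJm n).nullMeasurableSet) hJa ⟨0, measure_ne_top _ _⟩
    rwa [← hN, hN0] at this
  have htend' : Tendsto (fun n => μ.real (J n)) atTop (nhds 0) := by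
    have := (ENNReal.tendsto_toReal ENNReal.zero_ne_top).comp htend
    simpa [Measure.real, Function.comp_def] using this
  obtain ⟨n, hn⟩ := ((tendsto_order.1 htend').2 ε hε).exists
  refine ⟨J n, fun x hx => hx.1, hJm n, hn, fun x hx => ?_⟩
  exact JJ_meets hf0 (by positivity) hx

end Pool.Agent.MEO
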