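import Pool.Agent.MEO.Base
import Pool.Agent.MEO.LAB
import Pool.Agent.MEO.MTP
import Pool.Agent.MEO.SPS
import Pool.Agent.MEO.COD
import Pool.Agent.MEO.BAI
import Pool.Agent.MEO.BB
import Pool.Agent.MEO.ONE
import Pool.Agent.MEO.MES
import Pool.Agent.MEO.CMP
import Pool.Agent.MEO.UST
import Pool.Agent.MEO.UXX
import Pool.Agent.MEO.GEN
import Pool.Agent.MEO.TAIL
import Pool.Agent.MEO.VAN
import Pool.Agent.MEO.SERVE
import Pool.Agent.MEO.OPS
import Pool.Agent.MEO.REAL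
import Pool.Agent.MEO.PART
import Pool.Agent.MEO.CNT
import Pool.Agent.MEO.CLEAN
import Pool.Agent.MEO.AUG
import Pool.Agent.MEO.MON
import Pool.Agent.MEO.HKC
import Pool.Agent.MEO.LIM
import Pool.Agent.MEO.HKM
import Pool.Agent.MEO.DKP
import Pool.Agent.MEO.BDY
import Pool.Agent.MEO.ORB
import Pool.Agent.MEO.MAT
import Pool.Agent.MEO.CLIMB
import Pool.Agent.MEO.CYC
import Pool.Agent.MEO.MAIN

set_option autoImplicit false

/-! Assembly of the project MEO. -/

namespace Pool.Agent.MEO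

universe u

theorem fin_MES : tMES.{u} := allMES
theorem fin_SPS : tSPS.{u} := allSPS allBB
theorem fin_COD : tCOD.{u} := allCOD fin_MES
theorem fin_UXX : tUXX.{u} := allUXX fin_MES
theorem fin_GEN : tGEN.{u} := allGEN allBAI allCMP allUST fin_UXX fin_MES
theorem fin_TAIL : tTAIL.{u} := allTAIL fin_SPS fin_COD allONE fin_MES
theorem fin_VAN : tVAN.{u} := allVAN allMTP fin_MES
theorem fin_SERVE : tSERVE.{u} := allSERVE fin_SPS fin_COD fin_VAN fin_MES
theorem fin_REAL : tREAL.{u} := allREAL allOPS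
theorem fin_CNT : tCNT.{u} := allCNT allMTP fin_MES
theorem fin_CLEAN : tCLEAN.{u} :=
  allCLEAN fin_GEN fin_TAIL fin_SERVE fin_REAL allPART fin_CNT fin_MES
theorem fin_HKC : tHKC.{u} := allHKC allMTP fin_MES
theorem fin_UNC : tUNC.{u} := allUNC allMTP fin_MES
theorem fin_LIM : tLIM.{u} := allLIM fin_HKC fin_MES
theorem fin_HKM : tHKM.{u} :=
  allHKM allBB fin_LIM fin_UNC allAUG allMON fin_COD fin_SPS fin_MES
theorem fin_DKP : tDKP.{u} := allDKP fin_MES
theorem fin_ORB : tORB.{u} :=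
  allORB fin_HKM fin_HKC fin_GEN fin_TAIL allONE allAUG fin_DKP allBDY fin_MES
theorem fin_CLIMB : tCLIMB.{u} := allCLIMB fin_ORB allMAT fin_MES
theorem fin_MAIN : tMAIN.{u} := allMAIN allLAB fin_CLEAN fin_CLIMB fin_MES

end Pool.Agent.MEO
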