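import Pool.Agent.MEP.GLUE

set_option autoImplicit false

/-! MP_fff3e1_lc: invariant measures, graphs without odd cycles, every `Δ`.  Definitions.
Proofs: Blueprint.lean.txt.  `PC`, `toPC`, `al`, `NS`, `Clean`, `Inv`, `GLUE_` are in
Pool/Agent/MEP (Defs, Walk, Ops, GLUE), `PCol`, `dst`, `lim`, `ofInvol` in Pool/Agent/MEC. -/

namespace Pool.Agent.MEO

open MeasureTheory Set Filter
open scoped ENNReal
open Pool.Agent.MEC
open Pool.Agent.MEP

universe u

section plain

variable {V : Type u} {G : SimpleGraph V} {l : ℕ}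

/-! ### Subgraphs -/

/-- the uncoloured edges -/
def RG (c : PC G l) : SimpleGraph V where
  Adj x y := G.Adj x y ∧ ∀ k, c.S k x ≠ y
  symm := ⟨by
    rintro x y ⟨h1, h2⟩
    exact ⟨h1.symm, fun k hk => h2 k (by rw [← hk, c.invol])⟩⟩
  loopless := ⟨fun x h => h.1.ne rfl⟩

/-- degree -/
noncomputable def dg (R : SimpleGraph V) (x : V) : ℕ := (R.neighborSet x).ncard

/-- remove an edge -/
def del (R : SimpleGraph V) (a b : V) : SimpleGraph V where
  Adj x y := R.Adj x y ∧ ¬ ((x = a ∧ y = b) ∨ (x = b ∧ y = a))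
  symm := ⟨by
    rintro x y ⟨h1, h2⟩
    exact ⟨h1.symm, fun h => h2 (by tauto)⟩⟩
  loopless := ⟨fun x h => h.1.ne rfl⟩

/-- insert an edge -/
def ins (R : SimpleGraph V) (a v : V) : SimpleGraph V where
  Adj x y := R.Adj x y ∨ (x ≠ y ∧ ((x = a ∧ y = v) ∨ (x = v ∧ y = a)))
  symm := ⟨by
    rintro x y (h | ⟨h1, h2⟩)
    · exact Or.inl h.symm
    · exact Or.inr ⟨h1.symm, by tauto⟩⟩
  loopless := ⟨by
    rintro x (h | ⟨h, -⟩)
    · exact h.ne rfl
    · exact h rfl⟩

/-- infinite components all of whose vertices have degree `r` -/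
def XX (R : SimpleGraph V) (r : ℕ) : Set V :=
  {x | {y | R.Reachable x y}.Infinite ∧ ∀ y, R.Reachable x y → dg R y = r}

/-- the walk of `s` and `t` is infinite in both directions (no stall, not periodic) -/
def Bad (s t : V → V) : Set V := {x | ∀ N, x ∈ Clean s t N}

/-! ### Finite modifications -/

/-- `cb` differs from `c` at finitely many points, all in `C` -/
structure FM (c cb : PC G l) (C : Set V) : Prop where
  fin : {x | ∃ k, cb.S k x ≠ c.S k x}.Finite
  sub : ∀ x k, cb.S k x ≠ c.S k x → x ∈ C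

/-- a condition on the stars of the points of `C` -/
def Sat (Q : V → (Fin l → V) → Prop) (c : PC G l) (C : Set V) : Prop :=
  ∀ x ∈ C, Q x fun k => c.S k x

/-- at most `r` edges at `x` are uncoloured; `Sat (QR G r) c C` says that
`dg (RG c) x ≤ r` for all `x ∈ C` (by `Iff.rfl`) -/
def QR (G : SimpleGraph V) (r : ℕ) (x : V) (s : Fin l → V) : Prop :=
  {y | G.Adj x y ∧ ∀ k, s k ≠ y}.ncard ≤ r

/-- on `C`, every walk of `S h`, `S g` which starts at a vertex missing `g` stops -/
def SK (c : PC G l) (C : Set V) : Prop := ∀ g h : Fin l, g ≠ h → ∀ v ∈ C, c.S g v = v →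
  ∃ n, al (c.S h) (c.S g) (n + 1) v = al (c.S h) (c.S g) n v

/-- standing assumptions of the pointwise statements; `C` is closed under `G` -/
structure PX (G : SimpleGraph V) (Δ : ℕ) (C : Set V) : Prop where
  cl : ∀ x ∈ C, ∀ y, G.Adj x y → y ∈ C
  fin : ∀ x, (G.neighborSet x).Finite
  deg : ∀ x, dg G x ≤ Δ
  ind : ∀ x y, G.Adj x y → dg G x < Δ ∨ dg G y < Δ
  bip : ∃ χ : V → Bool, ∀ x y, G.Adj x y → χ x ≠ χ y

/-- an exchange between `R` and its complement in `G` (degrees at most `l` in the complement):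
the edge `a v` replaces `a b`, or `z z'` leaves `R`, or `z z'` enters `R` -/
def Stp (G : SimpleGraph V) (l r : ℕ) (C : Set V) (R R' : SimpleGraph V) : Prop :=
  (∃ a ∈ C, ∃ v b, R.Adj a b ∧ G.Adj a v ∧ ¬ R.Adj a v ∧ dg R v < r ∧ dg G b < dg R b + l ∧
    R' = ins (del R a b) a v) ∨
  (∃ z ∈ C, ∃ z', R.Adj z z' ∧ dg G z < dg R z + l ∧ dg G z' < dg R z' + l ∧ R' = del R z z') ∨
  (∃ z ∈ C, ∃ z', G.Adj z z' ∧ ¬ R.Adj z z' ∧ dg R z < r ∧ dg R z' < r ∧ R' = ins R z z')

/-- `TS n true`: an exchange which adds an edge of `R` at `t` can be completed in at most `n`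
steps; `TS n false`: the same for an edge of the complement at `s` -/
def TS (G R : SimpleGraph V) (Δ l r : ℕ) (X : Set V) : ℕ → Bool → Set V
  | 0, true => {t | dg R t < r ∨ (t ∈ X ∧ dg G t = Δ)}
  | 0, false => {s | dg G s < dg R s + l}
  | n + 1, true => {t | t ∈ TS G R Δ l r X n true ∨ ∃ s ∈ TS G R Δ l r X n false, R.Adj t s}
  | n + 1, false => {s | s ∈ TS G R Δ l r X n false ∨
      ∃ t ∈ TS G R Δ l r X n true, G.Adj s t ∧ ¬ R.Adj s t}

/-! ### Matchings in bipartite graphs, the vertices of `L` have to be covered -/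

/-- right vertices from which a shortest alternating path to a free right vertex has at most
`n` steps -/
def EL (K : SimpleGraph V) (L : Set V) (s : V → V) : ℕ → Set V
  | 0 => {y | y ∉ L ∧ s y = y}
  | n + 1 => {y | y ∉ L ∧ (s y = y ∨ ∃ y', K.Adj (s y) y' ∧ y' ∈ EL K L s n)}

/-- `s'` changes `s` only along shortest alternating paths -/
def HK (K : SimpleGraph V) (L : Set V) (s s' : V → V) (y : V) : Prop :=
  y ∉ L → s' y ≠ s y → s' y ≠ y ∧ (∃ n, y ∈ EL K L s n) ∧
    ∀ y', K.Adj (s' y) y' → ∀ n, y' ∈ EL K L s n → y ∈ EL K L s n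

/-! ### The double cover -/

/-- edges of `R` between the left copy of a point of `F` and a right copy; `(x, false)` is the
left copy of `x` -/
def DK (R : SimpleGraph V) (F : Set V) : SimpleGraph (V × Bool) where
  Adj p q := R.Adj p.1 q.1 ∧ p.2 ≠ q.2 ∧ (p.2 = false → p.1 ∈ F) ∧ (q.2 = false → q.1 ∈ F)
  symm := ⟨fun _ _ h => ⟨h.1.symm, h.2.1.symm, h.2.2.2, h.2.2.1⟩⟩
  loopless := ⟨fun _ h => h.2.1 rfl⟩

/-- the same with the edges joining the two copies of each point -/
def DP (R : SimpleGraph V) (F : Set V) : SimpleGraph (V × Bool) where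
  Adj p q := (DK R F).Adj p q ∨ (p.1 = q.1 ∧ p.2 ≠ q.2)
  symm := ⟨by
    rintro p q (h | ⟨h1, h2⟩)
    · exact Or.inl h.symm
    · exact Or.inr ⟨h1.symm, h2.symm⟩⟩
  loopless := ⟨by
    rintro p (h | ⟨-, h⟩)
    · exact h.ne rfl
    · exact h rfl⟩

end plain

section measurable

variable {V : Type u} [MeasurableSpace V] {G : SimpleGraph V} {l m : ℕ}

/-- `e` lists all edges of `G` -/
def Lab (e : PCol G m) : Prop := ∀ x y, G.Adj x y → ∃ k, e.S k x = y

/-- words in the involutions `e.S k` -/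
noncomputable def wd (e : PCol G m) : List (Fin m) → (V ≃ᵐ V)
  | [] => MeasurableEquiv.refl V
  | k :: w => (ofInvol (e.S k) (e.meas k) (e.invol k)).trans (wd e w)

/-- the component of `b` -/
def Cm (e : PCol G m) (b : V) : Set V := {x | ∃ w, wd e w b = x}

/-- `c` is a state satisfying `Q`, and small changes of `c` satisfying `Q` do not remove a
substantial part of the bad strands or of the bad components -/
structure Gnc (μ : Measure V) (Q : V → (Fin l → V) → Prop) (r : ℕ) (c : PCol G l) : Prop where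
  sat : ∀ᵐ x ∂μ, Q x fun k => c.S k x
  str : ∀ g h : Fin l, g ≠ h → ∀ ε : ℝ, 0 < ε → ∃ δ : ℝ, 0 < δ ∧ ∀ c' : PCol G l,
    (∀ᵐ x ∂μ, Q x fun k => c'.S k x) → PCol.dst μ c c' < δ →
    μ.real (Bad (c.S g) (c.S h) \ Bad (c'.S g) (c'.S h)) < ε
  xx : ∀ ε : ℝ, 0 < ε → ∃ δ : ℝ, 0 < δ ∧ ∀ c' : PCol G l,
    (∀ᵐ x ∂μ, Q x fun k => c'.S k x) → PCol.dst μ c c' < δ →
    μ.real (XX (RG (toPC c)) r \ XX (RG (toPC c')) r) < ε

/-! ### Codes of finite modifications -/

/-- a finite set of words and the new values of the colours at these words -/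
def Cd (m l : ℕ) : Type := Σ W : Finset (List (Fin m)), (W → Fin l → Option W)

/-- the code `z` describes a colouring near `b` -/
def Vld (e : PCol G m) (c : PCol G l) (z : Cd m l) : Set V :=
  {b | GLUE_.Val G c.S (fun w : z.1 => (wd e w : V → V)) z.2 b}

open Classical in
/-- the modification of `c` near `b` with code `z` -/
noncomputable def cbf (e : PCol G m) (c : PCol G l) (z : Cd m l) (b : V) : PC G l :=
  if h : b ∈ Vld e c z then
    GLUE_.glP (c := toPC c) (φ := fun w : z.1 => (wd e w : V → V)) (f := z.2) (B := {b})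
      (by rintro x rfl; exact h) (GLUE_.Sep_single _ _ b)
  else toPC c

/-- the points which can be changed -/
def Rg (e : PCol G m) (z : Cd m l) (b : V) : Set V := {x | ∃ w ∈ z.1, wd e w b = x}

/-- option number `κ` at the place `p` with partner `q`: edges of `RG c` inside `X` off `p, q`
survive, and the neighbour number `κ` of `p` and of `q` gets access to a vertex with room -/
structure Opt (e : PCol G m) (c : PC G l) (r : ℕ) (X : Set V) (p q : V) (κ : Fin m)
    (cb : PC G l) : Prop where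
  keep : ∀ x y, x ∈ X → y ∈ X → x ≠ p → x ≠ q → y ≠ p → y ≠ q → (RG c).Adj x y →
    (RG cb).Adj x y
  room : ∀ x, (x = p ∨ x = q) → (RG c).Adj x (e.S κ x) →
    ∃ z, (z = e.S κ x ∨ (RG cb).Adj (e.S κ x) z) ∧ dg (RG cb) z < r

/-- improvement of matchings (colour `0`) -/
structure LeM (ν : Measure V) (L : Set V) (M M' : PCol G 1) : Prop where
  lev : ∀ᵐ y ∂ν, ∀ j, y ∈ EL G L (M'.S 0) j → y ∈ EL G L (M.S 0) j
  chg : ∀ᵐ y ∂ν, y ∉ L → M'.S 0 y ≠ M.S 0 y → (∃ j, y ∈ EL G L (M.S 0) j) ∧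
    ∀ j, y ∈ EL G L (M'.S 0) j → ∃ i < j, y ∈ EL G L (M.S 0) i
  cov : ∀ᵐ x ∂ν, x ∈ L → M.S 0 x ≠ x → M'.S 0 x ≠ x

/-- the measure on the double cover -/
noncomputable def dbl (μ : Measure V) : Measure (V × Bool) :=
  μ.map (fun x => (x, false)) + μ.map (fun x => (x, true))

/-- standing assumptions on a bipartite graph `K` all of whose vertices in `L` have degree `r` -/
structure BK (K : SimpleGraph V) (e : PCol K m) (ν : Measure V) (L : Set V) (r : ℕ) : Prop where
  lab : Lab e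
  inv : Inv K ν
  mL : MeasurableSet L
  bip : ∀ x y, K.Adj x y → (x ∈ L ↔ y ∉ L)
  rpos : 1 ≤ r
  dL : ∀ᵐ x ∂ν, x ∈ L → dg K x = r
  dR : ∀ᵐ y ∂ν, y ∉ L → dg K y ≤ r

end measurable

end Pool.Agent.MEO
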