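import Pool.Agent.MEO.Targets

set_option autoImplicit false

/-! MP_fff3e1_lc, project MEO: sequences of exchanges can be carried out (tREAL). -/

namespace Pool.Agent.MEO

open Pool.Agent.MEC Pool.Agent.MEP MeasureTheory Set Filter

universe u

namespace REAL_

variable {V : Type u} {G : SimpleGraph V} {l : ℕ}

theorem FM_refl (c : PC G l) (C : Set V) : FM c c C where
  fin := by
    have h : {x | ∃ k, c.S k x ≠ c.S k x} = ∅ := by
      ext x
      simp
    rw [h]
    exact finite_empty
  sub := fun x k h => absurd rfl h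

theorem FM_trans {c d e : PC G l} {C : Set V} (h1 : FM c d C) (h2 : FM d e C) : FM c e C where
  fin := by
    refine (h1.fin.union h2.fin).subset ?_
    rintro x ⟨k, hk⟩
    by_cases h : d.S k x = c.S k x
    · exact Or.inr ⟨k, fun h' => hk (h'.trans h)⟩
    · exact Or.inl ⟨k, h⟩
  sub := by
    intro x k hk
    by_cases h : d.S k x = c.S k x
    · exact h2.sub x k fun h' => hk (h'.trans h)
    · exact h1.sub x k h

end REAL_

open REAL_ in
theorem allREAL (h_OPS : tOPS.{u}) : tREAL.{u} := by
  intro V G Δ l r C hPX c hsat hSK R' hR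
  induction hR with
  | refl => exact ⟨c, FM_refl c C, hsat, rfl⟩
  | tail _ hstep ih =>
    obtain ⟨cb, hFM, hsat', hRG⟩ := ih
    rw [← hRG] at hstep
    obtain ⟨cb2, hFM2, hsat2, hRG2⟩ :=
      h_OPS V G Δ l r C hPX cb hsat' (hSK cb hFM hsat') _ hstep
    exact ⟨cb2, FM_trans hFM hFM2, hsat2, hRG2⟩

end Pool.Agent.MEO
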